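import Mathlib

/-!
# Abel summation with geometric weights in `ℝ≥0∞`
-/

namespace Pool.Agent.LT2

open Set Filter
open scoped ENNReal

lemma tsum_geometric_shift {q : ℝ≥0∞} (hq1 : q < 1) (k : ℕ) :
    (1 - q) * ∑' j : ℕ, (if k ≤ j then q ^ j else 0) = q ^ k := by
  have h1 : ∑' j : ℕ, (if k ≤ j then q ^ j else 0) = ∑' l : ℕ, q ^ (k + l) := by
    rw [← (add_right_injective k).tsum_eq]
    · apply tsum_congr; intro l
      rw [if_pos (by omega)]
    · intro j hj
      rw [Function.mem_support, ne_eq, ite_eq_right_iff, Classical.not_imp] at hj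
      exact ⟨j - k, by simp only; omega⟩
  rw [h1]
  simp only [pow_add]
  rw [ENNReal.tsum_mul_left, ENNReal.tsum_geometric, mul_left_comm, ENNReal.mul_inv_cancel, mul_one]
  · exact (tsub_pos_of_lt hq1).ne'
  · exact (lt_of_le_of_lt tsub_le_self ENNReal.one_lt_top).ne

/-- layer-cake bound -/
lemma abel_layer {q e0 : ℝ≥0∞} (hq0 : q ≠ 0) (hq1 : q < 1) (he0 : e0 ≠ ⊤) {x : ℕ → ℝ≥0∞} {N : ℕ → ℕ}
    (hx0 : ∀ n, x n ≤ e0) (hx : ∀ i n, N (i + 1) ≤ n → x n ≤ e0 * q ^ i) :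
    ∑' n, x n ≤ (q⁻¹) ^ 2 * ((1 - q) * ∑' j, e0 * q ^ j * (N j : ℝ≥0∞)) := by
  have hqt : q ≠ ⊤ := (hq1.trans ENNReal.one_lt_top).ne
  have hlim : Tendsto (fun i : ℕ => e0 * q ^ i) atTop (nhds 0) := by
    have := ENNReal.Tendsto.const_mul (a := e0) (ENNReal.tendsto_pow_atTop_nhds_zero_of_lt_one hq1) (Or.inr he0)
    rwa [mul_zero] at this
  have hanti : ∀ i j : ℕ, i ≤ j → e0 * q ^ j ≤ e0 * q ^ i := by
    intro i j h
    gcongr 1
    exact pow_le_pow_right_of_le_one' hq1.le h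
  have key : ∀ n, x n ≤ (1 - q) * ∑' i, e0 * q ^ i * (if n < N (i + 2) then 1 else 0) := by
    intro n
    by_cases hn : x n = 0
    · rw [hn]; exact zero_le
    have hex : ∃ i, e0 * q ^ (i + 1) < x n := by
      have h1 := (hlim.comp (tendsto_add_atTop_nat 1)).eventually (gt_mem_nhds (pos_iff_ne_zero.2 hn))
      exact h1.exists
    classical
    set i0 := Nat.find hex with hi0
    have h1 : e0 * q ^ (i0 + 1) < x n := Nat.find_spec hex
    have h2 : x n ≤ e0 * q ^ i0 := by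
      rcases Nat.eq_zero_or_pos i0 with h | h
      · rw [h, pow_zero, mul_one]; exact hx0 n
      · have h3 := Nat.find_min hex (show i0 - 1 < i0 by omega)
        rw [Nat.sub_add_cancel h] at h3
        exact not_lt.1 h3
    have h3 : ∀ i, i0 ≤ i → n < N (i + 2) := by
      intro i hi
      by_contra hc
      have h4 := hx (i + 1) n (not_lt.1 hc)
      have h5 := hanti (i0 + 1) (i + 1) (by omega)
      exact absurd (h4.trans h5) (not_le.2 h1)
    refine h2.trans ?_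
    rw [← tsum_geometric_shift hq1 i0, mul_left_comm, ← ENNReal.tsum_mul_left (a := e0)]
    refine mul_le_mul_right (ENNReal.tsum_le_tsum fun i => ?_) _
    by_cases h : i0 ≤ i
    · rw [if_pos h, if_pos (h3 i h), mul_one]
    · rw [if_neg h, mul_zero]; exact zero_le
  calc ∑' n, x n ≤ ∑' n, (1 - q) * ∑' i, e0 * q ^ i * (if n < N (i + 2) then 1 else 0) :=
        ENNReal.tsum_le_tsum key
    _ = (1 - q) * ∑' i, e0 * q ^ i * (N (i + 2) : ℝ≥0∞) := by
        rw [ENNReal.tsum_mul_left, ENNReal.tsum_comm]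
        congr 1
        apply tsum_congr; intro i
        rw [ENNReal.tsum_mul_left]
        congr 1
        rw [tsum_eq_sum (s := Finset.range (N (i + 2)))]
        · rw [Finset.sum_congr rfl (g := fun _ => (1 : ℝ≥0∞))]
          · simp
          · intro n hn
            rw [if_pos (Finset.mem_range.1 hn)]
        · intro n hn
          rw [if_neg (by simpa using hn)]
    _ = (q⁻¹) ^ 2 * ((1 - q) * ∑' i, e0 * q ^ (i + 2) * (N (i + 2) : ℝ≥0∞)) := by
        rw [mul_left_comm ((q⁻¹) ^ 2), ← ENNReal.tsum_mul_left (a := (q⁻¹) ^ 2)]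
        congr 1
        apply tsum_congr; intro i
        rw [← mul_assoc]
        congr 1
        calc e0 * q ^ i = e0 * q ^ i * ((q⁻¹ * q) ^ 2) := by
              rw [ENNReal.inv_mul_cancel hq0 hqt, one_pow, mul_one]
          _ = _ := by ring
    _ ≤ _ := by
        gcongr 2
        exact ENNReal.tsum_comp_le_tsum_of_injective (add_left_injective 2) (fun j => e0 * q ^ j * (N j : ℝ≥0∞))

/-- geometric Abel summation -/
lemma abel_sum {q : ℝ≥0∞} (hq1 : q < 1) (s : ℕ → ℝ≥0∞) :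
    (1 - q) * ∑' j : ℕ, q ^ j * ∑ κ ∈ Finset.range (j + 1), s κ = ∑' κ, q ^ κ * s κ := by
  have h1 : ∀ j : ℕ, q ^ j * ∑ κ ∈ Finset.range (j + 1), s κ =
      ∑' κ, (if κ ≤ j then q ^ j else 0) * s κ := by
    intro j
    rw [tsum_eq_sum (s := Finset.range (j + 1))]
    · rw [Finset.mul_sum]
      apply Finset.sum_congr rfl
      intro κ hκ
      rw [Finset.mem_range] at hκ
      rw [if_pos (by omega)]
    · intro κ hκ
      rw [Finset.mem_range] at hκ
      rw [if_neg (by omega), zero_mul]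
  simp only [h1]
  rw [ENNReal.tsum_comm, ← ENNReal.tsum_mul_left]
  apply tsum_congr; intro κ
  rw [ENNReal.tsum_mul_right, ← mul_assoc, tsum_geometric_shift hq1]

/-- the number of subdivisions -/
lemma exists_N {x ν : ℝ≥0∞} (hx : x ≠ ⊤) (hν0 : ν ≠ 0) (hνt : ν ≠ ⊤) :
    ∃ N : ℕ, 0 < N ∧ x ≤ ν * (N : ℝ≥0∞) ^ 2 ∧ (N : ℝ≥0∞) ^ 2 ≤ 1 + 4 * ν⁻¹ * x := by
  set X := x.toReal with hX
  set V := ν.toReal with hV
  have hV0 : 0 < V := ENNReal.toReal_pos hν0 hνt
  have hX0 : 0 ≤ X := ENNReal.toReal_nonneg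
  have hxX : x = ENNReal.ofReal X := (ENNReal.ofReal_toReal hx).symm
  have hνV : ν = ENNReal.ofReal V := (ENNReal.ofReal_toReal hνt).symm
  set r := Real.sqrt (X / V) with hr
  have hr0 : 0 ≤ r := Real.sqrt_nonneg _
  have hr2 : r ^ 2 = X / V := Real.sq_sqrt (by positivity)
  refine ⟨max 1 ⌈r⌉₊, by simp, ?_, ?_⟩
  · rw [hxX, hνV, ← ENNReal.ofReal_natCast, ← ENNReal.ofReal_pow (by positivity), ← ENNReal.ofReal_mul hV0.le]
    apply ENNReal.ofReal_le_ofReal
    have h1 : r ≤ (max 1 ⌈r⌉₊ : ℕ) := (Nat.le_ceil r).trans (by exact_mod_cast le_max_right _ _)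
    calc X = V * r ^ 2 := by rw [hr2]; field_simp
      _ ≤ _ := by gcongr
  · rw [hxX, hνV, ← ENNReal.ofReal_natCast, ← ENNReal.ofReal_pow (by positivity),
      ← ENNReal.ofReal_inv_of_pos hV0, show (4 : ℝ≥0∞) = ENNReal.ofReal 4 by norm_num,
      show (1 : ℝ≥0∞) = ENNReal.ofReal 1 by norm_num, ← ENNReal.ofReal_mul (by norm_num),
      ← ENNReal.ofReal_mul (by positivity), ← ENNReal.ofReal_add (by norm_num) (by positivity)]
    apply ENNReal.ofReal_le_ofReal
    have h4 : 4 * V⁻¹ * X = 4 * r ^ 2 := by rw [hr2]; field_simp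
    rw [h4]
    rcases le_or_gt r 1 with h | h
    · have h5 : ⌈r⌉₊ ≤ 1 := Nat.ceil_le.2 (by simpa using h)
      rw [max_eq_left h5]
      push_cast
      nlinarith
    · have h5 : 1 ≤ ⌈r⌉₊ := Nat.one_le_ceil_iff.2 (by linarith)
      rw [max_eq_right h5]
      have h6 := Nat.ceil_lt_add_one hr0
      have h7 : (⌈r⌉₊ : ℝ) ≤ 2 * r := by linarith
      have h8 : (0 : ℝ) ≤ ⌈r⌉₊ := Nat.cast_nonneg _
      nlinarith

end Pool.Agent.LT2
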