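import Pool.Agent.Lib.MP_50e96d_mp.Shift

/-!
# The multiscale system of a nice potential
-/

namespace Pool.Agent.LT2

open MeasureTheory Set Filter
open scoped ENNReal

/-- nice potentials: bounded, bounded away from zero on the support, boundedly supported -/
structure Nice (W : Plane → ℝ) : Prop where
  meas : Measurable W
  nonneg : ∀ x, 0 ≤ W x
  lower : ∃ w0 : ℝ, 0 < w0 ∧ ∀ x, W x ≠ 0 → w0 ≤ W x
  upper : ∃ w1 : ℝ, ∀ x, W x ≤ w1
  supp : ∃ B : ℝ, ∀ x, W x ≠ 0 → ‖x‖ ≤ B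

lemma floor_eq_of_fract {δ b y z : ℝ} (hb : 0 < b) (h1 : ¬ bad1 δ b y)
    (h : |z - y| < δ * b) : ⌊z / b⌋ = ⌊y / b⌋ := by
  unfold bad1 at h1
  push Not at h1
  obtain ⟨h2, h3⟩ := h1
  have hfr : Int.fract (y / b) = y / b - ⌊y / b⌋ := rfl
  rw [hfr] at h2 h3
  have h4 : |z / b - y / b| < δ := by
    rw [← sub_div, abs_div, abs_of_pos hb, div_lt_iff₀ hb]; exact h
  rw [abs_lt] at h4
  rw [Int.floor_eq_iff]
  constructor <;> linarith

theorem exists_setting {W : Plane → ℝ} (hW : Nice W) {f : Plane → ℝ≥0∞} (hf : Measurable f)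
    {Λ A J : ℕ} {thr : ℝ≥0∞} {δ : ℝ} {ψ : ℕ → ℝ≥0∞} (hΛ : 2 ≤ Λ) (hA : 1 ≤ A) (hδ : 0 < δ)
    (hδ1 : δ ≤ 1) (hψ1 : ∀ j : ℕ, ((j + 1 : ℕ) : ℝ≥0∞) ≤ ψ j) (hψt : ∀ j, ψ j ≠ ⊤) :
    ∃ D : Setting, D.W = W ∧ D.S.Λ = Λ ∧ D.S.A = A ∧ D.S.thr = thr ∧ D.S.ψ = ψ ∧ D.J = J ∧
      D.δ = δ ∧ (∀ x, W x ≠ 0 → 1 ≤ W x * D.S.b (D.S.m x + 1) ^ 2) ∧
      ∫⁻ x in D.Bd, f x ≤ ENNReal.ofReal (12 * (J + 1) * δ) * ∫⁻ x, f x := by
  classical
  obtain ⟨w0, hw0, hlow⟩ := hW.lower
  obtain ⟨w1', hup'⟩ := hW.upper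
  obtain ⟨B', hsupp'⟩ := hW.supp
  set w1 := max w1' 0 with hw1
  have hw10 : 0 ≤ w1 := le_max_right _ _
  have hup : ∀ x, W x ≤ w1 := fun x => (hup' x).trans (le_max_left _ _)
  set B := max B' 0 with hB
  have hB0 : 0 ≤ B := le_max_right _ _
  have hsupp : ∀ x, W x ≠ 0 → ‖x‖ ≤ B := fun x hx => (hsupp' x hx).trans (le_max_left _ _)
  have hΛ0 : (0 : ℝ) < Λ := by exact_mod_cast (by omega : 0 < Λ)
  have hΛ1 : (1 : ℝ) < Λ := by exact_mod_cast (by omega : 1 < Λ)
  -- smallest scale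
  set R0 : ℝ := 1 / (w1 + 1) with hR0d
  have hR0 : 0 < R0 := by positivity
  have hR01 : R0 ≤ 1 := by rw [hR0d, div_le_one (by linarith)]; linarith
  have hw1R : w1 * R0 ^ 2 ≤ 1 := by
    calc w1 * R0 ^ 2 ≤ (w1 + 1) * (R0 * 1) := by
          rw [sq]; gcongr; linarith
      _ = 1 := by rw [hR0d]; field_simp
  -- levels
  have hlarge : ∃ m1 : ℕ, 1 ≤ w0 * (R0 * Λ ^ (m1 + 1)) ^ 2 := by
    have h1 : Tendsto (fun n : ℕ => (Λ : ℝ) ^ n) atTop atTop := tendsto_pow_atTop_atTop_of_one_lt hΛ1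
    obtain ⟨n, hn⟩ := (h1.eventually_ge_atTop (1 / (w0 * R0 ^ 2) + 1)).exists
    refine ⟨n, ?_⟩
    have h2 : (1 : ℝ) / (w0 * R0 ^ 2) ≤ Λ ^ n := by linarith
    have h3 : (1 : ℝ) ≤ Λ ^ n := one_le_pow₀ hΛ1.le
    have h4 : (Λ : ℝ) ^ n ≤ (Λ ^ (n + 1)) ^ 2 := by
      rw [← pow_mul]
      exact pow_le_pow_right₀ hΛ1.le (by omega)
    rw [div_le_iff₀ (by positivity)] at h2
    calc (1 : ℝ) ≤ Λ ^ n * (w0 * R0 ^ 2) := h2
      _ ≤ (Λ ^ (n + 1)) ^ 2 * (w0 * R0 ^ 2) := by gcongr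
      _ = _ := by ring
  obtain ⟨m1, hm1⟩ := hlarge
  have hex : ∀ x, ∃ n, W x = 0 ∨ 1 ≤ W x * (R0 * Λ ^ (n + 1)) ^ 2 := by
    intro x
    by_cases h : W x = 0
    · exact ⟨0, Or.inl h⟩
    · refine ⟨m1, Or.inr (hm1.trans ?_)⟩
      have := hlow x h
      gcongr
  let m : Plane → ℕ := fun x => Nat.find (hex x)
  have hmm : Measurable m := by
    apply measurable_find
    intro k
    have h1 : MeasurableSet {x | W x = 0} := hW.meas (measurableSet_singleton 0)
    have h2 : MeasurableSet {x | 1 ≤ W x * (R0 * Λ ^ (k + 1)) ^ 2} :=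
      measurableSet_le measurable_const (hW.meas.mul_const _)
    exact h1.union h2
  have hmle : ∀ x, m x ≤ m1 := by
    intro x
    apply Nat.find_min'
    by_cases h : W x = 0
    · exact Or.inl h
    · right
      refine hm1.trans ?_
      have := hlow x h
      gcongr
  have hmlow : ∀ x, W x * (R0 * Λ ^ (m x)) ^ 2 ≤ 1 := by
    intro x
    rcases Nat.eq_zero_or_pos (m x) with h | h
    · rw [h, pow_zero, mul_one]
      refine le_trans ?_ hw1R
      have := hup x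
      gcongr
    · have h1 := Nat.find_min (hex x) (show m x - 1 < m x by omega)
      push Not at h1
      rw [Nat.sub_add_cancel h] at h1
      exact h1.2.le
  have hmup : ∀ x, W x ≠ 0 → 1 ≤ W x * (R0 * Λ ^ (m x + 1)) ^ 2 := by
    intro x hx
    rcases Nat.find_spec (hex x) with h | h
    · exact absurd h hx
    · exact h
  -- the shift
  obtain ⟨t, ht, hbad⟩ := exists_shift hmm (J := J) hδ.le hR0 (show 1 ≤ Λ by omega) (top := m1 + J)
    (fun x => by have := hmle x; omega) hf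
  have hMB : MeasurableSet {x | BadPt m J δ R0 Λ x t} :=
    measurable_prodMk_right (measurableSet_BadPt hmm J δ R0 Λ)
  have hMW : MeasurableSet {x | W x ≠ 0} := (hW.meas (measurableSet_singleton 0)).compl
  let K : Set Plane := {x | W x ≠ 0} ∩ {x | ¬ BadPt m J δ R0 Λ x t}
  let Bd : Set Plane := {x | W x ≠ 0} ∩ {x | BadPt m J δ R0 Λ x t}
  have hK : MeasurableSet K := hMW.inter hMB.compl
  have hBd : MeasurableSet Bd := hMW.inter hMB
  let s : Plane := !₂[t, t]
  have hs : ∀ i, s i = t := by intro i; fin_cases i <;> rfl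
  -- the box
  set Lt := R0 * (Λ : ℝ) ^ (m1 + J) with hLt
  have hLt0 : 0 < Lt := by positivity
  set M : ℤ := ⌈(B + Lt) / R0⌉ with hM
  have hfl : ∀ k, ∀ x ∈ K, ∀ i : Fin 2, ⌊(x i - s i) / (R0 * Λ ^ k)⌋ ∈ Finset.Icc (-M) M := by
    intro k x hx i
    have h1 : |x i| ≤ B := (abs_coord_le x i).trans (hsupp x hx.1)
    have h2 : |x i - s i| ≤ B + Lt := by
      rw [hs]
      have := ht.1
      have := ht.2
      rw [abs_le] at h1 ⊢
      constructor <;> linarith
    have h3 : R0 ≤ R0 * (Λ : ℝ) ^ k := le_mul_of_one_le_right hR0.le (one_le_pow₀ hΛ1.le)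
    have h4 : |(x i - s i) / (R0 * Λ ^ k)| ≤ (B + Lt) / R0 := by
      rw [abs_div, abs_of_pos (by positivity : 0 < R0 * (Λ : ℝ) ^ k)]
      gcongr
    have h5 : (B + Lt) / R0 ≤ M := Int.le_ceil _
    have h6 := abs_le.1 (h4.trans h5)
    rw [Finset.mem_Icc]
    constructor
    · rw [Int.le_floor]; push_cast; exact h6.1
    · have : (⌊(x i - s i) / (R0 * Λ ^ k)⌋ : ℝ) ≤ M := (Int.floor_le _).trans h6.2
      exact_mod_cast this
  have hWint : ∫⁻ x, ENNReal.ofReal (W x) < ⊤ := by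
    calc ∫⁻ x, ENNReal.ofReal (W x) ≤ ∫⁻ x, (Metric.closedBall (0 : Plane) B).indicator
          (fun _ => ENNReal.ofReal w1) x := by
          apply lintegral_mono
          intro x
          by_cases h : W x = 0
          · simp [h]
          · have : x ∈ Metric.closedBall (0 : Plane) B := by
              rw [mem_closedBall_zero_iff]; exact hsupp x h
            simp only [indicator_of_mem this]
            exact ENNReal.ofReal_le_ofReal (hup x)
      _ = ENNReal.ofReal w1 * volume (Metric.closedBall (0 : Plane) B) :=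
          lintegral_indicator_const Metric.isClosed_closedBall.measurableSet _
      _ < ⊤ := ENNReal.mul_lt_top ENNReal.ofReal_lt_top measure_closedBall_lt_top
  let S : Sys :=
    { μ := volume.withDensity fun x => ENNReal.ofReal (W x)
      m := m
      ψ := ψ
      thr := thr
      K := K
      Λ := Λ
      R0 := R0
      s := s
      box := Finset.Icc (-M) M ×ˢ Finset.Icc (-M) M
      A := A
      fin := isFiniteMeasure_withDensity hWint.ne
      hbox := fun k x hx => Finset.mem_product.2 ⟨hfl k x hx 0, hfl k x hx 1⟩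
      hm := hmm
      hK := hK
      Kbd := ⟨B, fun x hx => hsupp x hx.1⟩
      hA := hA
      hΛ := hΛ
      hR0 := hR0 }
  let D : Setting :=
    { S := S
      W := W
      Bd := Bd
      J := J
      δ := δ
      hWm := hW.meas
      hW0 := hW.nonneg
      hμ := rfl
      hWb := hmlow
      hBdm := hBd
      hdisj := by
        rw [Set.disjoint_left]
        rintro x ⟨_, h1⟩ ⟨_, h2⟩
        exact h1 h2
      hcar := by
        intro x hx
        by_cases h : BadPt m J δ R0 Λ x t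
        · exact Or.inr ⟨hx, h⟩
        · exact Or.inl ⟨hx, h⟩
      hδ := hδ
      hδ1 := hδ1
      hgood := by
        rintro x ⟨_, hx⟩ k hk1 hk2 z hz
        have hx' : ∀ i : Fin 2, ¬ bad1 δ (R0 * Λ ^ k) (x i - t) := by
          intro i hi
          exact hx ⟨k, hk1, hk2, i, hi⟩
        have hbk : 0 < R0 * (Λ : ℝ) ^ k := by positivity
        have key : ∀ i : Fin 2, ⌊(z i - s i) / (R0 * (Λ : ℝ) ^ k)⌋ = ⌊(x i - s i) / (R0 * (Λ : ℝ) ^ k)⌋ := by
          intro i
          rw [hs]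
          apply floor_eq_of_fract hbk (hx' i)
          have e : z i - t - (x i - t) = (z - x) i := by simp
          rw [e]
          exact lt_of_le_of_lt (abs_coord_le _ i) hz
        show (_, _) = (_, _)
        exact Prod.ext (key 0) (key 1)
      hψ1 := hψ1
      hψt := hψt }
  refine ⟨D, rfl, rfl, rfl, rfl, rfl, rfl, rfl, hmup, ?_⟩
  refine le_trans ?_ hbad
  apply lintegral_mono_set
  exact inter_subset_right

end Pool.Agent.LT2
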