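import Pool.Agent.Lib.MP_50e96d_mp.Est

/-!
# Estimates for closed clusters
-/

namespace Pool.Agent.LT2

open MeasureTheory Set Filter
open scoped ENNReal

set_option linter.unusedSectionVars false

section general

variable {μ : Measure Plane} [IsFiniteMeasure μ]

lemma Q_wsum_le (n : ℕ) {w : ℕ → Plane → ℝ} (hw : ∀ i, BM (w i)) (r : ℝ) :
    Q μ (fun x => ∑ i ∈ Finset.range n, w i x) r ≤
      ∑ i ∈ Finset.range n, 2 ^ (n - i) * Q μ (w i) r := by
  induction n with
  | zero => simp [Q, T]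
  | succ n ih =>
    simp only [Finset.sum_range_succ]
    have hS : BM fun x => ∑ i ∈ Finset.range n, w i x := BM.sum _ fun i _ => hw i
    have h1 := Q_add_le (μ := μ) (w := fun x => ∑ i ∈ Finset.range n, w i x) (v := w n) hS.1
      one_pos (r := r) (fun z => T_add hS (hw n) r z)
    have h2 : ENNReal.ofReal (1 + 1) = 2 := by norm_num
    have h3 : ENNReal.ofReal (1 + (1 : ℝ)⁻¹) = 2 := by norm_num
    rw [h2, h3] at h1
    refine h1.trans ?_
    rw [show n + 1 - n = 1 by omega, pow_one]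
    gcongr
    refine (mul_le_mul_right ih 2).trans (le_of_eq ?_)
    rw [Finset.mul_sum]
    apply Finset.sum_congr rfl
    intro i hi
    rw [Finset.mem_range] at hi
    rw [show n + 1 - i = (n - i) + 1 by omega, pow_succ]
    ring

end general

namespace Sys

variable (S : Sys)

/-- the local square norm `∫_G u² dμ` -/
noncomputable def nn (u : Plane → ℝ) (G : Set Plane) : ℝ≥0∞ := ∫⁻ x in G, ‖u x‖ₑ ^ 2 ∂S.μ

/-- the mean-zero constraints of a cluster -/
def MZ (u : Plane → ℝ) (N : ℕ × (ℤ × ℤ) → ℕ) (q : ℕ × (ℤ × ℤ)) : Prop :=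
  ∀ P' ∈ subs (N q) q.2, ∫ x in S.G q ∩ cel S.s (S.b q.1 / N q) ⁻¹' {P'}, u x ∂S.μ = 0

/-- the first-moment constraints of an enriched square -/
def FM (u : Plane → ℝ) (j : ℕ) (P : ℤ × ℤ) : Prop :=
  ∀ i : Fin 2, ∑ q ∈ S.DQ j P, ∫ x in S.G q, x i * u x ∂S.μ = 0

variable {S}
variable {u : Plane → ℝ} {N : ℕ × (ℤ × ℤ) → ℕ} {q : ℕ × (ℤ × ℤ)} {ν : ℝ≥0∞}

lemma T_indicator {G : Set Plane} (hG : MeasurableSet G) (r : ℝ) (z : Plane) :
    T S.μ (G.indicator u) r z = ∫ x in G, kr r (z - x) * u x ∂S.μ := by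
  unfold T
  rw [← integral_indicator hG]
  congr 1; ext x
  by_cases h : x ∈ G <;> simp [h]

lemma G_subset_K (q : ℕ × (ℤ × ℤ)) : S.G q ⊆ S.K := fun x hx => (S.Op_subset _ x hx.1).1

lemma cel_of_G {x : Plane} (hx : x ∈ S.G q) : S.c q.1 x = q.2 := hx.2

lemma sum_mz (hN : 0 < N q) (hu : BM u) (hmz : S.MZ u N q) : ∫ x in S.G q, u x ∂S.μ = 0 := by
  rw [fiber_integral (S.measurableSet_G q) (cel_measurable S.s (S.b q.1 / N q)) (subs (N q) q.2)
    (fun x hx => by
      have := mem_subs (s := S.s) (h := S.b q.1) hN x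
      have h2 : cel S.s (S.b q.1) x = q.2 := hx.2
      rwa [h2] at this) hu.integrable.integrableOn]
  exact Finset.sum_eq_zero hmz

lemma cluster_le (hN : 0 < N q) (hu : BM u) (hmz : S.MZ u N q) {h : Plane → ℝ}
    (hh : IntegrableOn (fun x => h x * u x) (S.G q) S.μ) {lip : ℝ} (hlip0 : 0 ≤ lip)
    (hlip : ∀ x ∈ S.G q, ∀ y ∈ S.G q, |h x - h y| ≤ lip * ‖x - y‖)
    (hν : S.μ (S.G q) ≤ ν * (N q : ℝ≥0∞) ^ 2) :
    ‖∫ x in S.G q, h x * u x ∂S.μ‖ₑ ^ 2 ≤
      ENNReal.ofReal (16 * lip ^ 2 * S.b q.1 ^ 2) * (ν * S.nn u (S.G q)) := by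
  have hN' : (0 : ℝ) < N q := by exact_mod_cast hN
  have hb := S.b_pos q.1
  have h1 := mean_zero_le (μ := S.μ) (S.measurableSet_G q) (cel_measurable S.s (S.b q.1 / N q))
    (subs (N q) q.2)
    (fun x hx => by
      have := mem_subs (s := S.s) (h := S.b q.1) hN x
      have h2 : cel S.s (S.b q.1) x = q.2 := hx.2
      rwa [h2] at this) (u := u) (h := h) hu.integrable.integrableOn hh hmz
    (ℓ := lip * (2 * (S.b q.1 / N q))) (fun x hx y hy hxy => (hlip x hx y hy).trans (by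
      gcongr
      exact cel_dist (by positivity) hxy))
  calc ‖∫ x in S.G q, h x * u x ∂S.μ‖ₑ ^ 2
      ≤ (ENNReal.ofReal (lip * (2 * (S.b q.1 / N q))) * ∫⁻ x in S.G q, ‖u x‖ₑ ∂S.μ) ^ 2 := by gcongr
    _ = ENNReal.ofReal (lip * (2 * (S.b q.1 / N q))) ^ 2 * (∫⁻ x in S.G q, ‖u x‖ₑ ∂S.μ) ^ 2 := by
        rw [mul_pow]
    _ ≤ ENNReal.ofReal (lip * (2 * (S.b q.1 / N q))) ^ 2 * (S.μ (S.G q) * S.nn u (S.G q)) := by
        gcongr
        exact lintegral_sq_le hu.1
    _ ≤ ENNReal.ofReal (lip * (2 * (S.b q.1 / N q))) ^ 2 * ((ν * (N q : ℝ≥0∞) ^ 2) * S.nn u (S.G q)) := by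
        gcongr
    _ = ENNReal.ofReal (4 * lip ^ 2 * S.b q.1 ^ 2) * (ν * S.nn u (S.G q)) := by
        have e1 : (N q : ℝ≥0∞) ^ 2 = ENNReal.ofReal ((N q : ℝ) ^ 2) := by
          rw [ENNReal.ofReal_pow hN'.le]; simp
        have e2 : ENNReal.ofReal (lip * (2 * (S.b q.1 / N q))) ^ 2 * (N q : ℝ≥0∞) ^ 2 =
            ENNReal.ofReal (4 * lip ^ 2 * S.b q.1 ^ 2) := by
          rw [e1, ← ENNReal.ofReal_pow (by positivity), ← ENNReal.ofReal_mul (by positivity)]
          congr 1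
          field_simp; ring
        rw [← e2]; ring
    _ ≤ _ := by
        gcongr
        norm_num

lemma cell_radius {j : ℕ} {P : ℤ × ℤ} {x y : Plane} (hx : S.c j x = P) (hy : S.c j y = P) :
    ‖x - y‖ ≤ 2 * S.b j := by
  apply cel_dist (S.b_pos j) (s := S.s)
  change S.c j x = S.c j y
  rw [hx, hy]

/-- one closed cluster seen from scale `r` -/
lemma Q_cluster_le (hN : 0 < N q) (hu : BM u) (hmz : S.MZ u N q)
    (hν : S.μ (S.G q) ≤ ν * (N q : ℝ≥0∞) ^ 2) {r : ℝ} (hr : S.b q.1 ≤ r) :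
    Q S.μ ((S.G q).indicator u) r ≤
      ENNReal.ofReal (144 * Real.pi * LL ^ 2 * S.b q.1 ^ 2) * (ν * S.nn u (S.G q)) := by
  have hb := S.b_pos q.1
  have hr0 : 0 < r := lt_of_lt_of_le hb hr
  have hL := LL_pos
  have hpi := Real.pi_pos
  rcases (S.G q).eq_empty_or_nonempty with he | ⟨x0, hx0⟩
  · rw [he, indicator_empty]
    simp [Q, T]
  · have h1 : ∀ z, ‖T S.μ ((S.G q).indicator u) r z‖ₑ ^ 2 ≤
        ENNReal.ofReal (16 * (LL / r) ^ 2 * S.b q.1 ^ 2) * (ν * S.nn u (S.G q)) := by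
      intro z
      rw [T_indicator (S.measurableSet_G q)]
      apply cluster_le hN hu hmz _ (by positivity) _ hν
      · exact ((BM_kr r z).mul hu).integrable.integrableOn
      · intro x _ y _
        refine (kr_lip hr0 _ _).trans (le_of_eq ?_)
        congr 1
        rw [sub_sub_sub_cancel_left, ← norm_neg, neg_sub]
    refine (Q_le_of_bound (μ := S.μ) hr0 (ρ := 2 * S.b q.1) (by linarith) (x0 := x0) ?_ h1).trans ?_
    · intro x hx
      have hxG : x ∈ S.G q := by
        by_contra hcon; exact hx (indicator_of_notMem hcon _)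
      exact cell_radius (j := q.1) hxG.2 hx0.2
    · rw [← mul_assoc, ← ENNReal.ofReal_mul (by positivity)]
      apply le_of_eq
      congr 2
      field_simp
      ring

/-- all alive clusters, seen from scale `r ∈ (b k, b (k+1)]` -/
lemma Q_alive_le {k : ℕ} (hN : ∀ q, 0 < N q) (hu : BM u) (hmz : ∀ q ∈ S.Alive (k + 1), S.MZ u N q)
    (hν : ∀ q ∈ S.Alive (k + 1), S.μ (S.G q) ≤ ν * (N q : ℝ≥0∞) ^ 2) {r : ℝ} (hr : S.b k ≤ r) :
    Q S.μ (fun x => ∑ q ∈ S.Alive (k + 1), (S.G q).indicator u x) r ≤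
      ENNReal.ofReal (S.A * (25 * (r / S.b k) ^ 2)) * ∑ q ∈ S.Alive (k + 1),
        ENNReal.ofReal (144 * Real.pi * LL ^ 2 * S.b q.1 ^ 2) * (ν * S.nn u (S.G q)) := by
  classical
  have hbk := S.b_pos k
  have hr0 : 0 < r := lt_of_lt_of_le hbk hr
  set M := S.A * (near S.s (S.b k) r 0).card with hM
  have hMz : ∀ z, S.A * (near S.s (S.b k) r z).card = M := by
    intro z; rw [hM, card_near, card_near]
  have h1 := Q_sum_le (μ := S.μ) (S.Alive (k + 1)) (w := fun q => (S.G q).indicator u)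
    (fun q _ => hu.indicator (S.measurableSet_G q)) r (N := M) (by
      intro z
      have h2 : ∀ q ∈ (S.Alive (k + 1)).filter (fun q => T S.μ ((S.G q).indicator u) r z ≠ 0),
          S.anc k q ∈ near S.s (S.b k) r z := by
        intro q hq
        rw [Finset.mem_filter] at hq
        obtain ⟨x, hx, hxr⟩ := exists_near_of_T_indicator_ne hr0 hq.2
        have h3 := (S.alive_mem _ q hq.1).1
        rw [← S.c_eq_anc hx (by omega : q.1 ≤ k)]
        exact mem_near hbk hxr
      rw [Finset.card_eq_sum_card_fiberwise h2, ← hMz z, mul_comm, ← smul_eq_mul, ← Finset.sum_const]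
      apply Finset.sum_le_sum
      intro P _
      refine le_trans ?_ (S.card_alive_le k P)
      apply Finset.card_le_card
      intro q hq
      rw [Finset.mem_filter, Finset.mem_filter] at hq
      rw [Finset.mem_filter]
      exact ⟨hq.1.1, hq.2⟩)
  refine h1.trans ?_
  have h3 : (M : ℝ≥0∞) ≤ ENNReal.ofReal (S.A * (25 * (r / S.b k) ^ 2)) := by
    rw [show (M : ℝ≥0∞) = ENNReal.ofReal (M : ℝ) by simp]
    apply ENNReal.ofReal_le_ofReal
    rw [hM]; push_cast
    gcongr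
    exact card_near_le hbk hr 0
  gcongr with q hq
  apply Q_cluster_le (hN q) hu (hmz q hq) (hν q hq)
  have h4 := (S.alive_mem _ q hq).1
  refine le_trans ?_ hr
  unfold b
  have := S.hΛ
  have : (1 : ℝ) ≤ S.Λ := by exact_mod_cast (by omega : 1 ≤ S.Λ)
  exact mul_le_mul_of_nonneg_left (pow_le_pow_right₀ this (by omega)) S.hR0.le

lemma b_mono {j k : ℕ} (h : j ≤ k) : S.b j ≤ S.b k := by
  unfold b
  have := S.hΛ
  have : (1 : ℝ) ≤ S.Λ := by exact_mod_cast (by omega : 1 ≤ S.Λ)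
  exact mul_le_mul_of_nonneg_left (pow_le_pow_right₀ this h) S.hR0.le

lemma integrable_coord_mul (hu : BM u) (q : ℕ × (ℤ × ℤ)) (D : Plane →L[ℝ] ℝ) :
    IntegrableOn (fun x => D x * u x) (S.G q) S.μ := by
  obtain ⟨B, hB⟩ := S.Kbd
  obtain ⟨hm, C, hC⟩ := hu
  apply Measure.integrableOn_of_bounded (M := ‖D‖ * B * C) (measure_ne_top _ _)
  · exact (D.continuous.measurable.mul hm).aestronglyMeasurable
  · filter_upwards [self_mem_ae_restrict (S.measurableSet_G q)] with x hx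
    have h1 := hB x (G_subset_K q hx)
    rw [norm_mul, Real.norm_eq_abs (u x)]
    apply mul_le_mul _ (hC x) (abs_nonneg _)
    · have : 0 ≤ B := (norm_nonneg _).trans h1
      positivity
    · exact (D.le_opNorm x).trans (mul_le_mul_of_nonneg_left h1 (norm_nonneg _))

/-- dead clusters of one enriched square -/
lemma Q_dead_le {j : ℕ} {P : ℤ × ℤ} (hN : ∀ q, 0 < N q) (hu : BM u)
    (hmz : ∀ q ∈ S.DQ j P, S.MZ u N q) (hfm : S.FM u j P)
    (hν : ∀ q ∈ S.DQ j P, S.μ (S.G q) ≤ ν * (N q : ℝ≥0∞) ^ 2) {r : ℝ} (hr : S.b j ≤ r) :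
    Q S.μ (fun x => ∑ q ∈ S.DQ j P, (S.G q).indicator u x) r ≤
      ENNReal.ofReal (576 * Real.pi * S.A * LL ^ 2 * S.b j ^ 4 / r ^ 2) *
        (ν * ∑ q ∈ S.DQ j P, S.nn u (S.G q)) := by
  classical
  have hb := S.b_pos j
  have hr0 : 0 < r := lt_of_lt_of_le hb hr
  have hL := LL_pos
  have hpi := Real.pi_pos
  have hDQ : ∀ q ∈ S.DQ j P, q.1 < j ∧ S.anc j q = P := by
    intro q hq
    unfold DQ at hq
    rw [Finset.mem_filter] at hq
    exact ⟨(S.alive_mem _ q hq.1).1, hq.2⟩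
  have hGc : ∀ q ∈ S.DQ j P, ∀ x ∈ S.G q, S.c j x = P := by
    intro q hq x hx
    rw [S.c_eq_anc hx (hDQ q hq).1.le, (hDQ q hq).2]
  by_cases hne : ∃ q ∈ S.DQ j P, (S.G q).Nonempty
  swap
  · push Not at hne
    have : (fun x => ∑ q ∈ S.DQ j P, (S.G q).indicator u x) = fun _ => 0 := by
      ext x
      apply Finset.sum_eq_zero
      intro q hq
      rw [hne q hq, indicator_empty]
    rw [this]
    simp [Q, T]
  obtain ⟨q0, hq0, x0, hx0⟩ := hne
  have hx0P := hGc q0 hq0 x0 hx0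
  have hj : ∃ j', j = j' + 1 := by
    have := (hDQ q0 hq0).1
    exact ⟨j - 1, by omega⟩
  obtain ⟨j', rfl⟩ := hj
  have h1 : ∀ z, ‖T S.μ (fun x => ∑ q ∈ S.DQ (j' + 1) P, (S.G q).indicator u x) r z‖ₑ ^ 2 ≤
      ENNReal.ofReal (64 * S.A * LL ^ 2 * S.b (j' + 1) ^ 4 / r ^ 4) *
        (ν * ∑ q ∈ S.DQ (j' + 1) P, S.nn u (S.G q)) := by
    intro z
    set D := dkr r (z - x0) with hD
    set h : Plane → ℝ := fun x => kr r (z - x) - D (z - x) with hh
    have hhi : ∀ q ∈ S.DQ (j' + 1) P, IntegrableOn (fun x => h x * u x) (S.G q) S.μ := by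
      intro q hq
      have e : (fun x => h x * u x) = fun x => kr r (z - x) * u x - (D z * u x - D x * u x) := by
        ext x; simp only [hh, map_sub]; ring
      rw [e]
      exact (((BM_kr r z).mul hu).integrable.integrableOn).sub
        ((hu.integrable.integrableOn.const_mul _).sub (integrable_coord_mul hu q D))
    have hT : T S.μ (fun x => ∑ q ∈ S.DQ (j' + 1) P, (S.G q).indicator u x) r z =
        ∑ q ∈ S.DQ (j' + 1) P, ∫ x in S.G q, h x * u x ∂S.μ := by
      rw [T_sum _ (fun q _ => hu.indicator (S.measurableSet_G q))]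
      have e1 : ∀ q ∈ S.DQ (j' + 1) P, T S.μ ((S.G q).indicator u) r z =
          ∫ x in S.G q, h x * u x ∂S.μ + (- ∑ i : Fin 2, D (ev i) * ∫ x in S.G q, x i * u x ∂S.μ) := by
        intro q hq
        rw [T_indicator (S.measurableSet_G q)]
        have e2 : ∀ x, D x = ∑ i : Fin 2, D (ev i) * x i := by
          intro x
          have e3 : x = ∑ i : Fin 2, x i • ev i := by
            rw [Fin.sum_univ_two]
            ext i; fin_cases i <;> simp [ev]
          conv_lhs => rw [e3]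
          rw [map_sum]
          apply Finset.sum_congr rfl
          intro i _
          rw [map_smul, smul_eq_mul, mul_comm]
        have e4 : ∫ x in S.G q, D x * u x ∂S.μ = ∑ i : Fin 2, D (ev i) * ∫ x in S.G q, x i * u x ∂S.μ := by
          rw [Finset.sum_congr rfl fun i _ => (integral_const_mul (D (ev i)) _).symm,
            ← integral_finsetSum]
          · congr 1; ext x
            rw [e2 x, Finset.sum_mul]
            apply Finset.sum_congr rfl; intro i _; ring
          · intro i _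
            apply Integrable.const_mul
            have := integrable_coord_mul (S := S) hu q (EuclideanSpace.proj i : Plane →L[ℝ] ℝ)
            exact this
        have e5 : ∫ x in S.G q, kr r (z - x) * u x ∂S.μ =
            ∫ x in S.G q, h x * u x ∂S.μ + (D z * ∫ x in S.G q, u x ∂S.μ - ∫ x in S.G q, D x * u x ∂S.μ) := by
          have i2 : IntegrableOn (fun x => D z * u x - D x * u x) (S.G q) S.μ :=
            (hu.integrable.integrableOn.const_mul _).sub (integrable_coord_mul hu q D)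
          rw [← integral_const_mul, ← integral_sub (hu.integrable.integrableOn.const_mul _)
            (integrable_coord_mul hu q D), ← integral_add (hhi q hq) i2]
          congr 1; ext x
          simp only [hh, map_sub]; ring
        rw [e5, sum_mz (hN q) hu (hmz q hq), e4]; ring
      rw [Finset.sum_congr rfl e1, Finset.sum_add_distrib, Finset.sum_neg_distrib, Finset.sum_comm]
      have e6 : ∑ i : Fin 2, ∑ q ∈ S.DQ (j' + 1) P, D (ev i) * ∫ x in S.G q, x i * u x ∂S.μ = 0 := by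
        apply Finset.sum_eq_zero
        intro i _
        rw [← Finset.mul_sum, hfm i, mul_zero]
      rw [e6, neg_zero, add_zero]
    rw [hT]
    have hcard : ((S.DQ (j' + 1) P).filter fun q => ∫ x in S.G q, h x * u x ∂S.μ ≠ 0).card ≤
        S.A * S.Λ ^ 2 := (Finset.card_filter_le _ _).trans (S.card_DQ_le j' P)
    refine (enorm_sum_sq_le _ _ hcard).trans ?_
    have hterm : ∀ q ∈ S.DQ (j' + 1) P, ‖∫ x in S.G q, h x * u x ∂S.μ‖ₑ ^ 2 ≤
        ENNReal.ofReal (64 * LL ^ 2 * S.b (j' + 1) ^ 4 / (S.Λ ^ 2 * r ^ 4)) * (ν * S.nn u (S.G q)) := by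
      intro q hq
      have h2 := cluster_le (hN q) hu (hmz q hq) (hhi q hq)
        (lip := LL * (2 * S.b (j' + 1)) / r ^ 2) (by positivity) (by
          intro x hx y hy
          have := kr_lip2 (r := r) hr0 (p := z - x0) (x := z - x) (y := z - y)
            (ρ := 2 * S.b (j' + 1))
            (by rw [sub_sub_sub_cancel_left]; exact cell_radius hx0P (hGc q hq x hx))
            (by rw [sub_sub_sub_cancel_left]; exact cell_radius hx0P (hGc q hq y hy))
          refine this.trans (le_of_eq ?_)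
          congr 1
          rw [sub_sub_sub_cancel_left, ← norm_neg, neg_sub]) (hν q hq)
      refine h2.trans ?_
      gcongr
      have h3 : S.b q.1 ≤ S.b (j' + 1) / S.Λ := by
        rw [S.b_succ, mul_div_assoc, div_self S.Λ_pos.ne', mul_one]
        apply b_mono
        have := (hDQ q hq).1; omega
      have h4 := S.b_pos q.1
      have h5 := S.Λ_pos
      calc 16 * (LL * (2 * S.b (j' + 1)) / r ^ 2) ^ 2 * S.b q.1 ^ 2
          ≤ 16 * (LL * (2 * S.b (j' + 1)) / r ^ 2) ^ 2 * (S.b (j' + 1) / S.Λ) ^ 2 := by gcongr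
        _ = _ := by field_simp; ring
    calc ((S.A * S.Λ ^ 2 : ℕ) : ℝ≥0∞) * ∑ q ∈ S.DQ (j' + 1) P, ‖∫ x in S.G q, h x * u x ∂S.μ‖ₑ ^ 2
        ≤ ((S.A * S.Λ ^ 2 : ℕ) : ℝ≥0∞) * ∑ q ∈ S.DQ (j' + 1) P,
          ENNReal.ofReal (64 * LL ^ 2 * S.b (j' + 1) ^ 4 / (S.Λ ^ 2 * r ^ 4)) * (ν * S.nn u (S.G q)) := by
          gcongr with q hq
          exact hterm q hq
      _ = _ := by
          rw [← Finset.mul_sum, ← Finset.mul_sum, ← mul_assoc]
          congr 1
          rw [show ((S.A * S.Λ ^ 2 : ℕ) : ℝ≥0∞) = ENNReal.ofReal ((S.A * S.Λ ^ 2 : ℕ) : ℝ) by simp,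
            ← ENNReal.ofReal_mul (by positivity)]
          congr 1
          push_cast
          have := S.Λ_pos
          field_simp
  refine (Q_le_of_bound (μ := S.μ) hr0 (ρ := 2 * S.b (j' + 1)) (by linarith) (x0 := x0) ?_ h1).trans ?_
  · intro x hx
    obtain ⟨q, hq, hxq⟩ := Finset.exists_ne_zero_of_sum_ne_zero hx
    have hxG : x ∈ S.G q := by
      by_contra hcon; exact hxq (indicator_of_notMem hcon _)
    exact cell_radius (hGc q hq x hxG) hx0P
  · rw [← mul_assoc, ← ENNReal.ofReal_mul (by positivity)]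
    apply le_of_eq
    congr 2
    field_simp
    ring

/-- all enriched squares of level `j` -/
lemma Q_dead_level_le {j : ℕ} (hN : ∀ q, 0 < N q) (hu : BM u)
    (hmz : ∀ P ∈ S.Enr j, ∀ q ∈ S.DQ j P, S.MZ u N q) (hfm : ∀ P ∈ S.Enr j, S.FM u j P)
    (hν : ∀ P ∈ S.Enr j, ∀ q ∈ S.DQ j P, S.μ (S.G q) ≤ ν * (N q : ℝ≥0∞) ^ 2) {r : ℝ}
    (hr : S.b j ≤ r) :
    Q S.μ (fun x => ∑ P ∈ S.Enr j, ∑ q ∈ S.DQ j P, (S.G q).indicator u x) r ≤
      ENNReal.ofReal (14400 * Real.pi * S.A * LL ^ 2 * S.b j ^ 2) *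
        (ν * ∑ P ∈ S.Enr j, ∑ q ∈ S.DQ j P, S.nn u (S.G q)) := by
  classical
  have hb := S.b_pos j
  have hr0 : 0 < r := lt_of_lt_of_le hb hr
  have hL := LL_pos
  have hpi := Real.pi_pos
  have h1 := Q_sum_le (μ := S.μ) (S.Enr j)
    (w := fun P x => ∑ q ∈ S.DQ j P, (S.G q).indicator u x)
    (fun P _ => BM.sum _ fun q _ => hu.indicator (S.measurableSet_G q)) r
    (N := (near S.s (S.b j) r 0).card) (by
      intro z
      rw [card_near S.s (S.b j) r 0, ← card_near S.s (S.b j) r z]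
      apply Finset.card_le_card
      intro P hP
      rw [Finset.mem_filter] at hP
      obtain ⟨x, hx, hxr⟩ := exists_near_of_T_ne hr0 hP.2
      obtain ⟨q, hq, hxq⟩ := Finset.exists_ne_zero_of_sum_ne_zero hx
      have hxG : x ∈ S.G q := by
        by_contra hcon; exact hxq (indicator_of_notMem hcon _)
      unfold DQ at hq
      rw [Finset.mem_filter] at hq
      rw [← hq.2, ← S.c_eq_anc hxG (S.alive_mem _ q hq.1).1.le]
      exact mem_near hb hxr)
  refine h1.trans ?_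
  have h3 : ((near S.s (S.b j) r 0).card : ℝ≥0∞) ≤ ENNReal.ofReal (25 * (r / S.b j) ^ 2) := by
    rw [show ((near S.s (S.b j) r 0).card : ℝ≥0∞) =
      ENNReal.ofReal ((near S.s (S.b j) r 0).card : ℝ) by simp]
    apply ENNReal.ofReal_le_ofReal
    exact card_near_le hb hr 0
  calc _ ≤ ENNReal.ofReal (25 * (r / S.b j) ^ 2) * ∑ P ∈ S.Enr j,
        ENNReal.ofReal (576 * Real.pi * S.A * LL ^ 2 * S.b j ^ 4 / r ^ 2) *
        (ν * ∑ q ∈ S.DQ j P, S.nn u (S.G q)) := by
        gcongr with P hP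
        exact Q_dead_le hN hu (hmz P hP) (hfm P hP) (hν P hP) hr
    _ = _ := by
        rw [← Finset.mul_sum, ← Finset.mul_sum, ← mul_assoc, ← ENNReal.ofReal_mul (by positivity)]
        congr 2
        field_simp
        ring

end Sys

end Pool.Agent.LT2
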