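import Pool.Agent.Lib.MP_50e96d_mp.Core

/-!
# The finite list of constraints
-/

namespace Pool.Agent.LT2

open MeasureTheory Set Filter
open scoped ENNReal

set_option linter.unusedSectionVars false

namespace Setting

variable (D : Setting)

/-- trace lemma for one cluster -/
lemma sel_constraints {θd : ℝ≥0∞} (hθd : θd ≠ 0) (κ : ℕ) (P : ℤ × ℤ) :
    ∃ Φ : Finset (Plane → ℝ), (∀ φ ∈ Φ, MemLp φ 2 D.S.μ) ∧
      (Φ.card : ℝ≥0∞) * θd ≤ ENNReal.ofReal (Real.log D.S.Λ / (2 * Real.pi)) * D.S.μ (D.S.G (κ, P)) ∧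
      ∀ u : Plane → ℝ, BM u → (∀ φ ∈ Φ, ∫ x, φ x * u x ∂D.S.μ = 0) →
        (∫⁻ r in Ioc (D.a κ) (D.S.b κ),
          ENNReal.ofReal ((r ^ 3)⁻¹) * Q D.S.μ ((D.S.G (κ, P)).indicator u) r) ≤
          θd * D.S.nn u (D.S.G (κ, P)) := by
  classical
  have hG := D.S.measurableSet_G (κ, P)
  obtain ⟨n, φ, hφ, hn, hB⟩ := trace_lemma (μ := D.S.μ) {κ} (a := D.a) (b := D.S.b) D.a_pos D.a_le_b
    (S := fun _ => D.S.G (κ, P)) (fun _ => hG) hθd
  refine ⟨Finset.univ.image fun i => (D.S.G (κ, P)).indicator (φ i), ?_, ?_, ?_⟩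
  · intro ψ hψ
    rw [Finset.mem_image] at hψ
    obtain ⟨i, _, rfl⟩ := hψ
    exact (hφ i).2.indicator hG
  · have hc : ((Finset.univ.image fun i => (D.S.G (κ, P)).indicator (φ i)).card : ℝ≥0∞) ≤ n := by
      have : (Finset.univ.image fun i => (D.S.G (κ, P)).indicator (φ i)).card ≤ n :=
        Finset.card_image_le.trans (by simp)
      exact_mod_cast this
    refine (mul_le_mul_left hc θd).trans (hn.trans ?_)
    rw [Finset.sum_singleton, D.b_div_a]
  · intro u hu hc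
    have h1 := hB ((D.S.G (κ, P)).indicator u) (hu.indicator hG).memLp (by
      intro i
      have h2 := hc _ (Finset.mem_image_of_mem _ (Finset.mem_univ i))
      rw [← h2]
      congr 1; ext x
      by_cases h : x ∈ D.S.G (κ, P) <;> simp [h])
    unfold BB at h1
    rw [Finset.sum_singleton] at h1
    simp only [indicator_indicator, inter_self] at h1
    refine h1.trans (le_of_eq ?_)
    congr 1
    unfold Sys.nn
    rw [← lintegral_indicator hG]
    congr 1; ext x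
    by_cases h : x ∈ D.S.G (κ, P) <;> simp [h]

/-- trace lemma for the bad part -/
lemma bad_constraints {θd : ℝ≥0∞} (hθd : θd ≠ 0) (i : ℕ) :
    ∃ Φ : Finset (Plane → ℝ), (∀ φ ∈ Φ, MemLp φ 2 D.S.μ) ∧
      (Φ.card : ℝ≥0∞) * θd ≤ ∑ k ∈ Finset.range (i + 1),
        ENNReal.ofReal (Real.log D.S.Λ / (2 * Real.pi)) * D.S.μ (D.Bd ∩ {x | D.S.m x ≤ k}) ∧
      ∀ u : Plane → ℝ, BM u → (∀ φ ∈ Φ, ∫ x, φ x * u x ∂D.S.μ = 0) →
        ∑ k ∈ Finset.range (i + 1), (∫⁻ r in Ioc (D.a k) (D.S.b k),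
          ENNReal.ofReal ((r ^ 3)⁻¹) * Q D.S.μ ((D.Bd ∩ {x | D.S.m x ≤ k}).indicator u) r) ≤
          θd * ∫⁻ x, ‖u x‖ₑ ^ 2 ∂D.S.μ := by
  classical
  have hG : ∀ k, MeasurableSet (D.Bd ∩ {x | D.S.m x ≤ k}) := fun k =>
    D.hBdm.inter (D.S.hm measurableSet_Iic)
  obtain ⟨n, φ, hφ, hn, hB⟩ := trace_lemma (μ := D.S.μ) (Finset.range (i + 1)) (a := D.a)
    (b := D.S.b) D.a_pos D.a_le_b hG hθd
  refine ⟨Finset.univ.image φ, ?_, ?_, ?_⟩
  · intro ψ hψ
    rw [Finset.mem_image] at hψ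
    obtain ⟨i, _, rfl⟩ := hψ
    exact (hφ i).2
  · have hc : ((Finset.univ.image φ).card : ℝ≥0∞) ≤ n := by
      have : (Finset.univ.image φ).card ≤ n := Finset.card_image_le.trans (by simp)
      exact_mod_cast this
    refine (mul_le_mul_left hc θd).trans (hn.trans (le_of_eq ?_))
    apply Finset.sum_congr rfl
    intro k _
    rw [D.b_div_a]
  · intro u hu hc
    exact hB u hu.memLp fun i => hc _ (Finset.mem_image_of_mem _ (Finset.mem_univ i))

lemma memLp_indicator_one {G : Set Plane} (hG : MeasurableSet G) :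
    MemLp (G.indicator fun _ => (1 : ℝ)) 2 D.S.μ :=
  (BM.indicator ⟨measurable_const, 1, by simp⟩ hG).memLp

/-- mean-zero constraints of a cluster -/
lemma mz_constraints (N : ℕ × (ℤ × ℤ) → ℕ) (q : ℕ × (ℤ × ℤ)) :
    ∃ Φ : Finset (Plane → ℝ), (∀ φ ∈ Φ, MemLp φ 2 D.S.μ) ∧ Φ.card ≤ N q ^ 2 ∧
      ∀ u : Plane → ℝ, (∀ φ ∈ Φ, ∫ x, φ x * u x ∂D.S.μ = 0) → D.S.MZ u N q := by
  classical
  have hm : ∀ P', MeasurableSet (D.S.G q ∩ cel D.S.s (D.S.b q.1 / N q) ⁻¹' {P'}) := fun P' =>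
    (D.S.measurableSet_G q).inter (cel_measurable _ _ (measurableSet_singleton P'))
  refine ⟨(subs (N q) q.2).image fun P' =>
    (D.S.G q ∩ cel D.S.s (D.S.b q.1 / N q) ⁻¹' {P'}).indicator fun _ => (1 : ℝ), ?_, ?_, ?_⟩
  · intro φ hφ
    rw [Finset.mem_image] at hφ
    obtain ⟨P', _, rfl⟩ := hφ
    exact D.memLp_indicator_one (hm P')
  · exact Finset.card_image_le.trans (card_subs _ _).le
  · intro u hu P' hP'
    have := hu _ (Finset.mem_image_of_mem _ hP')
    rw [← this, ← integral_indicator (hm P')]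
    congr 1; ext x
    by_cases h : x ∈ D.S.G q ∩ cel D.S.s (D.S.b q.1 / N q) ⁻¹' {P'}
    · rw [indicator_of_mem h, indicator_of_mem h, one_mul]
    · rw [indicator_of_notMem h, indicator_of_notMem h, zero_mul]

/-- first-moment constraints of an enriched square -/
lemma fm_constraints (j : ℕ) (P : ℤ × ℤ) :
    ∃ Φ : Finset (Plane → ℝ), (∀ φ ∈ Φ, MemLp φ 2 D.S.μ) ∧ Φ.card ≤ 2 ∧
      ∀ u : Plane → ℝ, BM u → (∀ φ ∈ Φ, ∫ x, φ x * u x ∂D.S.μ = 0) → D.S.FM u j P := by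
  classical
  obtain ⟨B, hB⟩ := D.S.Kbd
  have hBM : ∀ (c : Fin 2) (q : ℕ × (ℤ × ℤ)), BM ((D.S.G q).indicator fun x => x c) := by
    intro c q
    refine ⟨(by fun_prop : Measurable fun x : Plane => x c).indicator (D.S.measurableSet_G q), |B|, fun x => ?_⟩
    by_cases h : x ∈ D.S.G q
    · rw [indicator_of_mem h]
      exact ((abs_coord_le x c).trans (hB x (Sys.G_subset_K q h))).trans (le_abs_self B)
    · rw [indicator_of_notMem h, abs_zero]; exact abs_nonneg B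
  refine ⟨Finset.univ.image fun c : Fin 2 => fun x => ∑ q ∈ D.S.DQ j P, (D.S.G q).indicator (fun x => x c) x,
    ?_, ?_, ?_⟩
  · intro φ hφ
    rw [Finset.mem_image] at hφ
    obtain ⟨c, _, rfl⟩ := hφ
    exact (BM.sum _ fun q _ => hBM c q).memLp
  · exact Finset.card_image_le.trans (by simp)
  · intro u hu hc c
    have := hc _ (Finset.mem_image_of_mem _ (Finset.mem_univ c))
    rw [← this]
    have e1 : (fun x => (∑ q ∈ D.S.DQ j P, (D.S.G q).indicator (fun x : Plane => x c) x) * u x) =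
        fun x => ∑ q ∈ D.S.DQ j P, (D.S.G q).indicator (fun x => x c * u x) x := by
      ext x
      rw [Finset.sum_mul]
      apply Finset.sum_congr rfl
      intro q _
      by_cases h : x ∈ D.S.G q <;> simp [h]
    rw [e1, integral_finsetSum]
    · apply Finset.sum_congr rfl
      intro q _
      rw [integral_indicator (D.S.measurableSet_G q)]
    · intro q _
      have e2 : (D.S.G q).indicator (fun x => x c * u x) = fun x => (D.S.G q).indicator (fun x => x c) x * u x := by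
        ext x
        by_cases h : x ∈ D.S.G q <;> simp [h]
      rw [e2]
      exact ((hBM c q).mul hu).integrable

/-- **The codimension estimate** in terms of `𝒥`. -/
theorem exists_constraints {N : ℕ × (ℤ × ℤ) → ℕ} {ν θd Ψ ΨJ : ℝ≥0∞} (hθd : θd ≠ 0) (hθdt : θd ≠ ⊤)
    (hN : ∀ q, 0 < N q)
    (hΨ : ∑' j, (D.S.ψ j)⁻¹ ≤ Ψ) (hΨJ : ∑' j, (D.S.ψ (j + (D.J + 1)))⁻¹ ≤ ΨJ) (i : ℕ)
    (hν : ∀ q, D.S.μ (D.S.G q) ≤ ν * (N q : ℝ≥0∞) ^ 2)
    {θ : ℝ} (hθ : 0 < θ) :
    ∃ Φ : Finset (Plane → ℝ), (∀ φ ∈ Φ, MemLp φ 2 D.S.μ) ∧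
      (Φ.card : ℝ≥0∞) ≤ (∑ κ ∈ Finset.range (i + 1), ∑ P ∈ D.S.Sel κ,
        ((N (κ, P) : ℝ≥0∞) ^ 2 + θd⁻¹ * (ENNReal.ofReal (Real.log D.S.Λ / (2 * Real.pi)) *
          D.S.μ (D.S.G (κ, P))))) + 2 * (∑ j ∈ Finset.range i, ((D.S.Enr j).card : ℝ≥0∞)) +
        θd⁻¹ * (∑ k ∈ Finset.range (i + 1),
        ENNReal.ofReal (Real.log D.S.Λ / (2 * Real.pi)) * D.S.μ (D.Bd ∩ {x | D.S.m x ≤ k})) ∧
      ∀ u : Plane → ℝ, BM u → (∀ φ ∈ Φ, ∫ x, φ x * u x ∂D.S.μ = 0) →
      JJ D.S.μ u (D.S.b i) ≤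
      (ENNReal.ofReal (1 + θ) * (ENNReal.ofReal (Real.log D.S.Λ / (2 * Real.pi)) * D.S.thr) +
      ENNReal.ofReal (1 + θ⁻¹) * (6 * (
        9 * D.S.thr * (ENNReal.ofReal (Real.log D.S.Λ / (2 * Real.pi)) * ΨJ +
          ENNReal.ofReal (Real.log (1 / D.δ) / (2 * Real.pi)) * Ψ) +
        9 * θd +
        ENNReal.ofReal (Real.log D.S.Λ) * (ENNReal.ofReal (64800 * Real.pi * D.S.A * LL ^ 2) * ν) +
        ENNReal.ofReal (3 * c1 ^ 2 / (D.S.Λ : ℝ) ^ 2) + θd))) * ∫⁻ x, ‖u x‖ₑ ^ 2 ∂D.S.μ := by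
  classical
  choose Φ1 h1m h1c h1 using fun q => D.mz_constraints N q
  choose Φ2 h2m h2c h2 using fun κ P => D.sel_constraints hθd κ P
  choose Φ3 h3m h3c h3 using fun j P => D.fm_constraints j P
  obtain ⟨Φ4, h4m, h4c, h4⟩ := D.bad_constraints hθd i
  let ΦA := (Finset.range (i + 1)).biUnion fun κ => (D.S.Sel κ).biUnion fun P => Φ1 (κ, P) ∪ Φ2 κ P
  let ΦB := (Finset.range i).biUnion fun j => (D.S.Enr j).biUnion fun P => Φ3 j P
  refine ⟨ΦA ∪ ΦB ∪ Φ4, ?_, ?_, ?_⟩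
  · intro φ hφ
    rw [Finset.mem_union, Finset.mem_union] at hφ
    rcases hφ with (hφ | hφ) | hφ
    · rw [Finset.mem_biUnion] at hφ
      obtain ⟨κ, _, hφ⟩ := hφ
      rw [Finset.mem_biUnion] at hφ
      obtain ⟨P, _, hφ⟩ := hφ
      rw [Finset.mem_union] at hφ
      rcases hφ with hφ | hφ
      · exact h1m _ _ hφ
      · exact h2m _ _ _ hφ
    · rw [Finset.mem_biUnion] at hφ
      obtain ⟨j, _, hφ⟩ := hφ
      rw [Finset.mem_biUnion] at hφ
      obtain ⟨P, _, hφ⟩ := hφ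
      exact h3m _ _ _ hφ
    · exact h4m _ hφ
  · have div_le : ∀ {a b : ℝ≥0∞}, a * θd ≤ b → a ≤ θd⁻¹ * b := by
      intro a b h
      calc a = θd⁻¹ * (a * θd) := by
            rw [mul_comm a, ← mul_assoc, ENNReal.inv_mul_cancel hθd hθdt, one_mul]
        _ ≤ _ := by gcongr
    have hA : (ΦA.card : ℝ≥0∞) ≤ ∑ κ ∈ Finset.range (i + 1), ∑ P ∈ D.S.Sel κ,
        ((N (κ, P) : ℝ≥0∞) ^ 2 + θd⁻¹ * (ENNReal.ofReal (Real.log D.S.Λ / (2 * Real.pi)) *
          D.S.μ (D.S.G (κ, P)))) := by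
      calc (ΦA.card : ℝ≥0∞) ≤ ((∑ κ ∈ Finset.range (i + 1), ∑ P ∈ D.S.Sel κ,
            ((Φ1 (κ, P)).card + (Φ2 κ P).card) : ℕ) : ℝ≥0∞) := by
            apply Nat.cast_le.2
            refine Finset.card_biUnion_le.trans (Finset.sum_le_sum fun κ _ => ?_)
            refine Finset.card_biUnion_le.trans (Finset.sum_le_sum fun P _ => ?_)
            exact Finset.card_union_le _ _
        _ ≤ _ := by
            push_cast
            apply Finset.sum_le_sum; intro κ _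
            apply Finset.sum_le_sum; intro P _
            gcongr
            · exact_mod_cast h1c (κ, P)
            · exact div_le (h2c κ P)
    have hB : (ΦB.card : ℝ≥0∞) ≤ 2 * (∑ j ∈ Finset.range i, ((D.S.Enr j).card : ℝ≥0∞)) := by
      calc (ΦB.card : ℝ≥0∞) ≤ ((∑ j ∈ Finset.range i, ∑ P ∈ D.S.Enr j, 2 : ℕ) : ℝ≥0∞) := by
            apply Nat.cast_le.2
            refine Finset.card_biUnion_le.trans (Finset.sum_le_sum fun κ _ => ?_)
            refine Finset.card_biUnion_le.trans (Finset.sum_le_sum fun P _ => ?_)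
            exact h3c _ _
        _ = _ := by
            simp only [Finset.sum_const, smul_eq_mul]
            push_cast
            rw [Finset.mul_sum]
            apply Finset.sum_congr rfl
            intro j _; ring
    calc ((ΦA ∪ ΦB ∪ Φ4).card : ℝ≥0∞) ≤ ((ΦA.card + ΦB.card + Φ4.card : ℕ) : ℝ≥0∞) := by
          apply Nat.cast_le.2
          refine (Finset.card_union_le _ _).trans ?_
          gcongr
          exact Finset.card_union_le _ _
      _ ≤ _ := by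
          push_cast
          gcongr
          exact div_le h4c
  · intro u hu hc
    apply D.core hu hN hΨ hΨJ i _ (fun κ _ P _ => hν (κ, P)) _ _ _ hθ
    · intro κ hκ P hP
      apply h1 (κ, P) u
      intro φ hφ
      apply hc
      rw [Finset.mem_union, Finset.mem_union]
      left; left
      exact Finset.mem_biUnion.2 ⟨κ, Finset.mem_range.2 (by omega), Finset.mem_biUnion.2 ⟨P, hP,
        Finset.mem_union_left _ hφ⟩⟩
    · intro j hj P hP
      apply h3 j P u hu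
      intro φ hφ
      apply hc
      rw [Finset.mem_union, Finset.mem_union]
      left; right
      exact Finset.mem_biUnion.2 ⟨j, Finset.mem_range.2 hj, Finset.mem_biUnion.2 ⟨P, hP, hφ⟩⟩
    · intro κ hκ P hP
      apply h2 κ P u hu
      intro φ hφ
      apply hc
      rw [Finset.mem_union, Finset.mem_union]
      left; left
      exact Finset.mem_biUnion.2 ⟨κ, Finset.mem_range.2 (by omega), Finset.mem_biUnion.2 ⟨P, hP,
        Finset.mem_union_right _ hφ⟩⟩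
    · apply h4 u hu
      intro φ hφ
      apply hc
      rw [Finset.mem_union]
      right; exact hφ

end Setting

end Pool.Agent.LT2
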