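import Pool.Agent.Lib.MP_50e96d_mp.Integrated

/-!
# The core estimate: `𝒥_{b_i}(u μ) ≤ (small-loss) ∫ u² dμ` under the constraints
-/

namespace Pool.Agent.LT2

open MeasureTheory Set Filter
open scoped ENNReal

set_option linter.unusedSectionVars false

namespace Setting

variable (D : Setting) {u : Plane → ℝ}

lemma JJ_split (f : ℝ → ℝ≥0∞) (i : ℕ) :
    ∫⁻ r in Ioc (0 : ℝ) (D.S.b i), f r = (∫⁻ r in Ioc (0 : ℝ) (D.a 0), f r) +
      ∑ k ∈ Finset.range (i + 1), ∫⁻ r in Ioc (D.a k) (D.S.b k), f r := by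
  induction i with
  | zero =>
    rw [Finset.sum_range_one, ← lintegral_union measurableSet_Ioc]
    · rw [Ioc_union_Ioc_eq_Ioc (D.a_pos 0).le (D.a_le_b 0)]
    · rw [Set.disjoint_left]; rintro x ⟨_, h1⟩ ⟨h2, _⟩; linarith
  | succ i ih =>
    rw [Finset.sum_range_succ, ← add_assoc, ← ih, D.a_succ, ← lintegral_union measurableSet_Ioc]
    · rw [Ioc_union_Ioc_eq_Ioc (D.S.b_pos i).le (Sys.b_mono (Nat.le_succ i))]
    · rw [Set.disjoint_left]; rintro x ⟨_, h1⟩ ⟨h2, _⟩; linarith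

lemma sum_shift_le {g : ℕ → ℝ≥0∞} (n m a : ℕ) {E : ℕ → Prop} [DecidablePred E]
    (hE : ∀ k, E k → m + a ≤ k) {C : ℝ≥0∞} (hC : ∑' t, g (t + a) ≤ C) :
    ∑ k ∈ Finset.range n, (if E k then g (k - m) else 0) ≤ C := by
  classical
  rw [← Finset.sum_filter]
  refine le_trans ?_ hC
  refine le_trans ?_ (ENNReal.sum_le_tsum (((Finset.range n).filter E).image fun k => k - m - a))
  rw [Finset.sum_image]
  · apply le_of_eq
    apply Finset.sum_congr rfl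
    intro k hk
    rw [Finset.mem_filter] at hk
    have := hE k hk.2
    congr 1; omega
  · intro k hk l hl hkl
    simp only [Finset.coe_filter, mem_ofPred_eq, Finset.mem_range] at hk hl
    have h1 := hE k hk.2
    have h2 := hE l hl.2
    simp only at hkl
    omega

lemma sum_B_le (hu : BM u) {Ψ : ℝ≥0∞} (hΨ : ∑' j, (D.S.ψ j)⁻¹ ≤ Ψ) (n : ℕ) :
    ∑ k ∈ Finset.range n, ∫⁻ x in D.S.ns k, (D.S.ψ (k - D.S.m x))⁻¹ * ‖u x‖ₑ ^ 2 ∂D.S.μ ≤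
      Ψ * ∫⁻ x, ‖u x‖ₑ ^ 2 ∂D.S.μ := by
  classical
  apply Sys.sum_weight_le hu (fun k => D.S.measurableSet_ns k) n
  intro x
  have := sum_shift_le (g := fun j => (D.S.ψ j)⁻¹) n (D.S.m x) 0 (E := fun k => x ∈ D.S.ns k)
    (fun k hk => (D.S.Op_subset k x hk.1).2) (C := Ψ) (by simpa using hΨ)
  refine le_trans (le_of_eq ?_) this
  apply Finset.sum_congr rfl
  intro k _
  simp [indicator]

lemma sum_A_le (hu : BM u) {ΨJ : ℝ≥0∞} (hΨ : ∑' j, (D.S.ψ (j + (D.J + 1)))⁻¹ ≤ ΨJ) (n : ℕ) :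
    ∑ k ∈ Finset.range n, ∫⁻ x in D.S.ns k ∩ {x | D.S.m x + D.J < k},
      (D.S.ψ (k - D.S.m x))⁻¹ * ‖u x‖ₑ ^ 2 ∂D.S.μ ≤ ΨJ * ∫⁻ x, ‖u x‖ₑ ^ 2 ∂D.S.μ := by
  classical
  have hm : ∀ k, MeasurableSet {x | D.S.m x + D.J < k} := by
    intro k
    have : {x | D.S.m x + D.J < k} = D.S.m ⁻¹' {n | n + D.J < k} := rfl
    rw [this]; exact D.S.hm MeasurableSet.of_discrete
  apply Sys.sum_weight_le hu (fun k => (D.S.measurableSet_ns k).inter (hm k)) n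
  intro x
  have := sum_shift_le (g := fun j => (D.S.ψ j)⁻¹) n (D.S.m x) (D.J + 1)
    (E := fun k => x ∈ D.S.ns k ∩ {x | D.S.m x + D.J < k})
    (fun k hk => by
      have : D.S.m x + D.J < k := hk.2
      omega) (C := ΨJ) hΨ
  refine le_trans (le_of_eq ?_) this
  apply Finset.sum_congr rfl
  intro k _
  by_cases h : x ∈ D.S.ns k ∩ {x | D.S.m x + D.J < k}
  · rw [indicator_of_mem h, if_pos h]
  · rw [indicator_of_notMem h, if_neg h]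

lemma sum_b_sq_le (m : ℕ) :
    ∑ k ∈ Finset.range m, D.S.b k ^ 2 ≤ 2 * D.S.b m ^ 2 / (D.S.Λ : ℝ) ^ 2 := by
  have hΛ : (2 : ℝ) ≤ D.S.Λ := by exact_mod_cast D.S.hΛ
  have hΛ0 := D.S.Λ_pos
  induction m with
  | zero => simp; have := D.S.b_pos 0; positivity
  | succ m ih =>
    rw [Finset.sum_range_succ, D.S.b_succ]
    have hb := D.S.b_pos m
    have h1 : 2 * (D.S.b m * D.S.Λ) ^ 2 / (D.S.Λ : ℝ) ^ 2 = 2 * D.S.b m ^ 2 := by field_simp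
    rw [h1]
    have h2 : 2 * D.S.b m ^ 2 / (D.S.Λ : ℝ) ^ 2 ≤ D.S.b m ^ 2 := by
      rw [div_le_iff₀ (by positivity)]
      have : (4 : ℝ) ≤ (D.S.Λ : ℝ) ^ 2 := by nlinarith
      nlinarith [sq_nonneg (D.S.b m)]
    linarith

lemma sum_fine_le (hu : BM u) (n : ℕ) :
    ∑ k ∈ Finset.range n, ENNReal.ofReal (c1 ^ 2 * D.S.b k ^ 2) * (∫⁻ x in {x | k < D.S.m x},
          ENNReal.ofReal ((D.S.b (D.S.m x) ^ 2)⁻¹) * ‖u x‖ₑ ^ 2 ∂D.S.μ) ≤
      ENNReal.ofReal (2 * c1 ^ 2 / (D.S.Λ : ℝ) ^ 2) * ∫⁻ x, ‖u x‖ₑ ^ 2 ∂D.S.μ := by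
  classical
  have hc := c1_pos
  have hbm : Measurable fun x => ENNReal.ofReal ((D.S.b (D.S.m x) ^ 2)⁻¹) :=
    (measurable_of_countable (fun n : ℕ => ENNReal.ofReal ((D.S.b n ^ 2)⁻¹))).comp D.S.hm
  have hms : ∀ k, MeasurableSet {x | k < D.S.m x} := fun k => D.S.hm measurableSet_Ioi
  have h1 : ∀ k ∈ Finset.range n, ENNReal.ofReal (c1 ^ 2 * D.S.b k ^ 2) * (∫⁻ x in {x | k < D.S.m x},
          ENNReal.ofReal ((D.S.b (D.S.m x) ^ 2)⁻¹) * ‖u x‖ₑ ^ 2 ∂D.S.μ) =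
      ∫⁻ x, (if k < D.S.m x then ENNReal.ofReal (c1 ^ 2 * D.S.b k ^ 2 * (D.S.b (D.S.m x) ^ 2)⁻¹) else 0) *
        ‖u x‖ₑ ^ 2 ∂D.S.μ := by
    intro k _
    rw [← lintegral_indicator (hms k), ← lintegral_const_mul' _ _ ENNReal.ofReal_ne_top]
    congr 1; ext x
    by_cases h : k < D.S.m x
    · rw [indicator_of_mem (show x ∈ {x | k < D.S.m x} from h), if_pos h, ← mul_assoc,
        ← ENNReal.ofReal_mul (by positivity)]
    · rw [indicator_of_notMem (show x ∉ {x | k < D.S.m x} from h), if_neg h, mul_zero, zero_mul]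
  rw [Finset.sum_congr rfl h1, ← lintegral_finsetSum]
  · rw [← lintegral_const_mul' _ _ ENNReal.ofReal_ne_top]
    apply lintegral_mono
    intro x
    simp only
    rw [← Finset.sum_mul]
    gcongr
    rw [← Finset.sum_filter, ← ENNReal.ofReal_sum_of_nonneg (fun k _ => by
      have := D.S.b_pos k; have := D.S.b_pos (D.S.m x); positivity)]
    apply ENNReal.ofReal_le_ofReal
    have hb := D.S.b_pos (D.S.m x)
    calc ∑ k ∈ (Finset.range n).filter (fun k => k < D.S.m x), c1 ^ 2 * D.S.b k ^ 2 * (D.S.b (D.S.m x) ^ 2)⁻¹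
        ≤ ∑ k ∈ Finset.range (D.S.m x), c1 ^ 2 * D.S.b k ^ 2 * (D.S.b (D.S.m x) ^ 2)⁻¹ := by
          apply Finset.sum_le_sum_of_subset_of_nonneg
          · intro k hk
            rw [Finset.mem_filter] at hk
            exact Finset.mem_range.2 hk.2
          · intro k _ _
            positivity
      _ = c1 ^ 2 * (D.S.b (D.S.m x) ^ 2)⁻¹ * ∑ k ∈ Finset.range (D.S.m x), D.S.b k ^ 2 := by
          rw [Finset.mul_sum]; apply Finset.sum_congr rfl; intro k _; ring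
      _ ≤ c1 ^ 2 * (D.S.b (D.S.m x) ^ 2)⁻¹ * (2 * D.S.b (D.S.m x) ^ 2 / (D.S.Λ : ℝ) ^ 2) := by
          gcongr
          exact D.sum_b_sq_le _
      _ = _ := by field_simp
  · intro k _
    apply Measurable.mul _ (hu.1.enorm.pow_const 2)
    exact (measurable_of_countable (fun n : ℕ => if k < n then
      ENNReal.ofReal (c1 ^ 2 * D.S.b k ^ 2 * (D.S.b n ^ 2)⁻¹) else 0)).comp D.S.hm

lemma fine_zero_le (hu : BM u) :
    ∫⁻ r in Ioc (0 : ℝ) (D.a 0), ENNReal.ofReal ((r ^ 3)⁻¹) * Q D.S.μ u r ≤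
      ENNReal.ofReal (c1 ^ 2 / (D.S.Λ : ℝ) ^ 2) * ∫⁻ x, ‖u x‖ₑ ^ 2 ∂D.S.μ := by
  have hc := c1_pos
  have hb := D.S.b_pos 0
  have h1 : ∀ r ∈ Ioc (0 : ℝ) (D.a 0), ENNReal.ofReal ((r ^ 3)⁻¹) * Q D.S.μ u r ≤
      ENNReal.ofReal (r * c1 ^ 2) * (ENNReal.ofReal ((D.S.b 0 ^ 2)⁻¹) * ∫⁻ x, ‖u x‖ₑ ^ 2 ∂D.S.μ) := by
    intro r hr
    have h2 := D.Q_fine_le hu MeasurableSet.univ hr.1
    rw [indicator_univ, Measure.restrict_univ] at h2
    have e3 : ENNReal.ofReal ((r ^ 3)⁻¹) * ENNReal.ofReal (r ^ 4 * c1 ^ 2) = ENNReal.ofReal (r * c1 ^ 2) := by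
      have := hr.1
      rw [← ENNReal.ofReal_mul (by positivity)]; congr 1; field_simp
    calc ENNReal.ofReal ((r ^ 3)⁻¹) * Q D.S.μ u r
        ≤ ENNReal.ofReal ((r ^ 3)⁻¹) * (ENNReal.ofReal (r ^ 4 * c1 ^ 2) *
      ∫⁻ x, ENNReal.ofReal ((D.S.b (D.S.m x) ^ 2)⁻¹) * ‖u x‖ₑ ^ 2 ∂D.S.μ) := by gcongr
      _ = ENNReal.ofReal (r * c1 ^ 2) * ∫⁻ x, ENNReal.ofReal ((D.S.b (D.S.m x) ^ 2)⁻¹) * ‖u x‖ₑ ^ 2 ∂D.S.μ := by
          rw [← mul_assoc, e3]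
      _ ≤ _ := by
          gcongr
          rw [← lintegral_const_mul' _ _ ENNReal.ofReal_ne_top]
          apply lintegral_mono
          intro x
          simp only
          gcongr
          exact Sys.b_mono (Nat.zero_le _)
  refine (setLIntegral_mono' measurableSet_Ioc h1).trans ?_
  rw [lintegral_mul_const _ (by fun_prop : Measurable fun r : ℝ => r * c1 ^ 2).ennreal_ofReal]
  calc _ ≤ ENNReal.ofReal (c1 ^ 2 * D.a 0 ^ 2) * (ENNReal.ofReal ((D.S.b 0 ^ 2)⁻¹) * ∫⁻ x, ‖u x‖ₑ ^ 2 ∂D.S.μ) := by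
        gcongr
        exact lintegral_id_le (D.a_pos 0) (by positivity) le_rfl
    _ = _ := by
        rw [← mul_assoc, ← ENNReal.ofReal_mul (by positivity)]
        congr 2
        unfold a
        have := D.S.Λ_pos
        field_simp

lemma b_ratio {j l : ℕ} (h : j ≤ l) : (D.S.b j / D.S.b l) ^ 2 ≤ (1 / 4 : ℝ) ^ (l - j) := by
  obtain ⟨t, rfl⟩ := Nat.exists_eq_add_of_le h
  have hΛ : (2 : ℝ) ≤ D.S.Λ := by exact_mod_cast D.S.hΛ
  have hΛ0 := D.S.Λ_pos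
  have hR := D.S.hR0
  have h1 : D.S.b j / D.S.b (j + t) = (1 / D.S.Λ) ^ t := by
    unfold Sys.b
    rw [pow_add, one_div, inv_pow]
    field_simp
  rw [h1, Nat.add_sub_cancel_left, ← pow_mul, mul_comm, pow_mul]
  apply pow_le_pow_left₀ (by positivity)
  rw [div_pow, one_pow]
  apply one_div_le_one_div_of_le (by norm_num)
  nlinarith

/-- total contribution of the alive clusters -/
lemma sum_alive_le {ν : ℝ≥0∞} (hu : BM u) (n : ℕ) :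
    ∑ k ∈ Finset.range n, (∑ q ∈ D.S.Alive k,
          ENNReal.ofReal (3600 * Real.pi * D.S.A * LL ^ 2 * (D.S.b q.1 / D.a k) ^ 2) *
            (ν * D.S.nn u (D.S.G q))) ≤
      ENNReal.ofReal (7200 * Real.pi * D.S.A * LL ^ 2) * ν * ∫⁻ x, ‖u x‖ₑ ^ 2 ∂D.S.μ := by
  classical
  have hpi := Real.pi_pos
  have hL := LL_pos
  rcases n with _ | n
  · simp
  rw [Finset.sum_range_succ', show D.S.Alive 0 = ∅ from rfl, Finset.sum_empty, add_zero]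
  set nκ : ℕ → ℝ≥0∞ := fun κ => ∑ P ∈ D.S.Sel κ, D.S.nn u (D.S.G (κ, P)) with hnκ
  have h1 : ∀ l ∈ Finset.range n, (∑ q ∈ D.S.Alive (l + 1),
          ENNReal.ofReal (3600 * Real.pi * D.S.A * LL ^ 2 * (D.S.b q.1 / D.a (l + 1)) ^ 2) *
            (ν * D.S.nn u (D.S.G q))) ≤
      ENNReal.ofReal (3600 * Real.pi * D.S.A * LL ^ 2) * ν *
        ∑ κ ∈ Finset.range (l + 1), (1 / 2 : ℝ≥0∞) ^ (l - κ) * nκ κ := by
    intro l _
    have h2 : ∑ q ∈ D.S.Alive (l + 1), ((1 / 2 : ℝ≥0∞) ^ (l - q.1) * D.S.nn u (D.S.G q)) ≤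
        ∑ κ ∈ Finset.range (l + 1), ∑ P ∈ D.S.Sel κ, ((1 / 2 : ℝ≥0∞) ^ (l - κ) * D.S.nn u (D.S.G (κ, P))) := by
      have := D.S.sel_sum (l + 1) (fun q => (1 / 2 : ℝ≥0∞) ^ (l - q.1) * D.S.nn u (D.S.G q))
      simp only at this
      rw [this]
      exact le_self_add
    have h3 : ∑ κ ∈ Finset.range (l + 1), ∑ P ∈ D.S.Sel κ, ((1 / 2 : ℝ≥0∞) ^ (l - κ) * D.S.nn u (D.S.G (κ, P))) =
        ∑ κ ∈ Finset.range (l + 1), (1 / 2 : ℝ≥0∞) ^ (l - κ) * nκ κ := by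
      apply Finset.sum_congr rfl; intro κ _
      rw [hnκ, Finset.mul_sum]
    rw [h3] at h2
    refine le_trans ?_ (mul_le_mul_right h2 _)
    rw [Finset.mul_sum]
    apply Finset.sum_le_sum
    intro q hq
    have hq1 := (D.S.alive_mem _ q hq).1
    have h4 : ENNReal.ofReal (3600 * Real.pi * D.S.A * LL ^ 2 * (D.S.b q.1 / D.a (l + 1)) ^ 2) ≤
        ENNReal.ofReal (3600 * Real.pi * D.S.A * LL ^ 2) * (1 / 2 : ℝ≥0∞) ^ (l - q.1) := by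
      rw [show (1 / 2 : ℝ≥0∞) = ENNReal.ofReal (1 / 2) by
        rw [ENNReal.ofReal_div_of_pos (by norm_num)]; simp,
        ← ENNReal.ofReal_pow (by norm_num), ← ENNReal.ofReal_mul (by positivity)]
      apply ENNReal.ofReal_le_ofReal
      apply mul_le_mul_of_nonneg_left _ (by positivity)
      rw [D.a_succ]
      refine (D.b_ratio (by omega)).trans ?_
      exact pow_le_pow_left₀ (by norm_num) (by norm_num) _
    calc _ ≤ ENNReal.ofReal (3600 * Real.pi * D.S.A * LL ^ 2) * (1 / 2 : ℝ≥0∞) ^ (l - q.1) *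
          (ν * D.S.nn u (D.S.G q)) := by gcongr
      _ = _ := by ring
  refine (Finset.sum_le_sum h1).trans ?_
  rw [← Finset.mul_sum]
  calc ENNReal.ofReal (3600 * Real.pi * D.S.A * LL ^ 2) * ν *
        ∑ l ∈ Finset.range n, ∑ κ ∈ Finset.range (l + 1), (1 / 2 : ℝ≥0∞) ^ (l - κ) * nκ κ
      ≤ ENNReal.ofReal (3600 * Real.pi * D.S.A * LL ^ 2) * ν * (2 * ∑ κ ∈ Finset.range n, nκ κ) := by
        gcongr
        exact sum_conv_le (fun t => (1 / 2 : ℝ≥0∞) ^ t) nκ tsum_half.le n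
    _ ≤ ENNReal.ofReal (3600 * Real.pi * D.S.A * LL ^ 2) * ν * (2 * ∫⁻ x, ‖u x‖ₑ ^ 2 ∂D.S.μ) := by
        gcongr
        exact Sys.sum_clusters_le (S := D.S) (fun x => ‖u x‖ₑ ^ 2) (hu.1.enorm.pow_const 2) n
    _ = _ := by
        have : ENNReal.ofReal (7200 * Real.pi * D.S.A * LL ^ 2) =
            ENNReal.ofReal (3600 * Real.pi * D.S.A * LL ^ 2) * 2 := by
          rw [show (2 : ℝ≥0∞) = ENNReal.ofReal 2 by simp, ← ENNReal.ofReal_mul (by positivity)]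
          congr 1; ring
        rw [this]; ring

/-- total contribution of the dead clusters -/
lemma sum_dead_le {ν : ℝ≥0∞} (hu : BM u) (n : ℕ) :
    ∑ k ∈ Finset.range n, (ENNReal.ofReal ((D.a k ^ 2)⁻¹) * ∑ j ∈ Finset.range k, 2 ^ (k - j) *
          (ENNReal.ofReal (14400 * Real.pi * D.S.A * LL ^ 2 * D.S.b j ^ 2) *
            (ν * ∑ P ∈ D.S.Enr j, ∑ q ∈ D.S.DQ j P, D.S.nn u (D.S.G q)))) ≤
      ENNReal.ofReal (57600 * Real.pi * D.S.A * LL ^ 2) * ν * ∫⁻ x, ‖u x‖ₑ ^ 2 ∂D.S.μ := by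
  classical
  have hpi := Real.pi_pos
  have hL := LL_pos
  rcases n with _ | n
  · simp
  rw [Finset.sum_range_succ', Finset.range_zero, Finset.sum_empty, mul_zero, add_zero]
  set dj : ℕ → ℝ≥0∞ := fun j => ∑ P ∈ D.S.Enr j, ∑ q ∈ D.S.DQ j P, D.S.nn u (D.S.G q) with hdj
  have h1 : ∀ l ∈ Finset.range n, (ENNReal.ofReal ((D.a (l + 1) ^ 2)⁻¹) *
      ∑ j ∈ Finset.range (l + 1), 2 ^ (l + 1 - j) *
          (ENNReal.ofReal (14400 * Real.pi * D.S.A * LL ^ 2 * D.S.b j ^ 2) * (ν * dj j))) ≤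
      ENNReal.ofReal (28800 * Real.pi * D.S.A * LL ^ 2) * ν *
        ∑ j ∈ Finset.range (l + 1), (1 / 2 : ℝ≥0∞) ^ (l - j) * dj j := by
    intro l _
    rw [Finset.mul_sum, Finset.mul_sum]
    apply Finset.sum_le_sum
    intro j hj
    rw [Finset.mem_range] at hj
    have hbl := D.S.b_pos l
    have hbj := D.S.b_pos j
    have h4 : ENNReal.ofReal ((D.a (l + 1) ^ 2)⁻¹) * (2 ^ (l + 1 - j) *
        ENNReal.ofReal (14400 * Real.pi * D.S.A * LL ^ 2 * D.S.b j ^ 2)) ≤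
        ENNReal.ofReal (28800 * Real.pi * D.S.A * LL ^ 2) * (1 / 2 : ℝ≥0∞) ^ (l - j) := by
      rw [show (1 / 2 : ℝ≥0∞) = ENNReal.ofReal (1 / 2) by
        rw [ENNReal.ofReal_div_of_pos (by norm_num)]; simp,
        ← ENNReal.ofReal_pow (by norm_num), ← ENNReal.ofReal_mul (by positivity),
        show (2 : ℝ≥0∞) ^ (l + 1 - j) = ENNReal.ofReal ((2 : ℝ) ^ (l + 1 - j)) by
          rw [ENNReal.ofReal_pow (by norm_num)]; simp,
        ← ENNReal.ofReal_mul (by positivity), ← ENNReal.ofReal_mul (by positivity)]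
      apply ENNReal.ofReal_le_ofReal
      rw [D.a_succ]
      have h5 := D.b_ratio (show j ≤ l by omega)
      have h6 : (1 / 4 : ℝ) ^ (l - j) * 2 ^ (l - j) = (1 / 2) ^ (l - j) := by
        rw [← mul_pow]; norm_num
      calc (D.S.b l ^ 2)⁻¹ * (2 ^ (l + 1 - j) * (14400 * Real.pi * D.S.A * LL ^ 2 * D.S.b j ^ 2))
          = 28800 * Real.pi * D.S.A * LL ^ 2 * ((D.S.b j / D.S.b l) ^ 2 * 2 ^ (l - j)) := by
            rw [show l + 1 - j = (l - j) + 1 by omega, pow_succ]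
            field_simp
            ring
        _ ≤ 28800 * Real.pi * D.S.A * LL ^ 2 * ((1 / 4 : ℝ) ^ (l - j) * 2 ^ (l - j)) := by gcongr
        _ = _ := by rw [h6]
    calc _ = (ENNReal.ofReal ((D.a (l + 1) ^ 2)⁻¹) * (2 ^ (l + 1 - j) *
        ENNReal.ofReal (14400 * Real.pi * D.S.A * LL ^ 2 * D.S.b j ^ 2))) * (ν * dj j) := by ring
      _ ≤ (ENNReal.ofReal (28800 * Real.pi * D.S.A * LL ^ 2) * (1 / 2 : ℝ≥0∞) ^ (l - j)) * (ν * dj j) := by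
          gcongr
      _ = _ := by ring
  refine (Finset.sum_le_sum h1).trans ?_
  rw [← Finset.mul_sum]
  have hdsum : ∑ j ∈ Finset.range n, dj j ≤ ∫⁻ x, ‖u x‖ₑ ^ 2 ∂D.S.μ := by
    refine le_trans ?_ (Sys.sum_clusters_le (S := D.S) (fun x => ‖u x‖ₑ ^ 2) (hu.1.enorm.pow_const 2) n)
    have := D.S.sel_sum n (fun q => D.S.nn u (D.S.G q))
    change _ ≤ ∑ κ ∈ Finset.range n, ∑ P ∈ D.S.Sel κ, D.S.nn u (D.S.G (κ, P))
    rw [this]
    exact le_add_self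
  calc ENNReal.ofReal (28800 * Real.pi * D.S.A * LL ^ 2) * ν *
        ∑ l ∈ Finset.range n, ∑ j ∈ Finset.range (l + 1), (1 / 2 : ℝ≥0∞) ^ (l - j) * dj j
      ≤ ENNReal.ofReal (28800 * Real.pi * D.S.A * LL ^ 2) * ν * (2 * ∑ j ∈ Finset.range n, dj j) := by
        gcongr
        exact sum_conv_le (fun t => (1 / 2 : ℝ≥0∞) ^ t) dj tsum_half.le n
    _ ≤ ENNReal.ofReal (28800 * Real.pi * D.S.A * LL ^ 2) * ν * (2 * ∫⁻ x, ‖u x‖ₑ ^ 2 ∂D.S.μ) := by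
        gcongr
    _ = _ := by
        have : ENNReal.ofReal (57600 * Real.pi * D.S.A * LL ^ 2) =
            ENNReal.ofReal (28800 * Real.pi * D.S.A * LL ^ 2) * 2 := by
          rw [show (2 : ℝ≥0∞) = ENNReal.ofReal 2 by simp, ← ENNReal.ofReal_mul (by positivity)]
          congr 1; ring
        rw [this]; ring

/-- **The core estimate.** -/
theorem core (hu : BM u) {N : ℕ × (ℤ × ℤ) → ℕ} {ν θd Ψ ΨJ : ℝ≥0∞} (hN : ∀ q, 0 < N q)
    (hΨ : ∑' j, (D.S.ψ j)⁻¹ ≤ Ψ) (hΨJ : ∑' j, (D.S.ψ (j + (D.J + 1)))⁻¹ ≤ ΨJ) (i : ℕ)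
    (hmz : ∀ κ ≤ i, ∀ P ∈ D.S.Sel κ, D.S.MZ u N (κ, P))
    (hν : ∀ κ ≤ i, ∀ P ∈ D.S.Sel κ, D.S.μ (D.S.G (κ, P)) ≤ ν * (N (κ, P) : ℝ≥0∞) ^ 2)
    (hfm : ∀ j < i, ∀ P ∈ D.S.Enr j, D.S.FM u j P)
    (hsel : ∀ κ ≤ i, ∀ P ∈ D.S.Sel κ, (∫⁻ r in Ioc (D.a κ) (D.S.b κ),
      ENNReal.ofReal ((r ^ 3)⁻¹) * Q D.S.μ ((D.S.G (κ, P)).indicator u) r) ≤
        θd * D.S.nn u (D.S.G (κ, P)))
    (hbad : ∑ k ∈ Finset.range (i + 1), (∫⁻ r in Ioc (D.a k) (D.S.b k),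
      ENNReal.ofReal ((r ^ 3)⁻¹) * Q D.S.μ ((D.Bd ∩ {x | D.S.m x ≤ k}).indicator u) r) ≤
        θd * ∫⁻ x, ‖u x‖ₑ ^ 2 ∂D.S.μ)
    {θ : ℝ} (hθ : 0 < θ) :
    JJ D.S.μ u (D.S.b i) ≤
      (ENNReal.ofReal (1 + θ) * (ENNReal.ofReal (Real.log D.S.Λ / (2 * Real.pi)) * D.S.thr) +
      ENNReal.ofReal (1 + θ⁻¹) * (6 * (
        9 * D.S.thr * (ENNReal.ofReal (Real.log D.S.Λ / (2 * Real.pi)) * ΨJ +
          ENNReal.ofReal (Real.log (1 / D.δ) / (2 * Real.pi)) * Ψ) +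
        9 * θd +
        ENNReal.ofReal (Real.log D.S.Λ) * (ENNReal.ofReal (64800 * Real.pi * D.S.A * LL ^ 2) * ν) +
        ENNReal.ofReal (3 * c1 ^ 2 / (D.S.Λ : ℝ) ^ 2) + θd))) * ∫⁻ x, ‖u x‖ₑ ^ 2 ∂D.S.μ := by
  classical
  set NN := ∫⁻ x, ‖u x‖ₑ ^ 2 ∂D.S.μ with hNN
  have hpi := Real.pi_pos
  have hc := c1_pos
  have hL := LL_pos
  unfold JJ
  rw [D.JJ_split]
  have hlev : ∀ k ∈ Finset.range (i + 1), _ := fun k hk =>
    D.int_level_le hu (ν := ν) hN k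
      (fun κ hκ => hmz κ (by rw [Finset.mem_range] at hk; omega))
      (fun κ hκ => hν κ (by rw [Finset.mem_range] at hk; omega))
      (fun j hj => hfm j (by rw [Finset.mem_range] at hk; omega)) hθ
  refine (add_le_add (D.fine_zero_le hu) (Finset.sum_le_sum hlev)).trans ?_
  simp only [Finset.sum_add_distrib, ← Finset.mul_sum]
  have e1 := Sys.sum_main_le (S := D.S) D.hψ1 hu (i + 1)
  have e2 := D.sum_A_le hu hΨJ (i + 1)
  have e3 := D.sum_B_le hu hΨ (i + 1)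
  have e4 : ∑ k ∈ Finset.range (i + 1), ∑ P ∈ D.S.Sel k, (∫⁻ r in Ioc (D.a k) (D.S.b k),
          ENNReal.ofReal ((r ^ 3)⁻¹) * Q D.S.μ ((D.S.G (k, P)).indicator u) r) ≤ θd * NN := by
    calc _ ≤ ∑ k ∈ Finset.range (i + 1), ∑ P ∈ D.S.Sel k, θd * D.S.nn u (D.S.G (k, P)) := by
          apply Finset.sum_le_sum; intro k hk
          apply Finset.sum_le_sum; intro P hP
          exact hsel k (by rw [Finset.mem_range] at hk; omega) P hP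
      _ = θd * ∑ k ∈ Finset.range (i + 1), ∑ P ∈ D.S.Sel k, D.S.nn u (D.S.G (k, P)) := by
          rw [Finset.mul_sum]; apply Finset.sum_congr rfl; intro k _; rw [Finset.mul_sum]
      _ ≤ _ := by
          gcongr
          exact Sys.sum_clusters_le (S := D.S) (fun x => ‖u x‖ₑ ^ 2) (hu.1.enorm.pow_const 2) (i + 1)
  have e5 := D.sum_alive_le (ν := ν) hu (i + 1)
  have e6 := D.sum_dead_le (ν := ν) hu (i + 1)
  have e7 := D.sum_fine_le hu (i + 1)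
  have h6 : ENNReal.ofReal (c1 ^ 2 / (D.S.Λ : ℝ) ^ 2) ≤
      ENNReal.ofReal (1 + θ⁻¹) * (6 * ENNReal.ofReal (c1 ^ 2 / (D.S.Λ : ℝ) ^ 2)) := by
    have h7 : (1 : ℝ≥0∞) ≤ ENNReal.ofReal (1 + θ⁻¹) * 6 := by
      have : (1 : ℝ≥0∞) ≤ ENNReal.ofReal (1 + θ⁻¹) := by
        rw [← ENNReal.ofReal_one]
        apply ENNReal.ofReal_le_ofReal
        have : 0 < θ⁻¹ := inv_pos.2 hθ
        linarith
      calc (1 : ℝ≥0∞) = 1 * 1 := (one_mul 1).symm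
        _ ≤ _ := mul_le_mul' this (by norm_num)
    calc ENNReal.ofReal (c1 ^ 2 / (D.S.Λ : ℝ) ^ 2) = 1 * ENNReal.ofReal (c1 ^ 2 / (D.S.Λ : ℝ) ^ 2) :=
          (one_mul _).symm
      _ ≤ (ENNReal.ofReal (1 + θ⁻¹) * 6) * ENNReal.ofReal (c1 ^ 2 / (D.S.Λ : ℝ) ^ 2) := by gcongr
      _ = _ := by ring
  have h8 : ENNReal.ofReal (64800 * Real.pi * D.S.A * LL ^ 2) =
      ENNReal.ofReal (7200 * Real.pi * D.S.A * LL ^ 2) + ENNReal.ofReal (57600 * Real.pi * D.S.A * LL ^ 2) := by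
    rw [← ENNReal.ofReal_add (by positivity) (by positivity)]
    congr 1; ring
  have h9 : ENNReal.ofReal (3 * c1 ^ 2 / (D.S.Λ : ℝ) ^ 2) =
      ENNReal.ofReal (2 * c1 ^ 2 / (D.S.Λ : ℝ) ^ 2) + ENNReal.ofReal (c1 ^ 2 / (D.S.Λ : ℝ) ^ 2) := by
    rw [← ENNReal.ofReal_add (by positivity) (by positivity)]
    congr 1; ring
  rw [h8, h9]
  calc _ ≤ (ENNReal.ofReal (1 + θ⁻¹) * (6 * ENNReal.ofReal (c1 ^ 2 / (D.S.Λ : ℝ) ^ 2))) * NN +
      (ENNReal.ofReal (1 + θ) * (ENNReal.ofReal (Real.log D.S.Λ / (2 * Real.pi)) * (D.S.thr * NN)) +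
      ENNReal.ofReal (1 + θ⁻¹) * (6 * (
        9 * D.S.thr * (ENNReal.ofReal (Real.log D.S.Λ / (2 * Real.pi)) * (ΨJ * NN) +
          ENNReal.ofReal (Real.log (1 / D.δ) / (2 * Real.pi)) * (Ψ * NN)) +
        9 * (θd * NN) +
        ENNReal.ofReal (Real.log D.S.Λ) * (ENNReal.ofReal (7200 * Real.pi * D.S.A * LL ^ 2) * ν * NN) +
        ENNReal.ofReal (Real.log D.S.Λ) * (ENNReal.ofReal (57600 * Real.pi * D.S.A * LL ^ 2) * ν * NN) +
        ENNReal.ofReal (2 * c1 ^ 2 / (D.S.Λ : ℝ) ^ 2) * NN + θd * NN))) := by gcongr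
    _ = _ := by ring

end Setting

end Pool.Agent.LT2
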