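import Mathlib

/-!
# Two-dimensional Lieb–Thirring constants (MP_50e96d_mp): definitions

The `n`-th negative eigenvalue `E_n(-Δ+V)` is given by the min–max principle with the form core
`C_c^∞(ℝ²; ℂ)`.
-/

namespace Pool.Agent.LT2

open MeasureTheory
open scoped ENNReal

/-- The Euclidean plane `ℝ²`. -/
abbrev Plane : Type := EuclideanSpace ℝ (Fin 2)

/-- Test functions `u ∈ C_c^∞(ℝ²; ℂ)`. -/
def IsTest (u : Plane → ℂ) : Prop := ContDiff ℝ (⊤ : ℕ∞) u ∧ HasCompactSupport u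

/-- The quadratic form `h_V[u] = ∫ |∇u|² + ∫ V |u|²` of `-Δ + V`. -/
noncomputable def form (V : Plane → ℝ) (u : Plane → ℂ) : ℝ :=
  (∫ x, ∑ i : Fin 2, ‖fderiv ℝ u x (EuclideanSpace.single i 1)‖ ^ 2) + ∫ x, V x * ‖u x‖ ^ 2

/-- The `n`-th min–max value of `-Δ + V` (`n ≥ 1`): the infimum, over the `n`-dimensional spaces
`F ⊆ C_c^∞(ℝ²; ℂ)`, of the supremum of `h_V[u]` over the `u ∈ F` with `‖u‖₂ = 1`. -/
noncomputable def minmax (V : Plane → ℝ) (n : ℕ) : EReal :=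
  ⨅ F : {F : Submodule ℂ (Plane → ℂ) // (∀ u ∈ F, IsTest u) ∧ Module.finrank ℂ F = n},
    ⨆ u : {u : Plane → ℂ // u ∈ F.1 ∧ ∫ x, ‖u x‖ ^ 2 = 1}, (form V u.1 : EReal)

/-- `|E_n(-Δ+V)|^γ` for the `n`-th negative eigenvalue, read as `0` when there are fewer than `n`
negative eigenvalues. -/
noncomputable def absPow (V : Plane → ℝ) (γ : ℝ) (n : ℕ) : ℝ≥0∞ :=
  (-(minmax V n)).toENNReal ^ γ

/-- `∫ V_-^{γ+1}`. -/
noncomputable def negInt (V : Plane → ℝ) (γ : ℝ) : ℝ≥0∞ :=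
  ∫⁻ x, ENNReal.ofReal (max (-V x) 0) ^ (γ + 1)

/-- The Lieb–Thirring constant `L_{γ,2}`: the smallest `C` such that
`∑_n |E_n(-Δ+V)|^γ ≤ C ∫ V_-^{γ+1}` for all real `V ∈ L^{γ+1}(ℝ²)`. -/
noncomputable def LT (γ : ℝ) : ℝ≥0∞ :=
  sInf {C : ℝ≥0∞ | ∀ V : Plane → ℝ, MemLp V (ENNReal.ofReal (γ + 1)) volume →
    ∑' n : ℕ, absPow V γ (n + 1) ≤ C * negInt V γ}

/-- The one-eigenvalue constant `L^{(1)}_{γ,2}`: the smallest `C` such that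
`|E_1(-Δ+V)|^γ ≤ C ∫ V_-^{γ+1}` for all real `V ∈ L^{γ+1}(ℝ²)`. -/
noncomputable def LT1 (γ : ℝ) : ℝ≥0∞ :=
  sInf {C : ℝ≥0∞ | ∀ V : Plane → ℝ, MemLp V (ENNReal.ofReal (γ + 1)) volume →
    absPow V γ 1 ≤ C * negInt V γ}

end Pool.Agent.LT2
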