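import Pool.Agent.Lib.MP_50e96d_mp.Machine

/-!
# Elementary estimates for the square functions
-/

namespace Pool.Agent.LT2

open MeasureTheory Set Filter
open scoped ENNReal

/-- bounded measurable functions -/
def BM (w : Plane → ℝ) : Prop := Measurable w ∧ ∃ B : ℝ, ∀ x, |w x| ≤ B

lemma BM.indicator {w : Plane → ℝ} (hw : BM w) {S : Set Plane} (hS : MeasurableSet S) :
    BM (S.indicator w) := by
  obtain ⟨h1, B, hB⟩ := hw
  refine ⟨h1.indicator hS, B, fun x => ?_⟩
  by_cases h : x ∈ S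
  · rw [indicator_of_mem h]; exact hB x
  · rw [indicator_of_notMem h, abs_zero]; exact (abs_nonneg _).trans (hB x)

lemma BM.add {w v : Plane → ℝ} (hw : BM w) (hv : BM v) : BM fun x => w x + v x := by
  obtain ⟨h1, B, hB⟩ := hw
  obtain ⟨h2, C, hC⟩ := hv
  exact ⟨h1.add h2, B + C, fun x => (abs_add_le _ _).trans (add_le_add (hB x) (hC x))⟩

lemma BM.sum {ι : Type*} (s : Finset ι) {w : ι → Plane → ℝ} (hw : ∀ i ∈ s, BM (w i)) :
    BM fun x => ∑ i ∈ s, w i x := by
  classical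
  induction s using Finset.induction_on with
  | empty => simp only [Finset.sum_empty]; exact ⟨measurable_const, 0, by simp⟩
  | insert a s ha ih =>
    simp only [Finset.sum_insert ha]
    exact (hw a (Finset.mem_insert_self _ _)).add (ih fun i hi => hw i (Finset.mem_insert_of_mem hi))

lemma BM.integrable {μ : Measure Plane} [IsFiniteMeasure μ] {w : Plane → ℝ} (hw : BM w) :
    Integrable w μ := by
  obtain ⟨h1, B, hB⟩ := hw
  exact Integrable.of_bound h1.aestronglyMeasurable B (Eventually.of_forall fun x => by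
    rw [Real.norm_eq_abs]; exact hB x)

lemma BM.memLp {μ : Measure Plane} [IsFiniteMeasure μ] {w : Plane → ℝ} (hw : BM w) :
    MemLp w 2 μ := by
  obtain ⟨h1, B, hB⟩ := hw
  exact MemLp.of_bound h1.aestronglyMeasurable B (Eventually.of_forall fun x => by
    rw [Real.norm_eq_abs]; exact hB x)

lemma BM.mul {w v : Plane → ℝ} (hw : BM w) (hv : BM v) : BM fun x => w x * v x := by
  obtain ⟨h1, B, hB⟩ := hw
  obtain ⟨h2, C, hC⟩ := hv
  refine ⟨h1.mul h2, B * C, fun x => ?_⟩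
  rw [abs_mul]
  exact mul_le_mul (hB x) (hC x) (abs_nonneg _) ((abs_nonneg _).trans (hB x))

lemma BM_kr (r : ℝ) (z : Plane) : BM fun x => kr r (z - x) := by
  obtain ⟨C, hC⟩ := kr_bounded r
  exact ⟨((kr_continuous r).comp (continuous_const.sub continuous_id)).measurable, C, fun x => hC _⟩

set_option linter.unusedSectionVars false

variable {μ : Measure Plane} [IsFiniteMeasure μ]

lemma T_add {w v : Plane → ℝ} (hw : BM w) (hv : BM v) (r : ℝ) (z : Plane) :
    T μ (fun x => w x + v x) r z = T μ w r z + T μ v r z := by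
  unfold T
  rw [← integral_add]
  · congr 1; ext x; ring
  · exact ((BM_kr r z).mul hw).integrable
  · exact ((BM_kr r z).mul hv).integrable

lemma T_sum {ι : Type*} (s : Finset ι) {w : ι → Plane → ℝ} (hw : ∀ i ∈ s, BM (w i)) (r : ℝ)
    (z : Plane) : T μ (fun x => ∑ i ∈ s, w i x) r z = ∑ i ∈ s, T μ (w i) r z := by
  unfold T
  rw [← integral_finsetSum]
  · congr 1; ext x; rw [Finset.mul_sum]
  · intro i hi
    exact ((BM_kr r z).mul (hw i hi)).integrable

lemma Q_sum_le {ι : Type*} (s : Finset ι) {w : ι → Plane → ℝ} (hw : ∀ i ∈ s, BM (w i)) (r : ℝ)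
    {N : ℕ} (hN : ∀ z, (s.filter fun i => T μ (w i) r z ≠ 0).card ≤ N) :
    Q μ (fun x => ∑ i ∈ s, w i x) r ≤ N * ∑ i ∈ s, Q μ (w i) r := by
  unfold Q
  rw [← lintegral_finsetSum' s fun i hi =>
    ((T_measurable' (hw i hi).1 r).enorm.pow_const 2).aemeasurable]
  rw [← lintegral_const_mul' _ _ (by simp)]
  apply lintegral_mono
  intro z
  simp only [T_sum s hw]
  exact enorm_sum_sq_le s _ (hN z)

lemma exists_near_of_T_ne {w : Plane → ℝ} {r : ℝ} (hr : 0 < r) {z : Plane}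
    (h : T μ w r z ≠ 0) : ∃ x, w x ≠ 0 ∧ ‖z - x‖ < r := by
  by_contra hcon
  push Not at hcon
  apply h
  unfold T
  apply integral_eq_zero_of_ae
  filter_upwards with x
  by_cases hx : w x = 0
  · simp [hx]
  · rw [kr_zero hr (hcon x hx)]; simp

lemma exists_near_of_T_indicator_ne {u : Plane → ℝ} {S : Set Plane} {r : ℝ} (hr : 0 < r)
    {z : Plane} (h : T μ (S.indicator u) r z ≠ 0) : ∃ x ∈ S, ‖z - x‖ < r := by
  obtain ⟨x, hx, hxr⟩ := exists_near_of_T_ne hr h
  refine ⟨x, ?_, hxr⟩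
  by_contra hS
  exact hx (indicator_of_notMem hS _)

/-- sup bound times area of the support -/
lemma Q_le_of_bound {w : Plane → ℝ} {r ρ : ℝ} (hr : 0 < r) (hρ : ρ ≤ 2 * r)
    {x0 : Plane} (hsupp : ∀ x, w x ≠ 0 → ‖x - x0‖ ≤ ρ) {C : ℝ≥0∞}
    (hC : ∀ z, ‖T μ w r z‖ₑ ^ 2 ≤ C) :
    Q μ w r ≤ ENNReal.ofReal (9 * Real.pi * r ^ 2) * C := by
  unfold Q
  have h1 : ∀ z, ‖T μ w r z‖ₑ ^ 2 ≤ (Metric.ball x0 (3 * r)).indicator (fun _ => C) z := by
    intro z
    by_cases hz : z ∈ Metric.ball x0 (3 * r)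
    · rw [indicator_of_mem hz]; exact hC z
    · have : T μ w r z = 0 := by
        by_contra hne
        obtain ⟨x, hx, hxr⟩ := exists_near_of_T_ne hr hne
        apply hz
        rw [Metric.mem_ball, dist_eq_norm]
        have h2 := hsupp x hx
        have h3 : z - x0 = (z - x) + (x - x0) := by abel
        rw [h3]
        exact lt_of_le_of_lt (norm_add_le _ _) (by linarith)
      rw [this]; simp
  calc ∫⁻ z, ‖T μ w r z‖ₑ ^ 2 ≤ ∫⁻ z, (Metric.ball x0 (3 * r)).indicator (fun _ => C) z :=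
        lintegral_mono h1
    _ = C * volume (Metric.ball x0 (3 * r)) := by
        rw [lintegral_indicator measurableSet_ball, lintegral_const, Measure.restrict_apply_univ]
    _ = _ := by
        rw [EuclideanSpace.volume_ball_fin_two, mul_comm, ← ENNReal.ofReal_pow (by positivity),
          mul_comm (ENNReal.ofReal _), ← ENNReal.ofReal_mul (by positivity)]
        congr 2
        ring

/-- splitting an integral over the fibres of a discrete map -/
lemma fiber_integral {G : Set Plane} (hG : MeasurableSet G) {f : Plane → ℤ × ℤ}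
    (hf : Measurable f) (F : Finset (ℤ × ℤ)) (hGF : ∀ x ∈ G, f x ∈ F) {g : Plane → ℝ}
    (hg : IntegrableOn g G μ) : ∫ x in G, g x ∂μ = ∑ P ∈ F, ∫ x in G ∩ f ⁻¹' {P}, g x ∂μ := by
  have h1 : G = ⋃ P ∈ F, G ∩ f ⁻¹' {P} := by
    ext x
    simp only [mem_iUnion, mem_inter_iff, mem_preimage, mem_singleton_iff, exists_prop]
    constructor
    · intro hx; exact ⟨f x, hGF x hx, hx, rfl⟩
    · rintro ⟨P, _, hx, _⟩; exact hx
  conv_lhs => rw [h1]
  apply integral_biUnion_finset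
  · intro P _; exact hG.inter (hf (measurableSet_singleton P))
  · intro P _ P' _ hPP'
    rw [Function.onFun, Set.disjoint_left]
    rintro x ⟨_, h2⟩ ⟨_, h3⟩
    simp only [mem_preimage, mem_singleton_iff] at h2 h3
    exact hPP' (h2.symm.trans h3)
  · intro P _; exact hg.mono_set inter_subset_left

lemma fiber_lintegral {G : Set Plane} (hG : MeasurableSet G) {f : Plane → ℤ × ℤ}
    (hf : Measurable f) (F : Finset (ℤ × ℤ)) (hGF : ∀ x ∈ G, f x ∈ F) (g : Plane → ℝ≥0∞) :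
    ∫⁻ x in G, g x ∂μ = ∑ P ∈ F, ∫⁻ x in G ∩ f ⁻¹' {P}, g x ∂μ := by
  have h1 : G = ⋃ P ∈ F, G ∩ f ⁻¹' {P} := by
    ext x
    simp only [mem_iUnion, mem_inter_iff, mem_preimage, mem_singleton_iff, exists_prop]
    constructor
    · intro hx; exact ⟨f x, hGF x hx, hx, rfl⟩
    · rintro ⟨P, _, hx, _⟩; exact hx
  conv_lhs => rw [h1]
  apply lintegral_biUnion_finset
  · intro P _ P' _ hPP'
    rw [Function.onFun, Set.disjoint_left]
    rintro x ⟨_, h2⟩ ⟨_, h3⟩
    simp only [mem_preimage, mem_singleton_iff] at h2 h3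
    exact hPP' (h2.symm.trans h3)
  · intro P _; exact hG.inter (hf (measurableSet_singleton P))

/-- the mean-zero estimate -/
lemma mean_zero_le {G : Set Plane} (hG : MeasurableSet G) {f : Plane → ℤ × ℤ}
    (hf : Measurable f) (F : Finset (ℤ × ℤ)) (hGF : ∀ x ∈ G, f x ∈ F) {u h : Plane → ℝ}
    (hu : IntegrableOn u G μ) (hhu : IntegrableOn (fun x => h x * u x) G μ)
    (h0 : ∀ P ∈ F, ∫ x in G ∩ f ⁻¹' {P}, u x ∂μ = 0) {ℓ : ℝ}
    (hℓ : ∀ x ∈ G, ∀ y ∈ G, f x = f y → |h x - h y| ≤ ℓ) :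
    ‖∫ x in G, h x * u x ∂μ‖ₑ ≤ ENNReal.ofReal ℓ * ∫⁻ x in G, ‖u x‖ₑ ∂μ := by
  classical
  rw [fiber_integral hG hf F hGF hhu, fiber_lintegral hG hf F hGF, Finset.mul_sum]
  refine (enorm_sum_le _ _).trans (Finset.sum_le_sum fun P hP => ?_)
  have hms : MeasurableSet (G ∩ f ⁻¹' {P}) := hG.inter (hf (measurableSet_singleton P))
  rcases (G ∩ f ⁻¹' {P}).eq_empty_or_nonempty with he | ⟨p, hp⟩
  · rw [he]; simp
  · have h1 : ∫ x in G ∩ f ⁻¹' {P}, h x * u x ∂μ = ∫ x in G ∩ f ⁻¹' {P}, (h x - h p) * u x ∂μ := by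
      have h2 : ∫ x in G ∩ f ⁻¹' {P}, (h x - h p) * u x ∂μ =
          ∫ x in G ∩ f ⁻¹' {P}, h x * u x ∂μ - ∫ x in G ∩ f ⁻¹' {P}, h p * u x ∂μ := by
        rw [← integral_sub (hhu.mono_set inter_subset_left)
          ((hu.mono_set inter_subset_left).const_mul _)]
        congr 1; ext x; ring
      rw [h2, integral_const_mul, h0 P hP]; ring
    rw [h1]
    refine (enorm_integral_le_lintegral_enorm _).trans ?_
    rw [← lintegral_const_mul' _ _ ENNReal.ofReal_ne_top]
    apply setLIntegral_mono' hms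
    intro x hx
    rw [enorm_mul]
    gcongr
    rw [Real.enorm_eq_ofReal_abs]
    apply ENNReal.ofReal_le_ofReal
    apply hℓ x hx.1 p hp.1
    have e1 := hx.2
    have e2 := hp.2
    simp only [mem_preimage, mem_singleton_iff] at e1 e2
    rw [e1, e2]

omit [IsFiniteMeasure μ] in
lemma lintegral_sq_le {G : Set Plane} {u : Plane → ℝ} (hu : Measurable u) :
    (∫⁻ x in G, ‖u x‖ₑ ∂μ) ^ 2 ≤ μ G * ∫⁻ x in G, ‖u x‖ₑ ^ 2 ∂μ := by
  have := cs_lintegral (μ := μ.restrict G) (f := fun _ => (1 : ℝ≥0∞)) (g := fun x => ‖u x‖ₑ ^ 2)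
    (h := fun x => ‖u x‖ₑ) aemeasurable_const (hu.enorm.pow_const 2).aemeasurable (by simp)
  simpa using this

end Pool.Agent.LT2
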