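import Pool.Agent.Lib.MP_50e96d_mp.Reduce

/-!
# The lower bound for the one-eigenvalue constant
-/

namespace Pool.Agent.LT2

open MeasureTheory Set Filter Topology
open scoped ENNReal

section profile

variable {s : ℝ} (hs0 : 0 < s) (hs1 : s < 1 / 2)

/-- a smooth bump, almost the indicator of `(0,1)` -/
noncomputable def bmp (s : ℝ) (hs0 : 0 < s) (hs1 : s < 1 / 2) : ContDiffBump (1 / 2 : ℝ) where
  rIn := 1 / 2 - s
  rOut := 1 / 2
  rIn_pos := by linarith
  rIn_lt_rOut := by linarith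

/-- its normalisation -/
noncomputable def ro (t : ℝ) : ℝ := (bmp s hs0 hs1).normed volume t

lemma ro_contDiff : ContDiff ℝ (⊤ : ℕ∞) (ro hs0 hs1) := (bmp s hs0 hs1).contDiff_normed

lemma ro_nonneg (t : ℝ) : 0 ≤ ro hs0 hs1 t := (bmp s hs0 hs1).nonneg_normed t

lemma ro_le (t : ℝ) : ro hs0 hs1 t ≤ 1 / (1 - 2 * s) := by
  have h := (bmp s hs0 hs1).normed_le_div_measure_closedBall_rIn (μ := volume) t
  refine h.trans (le_of_eq ?_)
  have e : (bmp s hs0 hs1).rIn = 1 / 2 - s := rfl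
  rw [e, Measure.real, Real.volume_closedBall, ENNReal.toReal_ofReal (by linarith)]
  congr 1; ring

lemma ro_zero {t : ℝ} (h : t ≤ 0 ∨ 1 ≤ t) : ro hs0 hs1 t = 0 := by
  have h1 : t ∉ Function.support (ro hs0 hs1) := by
    have h2 : Function.support (ro hs0 hs1) = Metric.ball (1 / 2 : ℝ) (1 / 2) :=
      (bmp s hs0 hs1).support_normed_eq
    rw [h2, Metric.mem_ball, Real.dist_eq, not_lt]
    rcases h with h | h
    · rw [abs_of_nonpos (by linarith)]; linarith
    · rw [abs_of_nonneg (by linarith)]; linarith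
  simpa using h1

/-- the profile -/
noncomputable def pf (t : ℝ) : ℝ := 1 - ∫ x in (0 : ℝ)..t, ro hs0 hs1 x

lemma pf_hasDerivAt (t : ℝ) : HasDerivAt (pf hs0 hs1) (-ro hs0 hs1 t) t := by
  have hc : Continuous (ro hs0 hs1) := (ro_contDiff hs0 hs1).continuous
  have h := (hc.integral_hasStrictDerivAt 0 t).hasDerivAt
  exact h.const_sub 1

lemma pf_contDiff : ContDiff ℝ (⊤ : ℕ∞) (pf hs0 hs1) := by
  rw [contDiff_infty_iff_deriv]
  refine ⟨fun t => (pf_hasDerivAt hs0 hs1 t).differentiableAt, ?_⟩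
  have : deriv (pf hs0 hs1) = fun t => -ro hs0 hs1 t := by
    ext t; exact (pf_hasDerivAt hs0 hs1 t).deriv
  rw [this]
  exact (ro_contDiff hs0 hs1).neg

lemma pf_one {t : ℝ} (ht : t ≤ 0) : pf hs0 hs1 t = 1 := by
  unfold pf
  rw [intervalIntegral.integral_symm, intervalIntegral.integral_of_le ht,
    setIntegral_congr_fun (g := fun _ => (0 : ℝ)) measurableSet_Ioc]
  · simp
  · intro x hx
    exact ro_zero hs0 hs1 (Or.inl hx.2)

lemma pf_zero {t : ℝ} (ht : 1 ≤ t) : pf hs0 hs1 t = 0 := by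
  unfold pf
  rw [intervalIntegral.integral_of_le (by linarith)]
  have h1 : ∫ x, ro hs0 hs1 x = 1 := (bmp s hs0 hs1).integral_normed
  rw [setIntegral_eq_integral_of_forall_compl_eq_zero, h1, sub_self]
  intro x hx
  apply ro_zero
  rw [mem_Ioc, not_and_or, not_lt, not_le] at hx
  rcases hx with hx | hx
  · exact Or.inl hx
  · exact Or.inr (by linarith)

lemma pf_antitone : Antitone (pf hs0 hs1) := by
  apply antitone_of_deriv_nonpos (fun t => (pf_hasDerivAt hs0 hs1 t).differentiableAt)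
  intro t
  rw [(pf_hasDerivAt hs0 hs1 t).deriv]
  linarith [ro_nonneg hs0 hs1 t]

lemma pf_le_one (t : ℝ) : pf hs0 hs1 t ≤ 1 := by
  have h := pf_antitone hs0 hs1 (min_le_left t 0)
  rwa [pf_one hs0 hs1 (min_le_right t 0)] at h

lemma pf_nonneg (t : ℝ) : 0 ≤ pf hs0 hs1 t := by
  have h := pf_antitone hs0 hs1 (le_max_left t 1)
  rwa [pf_zero hs0 hs1 (le_max_right t 1)] at h

variable {L : ℝ} (hL : 0 < L)

/-- the trial function -/
noncomputable def tr (L : ℝ) (x : Plane) : ℝ := pf hs0 hs1 (Real.log ‖x‖ / L)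

include hL in
lemma tr_one {x : Plane} (hx : ‖x‖ ≤ 1) : tr hs0 hs1 L x = 1 := by
  apply pf_one
  exact div_nonpos_of_nonpos_of_nonneg (Real.log_nonpos (norm_nonneg _) hx) hL.le

include hL in
lemma tr_zero {x : Plane} (hx : Real.exp L ≤ ‖x‖) : tr hs0 hs1 L x = 0 := by
  apply pf_zero
  rw [le_div_iff₀ hL, one_mul, Real.le_log_iff_exp_le (lt_of_lt_of_le (Real.exp_pos _) hx)]
  exact hx

lemma tr_eq (x : Plane) : tr hs0 hs1 L x = pf hs0 hs1 ((1 / (2 * L)) * Real.log (‖x‖ ^ 2)) := by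
  unfold tr
  congr 1
  rw [Real.log_pow]; push_cast; ring

include hL in
lemma tr_contDiff : ContDiff ℝ (⊤ : ℕ∞) (tr hs0 hs1 L) := by
  rw [contDiff_iff_contDiffAt]
  intro x
  by_cases hx : x = 0
  · have h1 : tr hs0 hs1 L =ᶠ[𝓝 x] fun _ => 1 := by
      rw [hx]
      filter_upwards [Metric.ball_mem_nhds (0 : Plane) one_pos] with y hy
      exact tr_one hs0 hs1 hL (by rw [mem_ball_zero_iff] at hy; exact hy.le)
    exact contDiffAt_const.congr_of_eventuallyEq h1
  · have h1 : tr hs0 hs1 L = fun x => pf hs0 hs1 ((1 / (2 * L)) * Real.log (‖x‖ ^ 2)) := by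
      ext y; exact tr_eq hs0 hs1 y
    rw [h1]
    have hx2 : ‖x‖ ^ 2 ≠ 0 := by positivity
    have h2 : ContDiffAt ℝ (⊤ : ℕ∞) (fun x : Plane => (1 / (2 * L)) * Real.log (‖x‖ ^ 2)) x :=
      contDiffAt_const.mul (((contDiff_norm_sq ℝ).contDiffAt).log hx2)
    exact (pf_contDiff hs0 hs1).contDiffAt.comp x h2

lemma tr_hasFDerivAt {x : Plane} (hx : x ≠ 0) :
    HasFDerivAt (tr hs0 hs1 L) ((-ro hs0 hs1 (Real.log ‖x‖ / L) / (L * ‖x‖ ^ 2)) • innerSL ℝ x) x := by
  have h1 : tr hs0 hs1 L = fun x => pf hs0 hs1 ((1 / (2 * L)) * Real.log (‖x‖ ^ 2)) := by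
    ext y; exact tr_eq hs0 hs1 y
  rw [h1]
  have hx2 : ‖x‖ ^ 2 ≠ 0 := by positivity
  have h2 : HasFDerivAt (fun x : Plane => ‖x‖ ^ 2) (2 • innerSL ℝ x) x :=
    (hasStrictFDerivAt_norm_sq x).hasFDerivAt
  have h3 := ((h2.log hx2).const_mul (1 / (2 * L)))
  have h4 := (pf_hasDerivAt hs0 hs1 ((1 / (2 * L)) * Real.log (‖x‖ ^ 2))).comp_hasFDerivAt x h3
  refine h4.congr_fderiv ?_
  have e : (1 / (2 * L)) * Real.log (‖x‖ ^ 2) = Real.log ‖x‖ / L := by
    rw [Real.log_pow]; push_cast; ring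
  rw [e]
  ext v
  simp only [smul_apply, smul_eq_mul, nsmul_eq_mul]
  push_cast
  field_simp

/-- the density of the Dirichlet integral -/
lemma tr_grad {x : Plane} (hx : x ≠ 0) :
    ∑ i : Fin 2, (fderiv ℝ (tr hs0 hs1 L) x (ev i)) ^ 2 =
      (ro hs0 hs1 (Real.log ‖x‖ / L) / (L * ‖x‖)) ^ 2 := by
  rw [(tr_hasFDerivAt hs0 hs1 hx).fderiv]
  simp only [smul_apply, innerSL_apply_apply, smul_eq_mul, inner_ev, mul_pow]
  rw [← Finset.mul_sum, ← norm_sq_plane]
  have hx2 : ‖x‖ ≠ 0 := by positivity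
  by_cases hL0 : L = 0
  · simp [hL0]
  field_simp

include hL in
lemma tr_dir : dirR (tr hs0 hs1 L) ≤ 2 * Real.pi * (1 / (1 - 2 * s) / L) := by
  set a := 1 / (1 - 2 * s) with ha
  have ha0 : 0 < a := by rw [ha]; exact div_pos one_pos (by linarith)
  have h1 : dirR (tr hs0 hs1 L) = ∫ x : Plane, (fun r : ℝ => (ro hs0 hs1 (Real.log r / L) / (L * r)) ^ 2) ‖x‖ := by
    unfold dirR
    apply integral_congr_ae
    have : ∀ᵐ x : Plane, x ≠ 0 := by
      rw [ae_iff]; simp
    filter_upwards [this] with x hx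
    exact tr_grad hs0 hs1 hx
  have he : (1 : ℝ) ≤ Real.exp L := Real.one_le_exp hL.le
  have hoff : ∀ r : ℝ, r ∈ Ioi (0 : ℝ) \ Ioc 1 (Real.exp L) → ro hs0 hs1 (Real.log r / L) = 0 := by
    rintro r ⟨hr0, hr1⟩
    have hr0' : (0 : ℝ) < r := hr0
    rw [mem_Ioc, not_and_or, not_lt, not_le] at hr1
    apply ro_zero
    rcases hr1 with h | h
    · left
      exact div_nonpos_of_nonpos_of_nonneg (Real.log_nonpos hr0'.le h) hL.le
    · right
      rw [le_div_iff₀ hL, one_mul, Real.le_log_iff_exp_le hr0']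
      exact h.le
  have hsub : Ioc 1 (Real.exp L) ⊆ Ioi (0 : ℝ) := fun r hr => lt_trans one_pos hr.1
  rw [h1, integral_radial (fun r : ℝ => (ro hs0 hs1 (Real.log r / L) / (L * r)) ^ 2)]
  gcongr
  rw [setIntegral_eq_of_subset_of_forall_sdiff_eq_zero measurableSet_Ioi hsub
    (fun r hr => by rw [hoff r hr]; simp)]
  -- continuity on the interval
  have hcl : ContinuousOn (fun r : ℝ => ro hs0 hs1 (Real.log r / L)) (Icc 1 (Real.exp L)) := by
    apply (ro_contDiff hs0 hs1).continuous.comp_continuousOn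
    apply ContinuousOn.div_const
    exact Real.continuousOn_log.mono fun r hr => by
      have : (1 : ℝ) ≤ r := hr.1
      simp only [mem_compl_iff, mem_singleton_iff]; linarith
  have hci : ContinuousOn (fun r : ℝ => L * r) (Icc 1 (Real.exp L)) := by fun_prop
  have hne : ∀ r ∈ Icc 1 (Real.exp L), L * r ≠ 0 := by
    intro r hr
    have : (1 : ℝ) ≤ r := hr.1
    positivity
  have hc1 : ContinuousOn (fun r : ℝ => ro hs0 hs1 (Real.log r / L) / (L * r)) (Icc 1 (Real.exp L)) :=
    hcl.div hci hne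
  have hc2 : ContinuousOn (fun r : ℝ => r * (ro hs0 hs1 (Real.log r / L) / (L * r)) ^ 2) (Icc 1 (Real.exp L)) :=
    continuousOn_id.mul (hc1.pow 2)
  have i1 : IntegrableOn (fun r : ℝ => ro hs0 hs1 (Real.log r / L) / (L * r)) (Ioc 1 (Real.exp L)) :=
    (hc1.integrableOn_Icc).mono_set Ioc_subset_Icc_self
  have i2 : IntegrableOn (fun r : ℝ => r * (ro hs0 hs1 (Real.log r / L) / (L * r)) ^ 2) (Ioc 1 (Real.exp L)) :=
    (hc2.integrableOn_Icc).mono_set Ioc_subset_Icc_self
  have hftc : ∫ r in Ioc 1 (Real.exp L), ro hs0 hs1 (Real.log r / L) / (L * r) = 1 := by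
    rw [← intervalIntegral.integral_of_le he]
    have hd : ∀ r ∈ uIcc 1 (Real.exp L), HasDerivAt (fun r => -pf hs0 hs1 (Real.log r / L))
        (ro hs0 hs1 (Real.log r / L) / (L * r)) r := by
      intro r hr
      rw [uIcc_of_le he] at hr
      have hr0 : r ≠ 0 := by have : (1 : ℝ) ≤ r := hr.1; positivity
      have h2 := ((Real.hasDerivAt_log hr0).div_const L)
      have h3 := ((pf_hasDerivAt hs0 hs1 (Real.log r / L)).comp r h2).neg
      refine h3.congr_deriv ?_
      field_simp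
    rw [intervalIntegral.integral_eq_sub_of_hasDerivAt hd]
    · rw [Real.log_exp, div_self hL.ne', pf_zero hs0 hs1 le_rfl, Real.log_one, zero_div,
        pf_one hs0 hs1 le_rfl]
      norm_num
    · rw [intervalIntegrable_iff_integrableOn_Ioc_of_le he]; exact i1
  calc ∫ r in Ioc 1 (Real.exp L), r * (ro hs0 hs1 (Real.log r / L) / (L * r)) ^ 2
      ≤ ∫ r in Ioc 1 (Real.exp L), (a / L) * (ro hs0 hs1 (Real.log r / L) / (L * r)) := by
        apply setIntegral_mono_on i2 (i1.const_mul _) measurableSet_Ioc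
        intro r hr
        have hr0 : 0 < r := lt_trans one_pos hr.1
        have h2 := ro_le hs0 hs1 (Real.log r / L)
        have h3 := ro_nonneg hs0 hs1 (Real.log r / L)
        calc r * (ro hs0 hs1 (Real.log r / L) / (L * r)) ^ 2 =
            (ro hs0 hs1 (Real.log r / L) / L) * (ro hs0 hs1 (Real.log r / L) / (L * r)) := by
              field_simp
          _ ≤ _ := by gcongr
    _ = a / L := by rw [integral_const_mul, hftc, mul_one]

include hL in
lemma tr_rtest : RTest (tr hs0 hs1 L) := by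
  refine ⟨tr_contDiff hs0 hs1 hL, ?_⟩
  apply HasCompactSupport.intro (isCompact_closedBall (0 : Plane) (Real.exp L))
  intro x hx
  rw [mem_closedBall_zero_iff, not_le] at hx
  exact tr_zero hs0 hs1 hL hx.le

lemma volume_real_closedBall {r : ℝ} (hr : 0 ≤ r) :
    (volume : Measure Plane).real (Metric.closedBall 0 r) = Real.pi * r ^ 2 := by
  rw [Measure.real, EuclideanSpace.volume_closedBall_fin_two, ENNReal.toReal_mul, ENNReal.toReal_pow,
    ENNReal.toReal_ofReal hr, mul_comm]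
  simp [Real.pi_pos.le]

include hL in
lemma tr_norm : ∫ x, tr hs0 hs1 L x ^ 2 ≤ Real.pi * Real.exp (2 * L) := by
  have h1 : ∀ x, tr hs0 hs1 L x ^ 2 ≤ (Metric.closedBall (0 : Plane) (Real.exp L)).indicator (fun _ => (1 : ℝ)) x := by
    intro x
    by_cases hx : x ∈ Metric.closedBall (0 : Plane) (Real.exp L)
    · rw [indicator_of_mem hx]
      have h2 := pf_le_one hs0 hs1 (Real.log ‖x‖ / L)
      have h3 := pf_nonneg hs0 hs1 (Real.log ‖x‖ / L)
      unfold tr
      exact pow_le_one₀ h3 h2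
    · rw [indicator_of_notMem hx]
      rw [mem_closedBall_zero_iff, not_le] at hx
      rw [tr_zero hs0 hs1 hL hx.le]
      norm_num
  have hfin : volume (Metric.closedBall (0 : Plane) (Real.exp L)) ≠ ⊤ := measure_closedBall_lt_top.ne
  calc ∫ x, tr hs0 hs1 L x ^ 2 ≤ ∫ x, (Metric.closedBall (0 : Plane) (Real.exp L)).indicator (fun _ => (1 : ℝ)) x := by
        apply integral_mono (tr_rtest hs0 hs1 hL).integrable_sq _ h1
        exact (integrable_indicator_iff Metric.isClosed_closedBall.measurableSet).2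
          (integrableOn_const hfin)
    _ = Real.pi * Real.exp (2 * L) := by
        rw [integral_indicator_const _ Metric.isClosed_closedBall.measurableSet, volume_real_closedBall (Real.exp_pos _).le,
          smul_eq_mul, mul_one, ← Real.exp_nat_mul]
        push_cast; rfl

end profile

/-- the first min–max value is at most the Rayleigh quotient -/
lemma minmax_one_le {V : Plane → ℝ} {u : Plane → ℂ} (hu : IsTest u) (h0 : u ≠ 0) :
    minmax V 1 ≤ ((form V u / ∫ x, ‖u x‖ ^ 2 : ℝ) : EReal) := by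
  have hpos := hu.integral_sq_pos h0
  unfold minmax
  have hF : (∀ v ∈ Submodule.span ℂ {u}, IsTest v) ∧ Module.finrank ℂ (Submodule.span ℂ {u}) = 1 := by
    refine ⟨fun v hv => ?_, finrank_span_singleton h0⟩
    obtain ⟨c, rfl⟩ := Submodule.mem_span_singleton.1 hv
    exact ⟨contDiff_const.mul hu.1, hu.2.mul_left⟩
  refine (iInf_le _ ⟨Submodule.span ℂ {u}, hF⟩).trans ?_
  apply iSup_le
  rintro ⟨v, hv, hv1⟩
  obtain ⟨c, rfl⟩ := Submodule.mem_span_singleton.1 hv
  simp only
  rw [EReal.coe_le_coe_iff, form_smul hu]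
  have h1 : ‖c‖ ^ 2 * ∫ x, ‖u x‖ ^ 2 = 1 := by
    rw [← hv1, ← integral_const_mul]
    congr 1; ext x
    simp [mul_pow]
  rw [le_div_iff₀ hpos]
  apply le_of_eq
  linear_combination form V u * h1

/-- the trial potential -/
noncomputable def Vt (κ : ℝ) (x : Plane) : ℝ := -(Metric.closedBall (0 : Plane) 1).indicator (fun _ => κ) x

lemma Vt_memLp {κ γ : ℝ} : MemLp (Vt κ) (ENNReal.ofReal (γ + 1)) volume := by
  unfold Vt
  apply MemLp.neg
  exact memLp_indicator_const _ Metric.isClosed_closedBall.measurableSet _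
    (Or.inr measure_closedBall_lt_top.ne)

lemma Vt_negInt {κ γ : ℝ} (hκ : 0 < κ) (hγ : 0 < γ) :
    negInt (Vt κ) γ = ENNReal.ofReal (κ ^ (γ + 1) * Real.pi) := by
  unfold negInt
  have h1 : ∀ x, ENNReal.ofReal (max (-Vt κ x) 0) ^ (γ + 1) =
      (Metric.closedBall (0 : Plane) 1).indicator (fun _ => ENNReal.ofReal (κ ^ (γ + 1))) x := by
    intro x
    by_cases hx : x ∈ Metric.closedBall (0 : Plane) 1
    · unfold Vt
      rw [indicator_of_mem hx, indicator_of_mem hx, neg_neg, max_eq_left hκ.le,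
        ENNReal.ofReal_rpow_of_pos hκ]
    · unfold Vt
      rw [indicator_of_notMem hx, indicator_of_notMem hx, neg_zero, neg_zero, max_self, ENNReal.ofReal_zero,
        ENNReal.zero_rpow_of_pos (by linarith)]
  simp only [h1]
  rw [lintegral_indicator_const Metric.isClosed_closedBall.measurableSet,
    EuclideanSpace.volume_closedBall_fin_two, ENNReal.ofReal_mul (by positivity)]
  congr 1
  rw [ENNReal.ofReal_one, one_pow, one_mul, ← NNReal.coe_real_pi, ENNReal.ofReal_coe_nnreal]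

/-- **Lower bound for the one-eigenvalue constant** -/
theorem LT1_lower {a d γ : ℝ} (ha : 1 < a) (hd : 0 < d) (hγ : 0 < γ) :
    ENNReal.ofReal ((d / (1 + d)) ^ γ * Real.exp (-(a * (1 + d))) / (4 * Real.pi * γ)) ≤ LT1 γ := by
  have hpi := Real.pi_pos
  -- profile parameter
  set s : ℝ := (1 - 1 / a) / 2 with hs
  have h1a : 1 / a < 1 := by rw [div_lt_one (by linarith)]; exact ha
  have h1a0 : 0 < 1 / a := by positivity
  have hs0 : 0 < s := by rw [hs]; linarith
  have hs1 : s < 1 / 2 := by rw [hs]; linarith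
  have has : 1 / (1 - 2 * s) = a := by rw [hs]; field_simp; ring
  set κ := 4 * γ with hκ
  have hκ0 : 0 < κ := by positivity
  set L := 2 * a / κ * (1 + d) with hL
  have hL0 : 0 < L := by positivity
  set w := tr hs0 hs1 L with hw
  have hwt : RTest w := tr_rtest hs0 hs1 hL0
  let u : Plane → ℂ := fun x => ((w x : ℝ) : ℂ)
  have hut : IsTest u :=
    ⟨Complex.ofRealCLM.contDiff.comp hwt.1, hwt.2.comp_left (g := fun t : ℝ => (t : ℂ)) (by simp)⟩
  have hu0 : u ≠ 0 := by
    intro h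
    have h1 := congrFun h 0
    simp only [u, Pi.zero_apply, Complex.ofReal_eq_zero] at h1
    rw [hw, tr_one hs0 hs1 hL0 (by simp)] at h1
    exact one_ne_zero h1
  have hpos := hut.integral_sq_pos hu0
  have hnorm : ∫ x, ‖u x‖ ^ 2 ≤ Real.pi * Real.exp (2 * L) := by
    refine le_trans (le_of_eq ?_) (tr_norm hs0 hs1 hL0)
    congr 1; ext x
    simp [u, hw]
  have hform : form (Vt κ) u ≤ 2 * Real.pi * (a / L) - κ * Real.pi := by
    unfold form
    have h1 : (∫ x, ∑ i : Fin 2, ‖fderiv ℝ u x (EuclideanSpace.single i 1)‖ ^ 2) = dirR w := by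
      rw [hut.dir_eq]
      have e1 : (fun x => (u x).re) = w := by ext x; simp [u]
      have e2 : (fun x => (u x).im) = fun _ => 0 := by ext x; simp [u]
      rw [e1, e2]
      have : dirR (fun _ => (0 : ℝ)) = 0 := by unfold dirR; simp
      rw [this, add_zero]
    have h2 : ∫ x, Vt κ x * ‖u x‖ ^ 2 = -(κ * Real.pi) := by
      have e1 : ∀ x, Vt κ x * ‖u x‖ ^ 2 = (Metric.closedBall (0 : Plane) 1).indicator (fun _ => -κ) x := by
        intro x
        unfold Vt
        by_cases hx : x ∈ Metric.closedBall (0 : Plane) 1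
        · rw [indicator_of_mem hx, indicator_of_mem hx]
          rw [mem_closedBall_zero_iff] at hx
          simp only [u, hw]
          rw [tr_one hs0 hs1 hL0 hx]; simp
        · rw [indicator_of_notMem hx, indicator_of_notMem hx]; simp
      simp only [e1]
      rw [integral_indicator_const _ Metric.isClosed_closedBall.measurableSet,
        volume_real_closedBall zero_le_one, smul_eq_mul]
      ring
    rw [h1, h2]
    have h3 := tr_dir hs0 hs1 hL0
    rw [has] at h3
    linarith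
  have hneg : 2 * Real.pi * (a / L) - κ * Real.pi = -(κ * Real.pi * (d / (1 + d))) := by
    rw [hL]; field_simp; ring
  rw [hneg] at hform
  set e := κ * (d / (1 + d)) * Real.exp (-(2 * L)) with he
  have he0 : 0 < e := by positivity
  have hmm : minmax (Vt κ) 1 ≤ ((-e : ℝ) : EReal) := by
    refine (minmax_one_le hut hu0).trans ?_
    rw [EReal.coe_le_coe_iff, div_le_iff₀ hpos]
    refine hform.trans ?_
    rw [neg_mul, neg_le_neg_iff]
    calc e * ∫ x, ‖u x‖ ^ 2 ≤ e * (Real.pi * Real.exp (2 * L)) := by gcongr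
      _ = κ * Real.pi * (d / (1 + d)) * (Real.exp (-(2 * L)) * Real.exp (2 * L)) := by rw [he]; ring
      _ = _ := by rw [← Real.exp_add, neg_add_cancel, Real.exp_zero, mul_one]
  have habs : ENNReal.ofReal (e ^ γ) ≤ absPow (Vt κ) γ 1 := by
    unfold absPow
    rw [← ENNReal.ofReal_rpow_of_pos he0]
    apply ENNReal.rpow_le_rpow _ hγ.le
    rw [← EReal.real_coe_toENNReal]
    apply EReal.toENNReal_le_toENNReal
    rw [EReal.le_neg, ← EReal.coe_neg]
    exact hmm
  unfold LT1
  apply le_sInf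
  intro C hC
  have h1 := hC (Vt κ) Vt_memLp
  have h2 := habs.trans h1
  rw [Vt_negInt hκ0 hγ] at h2
  have hI0 : 0 < κ ^ (γ + 1) * Real.pi := by positivity
  have h3 : ENNReal.ofReal (e ^ γ) / ENNReal.ofReal (κ ^ (γ + 1) * Real.pi) ≤ C :=
    ENNReal.div_le_of_le_mul h2
  refine le_trans (le_of_eq ?_) h3
  rw [← ENNReal.ofReal_div_of_pos hI0]
  congr 1
  rw [he, Real.mul_rpow (by positivity) (by positivity), Real.mul_rpow (by positivity) (by positivity),
    Real.rpow_add hκ0, Real.rpow_one, ← Real.exp_mul]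
  have e1 : -(2 * L) * γ = -(a * (1 + d)) := by
    rw [hL, hκ]; field_simp; ring
  rw [e1]
  have hκγ : 0 < κ ^ γ := by positivity
  rw [hκ] at hκγ ⊢
  field_simp

end Pool.Agent.LT2
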