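import Pool.Agent.Lib.MP_50e96d_mp.Trunc
import Pool.Agent.Lib.MP_50e96d_mp.Lower

/-!
# Assembly
-/

namespace Pool.Agent.LT2

open MeasureTheory Set Filter Topology
open scoped ENNReal

/-- the sharp upper bound -/
theorem LT_upper {ε : ℝ} (hε : 0 < ε) : ∀ᶠ γ in 𝓝[>] (0 : ℝ),
    LT γ ≤ ENNReal.ofReal ((1 + ε) / (4 * Real.pi * Real.exp 1) / γ) := by
  filter_upwards [nice_upper hε, self_mem_nhdsWithin] with γ h hγ
  unfold LT
  apply sInf_le
  intro V hV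
  exact trunc hγ h hV

theorem LT1_le_LT (γ : ℝ) : LT1 γ ≤ LT γ := by
  unfold LT1 LT
  apply le_sInf
  intro C hC
  apply sInf_le
  intro V hV
  refine le_trans ?_ (hC V hV)
  exact ENNReal.le_tsum (f := fun n => absPow V γ (n + 1)) 0

/-- the sharp lower bound -/
theorem LT1_lower' {ε : ℝ} (hε : 0 < ε) : ∀ᶠ γ in 𝓝[>] (0 : ℝ),
    ENNReal.ofReal ((1 - ε) / (4 * Real.pi * Real.exp 1) / γ) ≤ LT1 γ := by
  have hpi := Real.pi_pos
  have he1 := Real.exp_pos 1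
  -- choice of `d`, `a = 1 + d`
  obtain ⟨d, hd0, hd⟩ : ∃ d : ℝ, 0 < d ∧ (1 - ε) / Real.exp 1 < Real.exp (-((1 + d) * (1 + d))) := by
    have h1 : Continuous fun d : ℝ => Real.exp (-((1 + d) * (1 + d))) := by fun_prop
    have h2 : (1 - ε) / Real.exp 1 < Real.exp (-((1 + 0) * (1 + 0) : ℝ)) := by
      rw [add_zero, one_mul, Real.exp_neg, ← one_div]
      gcongr; linarith
    have h3 : ∀ᶠ d in 𝓝[>] (0 : ℝ), (1 - ε) / Real.exp 1 < Real.exp (-((1 + d) * (1 + d))) :=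
      (h1.continuousAt.eventually (lt_mem_nhds h2)).filter_mono nhdsWithin_le_nhds
    obtain ⟨d, h4, h5⟩ := (h3.and self_mem_nhdsWithin).exists
    exact ⟨d, h5, h4⟩
  have hr0 : 0 < d / (1 + d) := by positivity
  have h6 : Tendsto (fun γ : ℝ => (d / (1 + d)) ^ γ * Real.exp (-((1 + d) * (1 + d)))) (𝓝[>] 0)
      (𝓝 ((d / (1 + d)) ^ (0 : ℝ) * Real.exp (-((1 + d) * (1 + d))))) := by
    apply Tendsto.mono_left _ nhdsWithin_le_nhds
    apply Tendsto.mul_const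
    exact (Real.continuous_const_rpow hr0.ne').continuousAt
  rw [Real.rpow_zero, one_mul] at h6
  filter_upwards [h6.eventually (lt_mem_nhds hd), self_mem_nhdsWithin] with γ h7 hγ
  have hγ0 : 0 < γ := hγ
  refine le_trans (ENNReal.ofReal_le_ofReal ?_) (LT1_lower (a := 1 + d) (d := d) (by linarith) hd0 hγ)
  calc (1 - ε) / (4 * Real.pi * Real.exp 1) / γ = ((1 - ε) / Real.exp 1) / (4 * Real.pi * γ) := by
        field_simp
    _ ≤ _ := by gcongr

lemma squeeze {f : ℝ → ℝ≥0∞} (h1 : ∀ ε : ℝ, 0 < ε → ∀ᶠ γ in 𝓝[>] (0 : ℝ),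
      f γ ≤ ENNReal.ofReal ((1 + ε) / (4 * Real.pi * Real.exp 1) / γ))
    (h2 : ∀ ε : ℝ, 0 < ε → ∀ᶠ γ in 𝓝[>] (0 : ℝ),
      ENNReal.ofReal ((1 - ε) / (4 * Real.pi * Real.exp 1) / γ) ≤ f γ) :
    Tendsto (fun γ => ENNReal.ofReal γ * f γ) (𝓝[>] 0)
      (𝓝 (ENNReal.ofReal (1 / (4 * Real.pi * Real.exp 1)))) := by
  have hpi := Real.pi_pos
  have he1 := Real.exp_pos 1
  have key : ∀ γ x : ℝ, 0 < γ → ENNReal.ofReal γ * ENNReal.ofReal (x / γ) = ENNReal.ofReal x := by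
    intro γ x hγ
    rw [← ENNReal.ofReal_mul hγ.le]
    congr 1; field_simp
  rw [tendsto_order]
  constructor
  · intro a ha
    have h3 : Continuous fun ε : ℝ => ENNReal.ofReal ((1 - ε) / (4 * Real.pi * Real.exp 1)) :=
      ENNReal.continuous_ofReal.comp (by fun_prop)
    have h4 : ∀ᶠ ε in 𝓝[>] (0 : ℝ), a < ENNReal.ofReal ((1 - ε) / (4 * Real.pi * Real.exp 1)) :=
      (h3.continuousAt.eventually (lt_mem_nhds (by simpa using ha))).filter_mono nhdsWithin_le_nhds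
    obtain ⟨ε, h5, h6⟩ := (h4.and self_mem_nhdsWithin).exists
    filter_upwards [h2 ε h6, self_mem_nhdsWithin] with γ h7 hγ
    refine lt_of_lt_of_le h5 ?_
    rw [← key γ ((1 - ε) / (4 * Real.pi * Real.exp 1)) hγ]
    exact mul_le_mul_right h7 _
  · intro b hb
    have h3 : Continuous fun ε : ℝ => ENNReal.ofReal ((1 + ε) / (4 * Real.pi * Real.exp 1)) :=
      ENNReal.continuous_ofReal.comp (by fun_prop)
    have h4 : ∀ᶠ ε in 𝓝[>] (0 : ℝ), ENNReal.ofReal ((1 + ε) / (4 * Real.pi * Real.exp 1)) < b :=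
      (h3.continuousAt.eventually (gt_mem_nhds (by simpa using hb))).filter_mono nhdsWithin_le_nhds
    obtain ⟨ε, h5, h6⟩ := (h4.and self_mem_nhdsWithin).exists
    filter_upwards [h1 ε h6, self_mem_nhdsWithin] with γ h7 hγ
    refine lt_of_le_of_lt ?_ h5
    rw [← key γ ((1 + ε) / (4 * Real.pi * Real.exp 1)) hγ]
    exact mul_le_mul_right h7 _

theorem LT_limit : Tendsto (fun γ => ENNReal.ofReal γ * LT γ) (𝓝[>] 0)
    (𝓝 (ENNReal.ofReal (1 / (4 * Real.pi * Real.exp 1)))) :=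
  squeeze (fun _ hε => LT_upper hε) fun _ hε => (LT1_lower' hε).mono fun γ h => h.trans (LT1_le_LT γ)

theorem LT1_limit : Tendsto (fun γ => ENNReal.ofReal γ * LT1 γ) (𝓝[>] 0)
    (𝓝 (ENNReal.ofReal (1 / (4 * Real.pi * Real.exp 1)))) :=
  squeeze (fun _ hε => (LT_upper hε).mono fun γ h => (LT1_le_LT γ).trans h) fun _ hε => LT1_lower' hε

theorem ratio_limit : Tendsto (fun γ => LT γ / LT1 γ) (𝓝[>] 0) (𝓝 1) := by
  have hpi := Real.pi_pos
  have he1 := Real.exp_pos 1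
  have hc0 : ENNReal.ofReal (1 / (4 * Real.pi * Real.exp 1)) ≠ 0 := by
    rw [ne_eq, ENNReal.ofReal_eq_zero, not_le]; positivity
  have h := ENNReal.Tendsto.div LT_limit (Or.inl hc0) LT1_limit (Or.inl ENNReal.ofReal_ne_top)
  rw [ENNReal.div_self hc0 ENNReal.ofReal_ne_top] at h
  refine h.congr' ?_
  filter_upwards [self_mem_nhdsWithin] with γ hγ
  have hγ0 : 0 < γ := hγ
  exact ENNReal.mul_div_mul_left _ _ (by simpa using hγ0) ENNReal.ofReal_ne_top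

end Pool.Agent.LT2
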