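import Pool.Agent.Lib.MP_50e96d_mp.Trace

/-!
# Grid geometry and kernel regularity
-/

namespace Pool.Agent.LT2

open MeasureTheory Set Filter
open scoped ENNReal

/-- index of the grid square (side `h`, origin `s`) containing `x` -/
noncomputable def cel (s : Plane) (h : ℝ) (x : Plane) : ℤ × ℤ :=
  (⌊(x 0 - s 0) / h⌋, ⌊(x 1 - s 1) / h⌋)

lemma cel_measurable (s : Plane) (h : ℝ) : Measurable (cel s h) := by
  unfold cel
  apply Measurable.prodMk
  · exact Int.measurable_floor.comp (by fun_prop)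
  · exact Int.measurable_floor.comp (by fun_prop)

lemma abs_coord_le (x : Plane) (i : Fin 2) : |x i| ≤ ‖x‖ := by
  have := EuclideanSpace.norm_eq x
  rw [← Real.norm_eq_abs]
  exact PiLp.norm_apply_le x i

lemma norm_le_of_coord {x : Plane} {h : ℝ} (hh : 0 ≤ h) (h0 : |x 0| ≤ h) (h1 : |x 1| ≤ h) :
    ‖x‖ ≤ 2 * h := by
  have h2 := norm_sq_plane x
  rw [Fin.sum_univ_two] at h2
  have h3 : x 0 ^ 2 ≤ h ^ 2 := sq_le_sq' (by linarith [abs_le.1 h0]) (by linarith [abs_le.1 h0])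
  have h4 : x 1 ^ 2 ≤ h ^ 2 := sq_le_sq' (by linarith [abs_le.1 h1]) (by linarith [abs_le.1 h1])
  have h5 : ‖x‖ ^ 2 ≤ (2 * h) ^ 2 := by nlinarith
  exact abs_le_of_sq_le_sq' h5 (by linarith) |>.2

lemma floor_eq_abs_lt {a b : ℝ} (h : ⌊a⌋ = ⌊b⌋) : |a - b| < 1 := by
  have h1 := Int.floor_le a
  have h2 := Int.lt_floor_add_one a
  have h3 := Int.floor_le b
  have h4 := Int.lt_floor_add_one b
  rw [h] at h1 h2
  rw [abs_lt]; constructor <;> linarith

/-- points of the same square are close -/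
lemma cel_dist {s : Plane} {h : ℝ} (hh : 0 < h) {x y : Plane} (hxy : cel s h x = cel s h y) :
    ‖x - y‖ ≤ 2 * h := by
  simp only [cel, Prod.mk.injEq] at hxy
  apply norm_le_of_coord hh.le
  · have := floor_eq_abs_lt hxy.1
    rw [← sub_div, abs_div, abs_of_pos hh, div_lt_one hh] at this
    have e : (x - y) 0 = x 0 - s 0 - (y 0 - s 0) := by simp
    rw [e]; exact this.le
  · have := floor_eq_abs_lt hxy.2
    rw [← sub_div, abs_div, abs_of_pos hh, div_lt_one hh] at this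
    have e : (x - y) 1 = x 1 - s 1 - (y 1 - s 1) := by simp
    rw [e]; exact this.le

/-- parent square -/
def par (Λ : ℕ) (P : ℤ × ℤ) : ℤ × ℤ := (P.1 / (Λ : ℤ), P.2 / (Λ : ℤ))

lemma cel_par (s : Plane) (h : ℝ) (Λ : ℕ) (x : Plane) :
    cel s (h * Λ) x = par Λ (cel s h x) := by
  unfold cel par
  simp only [Prod.mk.injEq]
  constructor
  · rw [← div_div, Int.floor_div_natCast]
  · rw [← div_div, Int.floor_div_natCast]

/-- the squares (side `h`) within distance `r` of `z` -/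
noncomputable def near (s : Plane) (h r : ℝ) (z : Plane) : Finset (ℤ × ℤ) :=
  Finset.Icc ((cel s h z).1 - ⌈r / h⌉₊) ((cel s h z).1 + ⌈r / h⌉₊) ×ˢ
    Finset.Icc ((cel s h z).2 - ⌈r / h⌉₊) ((cel s h z).2 + ⌈r / h⌉₊)

lemma card_near (s : Plane) (h r : ℝ) (z : Plane) :
    (near s h r z).card = (2 * ⌈r / h⌉₊ + 1) ^ 2 := by
  unfold near
  rw [Finset.card_product, Int.card_Icc, Int.card_Icc]
  have h1 : ∀ p : ℤ, (p + (⌈r / h⌉₊ : ℤ) + 1 - (p - (⌈r / h⌉₊ : ℤ))).toNat = 2 * ⌈r / h⌉₊ + 1 := by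
    intro p; omega
  rw [h1, h1]; ring

lemma floor_near {a b : ℝ} {n : ℕ} (h : |a - b| ≤ n) : ⌊b⌋ - n ≤ ⌊a⌋ ∧ ⌊a⌋ ≤ ⌊b⌋ + n := by
  rw [abs_le] at h
  constructor
  · rw [← Int.floor_sub_natCast]
    apply Int.floor_le_floor
    linarith
  · rw [← Int.floor_add_natCast]
    apply Int.floor_le_floor
    linarith

lemma mem_near {s : Plane} {h r : ℝ} (hh : 0 < h) {z x : Plane} (hx : ‖z - x‖ < r) :
    cel s h x ∈ near s h r z := by
  have h1 : ∀ i : Fin 2, |(x i - s i) / h - (z i - s i) / h| ≤ (⌈r / h⌉₊ : ℕ) := by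
    intro i
    have h2 : (x i - s i) / h - (z i - s i) / h = -((z - x) i) / h := by
      simp only [PiLp.sub_apply]; ring
    rw [h2, abs_div, abs_neg, abs_of_pos hh]
    refine le_trans ?_ (Nat.le_ceil _)
    apply div_le_div_of_nonneg_right _ hh.le
    exact (abs_coord_le _ i).trans hx.le
  unfold near cel
  simp only [Finset.mem_product, Finset.mem_Icc]
  exact ⟨floor_near (h1 0), floor_near (h1 1)⟩

/-- the number of squares of side `h ≤ r` within distance `r` -/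
lemma card_near_le {s : Plane} {h r : ℝ} (hh : 0 < h) (hr : h ≤ r) (z : Plane) :
    ((near s h r z).card : ℝ) ≤ 25 * (r / h) ^ 2 := by
  rw [card_near]
  have h1 : 1 ≤ r / h := by rwa [le_div_iff₀ hh, one_mul]
  have h2 : (⌈r / h⌉₊ : ℝ) < r / h + 1 := Nat.ceil_lt_add_one (by linarith)
  push_cast
  have h3 : 2 * (⌈r / h⌉₊ : ℝ) + 1 ≤ 5 * (r / h) := by linarith
  have h4 : 0 ≤ 2 * (⌈r / h⌉₊ : ℝ) + 1 := by positivity
  nlinarith

lemma card_near_le_nine {s : Plane} {h r : ℝ} (hh : 0 < h) (hr : r ≤ h) (z : Plane) :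
    (near s h r z).card ≤ 9 := by
  rw [card_near]
  have h1 : ⌈r / h⌉₊ ≤ 1 := by
    rw [Nat.ceil_le]
    rw [div_le_iff₀ hh]; simpa using hr
  have : ⌈r / h⌉₊ = 0 ∨ ⌈r / h⌉₊ = 1 := by omega
  rcases this with h | h <;> rw [h] <;> norm_num

/-- the sub-squares of a square -/
noncomputable def subs (q : ℕ) (P : ℤ × ℤ) : Finset (ℤ × ℤ) :=
  Finset.Ico (q * P.1) (q * P.1 + q) ×ˢ Finset.Ico (q * P.2) (q * P.2 + q)

lemma card_subs (q : ℕ) (P : ℤ × ℤ) : (subs q P).card = q ^ 2 := by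
  unfold subs
  rw [Finset.card_product, Int.card_Ico, Int.card_Ico]
  simp [sq]

lemma floor_sub {a : ℝ} {q : ℕ} (hq : 0 < q) : q * ⌊a⌋ ≤ ⌊q * a⌋ ∧ ⌊q * a⌋ < q * ⌊a⌋ + q := by
  have hq' : (0 : ℝ) < q := by exact_mod_cast hq
  constructor
  · rw [Int.le_floor]
    push_cast
    exact mul_le_mul_of_nonneg_left (Int.floor_le a) hq'.le
  · rw [Int.floor_lt]
    push_cast
    have := Int.lt_floor_add_one a
    nlinarith

lemma mem_subs {s : Plane} {h : ℝ} {q : ℕ} (hq : 0 < q) (x : Plane) :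
    cel s (h / q) x ∈ subs q (cel s h x) := by
  have hq' : (q : ℝ) ≠ 0 := by exact_mod_cast hq.ne'
  have e : ∀ i : Fin 2, (x i - s i) / (h / q) = q * ((x i - s i) / h) := by
    intro i; field_simp
  unfold subs cel
  simp only [Finset.mem_product, Finset.mem_Ico, e]
  exact ⟨floor_sub hq, floor_sub hq⟩

/-! ### Kernel regularity -/

lemma exists_lip : ∃ L : ℝ, 0 < L ∧ (∀ x y : Plane, |chi x - chi y| ≤ L * ‖x - y‖) ∧
    (∀ (p x y : Plane) (ρ : ℝ), ‖x - p‖ ≤ ρ → ‖y - p‖ ≤ ρ →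
      |chi x - fderiv ℝ chi p x - (chi y - fderiv ℝ chi p y)| ≤ L * ρ * ‖x - y‖) := by
  obtain ⟨C1, hC1⟩ : ∃ C : NNReal, LipschitzWith C chi :=
    ContDiff.lipschitzWith_of_hasCompactSupport (𝕂 := ℝ) chi_hasCompactSupport chi_contDiff (by simp)
  obtain ⟨C2, hC2⟩ : ∃ C : NNReal, LipschitzWith C (fderiv ℝ chi) := by
    refine ContDiff.lipschitzWith_of_hasCompactSupport (𝕂 := ℝ) (n := 1)
      (chi_hasCompactSupport.fderiv (𝕜 := ℝ)) ?_ (by simp)
    exact chi_contDiff.fderiv_right (by norm_cast)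
  refine ⟨C1 + C2 + 1, by positivity, fun x y => ?_, fun p x y ρ hx hy => ?_⟩
  · have := hC1.dist_le_mul x y
    rw [Real.dist_eq, dist_eq_norm] at this
    have h2 : 0 ≤ ‖x - y‖ := norm_nonneg _
    have h3 : (0 : ℝ) ≤ C2 := C2.2
    nlinarith
  · have hρ : 0 ≤ ρ := le_trans (norm_nonneg _) hx
    have h1 := (convex_closedBall p ρ).norm_image_sub_le_of_norm_fderiv_le' (𝕜 := ℝ) (f := chi)
      (φ := fderiv ℝ chi p) (C := C2 * ρ) (x := y) (y := x)
      (fun w _ => (chi_contDiff.differentiable (by simp)).differentiableAt)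
      (fun w hw => by
        have := hC2.dist_le_mul w p
        rw [dist_eq_norm, dist_eq_norm] at this
        refine this.trans ?_
        apply mul_le_mul_of_nonneg_left _ C2.2
        rw [Metric.mem_closedBall, dist_eq_norm] at hw
        exact hw)
      (by rw [Metric.mem_closedBall, dist_eq_norm]; exact hy)
      (by rw [Metric.mem_closedBall, dist_eq_norm]; exact hx)
    rw [Real.norm_eq_abs, map_sub] at h1
    have e : chi x - fderiv ℝ chi p x - (chi y - fderiv ℝ chi p y) =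
        chi x - chi y - (fderiv ℝ chi p x - fderiv ℝ chi p y) := by ring
    rw [e]
    refine h1.trans ?_
    have h2 : 0 ≤ ‖x - y‖ := norm_nonneg _
    have h3 : (0 : ℝ) ≤ C1 := C1.2
    have h4 : 0 ≤ ρ * ‖x - y‖ := by positivity
    nlinarith

/-- a fixed regularity constant of the kernel -/
noncomputable def LL : ℝ := exists_lip.choose

lemma LL_pos : 0 < LL := exists_lip.choose_spec.1

lemma kr_lip {r : ℝ} (hr : 0 < r) (x y : Plane) : |kr r x - kr r y| ≤ LL / r * ‖x - y‖ := by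
  unfold kr
  refine (exists_lip.choose_spec.2.1 (r⁻¹ • x) (r⁻¹ • y)).trans (le_of_eq ?_)
  rw [← smul_sub, norm_smul, norm_inv, Real.norm_eq_abs, abs_of_pos hr]
  change LL * _ = _
  ring

/-- the derivative of `χ_r` at `p` -/
noncomputable def dkr (r : ℝ) (p : Plane) : Plane →L[ℝ] ℝ := r⁻¹ • fderiv ℝ chi (r⁻¹ • p)

lemma kr_lip2 {r : ℝ} (hr : 0 < r) {p x y : Plane} {ρ : ℝ} (hx : ‖x - p‖ ≤ ρ) (hy : ‖y - p‖ ≤ ρ) :
    |kr r x - dkr r p x - (kr r y - dkr r p y)| ≤ LL * ρ / r ^ 2 * ‖x - y‖ := by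
  have h1 := exists_lip.choose_spec.2.2 (r⁻¹ • p) (r⁻¹ • x) (r⁻¹ • y) (r⁻¹ * ρ)
    (by rw [← smul_sub, norm_smul, norm_inv, Real.norm_eq_abs, abs_of_pos hr]
        exact mul_le_mul_of_nonneg_left hx (by positivity))
    (by rw [← smul_sub, norm_smul, norm_inv, Real.norm_eq_abs, abs_of_pos hr]
        exact mul_le_mul_of_nonneg_left hy (by positivity))
  unfold kr dkr
  simp only [map_smul, smul_eq_mul, FunLike.coe_smul, Pi.smul_apply] at h1 ⊢
  refine h1.trans (le_of_eq ?_)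
  rw [← smul_sub, norm_smul, norm_inv, Real.norm_eq_abs, abs_of_pos hr]
  change LL * _ * _ = _
  field_simp

end Pool.Agent.LT2
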