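import Pool.Agent.Lib.MP_50e96d_mp.Level

/-!
# Integration over the scales
-/

namespace Pool.Agent.LT2

open MeasureTheory Set Filter
open scoped ENNReal

set_option linter.unusedSectionVars false

lemma lintegral_inv_two_pi {a b : ℝ} (ha : 0 < a) (hab : a ≤ b) :
    ∫⁻ r in Ioc a b, ENNReal.ofReal (r⁻¹ / (2 * Real.pi)) =
      ENNReal.ofReal (Real.log (b / a) / (2 * Real.pi)) := by
  have hpi := Real.pi_pos
  have h0 : 0 ≤ Real.log (b / a) := Real.log_nonneg (by rwa [le_div_iff₀ ha, one_mul])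
  have h1 : ∀ r : ℝ, ENNReal.ofReal (r⁻¹ / (2 * Real.pi)) =
      ENNReal.ofReal r⁻¹ * ENNReal.ofReal (1 / (2 * Real.pi)) := by
    intro r
    rw [← ENNReal.ofReal_mul' (by positivity)]
    congr 1; ring
  simp only [h1]
  rw [lintegral_mul_const _ (by fun_prop : Measurable fun r : ℝ => r⁻¹).ennreal_ofReal,
    lintegral_inv ha hab, ← ENNReal.ofReal_mul h0]
  congr 1; ring

lemma lintegral_inv_indicator {a b δ : ℝ} (hb : 0 < b) (hδ : 0 < δ) (hδ1 : δ ≤ 1) :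
    ∫⁻ r in Ioc a b, ENNReal.ofReal (r⁻¹ / (2 * Real.pi)) * (Ioi (δ * b)).indicator (fun _ => 1) r ≤
      ENNReal.ofReal (Real.log (1 / δ) / (2 * Real.pi)) := by
  have h1 : ∀ r : ℝ, ENNReal.ofReal (r⁻¹ / (2 * Real.pi)) * (Ioi (δ * b)).indicator (fun _ => (1 : ℝ≥0∞)) r =
      (Ioi (δ * b)).indicator (fun r => ENNReal.ofReal (r⁻¹ / (2 * Real.pi))) r := by
    intro r
    by_cases h : r ∈ Ioi (δ * b)
    · rw [indicator_of_mem h, indicator_of_mem h, mul_one]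
    · rw [indicator_of_notMem h, indicator_of_notMem h, mul_zero]
  simp only [h1]
  rw [lintegral_indicator measurableSet_Ioi, Measure.restrict_restrict measurableSet_Ioi]
  have h2 : δ * b ≤ b := by nlinarith
  calc ∫⁻ r in Ioi (δ * b) ∩ Ioc a b, ENNReal.ofReal (r⁻¹ / (2 * Real.pi))
      ≤ ∫⁻ r in Ioc (δ * b) b, ENNReal.ofReal (r⁻¹ / (2 * Real.pi)) :=
        lintegral_mono_set fun r hr => ⟨hr.1, hr.2.2⟩
    _ = _ := by
        rw [lintegral_inv_two_pi (by positivity) h2]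
        congr 3
        field_simp

lemma lintegral_id_le {a b c : ℝ} (hb : 0 < b) (hc : 0 ≤ c) (ha : 0 ≤ a) :
    ∫⁻ r in Ioc a b, ENNReal.ofReal (r * c) ≤ ENNReal.ofReal (c * b ^ 2) := by
  calc ∫⁻ r in Ioc a b, ENNReal.ofReal (r * c) ≤ ∫⁻ _r in Ioc a b, ENNReal.ofReal (b * c) := by
        apply setLIntegral_mono' measurableSet_Ioc
        intro r hr
        apply ENNReal.ofReal_le_ofReal
        exact mul_le_mul_of_nonneg_right hr.2 hc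
    _ = ENNReal.ofReal (b * c) * ENNReal.ofReal (b - a) := by
        rw [lintegral_const, Measure.restrict_apply_univ, Real.volume_Ioc]
    _ ≤ _ := by
        rw [← ENNReal.ofReal_mul (by positivity)]
        apply ENNReal.ofReal_le_ofReal
        have : 0 ≤ b * c := by positivity
        nlinarith

/-- convolution with a summable weight -/
lemma sum_conv_le (w n : ℕ → ℝ≥0∞) {C : ℝ≥0∞} (hw : ∑' t, w t ≤ C) (L : ℕ) :
    ∑ l ∈ Finset.range L, ∑ κ ∈ Finset.range (l + 1), w (l - κ) * n κ ≤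
      C * ∑ κ ∈ Finset.range L, n κ := by
  have h1 : ∑ l ∈ Finset.range L, ∑ κ ∈ Finset.range (l + 1), w (l - κ) * n κ =
      ∑ κ ∈ Finset.range L, ∑ l ∈ Finset.Ico κ L, w (l - κ) * n κ := by
    rw [Finset.range_eq_Ico]
    have := Finset.sum_Ico_Ico_comm 0 L (fun κ l => w (l - κ) * n κ)
    simp only [Finset.range_eq_Ico]
    exact this.symm
  rw [h1, Finset.mul_sum]
  apply Finset.sum_le_sum
  intro κ _
  rw [← Finset.sum_mul]
  gcongr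
  refine le_trans ?_ hw
  rw [Finset.sum_Ico_eq_sum_range]
  refine le_trans (le_of_eq ?_) (ENNReal.sum_le_tsum (Finset.range (L - κ)))
  apply Finset.sum_congr rfl
  intro t _
  rw [Nat.add_sub_cancel_left]

lemma tsum_half : ∑' t : ℕ, ((1 / 2 : ℝ≥0∞)) ^ t = 2 := by
  rw [ENNReal.tsum_geometric]
  simp

namespace Setting

variable (D : Setting) {u : Plane → ℝ}

/-- integrated estimate at level `k` -/
lemma int_level_le (hu : BM u) {N : ℕ × (ℤ × ℤ) → ℕ} {ν : ℝ≥0∞} (hN : ∀ q, 0 < N q)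
    (k : ℕ)
    (hmz : ∀ κ < k, ∀ P ∈ D.S.Sel κ, D.S.MZ u N (κ, P))
    (hν : ∀ κ < k, ∀ P ∈ D.S.Sel κ, D.S.μ (D.S.G (κ, P)) ≤ ν * (N (κ, P) : ℝ≥0∞) ^ 2)
    (hfm : ∀ j < k, ∀ P ∈ D.S.Enr j, D.S.FM u j P)
    {θ : ℝ} (hθ : 0 < θ) :
    ∫⁻ r in Ioc (D.a k) (D.S.b k), ENNReal.ofReal ((r ^ 3)⁻¹) * Q D.S.μ u r ≤
      ENNReal.ofReal (1 + θ) * (ENNReal.ofReal (Real.log D.S.Λ / (2 * Real.pi)) *
        ∫⁻ x in D.S.ns k, D.S.beta k x * ‖u x‖ₑ ^ 2 ∂D.S.μ) +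
      ENNReal.ofReal (1 + θ⁻¹) * (6 * (
        9 * D.S.thr * (ENNReal.ofReal (Real.log D.S.Λ / (2 * Real.pi)) *
          (∫⁻ x in D.S.ns k ∩ {x | D.S.m x + D.J < k}, (D.S.ψ (k - D.S.m x))⁻¹ * ‖u x‖ₑ ^ 2 ∂D.S.μ) +
          ENNReal.ofReal (Real.log (1 / D.δ) / (2 * Real.pi)) *
            ∫⁻ x in D.S.ns k, (D.S.ψ (k - D.S.m x))⁻¹ * ‖u x‖ₑ ^ 2 ∂D.S.μ) +
        9 * ∑ P ∈ D.S.Sel k, (∫⁻ r in Ioc (D.a k) (D.S.b k),
          ENNReal.ofReal ((r ^ 3)⁻¹) * Q D.S.μ ((D.S.G (k, P)).indicator u) r) +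
        ENNReal.ofReal (Real.log D.S.Λ) * (∑ q ∈ D.S.Alive k,
          ENNReal.ofReal (3600 * Real.pi * D.S.A * LL ^ 2 * (D.S.b q.1 / D.a k) ^ 2) *
            (ν * D.S.nn u (D.S.G q))) +
        ENNReal.ofReal (Real.log D.S.Λ) * (ENNReal.ofReal ((D.a k ^ 2)⁻¹) * ∑ j ∈ Finset.range k, 2 ^ (k - j) *
          (ENNReal.ofReal (14400 * Real.pi * D.S.A * LL ^ 2 * D.S.b j ^ 2) *
            (ν * ∑ P ∈ D.S.Enr j, ∑ q ∈ D.S.DQ j P, D.S.nn u (D.S.G q)))) +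
        ENNReal.ofReal (c1 ^ 2 * D.S.b k ^ 2) * (∫⁻ x in {x | k < D.S.m x},
          ENNReal.ofReal ((D.S.b (D.S.m x) ^ 2)⁻¹) * ‖u x‖ₑ ^ 2 ∂D.S.μ) +
        ∫⁻ r in Ioc (D.a k) (D.S.b k),
          ENNReal.ofReal ((r ^ 3)⁻¹) * Q D.S.μ ((D.Bd ∩ {x | D.S.m x ≤ k}).indicator u) r)) := by
  have hpi := Real.pi_pos
  have ha := D.a_pos k
  have hab := D.a_le_b k
  have hb := D.S.b_pos k
  set M := ∫⁻ x in D.S.ns k, D.S.beta k x * ‖u x‖ₑ ^ 2 ∂D.S.μ with hM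
  set A := ∫⁻ x in D.S.ns k ∩ {x | D.S.m x + D.J < k}, (D.S.ψ (k - D.S.m x))⁻¹ * ‖u x‖ₑ ^ 2 ∂D.S.μ with hA
  set B := ∫⁻ x in D.S.ns k, (D.S.ψ (k - D.S.m x))⁻¹ * ‖u x‖ₑ ^ 2 ∂D.S.μ with hB
  set Y := ∑ q ∈ D.S.Alive k, ENNReal.ofReal (3600 * Real.pi * D.S.A * LL ^ 2 * (D.S.b q.1 / D.a k) ^ 2) *
            (ν * D.S.nn u (D.S.G q)) with hY
  set Z := ∑ j ∈ Finset.range k, 2 ^ (k - j) *
          (ENNReal.ofReal (14400 * Real.pi * D.S.A * LL ^ 2 * D.S.b j ^ 2) *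
            (ν * ∑ P ∈ D.S.Enr j, ∑ q ∈ D.S.DQ j P, D.S.nn u (D.S.G q))) with hZ
  set F := ∫⁻ x in {x | k < D.S.m x},
          ENNReal.ofReal ((D.S.b (D.S.m x) ^ 2)⁻¹) * ‖u x‖ₑ ^ 2 ∂D.S.μ with hF
  have hmle : MeasurableSet {x | D.S.m x ≤ k} := D.S.hm measurableSet_Iic
  have mG : ∀ P, Measurable ((D.S.G (k, P)).indicator u) := fun P => (hu.indicator (D.S.measurableSet_G _)).1
  have mB : Measurable ((D.Bd ∩ {x | D.S.m x ≤ k}).indicator u) := (hu.indicator (D.hBdm.inter hmle)).1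
  have m3 : Measurable fun r : ℝ => ENNReal.ofReal ((r ^ 3)⁻¹) :=
    (by fun_prop : Measurable fun r : ℝ => (r ^ 3)⁻¹).ennreal_ofReal
  have m1 : Measurable fun r : ℝ => ENNReal.ofReal (r⁻¹) :=
    (by fun_prop : Measurable fun r : ℝ => r⁻¹).ennreal_ofReal
  have m2 : Measurable fun r : ℝ => ENNReal.ofReal (r⁻¹ / (2 * Real.pi)) :=
    (by fun_prop : Measurable fun r : ℝ => r⁻¹ / (2 * Real.pi)).ennreal_ofReal
  have m4 : Measurable fun r : ℝ => ENNReal.ofReal (r * c1 ^ 2) :=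
    (by fun_prop : Measurable fun r : ℝ => r * c1 ^ 2).ennreal_ofReal
  have mI : Measurable ((Ioi (D.δ * D.S.b k)).indicator (fun _ : ℝ => (1 : ℝ≥0∞))) :=
    measurable_const.indicator measurableSet_Ioi
  -- the pointwise bound
  let f1 : ℝ → ℝ≥0∞ := fun r => ENNReal.ofReal (r⁻¹ / (2 * Real.pi)) * M
  let g1 : ℝ → ℝ≥0∞ := fun r => 9 * D.S.thr * (ENNReal.ofReal (r⁻¹ / (2 * Real.pi)) * A +
    (ENNReal.ofReal (r⁻¹ / (2 * Real.pi)) * (Ioi (D.δ * D.S.b k)).indicator (fun _ => 1) r) * B)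
  let g2 : ℝ → ℝ≥0∞ := fun r => 9 * ∑ P ∈ D.S.Sel k,
    ENNReal.ofReal ((r ^ 3)⁻¹) * Q D.S.μ ((D.S.G (k, P)).indicator u) r
  let g3 : ℝ → ℝ≥0∞ := fun r => ENNReal.ofReal (r⁻¹) * Y
  let g4 : ℝ → ℝ≥0∞ := fun r => ENNReal.ofReal (r⁻¹) * (ENNReal.ofReal ((D.a k ^ 2)⁻¹) * Z)
  let g5 : ℝ → ℝ≥0∞ := fun r => ENNReal.ofReal (r * c1 ^ 2) * F
  let g6 : ℝ → ℝ≥0∞ := fun r => ENNReal.ofReal ((r ^ 3)⁻¹) *
    Q D.S.μ ((D.Bd ∩ {x | D.S.m x ≤ k}).indicator u) r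
  have mf1 : Measurable f1 := m2.mul_const _
  have mg1 : Measurable g1 := ((m2.mul_const _).add ((m2.mul mI).mul_const _)).const_mul _
  have mg2 : Measurable g2 := (Finset.measurable_sum _ fun P _ => m3.mul (Q_measurable (mG P))).const_mul _
  have mg3 : Measurable g3 := m1.mul_const _
  have mg4 : Measurable g4 := m1.mul_const _
  have mg5 : Measurable g5 := m4.mul_const _
  have mg6 : Measurable g6 := m3.mul (Q_measurable mB)
  have hpt : ∀ r ∈ Ioc (D.a k) (D.S.b k), ENNReal.ofReal ((r ^ 3)⁻¹) * Q D.S.μ u r ≤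
      ENNReal.ofReal (1 + θ) * f1 r + ENNReal.ofReal (1 + θ⁻¹) *
        (6 * (g1 r + g2 r + g3 r + g4 r + g5 r + g6 r)) := by
    intro r hr
    have hr0 : 0 < r := lt_trans ha hr.1
    have hl := D.Q_level_le hu (ν := ν) hN k hmz hν hfm hθ hr
    rw [← hM, ← hA, ← hB, ← hY, ← hZ, ← hF] at hl
    have e1 : ENNReal.ofReal ((r ^ 3)⁻¹) * ENNReal.ofReal (r ^ 2 / (2 * Real.pi)) =
        ENNReal.ofReal (r⁻¹ / (2 * Real.pi)) := by
      rw [← ENNReal.ofReal_mul (by positivity)]; congr 1; field_simp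
    have e2 : ENNReal.ofReal ((r ^ 3)⁻¹) * ENNReal.ofReal (r ^ 2) = ENNReal.ofReal (r⁻¹) := by
      rw [← ENNReal.ofReal_mul (by positivity)]; congr 1; field_simp
    have e3 : ENNReal.ofReal ((r ^ 3)⁻¹) * ENNReal.ofReal (r ^ 4 * c1 ^ 2) = ENNReal.ofReal (r * c1 ^ 2) := by
      rw [← ENNReal.ofReal_mul (by positivity)]; congr 1; field_simp
    have e4 : ENNReal.ofReal ((r ^ 3)⁻¹) ≤ ENNReal.ofReal (r⁻¹) * ENNReal.ofReal ((D.a k ^ 2)⁻¹) := by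
      rw [← ENNReal.ofReal_mul (by positivity)]
      apply ENNReal.ofReal_le_ofReal
      rw [← mul_inv]
      apply inv_anti₀ (by positivity)
      have : D.a k ^ 2 ≤ r ^ 2 := pow_le_pow_left₀ ha.le hr.1.le 2
      nlinarith
    calc ENNReal.ofReal ((r ^ 3)⁻¹) * Q D.S.μ u r
        ≤ ENNReal.ofReal ((r ^ 3)⁻¹) * (ENNReal.ofReal (1 + θ) * (ENNReal.ofReal (r ^ 2 / (2 * Real.pi)) * M) +
      ENNReal.ofReal (1 + θ⁻¹) * (6 * (
        ENNReal.ofReal (r ^ 2 / (2 * Real.pi)) * (9 * D.S.thr *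
          (A + (Ioi (D.δ * D.S.b k)).indicator (fun _ => 1) r * B)) +
        9 * ∑ P ∈ D.S.Sel k, Q D.S.μ ((D.S.G (k, P)).indicator u) r +
        ENNReal.ofReal (r ^ 2) * Y + Z + ENNReal.ofReal (r ^ 4 * c1 ^ 2) * F +
        Q D.S.μ ((D.Bd ∩ {x | D.S.m x ≤ k}).indicator u) r))) := by gcongr
      _ = ENNReal.ofReal (1 + θ) * ((ENNReal.ofReal ((r ^ 3)⁻¹) * ENNReal.ofReal (r ^ 2 / (2 * Real.pi))) * M) +
        ENNReal.ofReal (1 + θ⁻¹) * (6 * (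
        9 * D.S.thr * ((ENNReal.ofReal ((r ^ 3)⁻¹) * ENNReal.ofReal (r ^ 2 / (2 * Real.pi))) * A +
          ((ENNReal.ofReal ((r ^ 3)⁻¹) * ENNReal.ofReal (r ^ 2 / (2 * Real.pi))) *
            (Ioi (D.δ * D.S.b k)).indicator (fun _ => 1) r) * B) +
        9 * (ENNReal.ofReal ((r ^ 3)⁻¹) * ∑ P ∈ D.S.Sel k, Q D.S.μ ((D.S.G (k, P)).indicator u) r) +
        (ENNReal.ofReal ((r ^ 3)⁻¹) * ENNReal.ofReal (r ^ 2)) * Y + ENNReal.ofReal ((r ^ 3)⁻¹) * Z +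
        (ENNReal.ofReal ((r ^ 3)⁻¹) * ENNReal.ofReal (r ^ 4 * c1 ^ 2)) * F +
        ENNReal.ofReal ((r ^ 3)⁻¹) * Q D.S.μ ((D.Bd ∩ {x | D.S.m x ≤ k}).indicator u) r)) := by ring
      _ ≤ _ := by
        rw [e1, e2, e3, Finset.mul_sum]
        have e5 : ENNReal.ofReal ((r ^ 3)⁻¹) * Z ≤ ENNReal.ofReal (r⁻¹) * (ENNReal.ofReal ((D.a k ^ 2)⁻¹) * Z) := by
          rw [← mul_assoc]; exact mul_le_mul_left e4 _
        simp only [f1, g1, g2, g3, g4, g5, g6]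
        gcongr
  have hint : ∫⁻ r in Ioc (D.a k) (D.S.b k), (ENNReal.ofReal (1 + θ) * f1 r + ENNReal.ofReal (1 + θ⁻¹) *
        (6 * (g1 r + g2 r + g3 r + g4 r + g5 r + g6 r))) =
      ENNReal.ofReal (1 + θ) * (∫⁻ r in Ioc (D.a k) (D.S.b k), f1 r) + ENNReal.ofReal (1 + θ⁻¹) *
        (6 * ((∫⁻ r in Ioc (D.a k) (D.S.b k), g1 r) + (∫⁻ r in Ioc (D.a k) (D.S.b k), g2 r) +
          (∫⁻ r in Ioc (D.a k) (D.S.b k), g3 r) + (∫⁻ r in Ioc (D.a k) (D.S.b k), g4 r) +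
          (∫⁻ r in Ioc (D.a k) (D.S.b k), g5 r) + ∫⁻ r in Ioc (D.a k) (D.S.b k), g6 r)) := by
    have s2 : Measurable fun r => g1 r + g2 r := mg1.add mg2
    have s3 : Measurable fun r => g1 r + g2 r + g3 r := s2.add mg3
    have s4 : Measurable fun r => g1 r + g2 r + g3 r + g4 r := s3.add mg4
    have s5 : Measurable fun r => g1 r + g2 r + g3 r + g4 r + g5 r := s4.add mg5
    have s6 : Measurable fun r => g1 r + g2 r + g3 r + g4 r + g5 r + g6 r := s5.add mg6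
    have s7 : Measurable fun r => 6 * (g1 r + g2 r + g3 r + g4 r + g5 r + g6 r) := s6.const_mul _
    rw [lintegral_add_left (mf1.const_mul _), lintegral_const_mul _ mf1,
      lintegral_const_mul _ s7, lintegral_const_mul _ s6, lintegral_add_left s5,
      lintegral_add_left s4, lintegral_add_left s3, lintegral_add_left s2,
      lintegral_add_left mg1]
  refine (setLIntegral_mono' measurableSet_Ioc hpt).trans ?_
  rw [hint]
  have hLog : D.S.b k / D.a k = D.S.Λ := D.b_div_a k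
  gcongr
  · -- f1
    simp only [f1]
    rw [lintegral_mul_const _ m2, lintegral_inv_two_pi ha hab, hLog]
  · -- g1
    simp only [g1]
    have s1 : Measurable fun r => ENNReal.ofReal (r⁻¹ / (2 * Real.pi)) *
        (Ioi (D.δ * D.S.b k)).indicator (fun _ : ℝ => (1 : ℝ≥0∞)) r := m2.mul mI
    have s2 : Measurable fun r => ENNReal.ofReal (r⁻¹ / (2 * Real.pi)) * A +
        ENNReal.ofReal (r⁻¹ / (2 * Real.pi)) * (Ioi (D.δ * D.S.b k)).indicator (fun _ => 1) r * B :=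
      (m2.mul_const _).add (s1.mul_const _)
    rw [lintegral_const_mul _ s2,
      lintegral_add_left (m2.mul_const _), lintegral_mul_const _ m2,
      lintegral_mul_const _ s1, lintegral_inv_two_pi ha hab, hLog]
    gcongr
    exact lintegral_inv_indicator hb D.hδ D.hδ1
  · -- g2
    simp only [g2]
    have s0 : ∀ P, Measurable fun r => ENNReal.ofReal ((r ^ 3)⁻¹) * Q D.S.μ ((D.S.G (k, P)).indicator u) r :=
      fun P => m3.mul (Q_measurable (mG P))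
    have s1 : Measurable fun r => ∑ P ∈ D.S.Sel k,
        ENNReal.ofReal ((r ^ 3)⁻¹) * Q D.S.μ ((D.S.G (k, P)).indicator u) r :=
      Finset.measurable_sum _ fun P _ => s0 P
    rw [lintegral_const_mul _ s1, lintegral_finsetSum _ fun P _ => s0 P]
  · simp only [g3]
    rw [lintegral_mul_const _ m1, lintegral_inv ha hab, hLog]
  · simp only [g4]
    rw [lintegral_mul_const _ m1, lintegral_inv ha hab, hLog]
  · simp only [g5]
    rw [lintegral_mul_const _ m4]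
    gcongr
    exact lintegral_id_le hb (by positivity) ha.le

end Setting

end Pool.Agent.LT2
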