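import Pool.Agent.Lib.MP_50e96d_mp.Defs

/-!
# A smooth radial kernel
-/

namespace Pool.Agent.LT2

open MeasureTheory SchwartzMap FourierTransform Set
open scoped ENNReal

/-- unnormalised radial bump, supported in the unit disc -/
noncomputable def chi0 (x : Plane) : ℝ := Real.smoothTransition (1 - ‖x‖ ^ 2)

lemma chi0_contDiff : ContDiff ℝ (⊤ : ℕ∞) chi0 := by
  unfold chi0
  exact (Real.smoothTransition.contDiff (n := ⊤)).comp (contDiff_const.sub (contDiff_norm_sq ℝ))

lemma chi0_zero {x : Plane} (h : 1 ≤ ‖x‖) : chi0 x = 0 := by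
  unfold chi0
  apply Real.smoothTransition.zero_of_nonpos
  nlinarith

lemma chi0_pos {x : Plane} (h : ‖x‖ < 1) : 0 < chi0 x := by
  unfold chi0
  apply Real.smoothTransition.pos_of_pos
  nlinarith [norm_nonneg x]

lemma chi0_nonneg (x : Plane) : 0 ≤ chi0 x := Real.smoothTransition.nonneg _

lemma chi0_le_one (x : Plane) : chi0 x ≤ 1 := Real.smoothTransition.le_one _

lemma chi0_hasCompactSupport : HasCompactSupport chi0 := by
  apply HasCompactSupport.intro (isCompact_closedBall (0 : Plane) 1)
  intro x hx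
  simp only [Metric.mem_closedBall, dist_zero_right, not_le] at hx
  exact chi0_zero hx.le

lemma chi0_sq_integrable : Integrable fun x => chi0 x ^ 2 := by
  apply (chi0_contDiff.continuous.pow 2).integrable_of_hasCompactSupport
  have := chi0_hasCompactSupport.mul_left (f := chi0)
  convert! this using 1
  ext x; simp [sq]

/-- `∫ χ₀²` -/
noncomputable def kap : ℝ := ∫ x, chi0 x ^ 2

lemma kap_pos : 0 < kap := by
  unfold kap
  rw [integral_pos_iff_support_of_nonneg (fun x => sq_nonneg _) chi0_sq_integrable]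
  apply lt_of_lt_of_le (Metric.measure_ball_pos volume (0 : Plane) one_pos)
  apply measure_mono
  intro x hx
  simp only [Metric.mem_ball, dist_zero_right] at hx
  simp [(chi0_pos hx).ne']

/-- the normalised radial kernel -/
noncomputable def chi (x : Plane) : ℝ := (Real.sqrt (2 * Real.pi * kap))⁻¹ * chi0 x

lemma cst_pos : 0 < (Real.sqrt (2 * Real.pi * kap))⁻¹ := by
  have := kap_pos
  have := Real.pi_pos
  positivity

lemma chi_contDiff : ContDiff ℝ (⊤ : ℕ∞) chi := contDiff_const.mul chi0_contDiff

lemma chi_continuous : Continuous chi := chi_contDiff.continuous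

lemma chi_zero {x : Plane} (h : 1 ≤ ‖x‖) : chi x = 0 := by
  unfold chi; rw [chi0_zero h, mul_zero]

lemma chi_nonneg (x : Plane) : 0 ≤ chi x := mul_nonneg cst_pos.le (chi0_nonneg x)

lemma chi_hasCompactSupport : HasCompactSupport chi := chi0_hasCompactSupport.mul_left

lemma chi_radial {x y : Plane} (h : ‖x‖ = ‖y‖) : chi x = chi y := by
  unfold chi chi0; rw [h]

lemma chi_sq_integrable : Integrable fun x => chi x ^ 2 := by
  have := chi0_sq_integrable.const_mul ((Real.sqrt (2 * Real.pi * kap))⁻¹ ^ 2)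
  apply this.congr
  filter_upwards with x
  unfold chi; ring

lemma integral_chi_sq : ∫ x, chi x ^ 2 = 1 / (2 * Real.pi) := by
  have h1 : (fun x => chi x ^ 2) = fun x => ((Real.sqrt (2 * Real.pi * kap))⁻¹ ^ 2) * chi0 x ^ 2 := by
    ext x; unfold chi; ring
  have h2 := kap_pos
  have h3 := Real.pi_pos
  rw [h1, integral_const_mul]
  change _ * kap = _
  rw [inv_pow, Real.sq_sqrt (by positivity)]
  field_simp

lemma chi_integrable : Integrable chi :=
  chi_continuous.integrable_of_hasCompactSupport chi_hasCompactSupport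

lemma integral_chi_pos : 0 < ∫ x, chi x := by
  rw [integral_pos_iff_support_of_nonneg chi_nonneg chi_integrable]
  apply lt_of_lt_of_le (Metric.measure_ball_pos volume (0 : Plane) one_pos)
  apply measure_mono
  intro x hx
  simp only [Metric.mem_ball, dist_zero_right] at hx
  simp only [Function.mem_support]
  exact (mul_pos cst_pos (chi0_pos hx)).ne'

/-- `χ` as a Schwartz function -/
noncomputable def chiS : 𝓢(Plane, ℂ) :=
  HasCompactSupport.toSchwartzMap (f := fun x => ((chi x : ℝ) : ℂ))
    (chi_hasCompactSupport.comp_left (g := fun t : ℝ => (t : ℂ)) (by simp))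
    (Complex.ofRealCLM.contDiff.comp chi_contDiff)

lemma chiS_apply (x : Plane) : chiS x = ((chi x : ℝ) : ℂ) := rfl

/-- a unit vector -/
noncomputable def e0 : Plane := EuclideanSpace.single 0 1

lemma norm_e0 : ‖e0‖ = 1 := by simp [e0]

lemma fourier_chi_radial {ξ η : Plane} (h : ‖ξ‖ = ‖η‖) : 𝓕 chiS ξ = 𝓕 chiS η := by
  let A : Plane ≃ₗᵢ[ℝ] Plane := (ℝ ∙ (ξ - η))ᗮ.reflection
  have hA : A ξ = η := Submodule.reflection_sub h
  have h1 : ((chiS : Plane → ℂ) ∘ A) = chiS := by
    ext x
    simp only [Function.comp_apply, chiS_apply]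
    rw [chi_radial (A.norm_map x)]
  rw [SchwartzMap.fourier_coe, ← hA, ← Real.fourier_comp_linearIsometry, h1]

/-- the radial profile `|χ̂(s e)|²` -/
noncomputable def rho (s : ℝ) : ℝ := ‖𝓕 chiS (s • e0)‖ ^ 2

lemma rho_norm (ξ : Plane) : ‖𝓕 chiS ξ‖ ^ 2 = rho ‖ξ‖ := by
  unfold rho
  rw [fourier_chi_radial (ξ := ξ) (η := ‖ξ‖ • e0)]
  rw [norm_smul, norm_norm, norm_e0, mul_one]

lemma rho_nonneg (s : ℝ) : 0 ≤ rho s := sq_nonneg _

lemma rho_continuous : Continuous rho := by
  unfold rho
  exact ((𝓕 chiS).continuous.comp (continuous_id.smul continuous_const)).norm.pow 2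

lemma rho_zero_pos : 0 < rho 0 := by
  unfold rho
  have : 𝓕 chiS (0 : Plane) = ((∫ x, chi x : ℝ) : ℂ) := by
    rw [SchwartzMap.fourier_coe, Real.fourier_eq]
    simp only [inner_zero_right, neg_zero, AddChar.map_zero_eq_one, one_smul, chiS_apply]
    exact integral_ofReal
  rw [zero_smul, this]
  have h := integral_chi_pos
  have : (0 : ℝ) < ‖((∫ x, chi x : ℝ) : ℂ)‖ := by
    rw [norm_pos_iff]
    exact_mod_cast h.ne'
  positivity

lemma finrank_plane : Module.finrank ℝ Plane = 2 := by simp [Plane]

lemma volume_unit_ball : (volume : Measure Plane).real (Metric.ball 0 1) = Real.pi := by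
  rw [Measure.real, EuclideanSpace.volume_ball_fin_two]
  simp [Real.pi_pos.le]

/-- polar coordinates for radial functions -/
lemma integral_radial (f : ℝ → ℝ) :
    ∫ x : Plane, f ‖x‖ = 2 * Real.pi * ∫ r in Ioi (0 : ℝ), r * f r := by
  rw [integral_fun_norm_addHaar (μ := (volume : Measure Plane)) f, finrank_plane, volume_unit_ball]
  simp [mul_assoc]

lemma integrable_radial (f : ℝ → ℝ) :
    Integrable (fun x : Plane => f ‖x‖) ↔ IntegrableOn (fun r : ℝ => r * f r) (Ioi 0) := by
  rw [integrable_fun_norm_addHaar (μ := (volume : Measure Plane)) (f := f), finrank_plane]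
  simp

lemma integrable_norm_sq_fourier : Integrable fun ξ : Plane => ‖𝓕 chiS ξ‖ ^ 2 := by
  have := (𝓕 chiS).memLp 2 volume
  exact (memLp_two_iff_integrable_sq_norm this.1).1 this

lemma rho_integrableOn : IntegrableOn (fun s : ℝ => s * rho s) (Ioi 0) := by
  rw [← integrable_radial]
  apply integrable_norm_sq_fourier.congr
  filter_upwards with x using rho_norm x

lemma integral_rho : ∫ s in Ioi (0 : ℝ), s * rho s = 1 / (4 * Real.pi ^ 2) := by
  have h1 := integral_radial rho
  have h2 : ∫ x : Plane, rho ‖x‖ = 1 / (2 * Real.pi) := by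
    rw [← integral_chi_sq]
    calc ∫ x : Plane, rho ‖x‖ = ∫ x : Plane, ‖𝓕 chiS x‖ ^ 2 := by
          apply integral_congr_ae
          filter_upwards with x using (rho_norm x).symm
      _ = ∫ x : Plane, ‖chiS x‖ ^ 2 := SchwartzMap.integral_norm_sq_fourier _
      _ = _ := by
          apply integral_congr_ae
          filter_upwards with x
          simp [chiS_apply]
  rw [h2] at h1
  have := Real.pi_pos
  field_simp at h1 ⊢
  nlinarith

end Pool.Agent.LT2
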