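import Pool.Agent.Lib.MP_50e96d_mp.OpenPart

/-!
# The estimate at one scale
-/

namespace Pool.Agent.LT2

open MeasureTheory Set Filter
open scoped ENNReal

set_option linter.unusedSectionVars false

section general

variable {μ : Measure Plane} [IsFiniteMeasure μ]

lemma Q_seven {X1 X2 X3 X4 X5 X6 X7 : Plane → ℝ} (h1 : BM X1) (h2 : BM X2) (h3 : BM X3)
    (h4 : BM X4) (h5 : BM X5) (h6 : BM X6) (h7 : BM X7) {θ : ℝ} (hθ : 0 < θ) (r : ℝ) :
    Q μ (fun x => X1 x + (X2 x + X3 x + X4 x + X5 x + X6 x + X7 x)) r ≤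
      ENNReal.ofReal (1 + θ) * Q μ X1 r + ENNReal.ofReal (1 + θ⁻¹) *
        (6 * (Q μ X2 r + Q μ X3 r + Q μ X4 r + Q μ X5 r + Q μ X6 r + Q μ X7 r)) := by
  have hR : BM fun x => X2 x + X3 x + X4 x + X5 x + X6 x + X7 x :=
    ((((h2.add h3).add h4).add h5).add h6).add h7
  refine (Q_add_le (μ := μ) h1.1 hθ (fun z => T_add h1 hR r z)).trans ?_
  gcongr
  have hX : ∀ i ∈ (Finset.univ : Finset (Fin 6)), BM ((![X2, X3, X4, X5, X6, X7] : Fin 6 → Plane → ℝ) i) := by
    intro i _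
    fin_cases i
    · exact h2
    · exact h3
    · exact h4
    · exact h5
    · exact h6
    · exact h7
  have := Q_sum_le (μ := μ) (Finset.univ : Finset (Fin 6))
    (w := (![X2, X3, X4, X5, X6, X7] : Fin 6 → Plane → ℝ)) hX r (N := 6)
    (fun z => (Finset.card_filter_le _ _).trans (by simp))
  have e1 : (fun x => ∑ i ∈ (Finset.univ : Finset (Fin 6)), (![X2, X3, X4, X5, X6, X7] : Fin 6 → Plane → ℝ) i x) =
      fun x => X2 x + X3 x + X4 x + X5 x + X6 x + X7 x := by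
    ext x; simp [Fin.sum_univ_six]
  have e2 : ∑ i ∈ (Finset.univ : Finset (Fin 6)), Q μ ((![X2, X3, X4, X5, X6, X7] : Fin 6 → Plane → ℝ) i) r =
      Q μ X2 r + Q μ X3 r + Q μ X4 r + Q μ X5 r + Q μ X6 r + Q μ X7 r := by
    simp [Fin.sum_univ_six]
  rw [e1, e2] at this
  simpa using this

end general

/-- the hypotheses of the core estimate -/
structure Setting where
  /-- the selection system -/
  S : Sys
  /-- the potential -/
  W : Plane → ℝ
  /-- the bad set -/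
  Bd : Set Plane
  /-- the number of levels at which good points are centred -/
  J : ℕ
  /-- relative distance to the grid -/
  δ : ℝ
  hWm : Measurable W
  hW0 : ∀ x, 0 ≤ W x
  hμ : S.μ = volume.withDensity fun x => ENNReal.ofReal (W x)
  hWb : ∀ x, W x * S.b (S.m x) ^ 2 ≤ 1
  hBdm : MeasurableSet Bd
  hdisj : Disjoint S.K Bd
  hcar : ∀ x, W x ≠ 0 → x ∈ S.K ∨ x ∈ Bd
  hδ : 0 < δ
  hδ1 : δ ≤ 1
  hgood : ∀ x ∈ S.K, ∀ k, S.m x ≤ k → k ≤ S.m x + J → ∀ z, ‖z - x‖ < δ * S.b k →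
    S.c k z = S.c k x
  hψ1 : ∀ j : ℕ, ((j + 1 : ℕ) : ℝ≥0∞) ≤ S.ψ j
  hψt : ∀ j, S.ψ j ≠ ⊤

namespace Setting

variable (D : Setting) {u : Plane → ℝ}

lemma hψ0 (j : ℕ) : D.S.ψ j ≠ 0 := by
  have h := D.hψ1 j
  intro h0
  rw [h0] at h
  simp at h

/-- lower end of the scale interval of level `k` -/
noncomputable def a (k : ℕ) : ℝ := D.S.b k / D.S.Λ

lemma a_pos (k : ℕ) : 0 < D.a k := div_pos (D.S.b_pos k) D.S.Λ_pos

lemma a_succ (k : ℕ) : D.a (k + 1) = D.S.b k := by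
  unfold a
  rw [D.S.b_succ, mul_div_assoc, div_self D.S.Λ_pos.ne', mul_one]

lemma one_le_Λ : (1 : ℝ) ≤ D.S.Λ := by
  have := D.S.hΛ
  exact_mod_cast (by omega : 1 ≤ D.S.Λ)

lemma a_le_b (k : ℕ) : D.a k ≤ D.S.b k := div_le_self (D.S.b_pos k).le D.one_le_Λ

lemma b_div_a (k : ℕ) : D.S.b k / D.a k = D.S.Λ := by
  unfold a
  have := (D.S.b_pos k).ne'
  have := D.S.Λ_pos.ne'
  field_simp

/-- tight points at scale `r` of level `k` -/
def tt (k : ℕ) (r : ℝ) : Set Plane := {x | x ∈ D.S.ns k ∧ k ≤ D.S.m x + D.J ∧ r ≤ D.δ * D.S.b k}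

/-- loose points -/
def lo (k : ℕ) (r : ℝ) : Set Plane := {x | x ∈ D.S.ns k ∧ ¬ (k ≤ D.S.m x + D.J ∧ r ≤ D.δ * D.S.b k)}

lemma measurableSet_tt (k : ℕ) (r : ℝ) : MeasurableSet (D.tt k r) := by
  have h1 : MeasurableSet {x | k ≤ D.S.m x + D.J} := by
    have : {x | k ≤ D.S.m x + D.J} = D.S.m ⁻¹' {n | k ≤ n + D.J} := rfl
    rw [this]; exact D.S.hm MeasurableSet.of_discrete
  exact (D.S.measurableSet_ns k).inter (h1.inter (MeasurableSet.const _))

lemma measurableSet_lo (k : ℕ) (r : ℝ) : MeasurableSet (D.lo k r) := by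
  have h1 : MeasurableSet {x | k ≤ D.S.m x + D.J} := by
    have : {x | k ≤ D.S.m x + D.J} = D.S.m ⁻¹' {n | k ≤ n + D.J} := rfl
    rw [this]; exact D.S.hm MeasurableSet.of_discrete
  exact (D.S.measurableSet_ns k).inter (h1.inter (MeasurableSet.const _)).compl

/-- the level-`k` decomposition of `u`, valid `μ`-a.e. -/
lemma decomposition (k : ℕ) (r : ℝ) (u : Plane → ℝ) :
    u =ᵐ[D.S.μ] fun x => (D.tt k r).indicator u x + ((D.lo k r).indicator u x +
      (∑ P ∈ D.S.Sel k, (D.S.G (k, P)).indicator u x) +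
      (∑ q ∈ D.S.Alive k, (D.S.G q).indicator u x) +
      (∑ j ∈ Finset.range k, ∑ P ∈ D.S.Enr j, ∑ q ∈ D.S.DQ j P, (D.S.G q).indicator u x) +
      ({x | k < D.S.m x} : Set Plane).indicator u x +
      (D.Bd ∩ {x | D.S.m x ≤ k}).indicator u x) := by
  have h0 : ∀ᵐ x ∂D.S.μ, x ∈ D.S.K ∨ x ∈ D.Bd := by
    rw [D.hμ, ae_withDensity_iff D.hWm.ennreal_ofReal]
    filter_upwards with x hx
    apply D.hcar
    intro h
    rw [h] at hx
    simp at hx
  filter_upwards [h0] with x hx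
  have h1 := D.S.level_indicator k u x
  have h2 := D.S.Op_indicator k u x
  have h3 := D.S.sel_sum k (fun q => (D.S.G q).indicator u x)
  have h4 : (D.S.ns k).indicator u x = (D.tt k r).indicator u x + (D.lo k r).indicator u x := by
    by_cases hn : x ∈ D.S.ns k
    · by_cases hc : k ≤ D.S.m x + D.J ∧ r ≤ D.δ * D.S.b k
      · have e1 : x ∈ D.tt k r := ⟨hn, hc⟩
        have e2 : x ∉ D.lo k r := fun h => h.2 hc
        rw [indicator_of_mem hn, indicator_of_mem e1, indicator_of_notMem e2, add_zero]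
      · have e1 : x ∉ D.tt k r := fun h => hc h.2
        have e2 : x ∈ D.lo k r := ⟨hn, hc⟩
        rw [indicator_of_mem hn, indicator_of_notMem e1, indicator_of_mem e2, zero_add]
    · have e1 : x ∉ D.tt k r := fun h => hn h.1
      have e2 : x ∉ D.lo k r := fun h => hn h.1
      rw [indicator_of_notMem hn, indicator_of_notMem e1, indicator_of_notMem e2, add_zero]
  have h5 : u x = (D.S.K ∩ {y | D.S.m y ≤ k}).indicator u x +
      ({x | k < D.S.m x} : Set Plane).indicator u x +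
      (D.Bd ∩ {x | D.S.m x ≤ k}).indicator u x := by
    rcases hx with hx | hx
    · have hB : x ∉ D.Bd := fun h => (Set.disjoint_left.1 D.hdisj) hx h
      rcases Nat.lt_or_ge k (D.S.m x) with h | h
      · have : ¬ D.S.m x ≤ k := by omega
        simp [indicator, hx, hB, h, this]
      · have : ¬ k < D.S.m x := by omega
        simp [indicator, hx, hB, h, this]
    · have hK : x ∉ D.S.K := fun h => (Set.disjoint_left.1 D.hdisj) h hx
      rcases Nat.lt_or_ge k (D.S.m x) with h | h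
      · have : ¬ D.S.m x ≤ k := by omega
        simp [indicator, hx, hK, h, this]
      · have : ¬ k < D.S.m x := by omega
        simp [indicator, hx, hK, h, this]
  rw [h3] at h1
  rw [h5, h1, h2, h4]
  ring

/-- transfer to Lebesgue measure -/
lemma T_volume (w : Plane → ℝ) (r : ℝ) (z : Plane) :
    T D.S.μ w r z = T volume (fun x => D.W x * w x) r z := by
  unfold T
  rw [D.hμ, integral_withDensity_eq_integral_toReal_smul D.hWm.ennreal_ofReal
    (Eventually.of_forall fun _ => ENNReal.ofReal_lt_top)]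
  congr 1; ext x
  rw [ENNReal.toReal_ofReal (D.hW0 x), smul_eq_mul]; ring

lemma Q_volume (w : Plane → ℝ) (r : ℝ) : Q D.S.μ w r = Q volume (fun x => D.W x * w x) r := by
  unfold Q
  simp only [D.T_volume]

/-- the fine part -/
lemma Q_fine_le (hu : BM u) {E : Set Plane} (hE : MeasurableSet E) {r : ℝ} (hr : 0 < r) :
    Q D.S.μ (E.indicator u) r ≤ ENNReal.ofReal (r ^ 4 * c1 ^ 2) *
      ∫⁻ x in E, ENNReal.ofReal ((D.S.b (D.S.m x) ^ 2)⁻¹) * ‖u x‖ₑ ^ 2 ∂D.S.μ := by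
  rw [D.Q_volume]
  refine (Q_volume_le (D.hWm.mul (hu.indicator hE).1) hr).trans ?_
  refine mul_le_mul_right ?_ _
  have hbm : Measurable fun x => (D.S.b (D.S.m x) ^ 2)⁻¹ :=
    (measurable_of_countable (fun n : ℕ => (D.S.b n ^ 2)⁻¹)).comp D.S.hm
  have e : ∫⁻ x, ENNReal.ofReal ((D.S.b (D.S.m x) ^ 2)⁻¹) * ‖u x‖ₑ ^ 2
      ∂(volume.restrict E).withDensity (fun x => ENNReal.ofReal (D.W x)) =
      ∫⁻ x in E, ENNReal.ofReal (D.W x) * (ENNReal.ofReal ((D.S.b (D.S.m x) ^ 2)⁻¹) * ‖u x‖ₑ ^ 2) :=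
    lintegral_withDensity_eq_lintegral_mul _ D.hWm.ennreal_ofReal
      (hbm.ennreal_ofReal.mul (hu.1.enorm.pow_const 2))
  rw [D.hμ, restrict_withDensity hE, e, ← lintegral_indicator hE]
  apply lintegral_mono
  intro x
  by_cases hx : x ∈ E
  · simp only [indicator_of_mem hx, Pi.mul_apply, enorm_mul, mul_pow]
    rw [← mul_assoc]
    gcongr
    rw [Real.enorm_eq_ofReal_abs, abs_of_nonneg (D.hW0 x), sq]
    gcongr
    have hb := D.S.b_pos (D.S.m x)
    rw [← one_div, le_div_iff₀ (by positivity)]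
    exact D.hWb x
  · simp [indicator_of_notMem hx]

/-- the pointwise estimate at scale `r` of level `k` -/
lemma Q_level_le (hu : BM u) {N : ℕ × (ℤ × ℤ) → ℕ} {ν : ℝ≥0∞} (hN : ∀ q, 0 < N q)
    (k : ℕ)
    (hmz : ∀ κ < k, ∀ P ∈ D.S.Sel κ, D.S.MZ u N (κ, P))
    (hν : ∀ κ < k, ∀ P ∈ D.S.Sel κ, D.S.μ (D.S.G (κ, P)) ≤ ν * (N (κ, P) : ℝ≥0∞) ^ 2)
    (hfm : ∀ j < k, ∀ P ∈ D.S.Enr j, D.S.FM u j P)
    {θ : ℝ} (hθ : 0 < θ) {r : ℝ} (hr : r ∈ Ioc (D.a k) (D.S.b k)) :
    Q D.S.μ u r ≤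
      ENNReal.ofReal (1 + θ) * (ENNReal.ofReal (r ^ 2 / (2 * Real.pi)) *
        ∫⁻ x in D.S.ns k, D.S.beta k x * ‖u x‖ₑ ^ 2 ∂D.S.μ) +
      ENNReal.ofReal (1 + θ⁻¹) * (6 * (
        ENNReal.ofReal (r ^ 2 / (2 * Real.pi)) * (9 * D.S.thr *
          ((∫⁻ x in D.S.ns k ∩ {x | D.S.m x + D.J < k}, (D.S.ψ (k - D.S.m x))⁻¹ * ‖u x‖ₑ ^ 2 ∂D.S.μ) +
          (Ioi (D.δ * D.S.b k)).indicator (fun _ => 1) r *
            ∫⁻ x in D.S.ns k, (D.S.ψ (k - D.S.m x))⁻¹ * ‖u x‖ₑ ^ 2 ∂D.S.μ)) +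
        9 * ∑ P ∈ D.S.Sel k, Q D.S.μ ((D.S.G (k, P)).indicator u) r +
        ENNReal.ofReal (r ^ 2) * (∑ q ∈ D.S.Alive k,
          ENNReal.ofReal (3600 * Real.pi * D.S.A * LL ^ 2 * (D.S.b q.1 / D.a k) ^ 2) *
            (ν * D.S.nn u (D.S.G q))) +
        (∑ j ∈ Finset.range k, 2 ^ (k - j) *
          (ENNReal.ofReal (14400 * Real.pi * D.S.A * LL ^ 2 * D.S.b j ^ 2) *
            (ν * ∑ P ∈ D.S.Enr j, ∑ q ∈ D.S.DQ j P, D.S.nn u (D.S.G q)))) +
        ENNReal.ofReal (r ^ 4 * c1 ^ 2) * (∫⁻ x in {x | k < D.S.m x},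
          ENNReal.ofReal ((D.S.b (D.S.m x) ^ 2)⁻¹) * ‖u x‖ₑ ^ 2 ∂D.S.μ) +
        Q D.S.μ ((D.Bd ∩ {x | D.S.m x ≤ k}).indicator u) r)) := by
  classical
  have hr0 : 0 < r := lt_trans (D.a_pos k) hr.1
  have hL := LL_pos
  have hpi := Real.pi_pos
  have hmle : MeasurableSet {x | D.S.m x ≤ k} := D.S.hm measurableSet_Iic
  have hmlt : MeasurableSet {x | k < D.S.m x} := D.S.hm measurableSet_Ioi
  have bG : ∀ q : ℕ × (ℤ × ℤ), BM ((D.S.G q).indicator u) := fun q => hu.indicator (D.S.measurableSet_G q)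
  rw [Q_congr (D.decomposition k r u) r]
  refine (Q_seven (μ := D.S.μ) (hu.indicator (D.measurableSet_tt k r))
    (hu.indicator (D.measurableSet_lo k r)) (BM.sum _ fun P _ => bG (k, P))
    (BM.sum _ fun q _ => bG q)
    (BM.sum _ fun j _ => BM.sum _ fun P _ => BM.sum _ fun q _ => bG q)
    (hu.indicator hmlt) (hu.indicator (D.hBdm.inter hmle)) hθ r).trans ?_
  have hall : ∀ q ∈ D.S.Alive k, q.1 < k ∧ q.2 ∈ D.S.Sel q.1 := D.S.alive_mem k
  have hDQa : ∀ j P, ∀ q ∈ D.S.DQ j P, q.1 < j ∧ q.2 ∈ D.S.Sel q.1 := by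
    intro j P q hq
    unfold Sys.DQ at hq
    rw [Finset.mem_filter] at hq
    exact D.S.alive_mem j q hq.1
  gcongr
  · -- tight
    apply Sys.Q_tight_le hu (D.measurableSet_tt k r) (fun x hx => hx.1) hr0
    intro x hx z hz
    have hxO := D.S.Op_subset k x hx.1.1
    exact D.hgood x hxO.1 k hxO.2 hx.2.1 z (lt_of_lt_of_le hz hx.2.2)
  · -- loose
    refine (Sys.Q_loose_le hu D.hψ0 D.hψt (D.measurableSet_lo k r) (fun x hx => hx.1) hr0 hr.2).trans ?_
    gcongr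
    by_cases hc : D.δ * D.S.b k < r
    · rw [indicator_of_mem (mem_Ioi.2 hc), one_mul]
      refine le_trans ?_ le_add_self
      exact lintegral_mono_set (fun x hx => hx.1)
    · rw [indicator_of_notMem (s := Ioi (D.δ * D.S.b k)) (fun h => hc (mem_Ioi.1 h)), zero_mul,
        add_zero]
      apply lintegral_mono_set
      intro x hx
      refine ⟨hx.1, ?_⟩
      have h1 := hx.2
      simp only [not_and, not_le] at h1
      by_contra hcon
      simp only [mem_ofPred_eq, not_lt] at hcon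
      exact hc (h1 hcon)
  · -- selected
    have h1 := Q_sum_le (μ := D.S.μ) (D.S.Sel k) (w := fun P => (D.S.G (k, P)).indicator u)
      (fun P _ => bG (k, P)) r (N := 9) (by
        intro z
        refine le_trans ?_ (card_near_le_nine (s := D.S.s) (D.S.b_pos k) hr.2 z)
        apply Finset.card_le_card
        intro P hP
        rw [Finset.mem_filter] at hP
        obtain ⟨x, hx, hxr⟩ := exists_near_of_T_indicator_ne hr0 hP.2
        have : D.S.c k x = P := hx.2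
        rw [← this]
        exact mem_near (D.S.b_pos k) hxr)
    simpa using h1
  · -- alive
    rcases k with _ | l
    · simp [Sys.Alive, Q, T]
    · have hal : D.S.b l ≤ r := by rw [← D.a_succ]; exact hr.1.le
      refine (Sys.Q_alive_le (ν := ν) hN hu (fun q hq => hmz q.1 (hall q hq).1 q.2 (hall q hq).2)
        (fun q hq => hν q.1 (hall q hq).1 q.2 (hall q hq).2) hal).trans (le_of_eq ?_)
      rw [Finset.mul_sum, Finset.mul_sum]
      apply Finset.sum_congr rfl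
      intro q _
      have e1 : ENNReal.ofReal (D.S.A * (25 * (r / D.S.b l) ^ 2)) *
          ENNReal.ofReal (144 * Real.pi * LL ^ 2 * D.S.b q.1 ^ 2) = ENNReal.ofReal (r ^ 2) *
          ENNReal.ofReal (3600 * Real.pi * D.S.A * LL ^ 2 * (D.S.b q.1 / D.a (l + 1)) ^ 2) := by
        rw [← ENNReal.ofReal_mul (by positivity), ← ENNReal.ofReal_mul (by positivity), D.a_succ]
        congr 1
        have := (D.S.b_pos l).ne'
        field_simp
        ring
      rw [← mul_assoc, e1, mul_assoc]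
  · -- dead
    refine (Q_wsum_le (μ := D.S.μ) k
      (w := fun j x => ∑ P ∈ D.S.Enr j, ∑ q ∈ D.S.DQ j P, (D.S.G q).indicator u x)
      (fun j => BM.sum _ fun P _ => BM.sum _ fun q _ => bG q) r).trans ?_
    apply Finset.sum_le_sum
    intro j hj
    rw [Finset.mem_range] at hj
    gcongr
    apply Sys.Q_dead_level_le hN hu _ (fun P hP => hfm j hj P hP) _ _
    · intro P _ q hq
      exact hmz q.1 (by have := (hDQa j P q hq).1; omega) q.2 (hDQa j P q hq).2
    · intro P _ q hq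
      exact hν q.1 (by have := (hDQa j P q hq).1; omega) q.2 (hDQa j P q hq).2
    · have h1 : D.S.b j ≤ D.a k := by
        obtain ⟨l, rfl⟩ : ∃ l, k = l + 1 := ⟨k - 1, by omega⟩
        rw [D.a_succ]
        exact Sys.b_mono (by omega)
      linarith [hr.1]
  · -- fine
    exact D.Q_fine_le hu hmlt hr0

end Setting

end Pool.Agent.LT2
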