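import Pool.Agent.Lib.MP_50e96d_mp.Geom

/-!
# The selection procedure
-/

namespace Pool.Agent.LT2

open MeasureTheory Set Filter
open scoped ENNReal

/-- data of the multiscale selection -/
structure Sys where
  /-- the measure `W dx` -/
  μ : Measure Plane
  /-- the level of a point -/
  m : Plane → ℕ
  /-- the weight of a point `j` levels above its own level -/
  ψ : ℕ → ℝ≥0∞
  /-- threshold -/
  thr : ℝ≥0∞
  /-- the set of good points -/
  K : Set Plane
  /-- scale ratio -/
  Λ : ℕ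
  /-- smallest scale -/
  R0 : ℝ
  /-- origin of the grids -/
  s : Plane
  /-- all relevant squares -/
  box : Finset (ℤ × ℤ)
  /-- enrichment threshold -/
  A : ℕ
  fin : IsFiniteMeasure μ
  hbox : ∀ k, ∀ x ∈ K, cel s (R0 * Λ ^ k) x ∈ box
  hm : Measurable m
  hK : MeasurableSet K
  Kbd : ∃ B : ℝ, ∀ x ∈ K, ‖x‖ ≤ B
  hA : 1 ≤ A
  hΛ : 2 ≤ Λ
  hR0 : 0 < R0

namespace Sys

variable (S : Sys)

instance : IsFiniteMeasure S.μ := S.fin

/-- the side of the squares of level `k` -/
noncomputable def b (k : ℕ) : ℝ := S.R0 * S.Λ ^ k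

/-- the square of level `k` containing `x` -/
noncomputable def c (k : ℕ) (x : Plane) : ℤ × ℤ := cel S.s (S.b k) x

lemma Λ_pos : (0 : ℝ) < S.Λ := by
  have := S.hΛ
  exact_mod_cast (by omega : 0 < S.Λ)

lemma b_pos (k : ℕ) : 0 < S.b k := mul_pos S.hR0 (pow_pos S.Λ_pos k)

lemma b_succ (k : ℕ) : S.b (k + 1) = S.b k * S.Λ := by unfold b; ring

lemma c_succ (k : ℕ) (x : Plane) : S.c (k + 1) x = par S.Λ (S.c k x) := by
  unfold c
  rw [b_succ, cel_par]

lemma c_measurable (k : ℕ) : Measurable (S.c k) := cel_measurable _ _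

lemma c_mem_box (k : ℕ) {x : Plane} (hx : x ∈ S.K) : S.c k x ∈ S.box := S.hbox k x hx

/-- weighted mass of a set in a square -/
noncomputable def mass (O : Set Plane) (k : ℕ) (P : ℤ × ℤ) : ℝ≥0∞ :=
  ∫⁻ y in O ∩ S.c k ⁻¹' {P}, S.ψ (k - S.m y) ∂S.μ

/-- the open points at level `k` -/
noncomputable def Op : ℕ → Set Plane
  | 0 => {x | x ∈ S.K ∧ S.m x = 0}
  | k + 1 => {x | (x ∈ Op k ∧ S.mass (Op k) k (S.c k x) < S.thr) ∨ (x ∈ S.K ∧ S.m x = k + 1)}

open Classical in
/-- the selected squares of level `k` -/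
noncomputable def Sel (k : ℕ) : Finset (ℤ × ℤ) :=
  S.box.filter fun P => S.thr ≤ S.mass (S.Op k) k P

/-- the open points in non-selected squares -/
def ns (k : ℕ) : Set Plane := {x | x ∈ S.Op k ∧ S.c k x ∉ S.Sel k}

/-- the cluster of a selected square -/
def G (q : ℕ × (ℤ × ℤ)) : Set Plane := S.Op q.1 ∩ S.c q.1 ⁻¹' {q.2}

lemma Op_subset (k : ℕ) : ∀ x ∈ S.Op k, x ∈ S.K ∧ S.m x ≤ k := by
  induction k with
  | zero => intro x hx; exact ⟨hx.1, hx.2.le⟩
  | succ k ih =>
    intro x hx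
    rcases hx with hx | hx
    · exact ⟨(ih x hx.1).1, (ih x hx.1).2.trans (Nat.le_succ k)⟩
    · exact ⟨hx.1, hx.2.le⟩

lemma mem_Sel {k : ℕ} {P : ℤ × ℤ} : P ∈ S.Sel k ↔ P ∈ S.box ∧ S.thr ≤ S.mass (S.Op k) k P := by
  classical
  unfold Sel
  rw [Finset.mem_filter]

lemma notMem_Sel_iff {k : ℕ} {x : Plane} (hx : x ∈ S.K) :
    S.c k x ∉ S.Sel k ↔ S.mass (S.Op k) k (S.c k x) < S.thr := by
  rw [S.mem_Sel, not_and, not_le]
  exact ⟨fun h => h (S.c_mem_box k hx), fun h _ => h⟩

lemma Op_succ (k : ℕ) : S.Op (k + 1) = S.ns k ∪ {x | x ∈ S.K ∧ S.m x = k + 1} := by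
  ext x
  constructor
  · rintro (h | h)
    · exact Or.inl ⟨h.1, (S.notMem_Sel_iff (S.Op_subset k x h.1).1).2 h.2⟩
    · exact Or.inr h
  · rintro (h | h)
    · exact Or.inl ⟨h.1, (S.notMem_Sel_iff (S.Op_subset k x h.1).1).1 h.2⟩
    · exact Or.inr h

lemma ns_subset_Op (k : ℕ) : S.ns k ⊆ S.Op k := fun _ hx => hx.1

lemma ns_subset_Op_succ (k : ℕ) : S.ns k ⊆ S.Op (k + 1) := by
  rw [S.Op_succ]; exact subset_union_left

lemma ns_of_Op_succ {k : ℕ} {x : Plane} (hx : x ∈ S.Op (k + 1)) (hm : S.m x ≤ k) : x ∈ S.ns k := by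
  rw [S.Op_succ] at hx
  rcases hx with h | h
  · exact h
  · have := h.2; omega

lemma ns_of_ns {k l : ℕ} {x : Plane} (hx : x ∈ S.ns l) (hkl : k ≤ l) (hm : S.m x ≤ k) :
    x ∈ S.ns k := by
  induction l with
  | zero =>
    have : k = 0 := by omega
    rw [this]; exact hx
  | succ l ih =>
    rcases Nat.lt_or_ge k (l + 1) with h | h
    · exact ih (S.ns_of_Op_succ hx.1 (by omega)) (by omega)
    · have : k = l + 1 := by omega
      rw [this]; exact hx

/-- a point sharing the (non-selected) square of `x` stays with `x` -/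
lemma ns_follow {k l : ℕ} {x y : Plane} (hxk : x ∈ S.ns k) (hx : x ∈ S.ns l) (hkl : k ≤ l)
    (hy : y ∈ S.Op k) (hc : S.c k y = S.c k x) : y ∈ S.ns l ∧ S.c l y = S.c l x := by
  induction l with
  | zero =>
    have : k = 0 := by omega
    subst this
    exact ⟨⟨hy, by rw [hc]; exact hx.2⟩, hc⟩
  | succ l ih =>
    rcases Nat.lt_or_ge k (l + 1) with h | h
    · have hmx : S.m x ≤ k := (S.Op_subset k x hxk.1).2
      have hxl : x ∈ S.ns l := S.ns_of_ns hx (by omega) (by omega)
      obtain ⟨h1, h2⟩ := ih hxl (by omega)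
      have h3 : S.c (l + 1) y = S.c (l + 1) x := by rw [S.c_succ, S.c_succ, h2]
      exact ⟨⟨S.ns_subset_Op_succ l h1, by rw [h3]; exact hx.2⟩, h3⟩
    · have : k = l + 1 := by omega
      subst this
      exact ⟨⟨hy, by rw [hc]; exact hx.2⟩, hc⟩

lemma measurableSet_m (k : ℕ) : MeasurableSet {x | S.m x = k} :=
  S.hm (measurableSet_singleton k)

lemma measurableSet_Op_ns (k : ℕ) : MeasurableSet (S.Op k) ∧ MeasurableSet (S.ns k) := by
  have key : ∀ k, MeasurableSet (S.Op k) → MeasurableSet (S.ns k) := by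
    intro k h
    have : S.ns k = S.Op k ∩ S.c k ⁻¹' {P | P ∉ S.Sel k} := rfl
    rw [this]
    exact h.inter (S.c_measurable k (MeasurableSet.of_discrete))
  induction k with
  | zero =>
    have h : MeasurableSet (S.Op 0) := S.hK.inter (S.measurableSet_m 0)
    exact ⟨h, key 0 h⟩
  | succ k ih =>
    have h : MeasurableSet (S.Op (k + 1)) := by
      rw [S.Op_succ]
      exact ih.2.union (S.hK.inter (S.measurableSet_m (k + 1)))
    exact ⟨h, key _ h⟩

lemma measurableSet_Op (k : ℕ) : MeasurableSet (S.Op k) := (S.measurableSet_Op_ns k).1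

lemma measurableSet_ns (k : ℕ) : MeasurableSet (S.ns k) := (S.measurableSet_Op_ns k).2

lemma measurableSet_c (k : ℕ) (P : ℤ × ℤ) : MeasurableSet (S.c k ⁻¹' {P}) :=
  S.c_measurable k (measurableSet_singleton P)

lemma measurableSet_G (q : ℕ × (ℤ × ℤ)) : MeasurableSet (S.G q) :=
  (S.measurableSet_Op _).inter (S.measurableSet_c _ _)

/-- splitting of the open points at level `k` -/
lemma Op_indicator (k : ℕ) (f : Plane → ℝ) (x : Plane) :
    (S.Op k).indicator f x = (S.ns k).indicator f x + ∑ P ∈ S.Sel k, (S.G (k, P)).indicator f x := by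
  classical
  by_cases hx : x ∈ S.Op k
  · by_cases hs : S.c k x ∈ S.Sel k
    · have h1 : x ∉ S.ns k := fun h => h.2 hs
      rw [Finset.sum_eq_single_of_mem (S.c k x) hs]
      · have h2 : x ∈ S.G (k, S.c k x) := ⟨hx, rfl⟩
        rw [indicator_of_mem hx, indicator_of_notMem h1, indicator_of_mem h2, zero_add]
      · intro P _ hP
        apply indicator_of_notMem
        rintro ⟨_, h⟩
        exact hP h.symm
    · have h1 : x ∈ S.ns k := ⟨hx, hs⟩
      rw [indicator_of_mem hx, indicator_of_mem h1, Finset.sum_eq_zero, add_zero]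
      intro P hP
      apply indicator_of_notMem
      rintro ⟨_, h⟩
      simp only [mem_preimage, mem_singleton_iff] at h
      exact hs (by rw [h]; exact hP)
  · have h1 : x ∉ S.ns k := fun h => hx h.1
    rw [indicator_of_notMem hx, indicator_of_notMem h1, Finset.sum_eq_zero, add_zero]
    intro P hP
    apply indicator_of_notMem
    rintro ⟨h, _⟩
    exact hx h

/-- points of level `≤ k`: open or closed -/
lemma level_indicator (k : ℕ) (f : Plane → ℝ) (x : Plane) :
    (S.K ∩ {y | S.m y ≤ k}).indicator f x = (S.Op k).indicator f x +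
      ∑ κ ∈ Finset.range k, ∑ P ∈ S.Sel κ, (S.G (κ, P)).indicator f x := by
  classical
  induction k with
  | zero =>
    simp only [Finset.range_zero, Finset.sum_empty, add_zero]
    congr 1
    ext y
    simp only [mem_inter_iff, mem_ofPred_eq, Nat.le_zero]
    rfl
  | succ k ih =>
    have h1 : (S.K ∩ {y | S.m y ≤ k + 1}).indicator f x =
        (S.K ∩ {y | S.m y ≤ k}).indicator f x + (S.K ∩ {y | S.m y = k + 1}).indicator f x := by
      by_cases hK : x ∈ S.K
      · rcases lt_trichotomy (S.m x) (k + 1) with h | h | h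
        · have h2 : S.m x ≤ k := by omega
          simp [indicator, hK, h.le, h2, h.ne]
        · have h2 : ¬ S.m x ≤ k := by omega
          simp [indicator, hK, h]
        · have h2 : ¬ S.m x ≤ k := by omega
          have h3 : ¬ S.m x ≤ k + 1 := by omega
          simp [indicator, hK, h2, h3, h.ne']
      · simp [indicator, hK]
    have h2 : (S.Op (k + 1)).indicator f x =
        (S.ns k).indicator f x + (S.K ∩ {y | S.m y = k + 1}).indicator f x := by
      rw [S.Op_succ]
      have hd : Disjoint (S.ns k) {x | x ∈ S.K ∧ S.m x = k + 1} := by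
        rw [Set.disjoint_left]
        intro y hy hy'
        have := (S.Op_subset k y hy.1).2
        have := hy'.2
        omega
      rw [Set.indicator_union_of_disjoint hd]
      rfl
    rw [h1, ih, h2, S.Op_indicator, Finset.sum_range_succ]
    ring

/-! ### Clusters -/

/-- the ancestor square of level `k` of a cluster -/
noncomputable def anc (k : ℕ) (q : ℕ × (ℤ × ℤ)) : ℤ × ℤ := (par S.Λ)^[k - q.1] q.2

lemma anc_self (q : ℕ × (ℤ × ℤ)) : S.anc q.1 q = q.2 := by simp [anc]

lemma anc_succ {k : ℕ} {q : ℕ × (ℤ × ℤ)} (h : q.1 ≤ k) : S.anc (k + 1) q = par S.Λ (S.anc k q) := by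
  unfold anc
  rw [Nat.succ_sub h, Function.iterate_succ_apply']

lemma c_eq_anc {q : ℕ × (ℤ × ℤ)} {x : Plane} (hx : x ∈ S.G q) {k : ℕ} (hk : q.1 ≤ k) :
    S.c k x = S.anc k q := by
  induction k, hk using Nat.le_induction with
  | base => rw [S.anc_self]; exact hx.2
  | succ k hk ih => rw [S.c_succ, S.anc_succ hk, ih]

/-- the clusters that are closed and not yet enriched -/
noncomputable def Alive : ℕ → Finset (ℕ × (ℤ × ℤ))
  | 0 => ∅
  | k + 1 => ((Alive k).filter fun q =>
      ((Alive k).filter fun q' => S.anc k q' = S.anc k q).card < S.A) ∪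
      (S.Sel k).image fun P => (k, P)

/-- alive clusters in the square `P` of level `k` -/
noncomputable def DQ (k : ℕ) (P : ℤ × ℤ) : Finset (ℕ × (ℤ × ℤ)) :=
  (S.Alive k).filter fun q => S.anc k q = P

/-- the enriched squares of level `k` -/
noncomputable def Enr (k : ℕ) : Finset (ℤ × ℤ) :=
  ((S.Alive k).image (S.anc k)).filter fun P => S.A ≤ (S.DQ k P).card

lemma alive_mem (k : ℕ) : ∀ q ∈ S.Alive k, q.1 < k ∧ q.2 ∈ S.Sel q.1 := by
  induction k with
  | zero => intro q hq; simp [Alive] at hq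
  | succ k ih =>
    intro q hq
    simp only [Alive, Finset.mem_union, Finset.mem_filter, Finset.mem_image] at hq
    rcases hq with h | ⟨P, hP, rfl⟩
    · exact ⟨(ih q h.1).1.trans (Nat.lt_succ_self k), (ih q h.1).2⟩
    · exact ⟨Nat.lt_succ_self k, hP⟩

lemma alive_succ_sum {M : Type*} [AddCommMonoid M] (k : ℕ) (φ : ℕ × (ℤ × ℤ) → M) :
    ∑ q ∈ S.Alive (k + 1), φ q =
      ∑ q ∈ (S.Alive k).filter (fun q => (S.DQ k (S.anc k q)).card < S.A), φ q +
      ∑ P ∈ S.Sel k, φ (k, P) := by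
  classical
  have hd : Disjoint ((S.Alive k).filter (fun q => (S.DQ k (S.anc k q)).card < S.A))
      ((S.Sel k).image fun P => (k, P)) := by
    rw [Finset.disjoint_left]
    intro q hq hq'
    simp only [Finset.mem_filter, Finset.mem_image] at hq hq'
    obtain ⟨P, _, rfl⟩ := hq'
    have := (S.alive_mem k _ hq.1).1
    simp at this
  have h1 : S.Alive (k + 1) = ((S.Alive k).filter (fun q => (S.DQ k (S.anc k q)).card < S.A)) ∪
      ((S.Sel k).image fun P => (k, P)) := rfl
  rw [h1, Finset.sum_union hd, Finset.sum_image]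
  intro P _ P' _ h
  simpa using h

lemma enr_sum {M : Type*} [AddCommMonoid M] (k : ℕ) (φ : ℕ × (ℤ × ℤ) → M) :
    ∑ q ∈ (S.Alive k).filter (fun q => ¬ (S.DQ k (S.anc k q)).card < S.A), φ q =
      ∑ P ∈ S.Enr k, ∑ q ∈ S.DQ k P, φ q := by
  classical
  rw [← Finset.sum_fiberwise_of_maps_to (s := (S.Alive k).filter _) (t := S.Enr k) (g := S.anc k)]
  · apply Finset.sum_congr rfl
    intro P hP
    apply Finset.sum_congr _ fun _ _ => rfl
    ext q
    rw [Finset.mem_filter, Finset.mem_filter]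
    have e1 : q ∈ S.DQ k P ↔ q ∈ S.Alive k ∧ S.anc k q = P := by
      unfold DQ; rw [Finset.mem_filter]
    have e2 : S.A ≤ (S.DQ k P).card := by
      unfold Enr at hP; exact (Finset.mem_filter.1 hP).2
    rw [e1]
    constructor
    · rintro ⟨⟨h1, _⟩, h3⟩; exact ⟨h1, h3⟩
    · rintro ⟨h1, h3⟩
      refine ⟨⟨h1, ?_⟩, h3⟩
      rw [h3]; exact not_lt.2 e2
  · intro q hq
    rw [Finset.mem_filter] at hq
    unfold Enr
    rw [Finset.mem_filter]
    exact ⟨Finset.mem_image_of_mem _ hq.1, not_lt.1 hq.2⟩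

/-- all selected squares: alive or dead -/
lemma sel_sum {M : Type*} [AddCommMonoid M] (k : ℕ) (φ : ℕ × (ℤ × ℤ) → M) :
    ∑ κ ∈ Finset.range k, ∑ P ∈ S.Sel κ, φ (κ, P) = ∑ q ∈ S.Alive k, φ q +
      ∑ j ∈ Finset.range k, ∑ P ∈ S.Enr j, ∑ q ∈ S.DQ j P, φ q := by
  classical
  induction k with
  | zero => simp [Alive]
  | succ k ih =>
    rw [Finset.sum_range_succ, Finset.sum_range_succ, ih, S.alive_succ_sum, ← S.enr_sum,
      ← Finset.sum_filter_add_sum_filter_not (S.Alive k) (fun q => (S.DQ k (S.anc k q)).card < S.A) φ]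
    abel

lemma card_enr_le (k : ℕ) :
    S.A * ∑ j ∈ Finset.range k, (S.Enr j).card ≤ ∑ κ ∈ Finset.range k, (S.Sel κ).card := by
  classical
  have h := S.sel_sum k (fun _ => (1 : ℕ))
  simp only [Finset.sum_const, smul_eq_mul, mul_one] at h
  rw [h, Finset.mul_sum]
  refine le_trans ?_ (Nat.le_add_left _ _)
  apply Finset.sum_le_sum
  intro j _
  rw [mul_comm, ← smul_eq_mul, ← Finset.sum_const]
  apply Finset.sum_le_sum
  intro P hP
  simp only [Enr, Finset.mem_filter] at hP
  exact hP.2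

/-- at most `A` alive clusters in each square of the previous level -/
lemma card_alive_le (k : ℕ) (P : ℤ × ℤ) :
    ((S.Alive (k + 1)).filter fun q => S.anc k q = P).card ≤ S.A := by
  classical
  have h1 : S.Alive (k + 1) = ((S.Alive k).filter (fun q => (S.DQ k (S.anc k q)).card < S.A)) ∪
      ((S.Sel k).image fun P => (k, P)) := rfl
  rw [h1, Finset.filter_union]
  refine (Finset.card_union_le _ _).trans ?_
  have h2 : (((S.Sel k).image fun P => (k, P)).filter fun q => S.anc k q = P).card ≤ 1 := by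
    rw [Finset.card_le_one]
    intro a ha b' hb
    simp only [Finset.mem_filter, Finset.mem_image] at ha hb
    obtain ⟨⟨P1, _, rfl⟩, h3⟩ := ha
    obtain ⟨⟨P2, _, rfl⟩, h4⟩ := hb
    have h5 := S.anc_self (k, P1)
    have h6 := S.anc_self (k, P2)
    simp only at h5 h6
    rw [← h5, ← h6, h3, h4]
  have h3 : (((S.Alive k).filter (fun q => (S.DQ k (S.anc k q)).card < S.A)).filter
      fun q => S.anc k q = P).card ≤ S.A - 1 := by
    by_cases hne : ∃ q, q ∈ ((S.Alive k).filter (fun q => (S.DQ k (S.anc k q)).card < S.A)).filter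
      fun q => S.anc k q = P
    · obtain ⟨q, hq⟩ := hne
      simp only [Finset.mem_filter] at hq
      have h4 : (S.DQ k P).card < S.A := by rw [← hq.2]; exact hq.1.2
      have h5 : (((S.Alive k).filter (fun q => (S.DQ k (S.anc k q)).card < S.A)).filter
          fun q => S.anc k q = P).card ≤ (S.DQ k P).card := by
        apply Finset.card_le_card
        intro q' hq'
        rw [Finset.mem_filter, Finset.mem_filter] at hq'
        unfold DQ
        rw [Finset.mem_filter]
        exact ⟨hq'.1.1, hq'.2⟩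
      omega
    · push Not at hne
      rw [Finset.card_eq_zero.2 (Finset.eq_empty_of_forall_notMem hne)]
      omega
  have := S.hA
  omega

lemma mem_subs_of_par {Λ : ℕ} (hΛ : 0 < Λ) {P P' : ℤ × ℤ} (h : par Λ P' = P) : P' ∈ subs Λ P := by
  have hΛ' : (0 : ℤ) < Λ := by exact_mod_cast hΛ
  unfold par at h
  subst h
  unfold subs
  simp only [Finset.mem_product, Finset.mem_Ico]
  have key : ∀ a : ℤ, (Λ : ℤ) * (a / Λ) ≤ a ∧ a < Λ * (a / Λ) + Λ := by
    intro a
    have h1 := Int.emod_add_mul_ediv a Λ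
    have h2 := Int.emod_nonneg a hΛ'.ne'
    have h3 := Int.emod_lt_of_pos a hΛ'
    constructor <;> linarith
  exact ⟨key _, key _⟩

/-- the number of clusters dying in one enriched square -/
lemma card_DQ_le (j : ℕ) (P : ℤ × ℤ) : (S.DQ (j + 1) P).card ≤ S.A * S.Λ ^ 2 := by
  classical
  have hΛ : 0 < S.Λ := by have := S.hΛ; omega
  have h1 : ∀ q ∈ S.DQ (j + 1) P, S.anc j q ∈ subs S.Λ P := by
    intro q hq
    simp only [DQ, Finset.mem_filter] at hq
    apply mem_subs_of_par hΛ
    rw [← S.anc_succ (by have := (S.alive_mem _ q hq.1).1; omega)]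
    exact hq.2
  rw [Finset.card_eq_sum_card_fiberwise h1, ← card_subs S.Λ P, mul_comm, ← smul_eq_mul,
    ← Finset.sum_const]
  apply Finset.sum_le_sum
  intro P' _
  refine le_trans ?_ (S.card_alive_le j P')
  apply Finset.card_le_card
  intro q hq
  simp only [Finset.mem_filter, DQ] at hq ⊢
  exact ⟨hq.1.1, hq.2⟩

end Sys

end Pool.Agent.LT2
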