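import Pool.Agent.Lib.MP_50e96d_mp.Clusters

/-!
# Estimates for the open part
-/

namespace Pool.Agent.LT2

open MeasureTheory Set Filter
open scoped ENNReal

set_option linter.unusedSectionVars false

namespace Sys

variable {S : Sys} {u : Plane → ℝ}

lemma indicator_eq_sum_box {k : ℕ} {E : Set Plane} (hE : E ⊆ S.K) (f : Plane → ℝ) (x : Plane) :
    E.indicator f x = ∑ P ∈ S.box, (E ∩ S.c k ⁻¹' {P}).indicator f x := by
  classical
  by_cases hx : x ∈ E
  · rw [Finset.sum_eq_single_of_mem (S.c k x) (S.c_mem_box k (hE hx))]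
    · rw [indicator_of_mem hx, indicator_of_mem (show x ∈ E ∩ S.c k ⁻¹' {S.c k x} from ⟨hx, rfl⟩)]
    · intro P _ hP
      apply indicator_of_notMem
      rintro ⟨_, h⟩
      exact hP h.symm
  · rw [indicator_of_notMem hx, Finset.sum_eq_zero]
    intro P _
    apply indicator_of_notMem
    rintro ⟨h, _⟩
    exact hx h

/-- mass of the non-selected open square of `x` -/
noncomputable def beta (S : Sys) (k : ℕ) (x : Plane) : ℝ≥0∞ := S.μ (S.ns k ∩ S.c k ⁻¹' {S.c k x})

lemma Q_tight_le (hu : BM u) {k : ℕ} {E : Set Plane} (hEm : MeasurableSet E) (hE : E ⊆ S.ns k)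
    {r : ℝ} (hr : 0 < r) (hgood : ∀ x ∈ E, ∀ z, ‖z - x‖ < r → S.c k z = S.c k x) :
    Q S.μ (E.indicator u) r ≤ ENNReal.ofReal (r ^ 2 / (2 * Real.pi)) *
      ∫⁻ x in S.ns k, S.beta k x * ‖u x‖ₑ ^ 2 ∂S.μ := by
  classical
  have hEK : E ⊆ S.K := fun x hx => (S.Op_subset k x (hE hx).1).1
  have h0 : E.indicator u = fun x => ∑ P ∈ S.box, (E ∩ S.c k ⁻¹' {P}).indicator u x := by
    ext x; exact indicator_eq_sum_box hEK u x
  have hmP : ∀ P, MeasurableSet (E ∩ S.c k ⁻¹' {P}) := fun P => hEm.inter (S.measurableSet_c k P)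
  rw [h0]
  have h1 := Q_sum_le (μ := S.μ) S.box (w := fun P => (E ∩ S.c k ⁻¹' {P}).indicator u)
    (fun P _ => hu.indicator (hmP P)) r (N := 1) (by
      intro z
      rw [Finset.card_le_one]
      have key : ∀ P ∈ S.box.filter (fun P => T S.μ ((E ∩ S.c k ⁻¹' {P}).indicator u) r z ≠ 0),
          P = S.c k z := by
        intro P hP
        rw [Finset.mem_filter] at hP
        obtain ⟨x, hx, hxr⟩ := exists_near_of_T_indicator_ne hr hP.2
        rw [hgood x hx.1 z hxr]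
        exact hx.2.symm
      intro P hP P' hP'
      rw [key P hP, key P' hP'])
  refine h1.trans ?_
  rw [Nat.cast_one, one_mul, fiber_lintegral (S.measurableSet_ns k) (S.c_measurable k) S.box
    (fun x hx => S.c_mem_box k (S.Op_subset k x hx.1).1), Finset.mul_sum]
  apply Finset.sum_le_sum
  intro P _
  have h2 : ∀ x, x ∉ S.ns k ∩ S.c k ⁻¹' {P} → (E ∩ S.c k ⁻¹' {P}).indicator u x = 0 := by
    intro x hx
    apply indicator_of_notMem
    rintro ⟨h3, h4⟩
    exact hx ⟨hE h3, h4⟩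
  have hm2 : MeasurableSet (S.ns k ∩ S.c k ⁻¹' {P}) := (S.measurableSet_ns k).inter (S.measurableSet_c k P)
  refine (Q_block_le' (hu.indicator (hmP P)).1 hm2 h2 hr).trans ?_
  gcongr
  have h3 : ∫⁻ x in S.ns k ∩ S.c k ⁻¹' {P}, S.beta k x * ‖u x‖ₑ ^ 2 ∂S.μ =
      ∫⁻ x in S.ns k ∩ S.c k ⁻¹' {P}, S.μ (S.ns k ∩ S.c k ⁻¹' {P}) * ‖u x‖ₑ ^ 2 ∂S.μ := by
    apply setLIntegral_congr_fun hm2
    intro x hx
    have : S.c k x = P := hx.2
    simp only [beta, this]
  rw [h3, lintegral_const_mul' _ _ (measure_ne_top _ _)]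
  gcongr with x
  by_cases hx : x ∈ E ∩ S.c k ⁻¹' {P}
  · rw [indicator_of_mem hx]
  · rw [indicator_of_notMem hx]; simp

lemma Q_loose_le (hu : BM u) (hψ0 : ∀ j, S.ψ j ≠ 0) (hψt : ∀ j, S.ψ j ≠ ⊤) {k : ℕ} {E : Set Plane}
    (hEm : MeasurableSet E) (hE : E ⊆ S.ns k) {r : ℝ} (hr : 0 < r) (hrb : r ≤ S.b k) :
    Q S.μ (E.indicator u) r ≤ ENNReal.ofReal (r ^ 2 / (2 * Real.pi)) *
      (9 * S.thr * ∫⁻ x in E, (S.ψ (k - S.m x))⁻¹ * ‖u x‖ₑ ^ 2 ∂S.μ) := by
  classical
  have hEK : E ⊆ S.K := fun x hx => (S.Op_subset k x (hE hx).1).1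
  have h0 : E.indicator u = fun x => ∑ P ∈ S.box, (E ∩ S.c k ⁻¹' {P}).indicator u x := by
    ext x; exact indicator_eq_sum_box hEK u x
  have hmP : ∀ P, MeasurableSet (E ∩ S.c k ⁻¹' {P}) := fun P => hEm.inter (S.measurableSet_c k P)
  have hρm : Measurable fun x => S.ψ (k - S.m x) :=
    (measurable_of_countable (fun n : ℕ => S.ψ (k - n))).comp S.hm
  rw [h0]
  have h1 := Q_sum_le (μ := S.μ) S.box (w := fun P => (E ∩ S.c k ⁻¹' {P}).indicator u)
    (fun P _ => hu.indicator (hmP P)) r (N := 9) (by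
      intro z
      refine le_trans ?_ (card_near_le_nine (s := S.s) (S.b_pos k) hrb z)
      apply Finset.card_le_card
      intro P hP
      rw [Finset.mem_filter] at hP
      obtain ⟨x, hx, hxr⟩ := exists_near_of_T_indicator_ne hr hP.2
      have : S.c k x = P := hx.2
      rw [← this]
      exact mem_near (S.b_pos k) hxr)
  refine h1.trans ?_
  rw [fiber_lintegral hEm (S.c_measurable k) S.box (fun x hx => S.c_mem_box k (hEK hx)),
    Finset.mul_sum, Finset.mul_sum, Finset.mul_sum]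
  apply Finset.sum_le_sum
  intro P _
  rcases (E ∩ S.c k ⁻¹' {P}).eq_empty_or_nonempty with he | ⟨x0, hx0⟩
  · rw [he, indicator_empty]
    simp [Q, T]
  have h2 : ∀ x, x ∉ E ∩ S.c k ⁻¹' {P} → (E ∩ S.c k ⁻¹' {P}).indicator u x = 0 := by
    intro x hx
    exact indicator_of_notMem hx _
  have h3 := Q_block_le (μ := S.μ) (hu.indicator (hmP P)).1 hρm (S := E ∩ S.c k ⁻¹' {P})
    (fun x _ => hψ0 _) (fun x _ => hψt _) (hmP P) h2 hr
  have h4 : ∫⁻ x in E ∩ S.c k ⁻¹' {P}, S.ψ (k - S.m x) ∂S.μ ≤ S.thr := by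
    have hx0ns := hE hx0.1
    have h5 := (S.notMem_Sel_iff (S.Op_subset k x0 hx0ns.1).1).1 hx0ns.2
    have h6 : S.c k x0 = P := hx0.2
    rw [h6] at h5
    refine le_trans ?_ h5.le
    unfold mass
    apply lintegral_mono_set
    intro x hx
    exact ⟨(hE hx.1).1, hx.2⟩
  have h5 : ∫⁻ x in E ∩ S.c k ⁻¹' {P}, (S.ψ (k - S.m x))⁻¹ * ‖(E ∩ S.c k ⁻¹' {P}).indicator u x‖ₑ ^ 2 ∂S.μ =
      ∫⁻ x in E ∩ S.c k ⁻¹' {P}, (S.ψ (k - S.m x))⁻¹ * ‖u x‖ₑ ^ 2 ∂S.μ := by
    apply setLIntegral_congr_fun (hmP P)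
    intro x hx
    simp only [indicator_of_mem hx]
  rw [h5] at h3
  calc ((9 : ℕ) : ℝ≥0∞) * Q S.μ ((E ∩ S.c k ⁻¹' {P}).indicator u) r
      ≤ 9 * (ENNReal.ofReal (r ^ 2 / (2 * Real.pi)) * (S.thr *
          ∫⁻ x in E ∩ S.c k ⁻¹' {P}, (S.ψ (k - S.m x))⁻¹ * ‖u x‖ₑ ^ 2 ∂S.μ)) := by
        push_cast
        gcongr
        refine h3.trans ?_
        gcongr
    _ = _ := by ring

/-- the pointwise bound for the main term -/
lemma sum_beta_le (hψ : ∀ j : ℕ, ((j + 1 : ℕ) : ℝ≥0∞) ≤ S.ψ j) (n : ℕ) (x : Plane) :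
    ∑ k ∈ Finset.range n, (S.ns k).indicator (fun y => S.beta k y) x ≤ S.thr := by
  classical
  induction n with
  | zero => simp
  | succ n ih =>
    by_cases hx : x ∈ S.ns n
    · -- compare with the mass of the square of `x` at level `n`
      have h0 := (S.notMem_Sel_iff (S.Op_subset n x hx.1).1).1 hx.2
      refine le_trans ?_ h0.le
      have h1 : ∀ k ∈ Finset.range (n + 1), (S.ns k).indicator (fun y => S.beta k y) x ≤
          ∫⁻ y in S.Op n ∩ S.c n ⁻¹' {S.c n x}, ({y | S.m y ≤ k} : Set Plane).indicator (fun _ => 1) y ∂S.μ := by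
        intro k hk
        rw [Finset.mem_range] at hk
        by_cases hxk : x ∈ S.ns k
        · rw [indicator_of_mem hxk]
          have hms : MeasurableSet {y | S.m y ≤ k} := S.hm (measurableSet_Iic)
          rw [lintegral_indicator hms, lintegral_const, one_mul, Measure.restrict_apply_univ,
            Measure.restrict_apply hms]
          unfold beta
          apply measure_mono
          rintro y ⟨hy1, hy2⟩
          obtain ⟨h2, h3⟩ := S.ns_follow hxk hx (by omega) hy1.1 hy2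
          exact ⟨(S.Op_subset k y hy1.1).2, h2.1, h3⟩
        · rw [indicator_of_notMem hxk]; exact zero_le
      refine (Finset.sum_le_sum h1).trans ?_
      rw [← lintegral_finsetSum']
      · unfold mass
        apply setLIntegral_mono' ((S.measurableSet_Op n).inter (S.measurableSet_c n _))
        intro y hy
        have hmy := (S.Op_subset n y hy.1).2
        refine le_trans ?_ (hψ (n - S.m y))
        have h4 : ∑ k ∈ Finset.range (n + 1), ({y | S.m y ≤ k} : Set Plane).indicator (fun _ => (1 : ℝ≥0∞)) y =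
            (((Finset.range (n + 1)).filter fun k => S.m y ≤ k).card : ℝ≥0∞) := by
          rw [Finset.card_filter]
          push_cast
          apply Finset.sum_congr rfl
          intro k _
          by_cases h : S.m y ≤ k
          · simp [h]
          · simp [h]
        rw [h4]
        have h5 : (Finset.range (n + 1)).filter (fun k => S.m y ≤ k) = Finset.Icc (S.m y) n := by
          ext k; simp only [Finset.mem_filter, Finset.mem_range, Finset.mem_Icc]; omega
        rw [h5, Nat.card_Icc]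
        exact_mod_cast (by omega : n + 1 - S.m y ≤ n - S.m y + 1)
      · intro k _
        have hms : MeasurableSet {y | S.m y ≤ k} := S.hm (measurableSet_Iic)
        exact (measurable_const.indicator hms).aemeasurable
    · rw [Finset.sum_range_succ, indicator_of_notMem hx, add_zero]
      exact ih

lemma beta_measurable (k : ℕ) : Measurable (S.beta k) := by
  unfold beta
  exact (measurable_of_countable (fun P : ℤ × ℤ => S.μ (S.ns k ∩ S.c k ⁻¹' {P}))).comp
    (S.c_measurable k)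

lemma sum_main_le (hψ : ∀ j : ℕ, ((j + 1 : ℕ) : ℝ≥0∞) ≤ S.ψ j) (hu : BM u) (n : ℕ) :
    ∑ k ∈ Finset.range n, ∫⁻ x in S.ns k, S.beta k x * ‖u x‖ₑ ^ 2 ∂S.μ ≤
      S.thr * ∫⁻ x, ‖u x‖ₑ ^ 2 ∂S.μ := by
  have h1 : ∀ k ∈ Finset.range n, ∫⁻ x in S.ns k, S.beta k x * ‖u x‖ₑ ^ 2 ∂S.μ =
      ∫⁻ x, (S.ns k).indicator (fun y => S.beta k y) x * ‖u x‖ₑ ^ 2 ∂S.μ := by
    intro k _
    rw [← lintegral_indicator (S.measurableSet_ns k)]
    congr 1; ext x
    by_cases hx : x ∈ S.ns k <;> simp [hx]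
  rw [Finset.sum_congr rfl h1, ← lintegral_finsetSum]
  · refine le_trans (lintegral_mono (g := fun x => S.thr * ‖u x‖ₑ ^ 2) fun x => ?_) ?_
    · simp only
      rw [← Finset.sum_mul]
      gcongr
      exact sum_beta_le hψ n x
    · exact le_of_eq (lintegral_const_mul _ (hu.1.enorm.pow_const 2))
  · intro k _
    exact ((beta_measurable k).indicator (S.measurableSet_ns k)).mul (hu.1.enorm.pow_const 2)

/-- `∑_k ∫_{E_k} ψ(k-m)^{-1} u² ≤ C ∫ u²` -/
lemma sum_weight_le (hu : BM u) {E : ℕ → Set Plane} (hE : ∀ k, MeasurableSet (E k)) {C : ℝ≥0∞}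
    (n : ℕ) (hC : ∀ x, ∑ k ∈ Finset.range n, (E k).indicator (fun y => (S.ψ (k - S.m y))⁻¹) x ≤ C) :
    ∑ k ∈ Finset.range n, ∫⁻ x in E k, (S.ψ (k - S.m x))⁻¹ * ‖u x‖ₑ ^ 2 ∂S.μ ≤
      C * ∫⁻ x, ‖u x‖ₑ ^ 2 ∂S.μ := by
  have h1 : ∀ k ∈ Finset.range n, ∫⁻ x in E k, (S.ψ (k - S.m x))⁻¹ * ‖u x‖ₑ ^ 2 ∂S.μ =
      ∫⁻ x, (E k).indicator (fun y => (S.ψ (k - S.m y))⁻¹) x * ‖u x‖ₑ ^ 2 ∂S.μ := by
    intro k _
    rw [← lintegral_indicator (hE k)]
    congr 1; ext x
    by_cases hx : x ∈ E k <;> simp [hx]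
  rw [Finset.sum_congr rfl h1, ← lintegral_finsetSum]
  · refine le_trans (lintegral_mono (g := fun x => C * ‖u x‖ₑ ^ 2) fun x => ?_) ?_
    · simp only
      rw [← Finset.sum_mul]
      gcongr
      exact hC x
    · exact le_of_eq (lintegral_const_mul _ (hu.1.enorm.pow_const 2))
  · intro k _
    have hρm : Measurable fun x => (S.ψ (k - S.m x))⁻¹ :=
      (measurable_of_countable (fun n : ℕ => (S.ψ (k - n))⁻¹)).comp S.hm
    exact (hρm.indicator (hE k)).mul (hu.1.enorm.pow_const 2)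

/-- disjointness of the clusters, in integrated form -/
lemma sum_clusters_le (f : Plane → ℝ≥0∞) (hf : Measurable f) (n : ℕ) :
    ∑ κ ∈ Finset.range n, ∑ P ∈ S.Sel κ, ∫⁻ x in S.G (κ, P), f x ∂S.μ ≤ ∫⁻ x, f x ∂S.μ := by
  have h1 : ∀ x, ∑ κ ∈ Finset.range n, ∑ P ∈ S.Sel κ, (S.G (κ, P)).indicator (fun _ => (1 : ℝ)) x ≤ 1 := by
    intro x
    have h2 := S.level_indicator n (fun _ => (1 : ℝ)) x
    have h3 : 0 ≤ (S.Op n).indicator (fun _ => (1 : ℝ)) x := indicator_nonneg (fun _ _ => zero_le_one) x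
    have h4 : (S.K ∩ {y | S.m y ≤ n}).indicator (fun _ => (1 : ℝ)) x ≤ 1 :=
      indicator_le_self' (fun _ _ => zero_le_one) x
    linarith
  have h2 : ∀ q : ℕ × (ℤ × ℤ), ∫⁻ x in S.G q, f x ∂S.μ =
      ∫⁻ x, ENNReal.ofReal ((S.G q).indicator (fun _ => (1 : ℝ)) x) * f x ∂S.μ := by
    intro q
    rw [← lintegral_indicator (S.measurableSet_G q)]
    congr 1; ext x
    by_cases hx : x ∈ S.G q <;> simp [hx]
  have hm : ∀ q : ℕ × (ℤ × ℤ), Measurable fun x =>
      ENNReal.ofReal ((S.G q).indicator (fun _ => (1 : ℝ)) x) * f x := fun q =>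
    ((measurable_const.indicator (S.measurableSet_G q)).ennreal_ofReal).mul hf
  calc ∑ κ ∈ Finset.range n, ∑ P ∈ S.Sel κ, ∫⁻ x in S.G (κ, P), f x ∂S.μ
      = ∫⁻ x, ∑ κ ∈ Finset.range n, ∑ P ∈ S.Sel κ,
          ENNReal.ofReal ((S.G (κ, P)).indicator (fun _ => (1 : ℝ)) x) * f x ∂S.μ := by
        rw [lintegral_finsetSum _ fun κ _ => Finset.measurable_sum _ fun P _ => hm (κ, P)]
        apply Finset.sum_congr rfl
        intro κ _
        rw [lintegral_finsetSum _ fun P _ => hm (κ, P)]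
        apply Finset.sum_congr rfl
        intro P _
        exact h2 _
    _ ≤ ∫⁻ x, f x ∂S.μ := by
        apply lintegral_mono
        intro x
        simp only
        have h3 : ∑ κ ∈ Finset.range n, ∑ P ∈ S.Sel κ,
            ENNReal.ofReal ((S.G (κ, P)).indicator (fun _ => (1 : ℝ)) x) * f x =
            ENNReal.ofReal (∑ κ ∈ Finset.range n, ∑ P ∈ S.Sel κ,
              (S.G (κ, P)).indicator (fun _ => (1 : ℝ)) x) * f x := by
          rw [ENNReal.ofReal_sum_of_nonneg (fun κ _ => Finset.sum_nonneg fun P _ =>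
            indicator_nonneg (fun _ _ => zero_le_one) x), Finset.sum_mul]
          apply Finset.sum_congr rfl
          intro κ _
          rw [ENNReal.ofReal_sum_of_nonneg (fun P _ => indicator_nonneg (fun _ _ => zero_le_one) x),
            Finset.sum_mul]
        rw [h3]
        calc _ ≤ ENNReal.ofReal 1 * f x := by
              gcongr; exact h1 x
          _ = f x := by simp

end Sys

end Pool.Agent.LT2
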