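import Pool.Agent.Lib.MP_50e96d_mp.SumReal

/-!
# Choice of the parameters: the sharp upper bound for nice potentials
-/

namespace Pool.Agent.LT2

open MeasureTheory Set Filter Topology
open scoped ENNReal

lemma mul_exp_neg_le (x : ℝ) : x * Real.exp (-x) ≤ Real.exp (-1) := by
  have h1 := Real.add_one_le_exp (x - 1)
  have h2 : x ≤ Real.exp (x - 1) := by linarith
  calc x * Real.exp (-x) ≤ Real.exp (x - 1) * Real.exp (-x) := by gcongr
    _ = Real.exp (-1) := by rw [← Real.exp_add]; congr 1; ring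

/-- the tail level -/
lemma exists_J {η K : ℝ} (hη : 0 < η) : ∃ J : ℕ, ∀ j : ℕ, J < j →
    K * ((j : ℝ) + 1) ^ 2 * Real.exp (-(2 * η)) ^ j ≤ 1 / (2 * Real.exp 1 * η) := by
  have hr0 : 0 < Real.exp (-(2 * η)) := Real.exp_pos _
  have hr1 : Real.exp (-(2 * η)) < 1 := by rw [Real.exp_lt_one_iff]; linarith
  have h1 := tendsto_pow_const_mul_const_pow_of_abs_lt_one 2 (r := Real.exp (-(2 * η)))
    (by rw [abs_of_pos hr0]; exact hr1)
  have h2 := (h1.comp (tendsto_add_atTop_nat 1)).const_mul (K * (Real.exp (-(2 * η)))⁻¹)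
  rw [mul_zero] at h2
  have h3 : Tendsto (fun j : ℕ => K * ((j : ℝ) + 1) ^ 2 * Real.exp (-(2 * η)) ^ j) atTop (𝓝 0) := by
    refine h2.congr fun j => ?_
    simp only [Function.comp_apply]
    push_cast
    rw [pow_succ (Real.exp (-(2 * η))) j]
    field_simp
  have h4 := h3.eventually (ge_mem_nhds (show (0 : ℝ) < 1 / (2 * Real.exp 1 * η) by positivity))
  obtain ⟨J, hJ⟩ := eventually_atTop.1 h4
  exact ⟨J, fun j hj => hJ j hj.le⟩

/-- the weights -/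
noncomputable def psi (η K : ℝ) (J j : ℕ) : ℝ :=
  max (1 / (2 * Real.exp 1 * η)) (if j ≤ J then (j : ℝ) + 1 else K * ((j : ℝ) + 1) ^ 2)

/-- `∑ 1/(j+1)²` -/
noncomputable def zz : ℝ := ∑' j : ℕ, 1 / ((j : ℝ) + 1) ^ 2

lemma zz_summable : Summable fun j : ℕ => 1 / ((j : ℝ) + 1) ^ 2 := by
  have := (summable_nat_add_iff 1).2 (Real.summable_one_div_nat_pow.2 (one_lt_two))
  simpa using this

lemma zz_nonneg : 0 ≤ zz := tsum_nonneg fun _ => by positivity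

lemma zz_ofReal {K : ℝ} (hK : 0 < K) :
    ∑' j : ℕ, ENNReal.ofReal (K⁻¹ * (1 / ((j : ℝ) + 1) ^ 2)) = ENNReal.ofReal (zz / K) := by
  rw [← ENNReal.ofReal_tsum_of_nonneg (fun _ => by positivity) (zz_summable.mul_left _), tsum_mul_left]
  congr 1
  unfold zz
  field_simp

variable {η K : ℝ} {J : ℕ}

lemma psi_ge (hK : 1 ≤ K) (j : ℕ) : (j : ℝ) + 1 ≤ psi η K J j := by
  unfold psi
  refine le_trans ?_ (le_max_right _ _)
  split_ifs with h
  · exact le_rfl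
  · have : (0 : ℝ) ≤ j := Nat.cast_nonneg _
    nlinarith [mul_le_mul_of_nonneg_right hK (sq_nonneg ((j : ℝ) + 1))]

lemma psi_min (j : ℕ) : 1 / (2 * Real.exp 1 * η) ≤ psi η K J j := le_max_left _ _

lemma psi_inv_le (hη : 0 < η) (hK : 1 ≤ K) (j : ℕ) :
    (ENNReal.ofReal (psi η K J (j + (J + 1))))⁻¹ ≤ ENNReal.ofReal (K⁻¹ * (1 / ((j : ℝ) + 1) ^ 2)) := by
  have hpos : 0 < psi η K J (j + (J + 1)) := lt_of_lt_of_le (by positivity) (psi_min _)
  have h1 : K * ((j : ℝ) + 1) ^ 2 ≤ psi η K J (j + (J + 1)) := by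
    unfold psi
    refine le_trans ?_ (le_max_right _ _)
    rw [if_neg (by omega)]
    push_cast
    have : (0 : ℝ) ≤ J := Nat.cast_nonneg _
    gcongr
    linarith
  rw [← ENNReal.ofReal_inv_of_pos hpos]
  apply ENNReal.ofReal_le_ofReal
  calc (psi η K J (j + (J + 1)))⁻¹ ≤ (K * ((j : ℝ) + 1) ^ 2)⁻¹ := by
        apply inv_anti₀ (by positivity) h1
    _ = _ := by rw [mul_inv, one_div]

lemma psi_tail (hη : 0 < η) (hK : 1 ≤ K) :
    ∑' j, (ENNReal.ofReal (psi η K J (j + (J + 1))))⁻¹ ≤ ENNReal.ofReal (zz / K) := by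
  rw [← zz_ofReal (by linarith)]
  exact ENNReal.tsum_le_tsum fun j => psi_inv_le hη hK j

lemma psi_sum (hη : 0 < η) (hK : 1 ≤ K) :
    ∑' j, (ENNReal.ofReal (psi η K J j))⁻¹ ≤ ENNReal.ofReal ((J + 1) + zz / K) := by
  have h1 : ∀ j, (ENNReal.ofReal (psi η K J j))⁻¹ ≤ 1 := by
    intro j
    rw [ENNReal.inv_le_one, ENNReal.one_le_ofReal]
    have := psi_ge (η := η) (J := J) hK j
    have h2 : (0 : ℝ) ≤ j := Nat.cast_nonneg _
    linarith
  have hz := zz_nonneg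
  rw [← Summable.sum_add_tsum_nat_add' (k := J + 1) ENNReal.summable,
    ENNReal.ofReal_add (by positivity) (by positivity)]
  gcongr
  · calc ∑ i ∈ Finset.range (J + 1), (ENNReal.ofReal (psi η K J i))⁻¹ ≤ ∑ i ∈ Finset.range (J + 1), 1 :=
          Finset.sum_le_sum fun i _ => h1 i
      _ = ENNReal.ofReal (J + 1) := by
          rw [Finset.sum_const, Finset.card_range, nsmul_eq_mul, mul_one, ← ENNReal.ofReal_natCast]
          push_cast; rfl
  · exact psi_tail hη hK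

lemma psi_sup (hη : 0 < η) (hJ : ∀ j : ℕ, J < j →
    K * ((j : ℝ) + 1) ^ 2 * Real.exp (-(2 * η)) ^ j ≤ 1 / (2 * Real.exp 1 * η)) {r : ℝ} (hr0 : 0 ≤ r)
    (hr : r ≤ Real.exp (-(2 * η))) (hK : 0 ≤ K) (j : ℕ) :
    psi η K J j * r ^ j ≤ Real.exp (2 * η) / (2 * Real.exp 1 * η) := by
  have he : (1 : ℝ) ≤ Real.exp (2 * η) := Real.one_le_exp (by positivity)
  have hr' : r ^ j ≤ Real.exp (-(2 * η)) ^ j := pow_le_pow_left₀ hr0 hr j
  have hr1 : r ^ j ≤ 1 := by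
    apply pow_le_one₀ hr0
    refine hr.trans ?_
    rw [Real.exp_le_one_iff]; linarith
  have h0 : 1 / (2 * Real.exp 1 * η) ≤ Real.exp (2 * η) / (2 * Real.exp 1 * η) := by gcongr
  unfold psi
  rw [max_mul_of_nonneg _ _ (pow_nonneg hr0 j)]
  apply max_le
  · refine le_trans ?_ h0
    exact mul_le_of_le_one_right (by positivity) hr1
  · split_ifs with h
    · have h1 := mul_exp_neg_le (2 * η * ((j : ℝ) + 1))
      calc ((j : ℝ) + 1) * r ^ j ≤ ((j : ℝ) + 1) * Real.exp (-(2 * η)) ^ j := by gcongr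
        _ = Real.exp (2 * η) / (2 * η) * (2 * η * ((j : ℝ) + 1) * Real.exp (-(2 * η * ((j : ℝ) + 1)))) := by
            rw [← Real.exp_nat_mul]
            have e1 : Real.exp ((j : ℝ) * -(2 * η)) = Real.exp (2 * η) * Real.exp (-(2 * η * ((j : ℝ) + 1))) := by
              rw [← Real.exp_add]; congr 1; ring
            rw [e1]
            field_simp
        _ ≤ Real.exp (2 * η) / (2 * η) * Real.exp (-1) := by gcongr
        _ = _ := by
            rw [Real.exp_neg]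
            have := Real.exp_pos 1
            field_simp
    · push Not at h
      refine le_trans ?_ ((hJ j h).trans h0)
      gcongr

/-- the coefficient with the chosen parameters -/
lemma coefR_le {Λ A J : ℕ} {γ δ ε1 η θb θd l : ℝ} (hl : l = Real.log Λ) (hγ : 0 < γ) (hη0 : 0 < η)
    (hε10 : 0 < ε1) (hε11 : ε1 ≤ 1 / 4) (hl0 : 0 < l) (hgl1 : η ≤ γ * l) (hl2 : l ≤ (1 + ε1) * η / γ)
    (hA0 : (0 : ℝ) < A) (hA2 : 2 / (A : ℝ) ≤ ε1) (hθb0 : 0 < θb) (hθd0 : 0 < θd) (hδ0 : 0 < δ)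
    (hδ2 : (1 + ε1) * η / (2 * Real.pi) / θd * (1 - Real.exp (-(2 * η)))⁻¹ * (12 * (J + 1)) * δ ≤
      ε1 / (4 * Real.pi * Real.exp 1)) :
    coefR γ δ Λ A J (2 * Real.pi * (1 - ε1) / l) (θb / l) θd (1 / (2 * Real.exp 1 * η))
      (Real.exp (2 * η) / (2 * Real.exp 1 * η)) ≤
      Real.exp (12 * η) * ((1 + ε1) * Real.exp (2 * η) *
        ((1 + ε1) / (4 * Real.pi * Real.exp 1 * (1 - ε1)) + (4 / θb + 1 / (2 * Real.pi * θd)) * η) +
        ε1 / (4 * Real.pi * Real.exp 1)) / γ := by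
  have hpi := Real.pi_pos
  have he1 := Real.exp_pos 1
  have h1ε : 0 < 1 - ε1 := by linarith
  have hgl2 : γ * l ≤ (1 + ε1) * η := by
    rw [le_div_iff₀ hγ] at hl2; linarith
  have h1e : 0 < 1 - Real.exp (-(2 * η)) := by
    have : Real.exp (-(2 * η)) < 1 := by rw [Real.exp_lt_one_iff]; linarith
    linarith
  have hexp : Real.exp (-(2 * γ * l)) ≤ Real.exp (-(2 * η)) := by
    apply Real.exp_le_exp.2; nlinarith
  have h1e' : 0 < 1 - Real.exp (-(2 * γ * l)) := by linarith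
  unfold coefR
  rw [← hl]
  have c1' : Real.exp (2 * γ * l) ^ 3 ≤ Real.exp (12 * η) := by
    rw [← Real.exp_nat_mul]
    apply Real.exp_le_exp.2
    push_cast
    nlinarith
  have c2 : ((1 + 2 / (A : ℝ)) / (2 * Real.pi * (1 - ε1) / l) +
      (4 / (θb / l) + l / (2 * Real.pi) / θd) / (1 / (2 * Real.exp 1 * η))) *
      (Real.exp (2 * η) / (2 * Real.exp 1 * η)) ≤ (1 + ε1) * Real.exp (2 * η) *
      ((1 + ε1) / (4 * Real.pi * Real.exp 1 * (1 - ε1)) + (4 / θb + 1 / (2 * Real.pi * θd)) * η) / γ := by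
    have e1 : ((1 + 2 / (A : ℝ)) / (2 * Real.pi * (1 - ε1) / l) +
      (4 / (θb / l) + l / (2 * Real.pi) / θd) / (1 / (2 * Real.exp 1 * η))) *
      (Real.exp (2 * η) / (2 * Real.exp 1 * η)) = l * (Real.exp (2 * η) / η *
        ((1 + 2 / (A : ℝ)) / (4 * Real.pi * Real.exp 1 * (1 - ε1)) + (4 / θb + 1 / (2 * Real.pi * θd)) * η)) := by
      generalize (2 / (A : ℝ)) = a2
      field_simp
      ring
    rw [e1]
    calc l * (Real.exp (2 * η) / η *
        ((1 + 2 / (A : ℝ)) / (4 * Real.pi * Real.exp 1 * (1 - ε1)) + (4 / θb + 1 / (2 * Real.pi * θd)) * η))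
        ≤ ((1 + ε1) * η / γ) * (Real.exp (2 * η) / η *
        ((1 + ε1) / (4 * Real.pi * Real.exp 1 * (1 - ε1)) + (4 / θb + 1 / (2 * Real.pi * θd)) * η)) := by gcongr
      _ = _ := by
        generalize ((1 + ε1) / (4 * Real.pi * Real.exp 1 * (1 - ε1)) + (4 / θb + 1 / (2 * Real.pi * θd)) * η) = X
        field_simp
  have c3 : l / (2 * Real.pi) / θd * (1 - Real.exp (-(2 * γ * l)))⁻¹ * (12 * (J + 1) * δ) ≤
      ε1 / (4 * Real.pi * Real.exp 1) / γ := by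
    calc l / (2 * Real.pi) / θd * (1 - Real.exp (-(2 * γ * l)))⁻¹ * (12 * (J + 1) * δ)
        ≤ ((1 + ε1) * η / γ) / (2 * Real.pi) / θd * (1 - Real.exp (-(2 * η)))⁻¹ * (12 * (J + 1) * δ) := by
          gcongr
      _ = ((1 + ε1) * η / (2 * Real.pi) / θd * (1 - Real.exp (-(2 * η)))⁻¹ * (12 * (J + 1)) * δ) / γ := by
          ring
      _ ≤ _ := by gcongr
  calc _ ≤ Real.exp (12 * η) * ((1 + ε1) * Real.exp (2 * η) *
      ((1 + ε1) / (4 * Real.pi * Real.exp 1 * (1 - ε1)) + (4 / θb + 1 / (2 * Real.pi * θd)) * η) / γ +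
      ε1 / (4 * Real.pi * Real.exp 1) / γ) := mul_le_mul c1' (add_le_add c2 c3) (by positivity) (by positivity)
    _ = _ := by ring

/-- the bracket with the chosen parameters -/
lemma bracR_le {Λ A : ℕ} {γ δ ε1 η θ θd τ K Ψ l : ℝ} (hl : l = Real.log Λ) (hγ : 0 < γ) (hη0 : 0 < η)
    (hε10 : 0 < ε1) (hε11 : ε1 ≤ 1 / 4) (hθ : θ = ε1 / 4) (hτ : τ = (ε1 / 4) / (6 * (1 + θ⁻¹)))
    (hθd : θd = τ / 50) (hl0 : 0 < l) (hl1 : η / γ ≤ l) (hΛ3 : η / γ ≤ Λ)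
    (hA0 : (0 : ℝ) < A) (hK0 : 0 < K) (hK2 : 9 * (zz / K) ≤ τ / 5) (hΨ0 : 0 < Ψ) (hδ0 : 0 < δ) (hδ1 : δ ≤ 1)
    (g4 : 3 * c1 ^ 2 * γ ^ 2 / η ^ 2 ≤ τ / 5) (g5 : 9 * Real.log (1 / δ) * Ψ * γ / η ≤ τ / 5) :
    (1 + θ) * bracR θ δ Λ A (2 * Real.pi * (1 - ε1) / l)
      (τ / (5 * (64800 * Real.pi * A * LL ^ 2)) / l) θd Ψ (zz / K) ≤ 1 := by
  have hpi := Real.pi_pos
  have hLL := LL_pos
  have hc1 := c1_pos
  have hz := zz_nonneg
  have hθ0 : 0 < θ := by rw [hθ]; positivity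
  have hτ0 : 0 < τ := by rw [hτ]; positivity
  have h1ε : 0 < 1 - ε1 := by linarith
  have hlδ : 0 ≤ Real.log (1 / δ) := Real.log_nonneg (by rw [le_div_iff₀ hδ0]; linarith)
  have b1 : l / (2 * Real.pi) * (2 * Real.pi * (1 - ε1) / l) = 1 - ε1 := by field_simp
  have b2 : 9 * (2 * Real.pi * (1 - ε1) / l) * (l / (2 * Real.pi) * (zz / K) +
      Real.log (1 / δ) / (2 * Real.pi) * Ψ) ≤ τ / 5 + τ / 5 := by
    have e1 : 9 * (2 * Real.pi * (1 - ε1) / l) * (l / (2 * Real.pi) * (zz / K) +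
        Real.log (1 / δ) / (2 * Real.pi) * Ψ) =
        (1 - ε1) * (9 * (zz / K)) + (1 - ε1) * (9 * Real.log (1 / δ) * Ψ / l) := by
      field_simp
    rw [e1]
    have e2 : 9 * Real.log (1 / δ) * Ψ / l ≤ 9 * Real.log (1 / δ) * Ψ * γ / η := by
      have e3 : 9 * Real.log (1 / δ) * Ψ * γ / η = 9 * Real.log (1 / δ) * Ψ / (η / γ) := by
        field_simp
      rw [e3]
      gcongr
    have e4 : 0 ≤ 9 * (zz / K) := by positivity
    have e5 : 0 ≤ 9 * Real.log (1 / δ) * Ψ / l := by positivity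
    apply add_le_add
    · calc (1 - ε1) * (9 * (zz / K)) ≤ 1 * (9 * (zz / K)) := by gcongr; linarith
        _ ≤ _ := by rw [one_mul]; exact hK2
    · calc (1 - ε1) * (9 * Real.log (1 / δ) * Ψ / l) ≤ 1 * (9 * Real.log (1 / δ) * Ψ / l) := by
            gcongr; linarith
        _ ≤ _ := by rw [one_mul]; exact e2.trans g5
  have b3 : l * (64800 * Real.pi * A * LL ^ 2 * (τ / (5 * (64800 * Real.pi * A * LL ^ 2)) / l)) = τ / 5 := by
    field_simp
  have b4 : 3 * c1 ^ 2 / (Λ : ℝ) ^ 2 ≤ τ / 5 := by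
    refine le_trans ?_ g4
    have e1 : 3 * c1 ^ 2 * γ ^ 2 / η ^ 2 = 3 * c1 ^ 2 / (η / γ) ^ 2 := by field_simp
    rw [e1]
    gcongr
  have b5 : bracR θ δ Λ A (2 * Real.pi * (1 - ε1) / l)
      (τ / (5 * (64800 * Real.pi * A * LL ^ 2)) / l) θd Ψ (zz / K) ≤ (1 + θ) * (1 - ε1) + ε1 / 4 := by
    unfold bracR
    rw [← hl, b1, b3]
    have e1 : (1 + θ⁻¹) * (6 * τ) = ε1 / 4 := by
      rw [hτ]; field_simp
    rw [← e1]
    have e2 : 9 * (2 * Real.pi * (1 - ε1) / l) * (l / (2 * Real.pi) * (zz / K) +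
      Real.log (1 / δ) / (2 * Real.pi) * Ψ) + 9 * θd + τ / 5 + 3 * c1 ^ 2 / (Λ : ℝ) ^ 2 + θd ≤ τ := by
      rw [hθd]; linarith
    have e3 : (0 : ℝ) ≤ 1 + θ⁻¹ := by positivity
    linarith [mul_le_mul_of_nonneg_left (mul_le_mul_of_nonneg_left e2 (by norm_num : (0 : ℝ) ≤ 6)) e3]
  refine (mul_le_mul_of_nonneg_left b5 (by positivity)).trans ?_
  have key : ∀ x : ℝ, 0 < x → (1 + x / 4) * ((1 + x / 4) * (1 - x) + x / 4) ≤ 1 := by
    intro x hx
    have e : (1 + x / 4) * ((1 + x / 4) * (1 - x) + x / 4) = 1 - (x / 4 + 3 * x ^ 2 / 8 + x ^ 3 / 16) := by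
      ring
    rw [e]
    have : 0 ≤ x / 4 + 3 * x ^ 2 / 8 + x ^ 3 / 16 := by positivity
    linarith
  rw [hθ]; exact key ε1 hε10

/-- **Sharp upper bound for nice potentials.** -/
theorem nice_upper {ε : ℝ} (hε : 0 < ε) : ∀ᶠ γ in 𝓝[>] (0 : ℝ), ∀ W : Plane → ℝ, Nice W →
    ∑' n, absPow (fun x => -W x) γ (n + 1) ≤
      ENNReal.ofReal ((1 + ε) / (4 * Real.pi * Real.exp 1) / γ) *
        ∫⁻ x, ENNReal.ofReal (W x) ^ (γ + 1) := by
  have hpi := Real.pi_pos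
  have hLL := LL_pos
  have hc1 := c1_pos
  have he1 := Real.exp_pos 1
  have hz := zz_nonneg
  set ε1 : ℝ := min (ε / 16) (1 / 4) with hε1
  have hε10 : 0 < ε1 := lt_min (by positivity) (by norm_num)
  have hε11 : ε1 ≤ 1 / 4 := min_le_right _ _
  have hε12 : ε1 ≤ ε / 16 := min_le_left _ _
  set θ : ℝ := ε1 / 4 with hθ
  have hθ0 : 0 < θ := by positivity
  obtain ⟨Ar, hAr0, hres⟩ := resolvent_bound hθ0
  set τ : ℝ := (ε1 / 4) / (6 * (1 + θ⁻¹)) with hτ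
  have hτ0 : 0 < τ := by positivity
  set θd : ℝ := τ / 50 with hθd
  have hθd0 : 0 < θd := by positivity
  set A : ℕ := ⌈2 / ε1⌉₊ with hA
  have hA1 : 1 ≤ A := Nat.one_le_ceil_iff.2 (by positivity)
  have hA0 : (0 : ℝ) < A := by exact_mod_cast (by omega : 0 < A)
  have hA2 : 2 / (A : ℝ) ≤ ε1 := by
    have h1 : 2 / ε1 ≤ A := Nat.le_ceil _
    rw [div_le_iff₀ hε10] at h1
    rw [div_le_iff₀ hA0]; linarith
  set θb : ℝ := τ / (5 * (64800 * Real.pi * A * LL ^ 2)) with hθb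
  have hθb0 : 0 < θb := by positivity
  set K : ℝ := max 1 (45 * zz / τ) with hK
  have hK1 : 1 ≤ K := le_max_left _ _
  have hK0 : 0 < K := by linarith
  have hK2 : 9 * (zz / K) ≤ τ / 5 := by
    have h1 : 45 * zz / τ ≤ K := le_max_right _ _
    rw [div_le_iff₀ hτ0] at h1
    rw [mul_div_assoc', div_le_iff₀ hK0]; linarith
  set C2 : ℝ := 4 / θb + 1 / (2 * Real.pi * θd) with hC2
  have hC20 : 0 < C2 := by positivity
  -- choice of η
  let F : ℝ → ℝ := fun η => Real.exp (12 * η) * ((1 + ε1) * Real.exp (2 * η) *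
    ((1 + ε1) / (4 * Real.pi * Real.exp 1 * (1 - ε1)) + C2 * η) + ε1 / (4 * Real.pi * Real.exp 1))
  have hF0 : F 0 < (1 + ε) / (4 * Real.pi * Real.exp 1) := by
    have h1 : F 0 = ((1 + ε1) ^ 2 / (1 - ε1) + ε1) / (4 * Real.pi * Real.exp 1) := by
      simp only [F, mul_zero, Real.exp_zero, one_mul, add_zero, mul_one]
      have : (1 - ε1) ≠ 0 := by linarith
      field_simp
    rw [h1]
    apply div_lt_div_of_pos_right _ (by positivity)
    have h2 : (1 + ε1) ^ 2 / (1 - ε1) < 1 + ε - ε1 := by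
      rw [div_lt_iff₀ (by linarith)]
      nlinarith
    linarith
  have hFc : Continuous F := by
    simp only [F]
    fun_prop
  obtain ⟨η, hη0, hη⟩ : ∃ η, 0 < η ∧ F η < (1 + ε) / (4 * Real.pi * Real.exp 1) := by
    have h1 : ∀ᶠ η in 𝓝[>] (0 : ℝ), F η < (1 + ε) / (4 * Real.pi * Real.exp 1) :=
      (hFc.continuousAt.eventually (gt_mem_nhds hF0)).filter_mono nhdsWithin_le_nhds
    obtain ⟨η, h2, h3⟩ := (h1.and self_mem_nhdsWithin).exists
    exact ⟨η, h3, h2⟩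
  obtain ⟨J, hJ⟩ := exists_J (K := K) hη0
  set Ψ : ℝ := (J + 1) + zz / K with hΨ
  have hΨ0 : 0 < Ψ := by positivity
  -- choice of δ
  have h1e : 0 < 1 - Real.exp (-(2 * η)) := by
    have : Real.exp (-(2 * η)) < 1 := by rw [Real.exp_lt_one_iff]; linarith
    linarith
  set CB : ℝ := (1 + ε1) * η / (2 * Real.pi) / θd * (1 - Real.exp (-(2 * η)))⁻¹ * (12 * (J + 1)) with hCB
  have hCB0 : 0 < CB := by positivity
  set δ : ℝ := min 1 (ε1 / (4 * Real.pi * Real.exp 1) / CB) with hδ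
  have hδ0 : 0 < δ := lt_min one_pos (by positivity)
  have hδ1 : δ ≤ 1 := min_le_left _ _
  have hδ2 : CB * δ ≤ ε1 / (4 * Real.pi * Real.exp 1) := by
    have h1 : δ ≤ ε1 / (4 * Real.pi * Real.exp 1) / CB := min_le_right _ _
    rw [le_div_iff₀ hCB0] at h1
    linarith
  have hlδ : 0 ≤ Real.log (1 / δ) := Real.log_nonneg (by rw [le_div_iff₀ hδ0]; linarith)
  -- smallness of γ
  have t1 : ∀ᶠ γ in 𝓝[>] (0 : ℝ), γ * Real.log 2 < ε1 * η := by
    have : Tendsto (fun γ : ℝ => γ * Real.log 2) (𝓝[>] 0) (𝓝 (0 * Real.log 2)) :=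
      (continuous_id.mul continuous_const).continuousAt.tendsto.mono_left nhdsWithin_le_nhds
    rw [zero_mul] at this
    exact this.eventually (gt_mem_nhds (by positivity))
  have t2 : ∀ᶠ γ in 𝓝[>] (0 : ℝ), γ < η :=
    (gt_mem_nhds hη0 : ∀ᶠ γ in 𝓝 (0 : ℝ), γ < η).filter_mono nhdsWithin_le_nhds
  have t3 : ∀ᶠ γ in 𝓝[>] (0 : ℝ), Ar * γ ^ 2 < η ^ 2 := by
    have : Tendsto (fun γ : ℝ => Ar * γ ^ 2) (𝓝[>] 0) (𝓝 (Ar * 0 ^ 2)) :=
      (continuous_const.mul (continuous_id.pow 2)).continuousAt.tendsto.mono_left nhdsWithin_le_nhds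
    rw [zero_pow two_ne_zero, mul_zero] at this
    exact this.eventually (gt_mem_nhds (by positivity))
  have t4 : ∀ᶠ γ in 𝓝[>] (0 : ℝ), 3 * c1 ^ 2 * γ ^ 2 / η ^ 2 < τ / 5 := by
    have : Tendsto (fun γ : ℝ => 3 * c1 ^ 2 * γ ^ 2 / η ^ 2) (𝓝[>] 0) (𝓝 (3 * c1 ^ 2 * 0 ^ 2 / η ^ 2)) :=
      ((continuous_const.mul (continuous_id.pow 2)).div_const _).continuousAt.tendsto.mono_left
        nhdsWithin_le_nhds
    rw [zero_pow two_ne_zero, mul_zero, zero_div] at this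
    exact this.eventually (gt_mem_nhds (by positivity))
  have t5 : ∀ᶠ γ in 𝓝[>] (0 : ℝ), 9 * Real.log (1 / δ) * Ψ * γ / η < τ / 5 := by
    have : Tendsto (fun γ : ℝ => 9 * Real.log (1 / δ) * Ψ * γ / η) (𝓝[>] 0)
        (𝓝 (9 * Real.log (1 / δ) * Ψ * 0 / η)) :=
      ((continuous_const.mul continuous_id).div_const _).continuousAt.tendsto.mono_left
        nhdsWithin_le_nhds
    rw [mul_zero, zero_div] at this
    exact this.eventually (gt_mem_nhds (by positivity))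
  filter_upwards [t1, t2, t3, t4, t5, self_mem_nhdsWithin] with γ g1 g2 g3 g4 g5 g6 W hW
  have hγ : 0 < γ := g6
  set Λ : ℕ := ⌈Real.exp (η / γ)⌉₊ with hΛ
  have hΛ1 : Real.exp (η / γ) ≤ Λ := Nat.le_ceil _
  have hηγ : 1 < η / γ := by rw [lt_div_iff₀ hγ]; linarith
  have hΛ2 : 2 ≤ Λ := by
    have h1 : (2 : ℝ) < Real.exp (η / γ) := by
      have := Real.add_one_lt_exp (show η / γ ≠ 0 by positivity)
      linarith
    have h2 : (2 : ℝ) < Λ := lt_of_lt_of_le h1 hΛ1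
    exact_mod_cast h2.le
  have hΛ0 : (0 : ℝ) < Λ := by exact_mod_cast (by omega : 0 < Λ)
  have hΛ3 : η / γ ≤ Λ := by
    have := Real.add_one_le_exp (η / γ)
    linarith
  set l := Real.log Λ with hl
  have hl1 : η / γ ≤ l := by
    rw [hl, Real.le_log_iff_exp_le hΛ0]; exact hΛ1
  have hl0 : 0 < l := lt_of_lt_of_le (by positivity) hl1
  have hl2 : l ≤ (1 + ε1) * η / γ := by
    have h1 : (Λ : ℝ) < Real.exp (η / γ) + 1 := Nat.ceil_lt_add_one (by positivity)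
    have h2 : (1 : ℝ) ≤ Real.exp (η / γ) := Real.one_le_exp (by positivity)
    have h3 : (Λ : ℝ) ≤ 2 * Real.exp (η / γ) := by linarith
    have h4 : l ≤ Real.log (2 * Real.exp (η / γ)) := Real.log_le_log hΛ0 h3
    rw [Real.log_mul (by norm_num) (by positivity), Real.log_exp] at h4
    refine h4.trans ?_
    rw [le_div_iff₀ hγ, add_mul, div_mul_cancel₀ _ hγ.ne']
    linarith
  have hgl1 : η ≤ γ * l := by
    rw [div_le_iff₀ hγ] at hl1; linarith
  have hgl2 : γ * l ≤ (1 + ε1) * η := by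
    rw [le_div_iff₀ hγ] at hl2; linarith
  set thr : ℝ := 2 * Real.pi * (1 - ε1) / l with hthr
  have h1ε : 0 < 1 - ε1 := by linarith
  have hthr0 : 0 < thr := by positivity
  set ν : ℝ := θb / l with hν
  have hν0 : 0 < ν := by positivity
  -- the bracket
  have hB : (1 + θ) * bracR θ δ Λ A thr ν θd Ψ (zz / K) ≤ 1 :=
    bracR_le hl hγ hη0 hε10 hε11 hθ hτ hθd hl0 hl1 hΛ3 hA0 hK0 hK2 hΨ0 hδ0 hδ1 g4.le g5.le
  have hexp : Real.exp (-(2 * γ * l)) ≤ Real.exp (-(2 * η)) := by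
    apply Real.exp_le_exp.2; nlinarith
  have hmain := nice_bound_real hW hγ (Λ := Λ) (A := A) (J := J) (thr := thr) (ν := ν) (θd := θd)
    (ψmin := 1 / (2 * Real.exp 1 * η)) (Ψ := Ψ) (ΨJ := zz / K)
    (Ssup := Real.exp (2 * η) / (2 * Real.exp 1 * η)) (δ := δ) (θ := θ) (ε := θ) (Ar := Ar)
    (ψ := psi η K J) hΛ2 hA1 hδ0 hδ1 (psi_ge hK1) hthr0 hν0 hθd0 (by positivity) psi_min hΨ0.le
    (by positivity) (psi_sum hη0 hK1) (psi_tail hη0 hK1)
    (psi_sup hη0 hJ (Real.exp_pos _).le hexp hK0.le) hθ0 hθ0.le hres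
    (by
      have h1 : Ar ≤ (η / γ) ^ 2 := by
        rw [div_pow, le_div_iff₀ (by positivity)]; exact g3.le
      exact h1.trans (pow_le_pow_left₀ (by positivity) hΛ3 2)) hB
  refine hmain.trans (mul_le_mul_left (ENNReal.ofReal_le_ofReal ?_) _)
  refine (coefR_le hl hγ hη0 hε10 hε11 hl0 hgl1 hl2 hA0 hA2 hθb0 hθd0 hδ0 hδ2).trans ?_
  exact div_le_div_of_nonneg_right hη.le hγ.le

end Pool.Agent.LT2
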