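import Pool.Agent.Lib.MP_50e96d_mp.Kernel

/-!
# The scale mixture `∫_0^R r |χ̂(rξ)|² dr` against the resolvent symbol
-/

namespace Pool.Agent.LT2

open MeasureTheory SchwartzMap FourierTransform Set Filter Topology
open scoped ENNReal

/-- `h(s) = ∫_0^s σ ρ(σ) dσ` -/
noncomputable def hh (s : ℝ) : ℝ := ∫ σ in (0 : ℝ)..s, σ * rho σ

lemma srho_continuous : Continuous fun s : ℝ => s * rho s := continuous_id.mul rho_continuous

lemma hh_mono {s t : ℝ} (hs : 0 ≤ s) (h : s ≤ t) : hh s ≤ hh t := by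
  unfold hh
  apply intervalIntegral.integral_mono_interval le_rfl hs h
  · filter_upwards [self_mem_ae_restrict measurableSet_Ioc] with x hx
    exact mul_nonneg hx.1.le (rho_nonneg x)
  · exact srho_continuous.intervalIntegrable _ _

lemma hh_nonneg {s : ℝ} (hs : 0 ≤ s) : 0 ≤ hh s := by
  have := hh_mono le_rfl hs
  simpa [hh] using this

lemma hh_tendsto : Tendsto hh atTop (𝓝 (1 / (4 * Real.pi ^ 2))) := by
  rw [← integral_rho]
  exact intervalIntegral_tendsto_integral_Ioi 0 rho_integrableOn tendsto_id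

lemma hh_lower : ∃ c s0 : ℝ, 0 < c ∧ 0 < s0 ∧ ∀ s, 0 ≤ s → s ≤ s0 → c * s ^ 2 ≤ hh s := by
  have h1 : ∀ᶠ s in 𝓝 (0 : ℝ), rho 0 / 2 < rho s :=
    rho_continuous.continuousAt.eventually (lt_mem_nhds (by linarith [rho_zero_pos]))
  obtain ⟨d, hd, hd2⟩ := Metric.eventually_nhds_iff.1 h1
  refine ⟨rho 0 / 4, d / 2, by linarith [rho_zero_pos], by linarith, fun s hs hsd => ?_⟩
  unfold hh
  have h2 : ∫ σ in (0 : ℝ)..s, σ * (rho 0 / 2) = rho 0 / 4 * s ^ 2 := by
    rw [intervalIntegral.integral_mul_const, integral_id]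
    ring
  rw [← h2]
  apply intervalIntegral.integral_mono_on hs
  · exact (continuous_id.mul continuous_const).intervalIntegrable _ _
  · exact srho_continuous.intervalIntegrable _ _
  · intro x hx
    apply mul_le_mul_of_nonneg_left _ hx.1
    apply (hd2 _).le
    rw [dist_zero_right, Real.norm_eq_abs, abs_of_nonneg hx.1]
    linarith [hx.2]

/-- the pointwise comparison of the resolvent symbol with the scale mixture -/
lemma key_symbol {ε : ℝ} (hε : 0 < ε) : ∃ A : ℝ, 0 < A ∧ ∀ a, A ≤ a → ∀ s, 0 < s →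
    s ^ 2 ≤ (1 + ε) * hh s * (4 * Real.pi ^ 2 * s ^ 2 + a) := by
  obtain ⟨c, s0, hc, hs0, hlow⟩ := hh_lower
  have hpi := Real.pi_pos
  have h1 : ∀ᶠ s in atTop, 1 / (4 * Real.pi ^ 2) / (1 + ε) < hh s := by
    apply hh_tendsto.eventually (lt_mem_nhds _)
    rw [div_lt_iff₀ (by positivity)]
    have : 0 < 1 / (4 * Real.pi ^ 2) := by positivity
    nlinarith
  obtain ⟨s1, hs1⟩ := eventually_atTop.1 h1
  set s2 := max s1 s0 with hs2
  have hs2p : 0 < s2 := lt_of_lt_of_le hs0 (le_max_right _ _)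
  refine ⟨s2 ^ 2 / (c * s0 ^ 2) + 1 / c, by positivity, fun a ha s hs => ?_⟩
  have hh0 := hh_nonneg hs.le
  have ha0 : 0 < a := lt_of_lt_of_le (by positivity) ha
  rcases le_total s2 s with h | h
  · have h3 := hs1 s (le_trans (le_max_left _ _) h)
    rw [div_lt_iff₀ (by positivity), div_lt_iff₀ (by positivity)] at h3
    have h4 : 0 ≤ (1 + ε) * hh s * a := by positivity
    nlinarith [mul_pos hs hs]
  · have h5 : 0 ≤ (1 + ε) * hh s * (4 * Real.pi ^ 2 * s ^ 2) := by positivity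
    have h6 : s ^ 2 ≤ hh s * a := by
      rcases le_total s s0 with h7 | h7
      · have h8 := hlow s hs.le h7
        have h9 : 1 / c ≤ a := le_trans (by have : 0 ≤ s2 ^ 2 / (c * s0 ^ 2) := by positivity
                                            linarith) ha
        calc s ^ 2 = (c * s ^ 2) * (1 / c) := by field_simp
          _ ≤ hh s * a := mul_le_mul h8 h9 (by positivity) hh0
      · have h8 := le_trans (hlow s0 hs0.le le_rfl) (hh_mono hs0.le h7)
        have h9 : s2 ^ 2 / (c * s0 ^ 2) ≤ a := le_trans (by have : 0 ≤ 1 / c := by positivity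
                                                            linarith) ha
        calc s ^ 2 ≤ s2 ^ 2 := by gcongr
          _ = (c * s0 ^ 2) * (s2 ^ 2 / (c * s0 ^ 2)) := by field_simp
          _ ≤ hh s * a := mul_le_mul h8 h9 (by positivity) hh0
    have h7 : hh s * a ≤ (1 + ε) * hh s * a := by
      have : 0 ≤ ε * (hh s * a) := by positivity
      nlinarith
    nlinarith

/-- scaling of the mixture -/
lemma mixture_eq {ξ : Plane} (hξ : ξ ≠ 0) {R : ℝ} (hR : 0 < R) :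
    ∫⁻ r in Ioc (0 : ℝ) R, ENNReal.ofReal (r * ‖𝓕 chiS (r • ξ)‖ ^ 2) =
      ENNReal.ofReal (hh (R * ‖ξ‖) / ‖ξ‖ ^ 2) := by
  have hn : 0 < ‖ξ‖ := norm_pos_iff.2 hξ
  have hcont : Continuous fun r : ℝ => r * rho (r * ‖ξ‖) :=
    continuous_id.mul (rho_continuous.comp (continuous_id.mul continuous_const))
  have h1 : ∫⁻ r in Ioc (0 : ℝ) R, ENNReal.ofReal (r * ‖𝓕 chiS (r • ξ)‖ ^ 2) =
      ∫⁻ r in Ioc (0 : ℝ) R, ENNReal.ofReal (r * rho (r * ‖ξ‖)) := by
    apply setLIntegral_congr_fun measurableSet_Ioc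
    intro r hr
    simp only
    rw [rho_norm, norm_smul, Real.norm_eq_abs, abs_of_pos hr.1]
  rw [h1, ← ofReal_integral_eq_lintegral_ofReal]
  · congr 1
    rw [← intervalIntegral.integral_of_le hR.le]
    have h2 : ∫ r in (0 : ℝ)..R, (r * ‖ξ‖) * rho (r * ‖ξ‖) = ‖ξ‖⁻¹ * hh (R * ‖ξ‖) := by
      unfold hh
      rw [intervalIntegral.integral_comp_mul_right (fun s => s * rho s) hn.ne']
      simp
    have h3 : ∫ r in (0 : ℝ)..R, (r * ‖ξ‖) * rho (r * ‖ξ‖) =
        ‖ξ‖ * ∫ r in (0 : ℝ)..R, r * rho (r * ‖ξ‖) := by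
      rw [← intervalIntegral.integral_const_mul]
      congr 1; ext r; ring
    rw [h3] at h2
    field_simp at h2 ⊢
    rw [← h2]
  · exact (hcont.integrableOn_Icc (μ := volume) (a := 0) (b := R)).mono_set Ioc_subset_Icc_self
  · filter_upwards [self_mem_ae_restrict measurableSet_Ioc] with r hr
    exact mul_nonneg hr.1.le (rho_nonneg _)

/-- the resolvent symbol is dominated by the mixture -/
lemma symbol_le {ε : ℝ} (hε : 0 < ε) : ∃ A : ℝ, 0 < A ∧ ∀ E R : ℝ, 0 < R → A ≤ E * R ^ 2 →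
    ∀ ξ : Plane, ξ ≠ 0 →
    ENNReal.ofReal (1 / (4 * Real.pi ^ 2 * ‖ξ‖ ^ 2 + E)) ≤ ENNReal.ofReal (1 + ε) *
      ∫⁻ r in Ioc (0 : ℝ) R, ENNReal.ofReal (r * ‖𝓕 chiS (r • ξ)‖ ^ 2) := by
  obtain ⟨A, hA, hkey⟩ := key_symbol hε
  refine ⟨A, hA, fun E R hR hER ξ hξ => ?_⟩
  have hn : 0 < ‖ξ‖ := norm_pos_iff.2 hξ
  have hpi := Real.pi_pos
  have hE : 0 < E := by
    by_contra h
    push Not at h
    have : E * R ^ 2 ≤ 0 := mul_nonpos_of_nonpos_of_nonneg h (by positivity)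
    linarith
  rw [mixture_eq hξ hR, ← ENNReal.ofReal_mul (by linarith)]
  apply ENNReal.ofReal_le_ofReal
  have h1 := hkey (E * R ^ 2) hER (R * ‖ξ‖) (by positivity)
  rw [div_le_iff₀ (by positivity)]
  have h2 : (1 + ε) * (hh (R * ‖ξ‖) / ‖ξ‖ ^ 2) * (4 * Real.pi ^ 2 * ‖ξ‖ ^ 2 + E) =
      ((1 + ε) * hh (R * ‖ξ‖) * (4 * Real.pi ^ 2 * (R * ‖ξ‖) ^ 2 + E * R ^ 2)) / (R * ‖ξ‖) ^ 2 := by
    field_simp
  rw [h2, le_div_iff₀ (by positivity)]
  linarith

end Pool.Agent.LT2
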