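import Pool.Agent.Lib.MP_50e96d_mp.Codim

/-!
# From the estimate on `𝒥` to min–max values
-/

namespace Pool.Agent.LT2

open MeasureTheory Set Filter
open scoped ENNReal

set_option linter.unusedSectionVars false

/-- the resolvent inequality with constants `ε, A` -/
def ResIneq (ε A : ℝ) : Prop := ∀ E R : ℝ, 0 < R → A ≤ E * R ^ 2 →
    ∀ u : Plane → ℝ, RTest u → ∀ g : Plane → ℝ, Measurable g → ∫⁻ x, ‖g x‖ₑ ^ 2 < ⊤ →
    ‖∫ x, u x * g x‖ₑ ^ 2 ≤
      ENNReal.ofReal (dirR u + E * ∫ x, u x ^ 2) * (ENNReal.ofReal (1 + ε) * JJ volume g R)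

lemma RTest.bm {u : Plane → ℝ} (hu : RTest u) : BM u := by
  refine ⟨hu.1.continuous.measurable, ?_⟩
  obtain ⟨C, hC⟩ := hu.2.exists_bound_of_continuous hu.1.continuous
  exact ⟨C, fun x => by simpa using hC x⟩

lemma dirR_nonneg (u : Plane → ℝ) : 0 ≤ dirR u :=
  integral_nonneg fun _ => Finset.sum_nonneg fun _ _ => sq_nonneg _

lemma RTest.re {u : Plane → ℂ} (hu : IsTest u) : RTest fun x => (u x).re :=
  ⟨Complex.reCLM.contDiff.comp hu.1, hu.2.comp_left (g := Complex.re) (by simp)⟩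

lemma RTest.im {u : Plane → ℂ} (hu : IsTest u) : RTest fun x => (u x).im :=
  ⟨Complex.imCLM.contDiff.comp hu.1, hu.2.comp_left (g := Complex.im) (by simp)⟩

lemma RTest.integrable_dir {u : Plane → ℝ} (hu : RTest u) :
    Integrable fun x => ∑ i : Fin 2, (fderiv ℝ u x (ev i)) ^ 2 := by
  apply integrable_finsetSum
  intro i _
  have h1 : Continuous fun x => (fderiv ℝ u x (ev i)) ^ 2 :=
    ((hu.1.continuous_fderiv (by simp)).clm_apply continuous_const).pow 2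
  apply h1.integrable_of_hasCompactSupport
  have h2 : HasCompactSupport (fderiv ℝ u) := hu.2.fderiv ℝ
  exact h2.comp_left (g := fun L : Plane →L[ℝ] ℝ => (L (ev i)) ^ 2) (by simp)

lemma RTest.integrable_sq {u : Plane → ℝ} (hu : RTest u) : Integrable fun x => u x ^ 2 := by
  have h1 : Continuous fun x => u x ^ 2 := hu.1.continuous.pow 2
  apply h1.integrable_of_hasCompactSupport
  exact hu.2.comp_left (g := fun t : ℝ => t ^ 2) (by simp)

lemma IsTest.integrable_sq {u : Plane → ℂ} (hu : IsTest u) : Integrable fun x => ‖u x‖ ^ 2 := by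
  have h1 : Continuous fun x => ‖u x‖ ^ 2 := hu.1.continuous.norm.pow 2
  apply h1.integrable_of_hasCompactSupport
  exact hu.2.comp_left (g := fun t : ℂ => ‖t‖ ^ 2) (by simp)

lemma IsTest.integral_sq {u : Plane → ℂ} (hu : IsTest u) :
    ∫ x, ‖u x‖ ^ 2 = (∫ x, (u x).re ^ 2) + ∫ x, (u x).im ^ 2 := by
  rw [← integral_add (RTest.re hu).integrable_sq (RTest.im hu).integrable_sq]
  congr 1; ext x
  rw [Complex.sq_norm, Complex.normSq_apply]; ring

lemma IsTest.dir_eq {u : Plane → ℂ} (hu : IsTest u) :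
    ∫ x, ∑ i : Fin 2, ‖fderiv ℝ u x (EuclideanSpace.single i 1)‖ ^ 2 =
      dirR (fun x => (u x).re) + dirR (fun x => (u x).im) := by
  unfold dirR
  rw [← integral_add (RTest.re hu).integrable_dir (RTest.im hu).integrable_dir]
  congr 1; ext x
  rw [← Finset.sum_add_distrib]
  apply Finset.sum_congr rfl
  intro i _
  have hd : HasFDerivAt u (fderiv ℝ u x) x := (hu.1.differentiable (by simp)).differentiableAt.hasFDerivAt
  have h1 : HasFDerivAt (fun x => (u x).re) (Complex.reCLM.comp (fderiv ℝ u x)) x :=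
    Complex.reCLM.hasFDerivAt.comp x hd
  have h2 : HasFDerivAt (fun x => (u x).im) (Complex.imCLM.comp (fderiv ℝ u x)) x :=
    Complex.imCLM.hasFDerivAt.comp x hd
  rw [h1.fderiv, h2.fderiv, Complex.sq_norm, Complex.normSq_apply]
  simp only [ContinuousLinearMap.comp_apply, Complex.reCLM_apply, Complex.imCLM_apply]
  unfold ev
  ring

namespace Setting

variable (D : Setting)

lemma W_integrable : Integrable D.W := by
  refine ⟨D.hWm.aestronglyMeasurable, ?_⟩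
  have h1 := D.S.fin.measure_univ_lt_top
  rw [D.hμ, withDensity_apply _ MeasurableSet.univ, Measure.restrict_univ] at h1
  refine lt_of_le_of_lt (le_of_eq ?_) h1
  apply lintegral_congr; intro x
  rw [← ofReal_norm, Real.norm_eq_abs, abs_of_nonneg (D.hW0 x)]

lemma W_mul_integrable {g : Plane → ℝ} (hg : BM g) : Integrable fun x => D.W x * g x := by
  obtain ⟨B, hB⟩ := hg.2
  exact D.W_integrable.mul_bdd (c := B) hg.1.aestronglyMeasurable
    (Eventually.of_forall fun x => by simpa using hB x)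

lemma W_le (x : Plane) : D.W x ≤ ((D.S.b 0) ^ 2)⁻¹ := by
  have h1 := D.hWb x
  have h2 := D.S.b_pos 0
  have h3 : D.S.b 0 ≤ D.S.b (D.S.m x) := Sys.b_mono (Nat.zero_le _)
  rw [← one_div, le_div_iff₀ (by positivity)]
  refine le_trans ?_ h1
  have := D.hW0 x
  gcongr

lemma lintegral_mu (f : Plane → ℝ≥0∞) (hf : Measurable f) :
    ∫⁻ x, f x ∂D.S.μ = ∫⁻ x, ENNReal.ofReal (D.W x) * f x := by
  rw [D.hμ, lintegral_withDensity_eq_lintegral_mul _ D.hWm.ennreal_ofReal hf]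
  rfl

/-- the form inequality from the estimate on `𝒥` -/
lemma form_le {i : ℕ} {Bc : ℝ≥0∞} {u : Plane → ℝ} (hu : RTest u)
    (hJ : JJ D.S.μ u (D.S.b i) ≤ Bc * ∫⁻ x, ‖u x‖ₑ ^ 2 ∂D.S.μ)
    {ε A E : ℝ} (hres : ResIneq ε A) (hA : A ≤ E * D.S.b i ^ 2) (hE : 0 ≤ E)
    (hB : ENNReal.ofReal (1 + ε) * Bc ≤ 1) :
    ∫ x, D.W x * u x ^ 2 ≤ dirR u + E * ∫ x, u x ^ 2 := by
  have hub := hu.bm
  have husq : BM fun x => u x ^ 2 := by
    have := hub.mul hub
    simpa [sq] using this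
  have hi : Integrable fun x => D.W x * u x ^ 2 := D.W_mul_integrable husq
  have hX : ∫⁻ x, ‖u x‖ₑ ^ 2 ∂D.S.μ = ENNReal.ofReal (∫ x, D.W x * u x ^ 2) := by
    rw [D.lintegral_mu _ (hub.1.enorm.pow_const 2), ofReal_integral_eq_lintegral_ofReal hi
      (Eventually.of_forall fun x => mul_nonneg (D.hW0 x) (sq_nonneg _))]
    apply lintegral_congr; intro x
    rw [enorm_sq_eq, ENNReal.ofReal_mul (D.hW0 x)]
  have hg : Measurable fun x => D.W x * u x := D.hWm.mul hub.1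
  have hg2 : ∫⁻ x, ‖D.W x * u x‖ₑ ^ 2 < ⊤ := by
    have h1 : ∀ x, ‖D.W x * u x‖ₑ ^ 2 ≤ ENNReal.ofReal (((D.S.b 0) ^ 2)⁻¹) *
        (ENNReal.ofReal (D.W x) * ‖u x‖ₑ ^ 2) := by
      intro x
      rw [enorm_sq_eq, enorm_sq_eq, ← ENNReal.ofReal_mul (D.hW0 x),
        ← ENNReal.ofReal_mul (by have := D.S.b_pos 0; positivity)]
      apply ENNReal.ofReal_le_ofReal
      have h2 := D.W_le x
      have h3 := D.hW0 x
      calc (D.W x * u x) ^ 2 = D.W x * (D.W x * u x ^ 2) := by ring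
        _ ≤ _ := by gcongr
    refine lt_of_le_of_lt (lintegral_mono h1) ?_
    rw [lintegral_const_mul' _ _ ENNReal.ofReal_ne_top, ← D.lintegral_mu _ (hub.1.enorm.pow_const 2), hX]
    exact ENNReal.mul_lt_top ENNReal.ofReal_lt_top ENNReal.ofReal_lt_top
  have h := hres E (D.S.b i) (D.S.b_pos i) hA u hu _ hg hg2
  have hJJ : JJ volume (fun x => D.W x * u x) (D.S.b i) = JJ D.S.μ u (D.S.b i) := by
    unfold JJ
    simp only [D.Q_volume]
  rw [hJJ] at h
  have hL : ‖∫ x, u x * (D.W x * u x)‖ₑ = ENNReal.ofReal (∫ x, D.W x * u x ^ 2) := by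
    have e1 : ∫ x, u x * (D.W x * u x) = ∫ x, D.W x * u x ^ 2 := by
      congr 1; ext x; ring
    rw [e1, ← ofReal_norm, Real.norm_eq_abs, abs_of_nonneg
      (integral_nonneg fun x => mul_nonneg (D.hW0 x) (sq_nonneg _))]
  rw [hL] at h
  set X := ENNReal.ofReal (∫ x, D.W x * u x ^ 2) with hXd
  set Y := ENNReal.ofReal (dirR u + E * ∫ x, u x ^ 2) with hYd
  have h2 : X ^ 2 ≤ Y * X := by
    calc X ^ 2 ≤ Y * (ENNReal.ofReal (1 + ε) * JJ D.S.μ u (D.S.b i)) := h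
      _ ≤ Y * (ENNReal.ofReal (1 + ε) * (Bc * X)) := by
          gcongr
          exact hJ.trans (le_of_eq (by rw [hX]))
      _ = Y * ((ENNReal.ofReal (1 + ε) * Bc) * X) := by ring
      _ ≤ Y * (1 * X) := by gcongr
      _ = Y * X := by rw [one_mul]
  have h3 : X ≤ Y := by
    by_cases h0 : X = 0
    · rw [h0]; exact zero_le
    · rw [sq] at h2
      exact (ENNReal.mul_le_mul_iff_left h0 ENNReal.ofReal_ne_top).1 h2
  have hint : 0 ≤ ∫ x, u x ^ 2 := integral_nonneg fun _ => sq_nonneg _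
  have hY0 : 0 ≤ dirR u + E * ∫ x, u x ^ 2 := add_nonneg (dirR_nonneg u) (mul_nonneg hE hint)
  exact (ENNReal.ofReal_le_ofReal_iff hY0).1 h3

/-- the complex form inequality -/
lemma form_ge {i : ℕ} {Bc : ℝ≥0∞} {Φ : Finset (Plane → ℝ)}
    (hcore : ∀ u : Plane → ℝ, BM u → (∀ φ ∈ Φ, ∫ x, φ x * u x ∂D.S.μ = 0) →
      JJ D.S.μ u (D.S.b i) ≤ Bc * ∫⁻ x, ‖u x‖ₑ ^ 2 ∂D.S.μ)
    {ε A E : ℝ} (hres : ResIneq ε A) (hA : A ≤ E * D.S.b i ^ 2) (hE : 0 ≤ E)
    (hB : ENNReal.ofReal (1 + ε) * Bc ≤ 1) {u : Plane → ℂ} (hu : IsTest u)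
    (hre : ∀ φ ∈ Φ, ∫ x, φ x * (u x).re ∂D.S.μ = 0)
    (him : ∀ φ ∈ Φ, ∫ x, φ x * (u x).im ∂D.S.μ = 0) :
    -(E * ∫ x, ‖u x‖ ^ 2) ≤ form (fun x => - D.W x) u := by
  have h1 := D.form_le (RTest.re hu) (hcore _ (RTest.re hu).bm hre) hres hA hE hB
  have h2 := D.form_le (RTest.im hu) (hcore _ (RTest.im hu).bm him) hres hA hE hB
  have hsq : ∀ f : Plane → ℝ, RTest f → BM fun x => f x ^ 2 := by
    intro f hf
    have := hf.bm.mul hf.bm
    simpa [sq] using this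
  have i1 := D.W_mul_integrable (hsq _ (RTest.re hu))
  have i2 := D.W_mul_integrable (hsq _ (RTest.im hu))
  unfold form
  rw [hu.dir_eq, hu.integral_sq]
  have e1 : ∫ x, -D.W x * ‖u x‖ ^ 2 = -((∫ x, D.W x * (u x).re ^ 2) + ∫ x, D.W x * (u x).im ^ 2) := by
    rw [← integral_add i1 i2, ← integral_neg]
    congr 1; ext x
    rw [Complex.sq_norm, Complex.normSq_apply]; ring
  rw [e1]
  linarith

end Setting

/-- a nonzero test function has positive norm -/
lemma IsTest.integral_sq_pos {u : Plane → ℂ} (hu : IsTest u) (h0 : u ≠ 0) : 0 < ∫ x, ‖u x‖ ^ 2 := by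
  have h1 : Continuous fun x => ‖u x‖ ^ 2 := hu.1.continuous.norm.pow 2
  obtain ⟨x, hx⟩ : ∃ x, u x ≠ 0 := by
    by_contra h
    push Not at h
    exact h0 (funext h)
  apply h1.integral_pos_of_hasCompactSupport_nonneg_nonzero
  · exact hu.2.comp_left (g := fun t : ℂ => ‖t‖ ^ 2) (by simp)
  · intro x; positivity
  · exact (show ‖u x‖ ^ 2 ≠ 0 by positivity)

lemma form_smul {V : Plane → ℝ} {u : Plane → ℂ} (hu : IsTest u) (c : ℂ) :
    form V (c • u) = ‖c‖ ^ 2 * form V u := by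
  unfold form
  rw [mul_add, ← integral_const_mul, ← integral_const_mul]
  congr 1
  · congr 1; ext x
    rw [Finset.mul_sum]
    apply Finset.sum_congr rfl
    intro i _
    have hd : DifferentiableAt ℝ u x := (hu.1.differentiable (by simp)).differentiableAt
    rw [fderiv_const_smul hd]
    simp [mul_pow]
  · congr 1; ext x
    simp only [Pi.smul_apply, smul_eq_mul, norm_mul, mul_pow]
    ring

/-- general min–max lower bound with finitely many linear constraints -/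
theorem minmax_ge {V : Plane → ℝ} {E : ℝ} {n : ℕ} {μ : Measure Plane} [IsFiniteMeasure μ]
    (Φ : Finset (Plane → ℝ)) (hΦ : ∀ φ ∈ Φ, MemLp φ 2 μ) (hn : Φ.card < n)
    (h : ∀ u : Plane → ℂ, IsTest u → (∀ φ ∈ Φ, ∫ x, φ x * (u x).re ∂μ = 0) →
      (∀ φ ∈ Φ, ∫ x, φ x * (u x).im ∂μ = 0) → -(E * ∫ x, ‖u x‖ ^ 2) ≤ form V u) :
    ((-E : ℝ) : EReal) ≤ minmax V n := by
  unfold minmax
  apply le_iInf
  rintro ⟨F, hF, hFn⟩
  have hi : ∀ φ ∈ Φ, ∀ u : Plane → ℂ, IsTest u → Integrable (fun x => (φ x : ℂ) * u x) μ := by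
    intro φ hφ u hu
    obtain ⟨C, hC⟩ := hu.2.exists_bound_of_continuous hu.1.continuous
    have h1 : Integrable (fun x => (φ x : ℂ)) μ := ((hΦ φ hφ).integrable (by norm_num)).ofReal
    exact h1.mul_bdd (c := C) hu.1.continuous.aestronglyMeasurable (Eventually.of_forall hC)
  let T : F →ₗ[ℂ] (Φ → ℂ) :=
    { toFun := fun u φ => ∫ x, (φ.1 x : ℂ) * u.1 x ∂μ
      map_add' := by
        intro u v
        ext φ
        simp only [Pi.add_apply]
        rw [← integral_add (hi φ.1 φ.2 u.1 (hF _ u.2)) (hi φ.1 φ.2 v.1 (hF _ v.2))]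
        congr 1; ext x
        simp only [Submodule.coe_add, Pi.add_apply]; ring
      map_smul' := by
        intro c u
        ext φ
        simp only [Pi.smul_apply, RingHom.id_apply, smul_eq_mul]
        rw [← integral_const_mul]
        congr 1; ext x
        simp only [Submodule.coe_smul, Pi.smul_apply, smul_eq_mul]; ring }
  have : Module.Finite ℂ F := Module.finite_of_finrank_pos (by omega)
  have hk : LinearMap.ker T ≠ ⊥ := by
    apply LinearMap.ker_ne_bot_of_finrank_lt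
    rw [Module.finrank_fintype_fun_eq_card, hFn, Fintype.card_coe]
    exact hn
  obtain ⟨u, hu, hu0⟩ := Submodule.exists_mem_ne_zero_of_ne_bot hk
  have hut : IsTest u.1 := hF _ u.2
  have hu0' : (u.1 : Plane → ℂ) ≠ 0 := fun h => hu0 (Subtype.ext h)
  have hpos := hut.integral_sq_pos hu0'
  have hc : ∀ φ ∈ Φ, ∫ x, (φ x : ℂ) * u.1 x ∂μ = 0 := by
    intro φ hφ
    have := congrFun (LinearMap.mem_ker.1 hu) ⟨φ, hφ⟩
    exact this
  have hform : -(E * ∫ x, ‖u.1 x‖ ^ 2) ≤ form V u.1 := by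
    apply h _ hut
    · intro φ hφ
      have h1 := hc φ hφ
      have h2 : ∫ x, φ x * (u.1 x).re ∂μ = (∫ x, (φ x : ℂ) * u.1 x ∂μ).re := by
        have h3 := (integral_re (𝕜 := ℂ) (hi φ hφ u.1 hut))
        refine Eq.trans ?_ h3
        congr 1; ext x
        simp
      rw [h2, h1]; simp
    · intro φ hφ
      have h1 := hc φ hφ
      have h2 : ∫ x, φ x * (u.1 x).im ∂μ = (∫ x, (φ x : ℂ) * u.1 x ∂μ).im := by
        have h3 := (integral_im (𝕜 := ℂ) (hi φ hφ u.1 hut))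
        refine Eq.trans ?_ h3
        congr 1; ext x
        simp
      rw [h2, h1]; simp
  set N := ∫ x, ‖u.1 x‖ ^ 2 with hN
  let c : ℂ := ((Real.sqrt N)⁻¹ : ℝ)
  have hc2 : ‖c‖ ^ 2 = N⁻¹ := by
    simp only [c, Complex.norm_real, Real.norm_eq_abs, sq_abs]
    rw [inv_pow, Real.sq_sqrt hpos.le]
  have hmem : c • u.1 ∈ F := F.smul_mem c u.2
  have hnorm : ∫ x, ‖(c • u.1) x‖ ^ 2 = 1 := by
    have : ∀ x, ‖(c • u.1) x‖ ^ 2 = N⁻¹ * ‖u.1 x‖ ^ 2 := by
      intro x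
      simp only [Pi.smul_apply, smul_eq_mul, norm_mul, mul_pow, hc2]
    simp only [this]
    rw [integral_const_mul, ← hN, inv_mul_cancel₀ hpos.ne']
  refine le_trans ?_ (le_iSup (fun u : {u : Plane → ℂ // u ∈ F ∧ ∫ x, ‖u x‖ ^ 2 = 1} =>
    (form V u.1 : EReal)) ⟨c • u.1, hmem, hnorm⟩)
  rw [EReal.coe_le_coe_iff]
  simp only
  rw [form_smul hut, hc2]
  calc -E = N⁻¹ * -(E * N) := by field_simp
    _ ≤ _ := by gcongr

/-- **Min–max values from the codimension estimate** -/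
theorem Setting.minmax_ge (D : Setting) {i : ℕ} {Bc : ℝ≥0∞} {Φ : Finset (Plane → ℝ)}
    (hΦ : ∀ φ ∈ Φ, MemLp φ 2 D.S.μ)
    (hcore : ∀ u : Plane → ℝ, BM u → (∀ φ ∈ Φ, ∫ x, φ x * u x ∂D.S.μ = 0) →
      JJ D.S.μ u (D.S.b i) ≤ Bc * ∫⁻ x, ‖u x‖ₑ ^ 2 ∂D.S.μ)
    {ε A E : ℝ} (hres : ResIneq ε A) (hA : A ≤ E * D.S.b i ^ 2) (hE : 0 ≤ E)
    (hB : ENNReal.ofReal (1 + ε) * Bc ≤ 1) {n : ℕ} (hn : Φ.card < n) :
    ((-E : ℝ) : EReal) ≤ minmax (fun x => - D.W x) n :=
  LT2.minmax_ge Φ hΦ hn fun _ hu h1 h2 => D.form_ge hcore hres hA hE hB hu h1 h2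

/-- the trivial lower bound -/
theorem Setting.minmax_ge_zero (D : Setting) {n : ℕ} (hn : 0 < n) :
    ((-((D.S.b 0 ^ 2)⁻¹) : ℝ) : EReal) ≤ minmax (fun x => - D.W x) n := by
  apply LT2.minmax_ge (μ := D.S.μ) ∅ (by simp) (by simpa using hn)
  intro u hu _ _
  unfold form
  have h1 : 0 ≤ ∫ x, ∑ i : Fin 2, ‖fderiv ℝ u x (EuclideanSpace.single i 1)‖ ^ 2 :=
    integral_nonneg fun _ => Finset.sum_nonneg fun _ _ => by positivity
  have h2 : -(((D.S.b 0) ^ 2)⁻¹ * ∫ x, ‖u x‖ ^ 2) ≤ ∫ x, -D.W x * ‖u x‖ ^ 2 := by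
    have hub : BM fun x => ‖u x‖ ^ 2 := by
      obtain ⟨C, hC⟩ := hu.2.exists_bound_of_continuous hu.1.continuous
      refine ⟨(hu.1.continuous.norm.pow 2).measurable, C ^ 2, fun x => ?_⟩
      rw [abs_of_nonneg (by positivity)]
      exact pow_le_pow_left₀ (norm_nonneg _) (hC x) 2
    have i1 := D.W_mul_integrable hub
    have e1 : ∫ x, -D.W x * ‖u x‖ ^ 2 = -∫ x, D.W x * ‖u x‖ ^ 2 := by
      rw [← integral_neg]; congr 1; ext x; ring
    rw [e1, neg_le_neg_iff, ← integral_const_mul]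
    apply integral_mono i1 (hu.integrable_sq.const_mul _)
    intro x
    have := D.W_le x
    simp only
    gcongr
  linarith

end Pool.Agent.LT2
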