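import Pool.Agent.Lib.MP_50e96d_mp.TQ
import Pool.Agent.Lib.MP_50e96d_mp.Profile

/-!
# The resolvent inequality, for Schwartz functions
-/

namespace Pool.Agent.LT2

open MeasureTheory SchwartzMap FourierTransform Set Filter Topology LineDeriv Convolution
open scoped ENNReal InnerProductSpace

/-- the standard basis vectors -/
noncomputable def ev (i : Fin 2) : Plane := EuclideanSpace.single i 1

lemma inner_ev (ξ : Plane) (i : Fin 2) : inner ℝ ξ (ev i) = ξ i := by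
  simp [ev, EuclideanSpace.inner_single_right]

lemma norm_sq_plane (ξ : Plane) : ‖ξ‖ ^ 2 = ∑ i : Fin 2, ξ i ^ 2 := by
  rw [EuclideanSpace.norm_sq_eq]; simp

lemma lintegral_norm_sq (U : 𝓢(Plane, ℂ)) :
    ∫⁻ x, ‖U x‖ₑ ^ 2 = ENNReal.ofReal (∫ x, ‖U x‖ ^ 2) := by
  have h1 : Integrable fun x : Plane => ‖U x‖ ^ 2 := by
    have := U.memLp 2 (volume : Measure Plane)
    exact (memLp_two_iff_integrable_sq_norm this.1).1 this
  rw [ofReal_integral_eq_lintegral_ofReal h1 (Eventually.of_forall fun _ => sq_nonneg _)]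
  apply lintegral_congr
  intro x
  rw [ENNReal.ofReal_pow (norm_nonneg _), ofReal_norm]

lemma integrable_norm_sq (U : 𝓢(Plane, ℂ)) : Integrable fun x : Plane => ‖U x‖ ^ 2 := by
  have := U.memLp 2 (volume : Measure Plane)
  exact (memLp_two_iff_integrable_sq_norm this.1).1 this

lemma lineDeriv_fourier_norm (U : 𝓢(Plane, ℂ)) (i : Fin 2) (ξ : Plane) :
    ‖𝓕 (∂_{ev i} U) ξ‖ ^ 2 = 4 * Real.pi ^ 2 * (ξ i) ^ 2 * ‖𝓕 U ξ‖ ^ 2 := by
  have hg : (fun y : Plane => inner ℝ y (ev i)).HasTemperateGrowth :=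
    ((innerSL ℝ).flip (ev i)).hasTemperateGrowth
  rw [SchwartzMap.fourier_lineDerivOp_eq]
  simp only [smul_apply]
  rw [SchwartzMap.smulLeftCLM_apply_apply hg, inner_ev]
  simp only [norm_smul, norm_mul, Complex.norm_I, Complex.norm_real, Real.norm_eq_abs,
    Complex.norm_ofNat, mul_pow, sq_abs]
  ring

/-- Plancherel for the energy -/
lemma energy_fourier (U : 𝓢(Plane, ℂ)) {E : ℝ} (hE : 0 ≤ E) :
    ∫⁻ ξ, ENNReal.ofReal (4 * Real.pi ^ 2 * ‖ξ‖ ^ 2 + E) * ‖𝓕 U ξ‖ₑ ^ 2 =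
      ENNReal.ofReal ((∫ x, ∑ i : Fin 2, ‖fderiv ℝ U x (ev i)‖ ^ 2) + E * ∫ x, ‖U x‖ ^ 2) := by
  have hpi := Real.pi_pos
  have h1 : ∀ i : Fin 2, Integrable fun ξ : Plane => 4 * Real.pi ^ 2 * (ξ i) ^ 2 * ‖𝓕 U ξ‖ ^ 2 := by
    intro i
    apply (integrable_norm_sq (𝓕 (∂_{ev i} U))).congr
    filter_upwards with ξ using lineDeriv_fourier_norm U i ξ
  have h2 : ∀ i : Fin 2, ∫ x, ‖fderiv ℝ U x (ev i)‖ ^ 2 =
      ∫ ξ : Plane, 4 * Real.pi ^ 2 * (ξ i) ^ 2 * ‖𝓕 U ξ‖ ^ 2 := by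
    intro i
    calc ∫ x, ‖fderiv ℝ U x (ev i)‖ ^ 2 = ∫ x, ‖(∂_{ev i} U) x‖ ^ 2 := by
          congr 1
      _ = ∫ ξ, ‖𝓕 (∂_{ev i} U) ξ‖ ^ 2 := (SchwartzMap.integral_norm_sq_fourier _).symm
      _ = _ := by
          congr 1; ext ξ; exact lineDeriv_fourier_norm U i ξ
  have h3 : ∫ x, ∑ i : Fin 2, ‖fderiv ℝ U x (ev i)‖ ^ 2 =
      ∑ i : Fin 2, ∫ x, ‖fderiv ℝ U x (ev i)‖ ^ 2 := by
    apply integral_finsetSum
    intro i _
    have := integrable_norm_sq (∂_{ev i} U)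
    exact this
  have h4 : Integrable fun ξ : Plane => ‖𝓕 U ξ‖ ^ 2 := integrable_norm_sq _
  have h5 : ∫ x, ‖U x‖ ^ 2 = ∫ ξ, ‖𝓕 U ξ‖ ^ 2 := (SchwartzMap.integral_norm_sq_fourier _).symm
  have h6 : (∫ x, ∑ i : Fin 2, ‖fderiv ℝ U x (ev i)‖ ^ 2) + E * ∫ x, ‖U x‖ ^ 2 =
      ∫ ξ : Plane, (4 * Real.pi ^ 2 * ‖ξ‖ ^ 2 + E) * ‖𝓕 U ξ‖ ^ 2 := by
    rw [h3, Finset.sum_congr rfl fun i _ => h2 i, h5, ← integral_const_mul,
      ← integral_finsetSum _ fun i _ => h1 i, ← integral_add]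
    · congr 1; ext ξ
      rw [norm_sq_plane ξ, Fin.sum_univ_two, Fin.sum_univ_two]
      ring
    · exact integrable_finsetSum _ fun i _ => h1 i
    · exact h4.const_mul E
  rw [h6, ofReal_integral_eq_lintegral_ofReal]
  · apply lintegral_congr
    intro ξ
    rw [ENNReal.ofReal_mul (by positivity), ENNReal.ofReal_pow (norm_nonneg _),
      ofReal_norm]
  · have h7 : Integrable fun ξ : Plane => (∑ i : Fin 2, 4 * Real.pi ^ 2 * (ξ i) ^ 2 * ‖𝓕 U ξ‖ ^ 2) +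
        E * ‖𝓕 U ξ‖ ^ 2 := (integrable_finsetSum _ fun i _ => h1 i).add (h4.const_mul E)
    apply h7.congr
    filter_upwards with ξ
    rw [norm_sq_plane ξ, Fin.sum_univ_two, Fin.sum_univ_two]
    ring
  · filter_upwards with ξ
    positivity

/-- the scaled kernel as a Schwartz function -/
noncomputable def krS (r : ℝ) (hr : 0 < r) : 𝓢(Plane, ℂ) :=
  HasCompactSupport.toSchwartzMap (f := fun x => ((kr r x : ℝ) : ℂ))
    (by
      apply HasCompactSupport.intro (isCompact_closedBall (0 : Plane) r)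
      intro x hx
      simp only [Metric.mem_closedBall, dist_zero_right, not_le] at hx
      rw [kr_zero hr hx.le]; simp)
    (Complex.ofRealCLM.contDiff.comp (chi_contDiff.comp (contDiff_const_smul r⁻¹)))

lemma krS_apply (r : ℝ) (hr : 0 < r) (x : Plane) : krS r hr x = ((kr r x : ℝ) : ℂ) := rfl

lemma fourier_krS (r : ℝ) (hr : 0 < r) (ξ : Plane) :
    𝓕 (krS r hr) ξ = ((r ^ 2 : ℝ) : ℂ) * 𝓕 chiS (r • ξ) := by
  rw [SchwartzMap.fourier_coe, SchwartzMap.fourier_coe, Real.fourier_eq, Real.fourier_eq]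
  have h1 := Measure.integral_comp_inv_smul_of_nonneg (volume : Measure Plane)
    (fun v : Plane => Real.fourierChar (-inner ℝ v (r • ξ)) • chiS v) hr.le
  rw [finrank_plane] at h1
  have h2 : ∀ v : Plane, Real.fourierChar (-inner ℝ (r⁻¹ • v) (r • ξ)) • chiS (r⁻¹ • v) =
      Real.fourierChar (-inner ℝ v ξ) • krS r hr v := by
    intro v
    rw [inner_smul_left, inner_smul_right]
    simp only [map_inv₀, conj_trivial]
    rw [← mul_assoc, inv_mul_cancel₀ hr.ne', one_mul]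
    rfl
  simp only [h2] at h1
  rw [h1]
  simp

/-- the convolution with the kernel, in Fourier space -/
lemma Q_fourier (g : Plane → ℝ) (G : 𝓢(Plane, ℂ)) (hG : ∀ x, G x = ((g x : ℝ) : ℂ)) {r : ℝ}
    (hr : 0 < r) :
    Q volume g r = ENNReal.ofReal (r ^ 4) * ∫⁻ ξ, ‖𝓕 chiS (r • ξ)‖ₑ ^ 2 * ‖𝓕 G ξ‖ₑ ^ 2 := by
  let K : 𝓢(Plane, ℂ) := SchwartzMap.convolution (ContinuousLinearMap.mul ℂ ℂ) (krS r hr) G
  have h1 : ∀ z, K z = ((T volume g r z : ℝ) : ℂ) := by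
    intro z
    have h2 : K z = (krS r hr ⋆[ContinuousLinearMap.mul ℂ ℂ] G) z :=
      SchwartzMap.convolution_apply _ _ _ _
    rw [h2, convolution_eq_swap]
    unfold T
    refine Eq.trans ?_ (integral_ofReal (𝕜 := ℂ) (f := fun x => kr r (z - x) * g x))
    congr 1; ext x
    simp [krS_apply, hG]
  have h3 : ∀ ξ, 𝓕 K ξ = 𝓕 (krS r hr) ξ * 𝓕 G ξ := by
    intro ξ
    simp only [K]
    rw [SchwartzMap.fourier_convolution]
    simp
  unfold Q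
  calc ∫⁻ z, ‖T volume g r z‖ₑ ^ 2 = ∫⁻ z, ‖K z‖ₑ ^ 2 := by
        apply lintegral_congr; intro z
        rw [h1 z]
        congr 1
        rw [← ofReal_norm, ← ofReal_norm, Complex.norm_real]
    _ = ∫⁻ ξ, ‖𝓕 K ξ‖ₑ ^ 2 := by
        rw [lintegral_norm_sq, lintegral_norm_sq, SchwartzMap.integral_norm_sq_fourier]
    _ = ∫⁻ ξ, ENNReal.ofReal (r ^ 4) * (‖𝓕 chiS (r • ξ)‖ₑ ^ 2 * ‖𝓕 G ξ‖ₑ ^ 2) := by
        apply lintegral_congr; intro ξ
        rw [h3 ξ, fourier_krS, enorm_mul, enorm_mul, mul_pow, mul_pow, mul_assoc]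
        congr 1
        rw [← ofReal_norm, Complex.norm_real, Real.norm_eq_abs, abs_of_pos (by positivity),
          ← ENNReal.ofReal_pow (by positivity)]
        congr 1; ring
    _ = _ := lintegral_const_mul' _ _ ENNReal.ofReal_ne_top

/-- `𝒥_R(g) = ∫_0^R Q(g)(r) r^{-3} dr` -/
noncomputable def JJ (μ : Measure Plane) (w : Plane → ℝ) (R : ℝ) : ℝ≥0∞ :=
  ∫⁻ r in Ioc (0 : ℝ) R, ENNReal.ofReal ((r ^ 3)⁻¹) * Q μ w r

lemma JJ_fourier (g : Plane → ℝ) (G : 𝓢(Plane, ℂ)) (hG : ∀ x, G x = ((g x : ℝ) : ℂ)) (R : ℝ) :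
    JJ volume g R = ∫⁻ ξ, (∫⁻ r in Ioc (0 : ℝ) R, ENNReal.ofReal (r * ‖𝓕 chiS (r • ξ)‖ ^ 2)) *
      ‖𝓕 G ξ‖ₑ ^ 2 := by
  unfold JJ
  have hm : Continuous fun p : ℝ × Plane => p.1 * ‖𝓕 chiS (p.1 • p.2)‖ ^ 2 :=
    continuous_fst.mul (((𝓕 chiS).continuous.comp (continuous_fst.smul continuous_snd)).norm.pow 2)
  calc ∫⁻ r in Ioc (0 : ℝ) R, ENNReal.ofReal ((r ^ 3)⁻¹) * Q volume g r
      = ∫⁻ r in Ioc (0 : ℝ) R, (∫⁻ ξ : Plane, ENNReal.ofReal (r * ‖𝓕 chiS (r • ξ)‖ ^ 2) * ‖𝓕 G ξ‖ₑ ^ 2) := by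
        apply setLIntegral_congr_fun measurableSet_Ioc
        intro r hr
        simp only
        rw [Q_fourier g G hG hr.1, ← mul_assoc, ← ENNReal.ofReal_mul (by have := hr.1; positivity),
          ← lintegral_const_mul' _ _ ENNReal.ofReal_ne_top]
        apply lintegral_congr; intro ξ
        rw [← mul_assoc]
        congr 1
        rw [ENNReal.ofReal_mul hr.1.le, ENNReal.ofReal_pow (norm_nonneg _), ofReal_norm]
        congr 1
        congr 1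
        have := hr.1.ne'
        field_simp
    _ = ∫⁻ ξ : Plane, (∫⁻ r in Ioc (0 : ℝ) R, ENNReal.ofReal (r * ‖𝓕 chiS (r • ξ)‖ ^ 2) * ‖𝓕 G ξ‖ₑ ^ 2) := by
        rw [lintegral_lintegral_swap]
        exact (hm.measurable.ennreal_ofReal.mul
          (((𝓕 G).continuous.measurable.comp measurable_snd).enorm.pow_const 2)).aemeasurable
    _ = _ := by
        apply lintegral_congr; intro ξ
        rw [lintegral_mul_const]
        exact (hm.measurable.comp measurable_prodMk_right).ennreal_ofReal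

/-- the resolvent inequality for Schwartz functions -/
lemma resolvent_schwartz {ε : ℝ} (hε : 0 < ε) : ∃ A : ℝ, 0 < A ∧ ∀ E R : ℝ, 0 < R → A ≤ E * R ^ 2 →
    ∀ (U : 𝓢(Plane, ℂ)) (g : Plane → ℝ) (G : 𝓢(Plane, ℂ)), (∀ x, G x = ((g x : ℝ) : ℂ)) →
    ‖∫ x, inner ℂ (U x) (G x)‖ₑ ^ 2 ≤
      ENNReal.ofReal ((∫ x, ∑ i : Fin 2, ‖fderiv ℝ U x (ev i)‖ ^ 2) + E * ∫ x, ‖U x‖ ^ 2) *
      (ENNReal.ofReal (1 + ε) * JJ volume g R) := by
  obtain ⟨A, hA, hsym⟩ := symbol_le hε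
  refine ⟨A, hA, fun E R hR hER U g G hG => ?_⟩
  have hpi := Real.pi_pos
  have hE : 0 < E := by
    by_contra h
    push Not at h
    have : E * R ^ 2 ≤ 0 := mul_nonpos_of_nonpos_of_nonneg h (by positivity)
    linarith
  rw [← SchwartzMap.integral_inner_fourier_fourier, ← energy_fourier U hE.le, JJ_fourier g G hG R]
  have hw : ∀ ξ : Plane, 0 < 4 * Real.pi ^ 2 * ‖ξ‖ ^ 2 + E := fun ξ => by positivity
  have hcw : Continuous fun ξ : Plane => 4 * Real.pi ^ 2 * ‖ξ‖ ^ 2 + E := by fun_prop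
  have h1 : ‖∫ ξ, inner ℂ (𝓕 U ξ) (𝓕 G ξ)‖ₑ ^ 2 ≤
      (∫⁻ ξ, ENNReal.ofReal (4 * Real.pi ^ 2 * ‖ξ‖ ^ 2 + E) * ‖𝓕 U ξ‖ₑ ^ 2) *
      ∫⁻ ξ, ENNReal.ofReal (1 / (4 * Real.pi ^ 2 * ‖ξ‖ ^ 2 + E)) * ‖𝓕 G ξ‖ₑ ^ 2 := by
    refine (pow_le_pow_left' (enorm_integral_le_lintegral_enorm _) 2).trans ?_
    apply cs_lintegral
    · exact (hcw.measurable.ennreal_ofReal.mul ((𝓕 U).continuous.measurable.enorm.pow_const 2)).aemeasurable
    · have : Measurable fun ξ : Plane => 1 / (4 * Real.pi ^ 2 * ‖ξ‖ ^ 2 + E) :=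
        hcw.measurable.const_div 1
      exact (this.ennreal_ofReal.mul ((𝓕 G).continuous.measurable.enorm.pow_const 2)).aemeasurable
    · intro ξ
      have h2 : ‖(inner ℂ (𝓕 U ξ) (𝓕 G ξ) : ℂ)‖ₑ ≤ ‖𝓕 U ξ‖ₑ * ‖𝓕 G ξ‖ₑ := by
        rw [← ofReal_norm, ← ofReal_norm, ← ofReal_norm,
          ← ENNReal.ofReal_mul (norm_nonneg _)]
        exact ENNReal.ofReal_le_ofReal (norm_inner_le_norm _ _)
      calc ‖(inner ℂ (𝓕 U ξ) (𝓕 G ξ) : ℂ)‖ₑ ^ 2 ≤ (‖𝓕 U ξ‖ₑ * ‖𝓕 G ξ‖ₑ) ^ 2 := by gcongr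
        _ = (ENNReal.ofReal (4 * Real.pi ^ 2 * ‖ξ‖ ^ 2 + E) *
              ENNReal.ofReal (1 / (4 * Real.pi ^ 2 * ‖ξ‖ ^ 2 + E))) *
              (‖𝓕 U ξ‖ₑ ^ 2 * ‖𝓕 G ξ‖ₑ ^ 2) := by
            rw [← ENNReal.ofReal_mul (hw ξ).le, mul_one_div_cancel (hw ξ).ne']
            simp [mul_pow]
        _ = _ := by ring
  refine h1.trans ?_
  gcongr
  rw [← lintegral_const_mul' _ _ ENNReal.ofReal_ne_top]
  apply lintegral_mono_ae
  have h0 : ∀ᵐ ξ : Plane, ξ ≠ 0 := by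
    have : (volume : Measure Plane) {0} = 0 := measure_singleton 0
    rw [ae_iff]
    simp
  filter_upwards [h0] with ξ hξ
  rw [← mul_assoc]
  gcongr
  exact hsym E R hR hER ξ hξ

end Pool.Agent.LT2
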