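import Pool.Agent.Lib.MP_50e96d_mp.Resolvent

/-!
# The resolvent inequality for `L²` functions
-/

namespace Pool.Agent.LT2

open MeasureTheory SchwartzMap FourierTransform Set Filter Topology
open scoped ENNReal

/-- real test functions -/
def RTest (u : Plane → ℝ) : Prop := ContDiff ℝ (⊤ : ℕ∞) u ∧ HasCompactSupport u

/-- real Dirichlet integral -/
noncomputable def dirR (u : Plane → ℝ) : ℝ := ∫ x, ∑ i : Fin 2, (fderiv ℝ u x (ev i)) ^ 2

lemma JJ_volume_le {g : Plane → ℝ} (hg : Measurable g) {R : ℝ} (hR : 0 < R) :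
    JJ volume g R ≤ ENNReal.ofReal (R ^ 2 * c1 ^ 2) * ∫⁻ x, ‖g x‖ₑ ^ 2 := by
  unfold JJ
  have hc := c1_pos
  calc ∫⁻ r in Ioc (0 : ℝ) R, ENNReal.ofReal ((r ^ 3)⁻¹) * Q volume g r
      ≤ ∫⁻ _r in Ioc (0 : ℝ) R, (ENNReal.ofReal (R * c1 ^ 2) * ∫⁻ x, ‖g x‖ₑ ^ 2) := by
        apply setLIntegral_mono' measurableSet_Ioc
        intro r hr
        calc ENNReal.ofReal ((r ^ 3)⁻¹) * Q volume g r
            ≤ ENNReal.ofReal ((r ^ 3)⁻¹) * (ENNReal.ofReal (r ^ 4 * c1 ^ 2) * ∫⁻ x, ‖g x‖ₑ ^ 2) := by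
              gcongr; exact Q_volume_le hg hr.1
          _ = ENNReal.ofReal (r * c1 ^ 2) * ∫⁻ x, ‖g x‖ₑ ^ 2 := by
              rw [← mul_assoc, ← ENNReal.ofReal_mul (by have := hr.1; positivity)]
              congr 2
              have := hr.1.ne'
              field_simp
          _ ≤ _ := by
              gcongr; exact hr.2
    _ = _ := by
        rw [lintegral_const, Measure.restrict_apply_univ, Real.volume_Ioc, sub_zero,
          mul_right_comm, ← ENNReal.ofReal_mul (by positivity)]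
        congr 2; ring

lemma memLp_kr (r : ℝ) (hr : 0 < r) (z : Plane) : MemLp (fun x => kr r (z - x)) 2 volume := by
  have h1 : MemLp (kr r) 2 (volume : Measure Plane) := by
    have := (krS r hr).memLp 2 (volume : Measure Plane)
    apply this.of_le (kr_continuous r).aestronglyMeasurable
    filter_upwards with x
    simp [krS_apply]
  exact h1.comp_measurePreserving (Measure.measurePreserving_sub_left volume z)

lemma memLp_of_lintegral {g : Plane → ℝ} (hg : Measurable g) (h : ∫⁻ x, ‖g x‖ₑ ^ 2 < ⊤) :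
    MemLp g 2 volume := by
  refine ⟨hg.aestronglyMeasurable, ?_⟩
  rw [eLpNorm_lt_top_iff_lintegral_rpow_enorm_lt_top (by norm_num) (by norm_num)]
  simpa using h

lemma T_add_volume {g v : Plane → ℝ} (hg : MemLp g 2 volume) (hv : MemLp v 2 volume) {r : ℝ}
    (hr : 0 < r) (z : Plane) :
    T volume (fun x => g x + v x) r z = T volume g r z + T volume v r z := by
  unfold T
  rw [← integral_add]
  · congr 1; ext x; ring
  · exact (memLp_kr r hr z).integrable_mul hg
  · exact (memLp_kr r hr z).integrable_mul hv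

lemma JJ_add_volume {g v : Plane → ℝ} (hgm : Measurable g)
    (hg : MemLp g 2 volume) (hv : MemLp v 2 volume) {θ : ℝ} (hθ : 0 < θ) (R : ℝ) :
    JJ volume (fun x => g x + v x) R ≤ ENNReal.ofReal (1 + θ) * JJ volume g R +
      ENNReal.ofReal (1 + θ⁻¹) * JJ volume v R := by
  unfold JJ
  have hm : Measurable fun r : ℝ => ENNReal.ofReal ((r ^ 3)⁻¹) :=
    (by fun_prop : Measurable fun r : ℝ => (r ^ 3)⁻¹).ennreal_ofReal
  rw [← lintegral_const_mul' _ _ ENNReal.ofReal_ne_top,
    ← lintegral_const_mul' _ _ ENNReal.ofReal_ne_top, ← lintegral_add_left]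
  · apply setLIntegral_mono' measurableSet_Ioc
    intro r hr
    calc _ ≤ ENNReal.ofReal ((r ^ 3)⁻¹) * (ENNReal.ofReal (1 + θ) * Q volume g r +
          ENNReal.ofReal (1 + θ⁻¹) * Q volume v r) := by
            gcongr
            exact Q_add_le hgm hθ fun z => T_add_volume hg hv hr.1 z
      _ = _ := by ring
  · exact (hm.mul (Q_measurable hgm)).const_mul _

/-- **The resolvent inequality.** -/
theorem resolvent_bound {ε : ℝ} (hε : 0 < ε) : ∃ A : ℝ, 0 < A ∧ ∀ E R : ℝ, 0 < R → A ≤ E * R ^ 2 →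
    ∀ u : Plane → ℝ, RTest u → ∀ g : Plane → ℝ, Measurable g → ∫⁻ x, ‖g x‖ₑ ^ 2 < ⊤ →
    ‖∫ x, u x * g x‖ₑ ^ 2 ≤
      ENNReal.ofReal (dirR u + E * ∫ x, u x ^ 2) * (ENNReal.ofReal (1 + ε) * JJ volume g R) := by
  set ε' := min (ε / 3) 1 with hε'
  have hε'0 : 0 < ε' := lt_min (by linarith) one_pos
  have hε'1 : ε' ≤ 1 := min_le_right _ _
  have hε'2 : ε' ≤ ε / 3 := min_le_left _ _
  obtain ⟨A, hA, hres⟩ := resolvent_schwartz hε'0
  refine ⟨A, hA, fun E R hR hER u hu g hgm hg2 => ?_⟩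
  have hg := memLp_of_lintegral hgm hg2
  -- the complexification of u
  let U : 𝓢(Plane, ℂ) := HasCompactSupport.toSchwartzMap (f := fun x => ((u x : ℝ) : ℂ))
    (hu.2.comp_left (g := fun t : ℝ => (t : ℂ)) (by simp)) (Complex.ofRealCLM.contDiff.comp hu.1)
  have hU : ∀ x, U x = ((u x : ℝ) : ℂ) := fun x => rfl
  have huL : MemLp u 2 volume := by
    have := U.memLp 2 (volume : Measure Plane)
    apply this.of_le hu.1.continuous.aestronglyMeasurable
    filter_upwards with x
    simp [hU]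
  set H := ENNReal.ofReal (dirR u + E * ∫ x, u x ^ 2) with hH
  have hHU : ENNReal.ofReal ((∫ x, ∑ i : Fin 2, ‖fderiv ℝ U x (ev i)‖ ^ 2) + E * ∫ x, ‖U x‖ ^ 2) = H := by
    rw [hH]
    congr 2
    · unfold dirR
      congr 1; ext x
      apply Finset.sum_congr rfl
      intro i _
      have h1 : fderiv ℝ U x (ev i) = ((fderiv ℝ u x (ev i) : ℝ) : ℂ) := by
        have h2 : HasFDerivAt U (Complex.ofRealCLM.comp (fderiv ℝ u x)) x :=
          Complex.ofRealCLM.hasFDerivAt.comp x
            ((hu.1.differentiable (by simp)).differentiableAt.hasFDerivAt)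
        rw [h2.fderiv]; rfl
      rw [h1, Complex.norm_real, Real.norm_eq_abs, sq_abs]
    · congr 1
      congr 1; ext x
      rw [hU, Complex.norm_real, Real.norm_eq_abs, sq_abs]
  -- the inequality for a test function
  have key : ∀ g' : Plane → ℝ, HasCompactSupport g' → ContDiff ℝ (⊤ : ℕ∞) g' →
      ‖∫ x, u x * g' x‖ₑ ^ 2 ≤ H * (ENNReal.ofReal (1 + ε') * JJ volume g' R) := by
    intro g' hg'1 hg'2
    let G : 𝓢(Plane, ℂ) := HasCompactSupport.toSchwartzMap (f := fun x => ((g' x : ℝ) : ℂ))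
      (hg'1.comp_left (g := fun t : ℝ => (t : ℂ)) (by simp)) (Complex.ofRealCLM.contDiff.comp hg'2)
    have := hres E R hR hER U g' G (fun x => rfl)
    rw [hHU] at this
    refine le_trans (le_of_eq ?_) this
    congr 1
    have h2 : ∫ x, inner ℂ (U x) (G x) = ((∫ x, u x * g' x : ℝ) : ℂ) := by
      refine Eq.trans ?_ (integral_ofReal (𝕜 := ℂ) (f := fun x => u x * g' x))
      congr 1; ext x
      have hGx : G x = ((g' x : ℝ) : ℂ) := rfl
      rw [hU, hGx]
      simp [mul_comm]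
    rw [h2, ← ofReal_norm, ← ofReal_norm, Complex.norm_real]
  -- approximation
  have happ : ∀ n : ℕ, ∃ g' : Plane → ℝ, HasCompactSupport g' ∧ ContDiff ℝ (⊤ : ℕ∞) g' ∧
      eLpNorm (g - g') 2 volume ≤ ENNReal.ofReal (1 / ((n : ℝ) + 1)) := by
    intro n
    exact MemLp.exist_eLpNorm_sub_le (by norm_num) (by norm_num) hg (by positivity)
  choose gn hgn1 hgn2 hgn3 using happ
  have hgnL : ∀ n, MemLp (gn n) 2 volume := fun n =>
    (hgn2 n).continuous.memLp_of_hasCompactSupport (hgn1 n)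
  have hgnm : ∀ n, Measurable (gn n) := fun n => (hgn2 n).continuous.measurable
  have hlim0 : Tendsto (fun n : ℕ => ENNReal.ofReal (1 / ((n : ℝ) + 1))) atTop (𝓝 0) := by
    rw [← ENNReal.ofReal_zero]
    exact ENNReal.tendsto_ofReal tendsto_one_div_add_atTop_nhds_zero_nat
  have hnorm : ∀ n, ∫⁻ x, ‖gn n x - g x‖ₑ ^ 2 ≤ ENNReal.ofReal (1 / ((n : ℝ) + 1)) ^ 2 := by
    intro n
    have h1 := hgn3 n
    rw [eLpNorm_eq_lintegral_rpow_enorm_toReal (by norm_num) (by norm_num)] at h1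
    have h2 := pow_le_pow_left' h1 2
    refine le_trans (le_of_eq ?_) h2
    simp only [ENNReal.toReal_ofNat, one_div, Pi.sub_apply]
    rw [← ENNReal.rpow_natCast, ← ENNReal.rpow_mul]
    simp only [Nat.cast_ofNat, isUnit_iff_ne_zero, ne_eq, OfNat.ofNat_ne_zero, not_false_eq_true,
      IsUnit.inv_mul_cancel, ENNReal.rpow_one, ENNReal.rpow_ofNat]
    apply lintegral_congr
    intro x
    rw [← enorm_neg, neg_sub]
  -- convergence of the left side
  have hL : Tendsto (fun n => ‖∫ x, u x * gn n x‖ₑ ^ 2) atTop (𝓝 (‖∫ x, u x * g x‖ₑ ^ 2)) := by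
    have h1 : Tendsto (fun n => ∫ x, u x * gn n x) atTop (𝓝 (∫ x, u x * g x)) := by
      rw [tendsto_iff_edist_tendsto_0]
      have h2 : ∀ n, edist (∫ x, u x * gn n x) (∫ x, u x * g x) ≤
          eLpNorm u 2 volume * ENNReal.ofReal (1 / ((n : ℝ) + 1)) := by
        intro n
        have i1 : Integrable (fun x => u x * gn n x) := huL.integrable_mul (hgnL n)
        have i2 : Integrable (fun x => u x * g x) := huL.integrable_mul hg
        rw [edist_eq_enorm_sub, ← integral_sub i1 i2]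
        refine (enorm_integral_le_lintegral_enorm _).trans ?_
        have h3 := eLpNorm_smul_le_mul_eLpNorm (p := 2) (q := 2) (r := 1) (μ := volume)
          (f := g - gn n) (φ := u) ((hgm.sub (hgnm n)).aestronglyMeasurable)
          huL.1
        rw [eLpNorm_one_eq_lintegral_enorm] at h3
        calc ∫⁻ x, ‖u x * gn n x - u x * g x‖ₑ = ∫⁻ x, ‖(u • (g - gn n)) x‖ₑ := by
              apply lintegral_congr; intro x
              simp only [Pi.smul_apply', Pi.sub_apply, smul_eq_mul]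
              rw [← enorm_neg]; congr 1; ring
          _ ≤ _ := h3
          _ ≤ _ := by gcongr; exact hgn3 n
      have h4 : Tendsto (fun n : ℕ => eLpNorm u 2 volume * ENNReal.ofReal (1 / ((n : ℝ) + 1))) atTop
          (𝓝 (eLpNorm u 2 volume * 0)) :=
        ENNReal.Tendsto.const_mul hlim0 (Or.inr huL.2.ne)
      rw [mul_zero] at h4
      exact tendsto_of_tendsto_of_tendsto_of_le_of_le tendsto_const_nhds h4 (fun _ => zero_le) h2
    exact ENNReal.Tendsto.pow ((continuous_enorm.tendsto _).comp h1)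
  -- bound of the right side
  have hRb : ∀ n, JJ volume (gn n) R ≤ ENNReal.ofReal (1 + ε') * JJ volume g R +
      ENNReal.ofReal (1 + ε'⁻¹) * (ENNReal.ofReal (R ^ 2 * c1 ^ 2) *
        ENNReal.ofReal (1 / ((n : ℝ) + 1)) ^ 2) := by
    intro n
    have h1 := JJ_add_volume hgm hg ((hgnL n).sub hg) hε'0 R
    have h2 : (fun x => g x + (gn n - g) x) = gn n := by ext x; simp
    rw [h2] at h1
    refine h1.trans ?_
    gcongr
    refine (JJ_volume_le ((hgnm n).sub hgm) hR).trans ?_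
    gcongr
    exact hnorm n
  have hlim : Tendsto (fun n : ℕ => H * (ENNReal.ofReal (1 + ε') * (ENNReal.ofReal (1 + ε') * JJ volume g R +
      ENNReal.ofReal (1 + ε'⁻¹) * (ENNReal.ofReal (R ^ 2 * c1 ^ 2) *
        ENNReal.ofReal (1 / ((n : ℝ) + 1)) ^ 2)))) atTop
      (𝓝 (H * (ENNReal.ofReal (1 + ε') * (ENNReal.ofReal (1 + ε') * JJ volume g R +
      ENNReal.ofReal (1 + ε'⁻¹) * (ENNReal.ofReal (R ^ 2 * c1 ^ 2) * 0 ^ 2))))) := by
    apply ENNReal.Tendsto.const_mul _ (Or.inr ENNReal.ofReal_ne_top)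
    apply ENNReal.Tendsto.const_mul _ (Or.inr ENNReal.ofReal_ne_top)
    apply Tendsto.const_add
    apply ENNReal.Tendsto.const_mul _ (Or.inr ENNReal.ofReal_ne_top)
    apply ENNReal.Tendsto.const_mul _ (Or.inr ENNReal.ofReal_ne_top)
    exact ENNReal.Tendsto.pow hlim0
  have hfin := le_of_tendsto_of_tendsto' hL hlim (fun n => (key (gn n) (hgn1 n) (hgn2 n)).trans (by
    gcongr; exact hRb n))
  simp only [ne_eq, OfNat.ofNat_ne_zero, not_false_eq_true, zero_pow, mul_zero, add_zero] at hfin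
  refine hfin.trans ?_
  rw [← mul_assoc (ENNReal.ofReal (1 + ε')), ← ENNReal.ofReal_mul (by linarith)]
  have : (1 + ε') * (1 + ε') ≤ 1 + ε := by nlinarith
  gcongr

end Pool.Agent.LT2
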