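import Pool.Agent.Lib.MP_50e96d_mp.Reduce

/-!
# Choice of the origin of the grids
-/

namespace Pool.Agent.LT2

open MeasureTheory Set Filter
open scoped ENNReal

/-- the coordinate `y` is close to the grid `bℤ` -/
def bad1 (δ b y : ℝ) : Prop := Int.fract (y / b) < δ ∨ 1 - δ < Int.fract (y / b)

lemma bad1_volume {δ b : ℝ} (hδ : 0 ≤ δ) (hb : 0 < b) (N : ℕ) (y : ℝ) :
    volume {t : ℝ | t ∈ Ico 0 (N * b) ∧ bad1 δ b (y - t)} ≤ ENNReal.ofReal ((N + 2) * (2 * δ * b)) := by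
  have hsub : {t : ℝ | t ∈ Ico 0 (N * b) ∧ bad1 δ b (y - t)} ⊆
      ⋃ j ∈ Finset.range (N + 2), Icc (y - ((⌊y / b⌋ - N + j : ℤ) : ℝ) * b - δ * b)
        (y - ((⌊y / b⌋ - N + j : ℤ) : ℝ) * b + δ * b) := by
    rintro t ⟨⟨ht0, ht1⟩, ht⟩
    have hz : (y - t) / b = y / b - t / b := by ring
    have h1 : t / b < N := by rw [div_lt_iff₀ hb]; exact ht1
    have h2 : 0 ≤ t / b := div_nonneg ht0 hb.le
    have h3 : ⌊(y - t) / b⌋ ≤ ⌊y / b⌋ := Int.floor_le_floor (by rw [hz]; linarith)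
    have h4 : ⌊y / b⌋ - N ≤ ⌊(y - t) / b⌋ := by
      have : ⌊y / b - (N : ℤ)⌋ ≤ ⌊(y - t) / b⌋ := by
        apply Int.floor_le_floor
        rw [hz]; push_cast; linarith
      rw [Int.floor_sub_intCast] at this
      exact this
    have hfr : Int.fract ((y - t) / b) = (y - t) / b - ⌊(y - t) / b⌋ := rfl
    have hf0 := Int.fract_nonneg ((y - t) / b)
    have hf1 := Int.fract_lt_one ((y - t) / b)
    have key : ∀ n : ℤ, ⌊y / b⌋ - N ≤ n → n ≤ ⌊y / b⌋ + 1 → |(y - t) / b - n| ≤ δ →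
        t ∈ ⋃ j ∈ Finset.range (N + 2), Icc (y - ((⌊y / b⌋ - N + j : ℤ) : ℝ) * b - δ * b)
        (y - ((⌊y / b⌋ - N + j : ℤ) : ℝ) * b + δ * b) := by
      intro n hn1 hn2 hn3
      obtain ⟨j, hj⟩ := Int.eq_ofNat_of_zero_le (show 0 ≤ n - (⌊y / b⌋ - N) by omega)
      rw [mem_iUnion₂]
      refine ⟨j, Finset.mem_range.2 (by omega), ?_⟩
      have hn : (⌊y / b⌋ - N + j : ℤ) = n := by omega
      rw [hn]
      have h5 : (y - t) / b * b = y - t := by field_simp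
      have h6 := abs_le.1 hn3
      constructor
      · nlinarith [h6.2, h5]
      · nlinarith [h6.1, h5]
    rcases ht with ht | ht
    · apply key ⌊(y - t) / b⌋ h4 (by omega)
      rw [← hfr, abs_of_nonneg hf0]; exact ht.le
    · apply key (⌊(y - t) / b⌋ + 1) (by omega) (by omega)
      push_cast
      rw [abs_le]
      constructor <;> linarith
  refine (measure_mono hsub).trans ((measure_biUnion_finset_le _ _).trans ?_)
  have h1 : ∀ j ∈ Finset.range (N + 2), volume (Icc (y - ((⌊y / b⌋ - N + j : ℤ) : ℝ) * b - δ * b)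
        (y - ((⌊y / b⌋ - N + j : ℤ) : ℝ) * b + δ * b)) = ENNReal.ofReal (2 * δ * b) := by
    intro j _
    rw [Real.volume_Icc]; congr 1; ring
  rw [Finset.sum_congr rfl h1, Finset.sum_const, Finset.card_range, nsmul_eq_mul,
    ← ENNReal.ofReal_natCast, ← ENNReal.ofReal_mul (by positivity)]
  apply le_of_eq
  congr 1
  push_cast
  ring

/-- the point `x` is close to one of the grids of levels `m x, …, m x + J` -/
def BadPt (m : Plane → ℕ) (J : ℕ) (δ R0 : ℝ) (Λ : ℕ) (x : Plane) (t : ℝ) : Prop :=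
  ∃ k, m x ≤ k ∧ k ≤ m x + J ∧ ∃ i : Fin 2, bad1 δ (R0 * Λ ^ k) (x i - t)

lemma measurableSet_BadPt {m : Plane → ℕ} (hm : Measurable m) (J : ℕ) (δ R0 : ℝ) (Λ : ℕ) :
    MeasurableSet {p : Plane × ℝ | BadPt m J δ R0 Λ p.1 p.2} := by
  have h1 : {p : Plane × ℝ | BadPt m J δ R0 Λ p.1 p.2} = ⋃ k : ℕ, ({p | m p.1 ≤ k} ∩ {p | k ≤ m p.1 + J}) ∩
      ⋃ i : Fin 2, {p | bad1 δ (R0 * Λ ^ k) (p.1 i - p.2)} := by
    ext p
    simp only [BadPt, mem_iUnion, mem_inter_iff, mem_ofPred_eq]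
    constructor
    · rintro ⟨k, h1, h2, i, h3⟩; exact ⟨k, ⟨h1, h2⟩, i, h3⟩
    · rintro ⟨k, ⟨h1, h2⟩, i, h3⟩; exact ⟨k, h1, h2, i, h3⟩
  rw [h1]
  apply MeasurableSet.iUnion
  intro k
  refine (((hm.comp measurable_fst) (MeasurableSet.of_discrete (s := {n | n ≤ k}))).inter
    ((hm.comp measurable_fst) (MeasurableSet.of_discrete (s := {n | k ≤ n + J})))).inter ?_
  apply MeasurableSet.iUnion
  intro i
  have hf : Measurable fun p : Plane × ℝ => Int.fract ((p.1 i - p.2) / (R0 * Λ ^ k)) := by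
    apply measurable_fract.comp
    fun_prop
  exact (measurableSet_lt hf measurable_const).union (measurableSet_lt measurable_const hf)

lemma BadPt_volume {m : Plane → ℕ} {J : ℕ} {δ R0 : ℝ} {Λ : ℕ} (hδ : 0 ≤ δ) (hR0 : 0 < R0) (hΛ : 1 ≤ Λ)
    {top : ℕ} {x : Plane} (hx : m x + J ≤ top) :
    volume {t : ℝ | t ∈ Ico 0 (R0 * Λ ^ top) ∧ BadPt m J δ R0 Λ x t} ≤
      ENNReal.ofReal (12 * (J + 1) * δ * (R0 * Λ ^ top)) := by
  have hΛ0 : (0 : ℝ) < Λ := by exact_mod_cast (by omega : 0 < Λ)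
  have hsub : {t : ℝ | t ∈ Ico 0 (R0 * Λ ^ top) ∧ BadPt m J δ R0 Λ x t} ⊆
      ⋃ p ∈ (Finset.range (J + 1) ×ˢ (Finset.univ : Finset (Fin 2))),
        {t : ℝ | t ∈ Ico 0 (R0 * Λ ^ top) ∧ bad1 δ (R0 * Λ ^ (m x + p.1)) (x p.2 - t)} := by
    rintro t ⟨ht, k, hk1, hk2, i, hi⟩
    rw [mem_iUnion₂]
    refine ⟨(k - m x, i), Finset.mem_product.2 ⟨Finset.mem_range.2 (by simp only; omega), Finset.mem_univ _⟩, ht, ?_⟩
    simp only
    rw [Nat.add_sub_cancel' hk1]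
    exact hi
  have hb : ∀ p ∈ (Finset.range (J + 1) ×ˢ (Finset.univ : Finset (Fin 2))),
      volume {t : ℝ | t ∈ Ico 0 (R0 * Λ ^ top) ∧ bad1 δ (R0 * Λ ^ (m x + p.1)) (x p.2 - t)} ≤
        ENNReal.ofReal (6 * δ * (R0 * Λ ^ top)) := by
    intro p hp
    rw [Finset.mem_product, Finset.mem_range] at hp
    have hk : m x + p.1 ≤ top := by have := hp.1; omega
    have h1 : R0 * (Λ : ℝ) ^ top = ((Λ ^ (top - (m x + p.1)) : ℕ) : ℝ) * (R0 * Λ ^ (m x + p.1)) := by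
      push_cast
      rw [mul_left_comm, ← pow_add, Nat.sub_add_cancel hk]
    rw [h1]
    refine (bad1_volume hδ (by positivity) _ _).trans (ENNReal.ofReal_le_ofReal ?_)
    have h2 : (1 : ℝ) ≤ ((Λ ^ (top - (m x + p.1)) : ℕ) : ℝ) := by
      exact_mod_cast Nat.one_le_pow _ _ (by omega)
    set N : ℝ := ((Λ ^ (top - (m x + p.1)) : ℕ) : ℝ)
    set b : ℝ := R0 * Λ ^ (m x + p.1)
    have hb0 : 0 < b := by positivity
    have h3 : N + 2 ≤ 3 * N := by linarith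
    calc (N + 2) * (2 * δ * b) ≤ (3 * N) * (2 * δ * b) := by gcongr
      _ = _ := by ring
  refine (measure_mono hsub).trans ((measure_biUnion_finset_le _ _).trans
    ((Finset.sum_le_sum hb).trans (le_of_eq ?_)))
  rw [Finset.sum_const, Finset.card_product, Finset.card_range, Finset.card_univ, Fintype.card_fin,
    nsmul_eq_mul, ← ENNReal.ofReal_natCast, ← ENNReal.ofReal_mul (by positivity)]
  congr 1
  push_cast; ring

/-- **a good origin** -/
theorem exists_shift {m : Plane → ℕ} (hm : Measurable m) {J : ℕ} {δ R0 : ℝ} {Λ : ℕ} (hδ : 0 ≤ δ)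
    (hR0 : 0 < R0) (hΛ : 1 ≤ Λ) {top : ℕ} (htop : ∀ x, m x + J ≤ top) {f : Plane → ℝ≥0∞}
    (hf : Measurable f) :
    ∃ t ∈ Ico 0 (R0 * (Λ : ℝ) ^ top), ∫⁻ x in {x | BadPt m J δ R0 Λ x t}, f x ≤
      ENNReal.ofReal (12 * (J + 1) * δ) * ∫⁻ x, f x := by
  have hΛ0 : (0 : ℝ) < Λ := by exact_mod_cast (by omega : 0 < Λ)
  set L := R0 * (Λ : ℝ) ^ top with hL
  have hL0 : 0 < L := by positivity
  have hM := measurableSet_BadPt hm J δ R0 Λ
  let g : Plane → ℝ → ℝ≥0∞ := fun x t => ({p : Plane × ℝ | BadPt m J δ R0 Λ p.1 p.2}).indicator (fun p => f p.1) (x, t)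
  have hg : Measurable (Function.uncurry g) := (hf.comp measurable_fst).indicator hM
  have h1 : ∀ t, ∫⁻ x in {x | BadPt m J δ R0 Λ x t}, f x = ∫⁻ x, g x t := by
    intro t
    rw [← lintegral_indicator]
    · rfl
    · exact measurable_prodMk_right hM
  have h2 : ∀ x, ∫⁻ t in Ico 0 L, g x t ≤ ENNReal.ofReal (12 * (J + 1) * δ * L) * f x := by
    intro x
    have hMx : MeasurableSet {t | BadPt m J δ R0 Λ x t} := measurable_prodMk_left hM
    have e1 : (fun t => g x t) = ({t | BadPt m J δ R0 Λ x t}).indicator fun _ => f x := by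
      ext t; rfl
    rw [e1, lintegral_indicator hMx, lintegral_const, Measure.restrict_restrict hMx,
      Measure.restrict_apply_univ, mul_comm]
    gcongr
    refine le_trans (le_of_eq ?_) (BadPt_volume hδ hR0 hΛ (htop x))
    congr 1; ext t
    simp only [mem_inter_iff, mem_ofPred_eq]
    exact and_comm
  have h3 : ∫⁻ t in Ico 0 L, ∫⁻ x, g x t ≤ ENNReal.ofReal (12 * (J + 1) * δ * L) * ∫⁻ x, f x := by
    rw [← lintegral_lintegral_swap hg.aemeasurable, ← lintegral_const_mul _ hf]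
    exact lintegral_mono h2
  have hvol : volume (Ico 0 L) = ENNReal.ofReal L := by rw [Real.volume_Ico, sub_zero]
  have hgt : Measurable fun t => ∫⁻ x, g x t := hg.lintegral_prod_left'
  obtain ⟨t, ht, h4⟩ := exists_le_setLAverage (μ := volume) (s := Ico 0 L)
    (by rw [hvol]; simpa using hL0) (by rw [hvol]; exact ENNReal.ofReal_ne_top) hgt.aemeasurable
  refine ⟨t, ht, ?_⟩
  rw [h1]
  refine h4.trans ?_
  rw [setLAverage_eq, hvol]
  apply ENNReal.div_le_of_le_mul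
  refine h3.trans (le_of_eq ?_)
  rw [ENNReal.ofReal_mul (by positivity)]
  ring

end Pool.Agent.LT2
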