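import Pool.Agent.Lib.MP_50e96d_mp.Build
import Pool.Agent.Lib.MP_50e96d_mp.Abel

/-!
# The eigenvalue sum of a nice potential
-/

namespace Pool.Agent.LT2

open MeasureTheory Set Filter
open scoped ENNReal

set_option linter.unusedSectionVars false

/-- the ratio of consecutive energies to the power `γ` -/
noncomputable def qq (Λ : ℕ) (γ : ℝ) : ℝ≥0∞ := ENNReal.ofReal (((Λ : ℝ) ^ 2)⁻¹) ^ γ

lemma qq_ne_zero {Λ : ℕ} (hΛ : 2 ≤ Λ) (γ : ℝ) : qq Λ γ ≠ 0 := by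
  have h : (0 : ℝ) < Λ := by exact_mod_cast (by omega : 0 < Λ)
  unfold qq
  rw [ne_eq, ENNReal.rpow_eq_zero_iff]
  push Not
  constructor
  · intro h1
    rw [ENNReal.ofReal_eq_zero] at h1
    have : 0 < ((Λ : ℝ) ^ 2)⁻¹ := by positivity
    linarith
  · intro h1; exact absurd h1 ENNReal.ofReal_ne_top

lemma qq_lt_one {Λ : ℕ} (hΛ : 2 ≤ Λ) {γ : ℝ} (hγ : 0 < γ) : qq Λ γ < 1 := by
  have h : (2 : ℝ) ≤ Λ := by exact_mod_cast hΛ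
  unfold qq
  apply ENNReal.rpow_lt_one _ hγ
  rw [ENNReal.ofReal_lt_one]
  apply inv_lt_one_of_one_lt₀
  nlinarith

lemma absPow_le {V : Plane → ℝ} {γ : ℝ} (hγ : 0 < γ) {n : ℕ} {E : ℝ}
    (h : ((-E : ℝ) : EReal) ≤ minmax V n) : absPow V γ n ≤ ENNReal.ofReal E ^ γ := by
  unfold absPow
  apply ENNReal.rpow_le_rpow _ hγ.le
  rw [← EReal.real_coe_toENNReal]
  apply EReal.toENNReal_le_toENNReal
  rw [EReal.neg_le, ← EReal.coe_neg]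
  exact h

namespace Setting

variable (D : Setting) {γ : ℝ}

/-- energies -/
noncomputable def en (γ : ℝ) (i : ℕ) : ℝ≥0∞ := ENNReal.ofReal ((D.S.b i ^ 2)⁻¹) ^ γ

lemma en_eq (hγ : 0 < γ) (i : ℕ) : D.en γ i = D.en γ 0 * qq D.S.Λ γ ^ i := by
  unfold en qq
  have h1 : (D.S.b i ^ 2)⁻¹ = (D.S.b 0 ^ 2)⁻¹ * (((D.S.Λ : ℝ) ^ 2)⁻¹) ^ i := by
    unfold Sys.b
    rw [pow_zero, mul_one, mul_pow, mul_inv, ← pow_mul, inv_pow, ← pow_mul, mul_comm i 2]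
  have hΛ := D.S.Λ_pos
  have hb := D.S.b_pos 0
  rw [h1, ENNReal.ofReal_mul (by positivity), ENNReal.mul_rpow_of_nonneg _ _ hγ.le,
    ENNReal.ofReal_pow (by positivity), ← ENNReal.rpow_natCast, ← ENNReal.rpow_mul,
    ← ENNReal.rpow_natCast, ← ENNReal.rpow_mul, mul_comm (i : ℝ) γ]

lemma en_ne_top (hγ : 0 < γ) (i : ℕ) : D.en γ i ≠ ⊤ :=
  (ENNReal.rpow_lt_top_of_nonneg hγ.le ENNReal.ofReal_ne_top).ne

lemma ae_W_ne : ∀ᵐ x ∂D.S.μ, D.W x ≠ 0 := by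
  rw [D.hμ, ae_withDensity_iff D.hWm.ennreal_ofReal]
  filter_upwards with x hx
  intro h
  rw [h] at hx
  simp at hx

lemma en_succ_le (hγ : 0 < γ) {x : Plane} (h : 1 ≤ D.W x * D.S.b (D.S.m x + 1) ^ 2) :
    D.en γ (D.S.m x + 1) ≤ ENNReal.ofReal (D.W x) ^ γ := by
  unfold en
  apply ENNReal.rpow_le_rpow _ hγ.le
  apply ENNReal.ofReal_le_ofReal
  have := D.S.b_pos (D.S.m x + 1)
  rw [← one_div, div_le_iff₀ (by positivity)]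
  exact h

lemma en_le (hγ : 0 < γ) {x : Plane} (h : 1 ≤ D.W x * D.S.b (D.S.m x + 1) ^ 2) {κ : ℕ}
    (hκ : D.S.m x ≤ κ) :
    D.en γ κ ≤ ENNReal.ofReal (D.W x) ^ γ * (qq D.S.Λ γ)⁻¹ * qq D.S.Λ γ ^ (κ - D.S.m x) := by
  have hq0 := qq_ne_zero D.S.hΛ γ
  have hqt : qq D.S.Λ γ ≠ ⊤ := ((qq_lt_one D.S.hΛ hγ).trans ENNReal.one_lt_top).ne
  have h1 := D.en_succ_le hγ h
  calc D.en γ κ = D.en γ 0 * qq D.S.Λ γ ^ κ := D.en_eq hγ κ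
    _ = D.en γ 0 * qq D.S.Λ γ ^ (D.S.m x + (κ - D.S.m x)) := by rw [Nat.add_sub_cancel' hκ]
    _ = D.en γ 0 * qq D.S.Λ γ ^ (D.S.m x + 1) * (qq D.S.Λ γ)⁻¹ * qq D.S.Λ γ ^ (κ - D.S.m x) := by
        rw [pow_add, pow_succ]
        have : qq D.S.Λ γ * (qq D.S.Λ γ)⁻¹ = 1 := ENNReal.mul_inv_cancel hq0 hqt
        calc D.en γ 0 * (qq D.S.Λ γ ^ D.S.m x * qq D.S.Λ γ ^ (κ - D.S.m x)) =
            D.en γ 0 * qq D.S.Λ γ ^ D.S.m x * 1 * qq D.S.Λ γ ^ (κ - D.S.m x) := by ring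
          _ = D.en γ 0 * qq D.S.Λ γ ^ D.S.m x * (qq D.S.Λ γ * (qq D.S.Λ γ)⁻¹) *
              qq D.S.Λ γ ^ (κ - D.S.m x) := by rw [this]
          _ = _ := by ring
    _ ≤ _ := by
        rw [← D.en_eq hγ]
        gcongr

/-- the main part of the weighted count -/
lemma sum_mass_le (hγ : 0 < γ) (hm : ∀ x, D.W x ≠ 0 → 1 ≤ D.W x * D.S.b (D.S.m x + 1) ^ 2)
    {Ssup : ℝ≥0∞} (hS : ∀ j, D.S.ψ j * qq D.S.Λ γ ^ j ≤ Ssup) :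
    ∑' κ, D.en γ κ * ∑ P ∈ D.S.Sel κ, D.S.mass (D.S.Op κ) κ P ≤
      Ssup * (qq D.S.Λ γ)⁻¹ * ∫⁻ x, ENNReal.ofReal (D.W x) ^ γ ∂D.S.μ := by
  have hWγ : Measurable fun x => ENNReal.ofReal (D.W x) ^ γ := D.hWm.ennreal_ofReal.pow_const γ
  rw [← lintegral_const_mul _ hWγ]
  apply ENNReal.tsum_le_of_sum_range_le
  intro n
  refine le_trans ?_ (D.S.sum_clusters_le (fun x => Ssup * (qq D.S.Λ γ)⁻¹ * ENNReal.ofReal (D.W x) ^ γ)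
    (hWγ.const_mul _) n)
  apply Finset.sum_le_sum
  intro κ _
  rw [Finset.mul_sum]
  apply Finset.sum_le_sum
  intro P _
  have hψm : Measurable fun y => D.S.ψ (κ - D.S.m y) :=
    (measurable_of_countable (fun n : ℕ => D.S.ψ (κ - n))).comp D.S.hm
  have e1 : D.S.mass (D.S.Op κ) κ P = ∫⁻ y in D.S.G (κ, P), D.S.ψ (κ - D.S.m y) ∂D.S.μ := rfl
  rw [e1, ← lintegral_const_mul _ hψm]
  apply setLIntegral_mono_ae' (D.S.measurableSet_G _)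
  filter_upwards [D.ae_W_ne] with x hx hxG
  have hmx : D.S.m x ≤ κ := (D.S.Op_subset κ x hxG.1).2
  calc D.en γ κ * D.S.ψ (κ - D.S.m x)
      ≤ (ENNReal.ofReal (D.W x) ^ γ * (qq D.S.Λ γ)⁻¹ * qq D.S.Λ γ ^ (κ - D.S.m x)) *
        D.S.ψ (κ - D.S.m x) := by
        gcongr
        exact D.en_le hγ (hm x hx) hmx
    _ = ENNReal.ofReal (D.W x) ^ γ * (qq D.S.Λ γ)⁻¹ * (D.S.ψ (κ - D.S.m x) * qq D.S.Λ γ ^ (κ - D.S.m x)) := by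
        ring
    _ ≤ ENNReal.ofReal (D.W x) ^ γ * (qq D.S.Λ γ)⁻¹ * Ssup := by gcongr; exact hS _
    _ = _ := by ring

/-- the bad part of the weighted count -/
lemma sum_bad_le (hγ : 0 < γ) (hm : ∀ x, D.W x ≠ 0 → 1 ≤ D.W x * D.S.b (D.S.m x + 1) ^ 2) :
    ∑' κ, D.en γ κ * D.S.μ (D.Bd ∩ {x | D.S.m x ≤ κ}) ≤
      (1 - qq D.S.Λ γ)⁻¹ * (qq D.S.Λ γ)⁻¹ * ∫⁻ x in D.Bd, ENNReal.ofReal (D.W x) ^ γ ∂D.S.μ := by
  have hWγ : Measurable fun x => ENNReal.ofReal (D.W x) ^ γ := D.hWm.ennreal_ofReal.pow_const γ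
  have hq1 := qq_lt_one D.S.hΛ hγ
  have hmm : ∀ κ, MeasurableSet {x | D.S.m x ≤ κ} := fun κ => D.S.hm measurableSet_Iic
  have h1 : ∀ κ, D.en γ κ * D.S.μ (D.Bd ∩ {x | D.S.m x ≤ κ}) =
      ∫⁻ x in D.Bd, ({x | D.S.m x ≤ κ} : Set Plane).indicator (fun _ => D.en γ κ) x ∂D.S.μ := by
    intro κ
    rw [lintegral_indicator (hmm κ), lintegral_const, Measure.restrict_restrict (hmm κ),
      Measure.restrict_apply_univ, inter_comm]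
  simp only [h1]
  rw [← lintegral_tsum fun κ => (measurable_const.indicator (hmm κ)).aemeasurable,
    ← lintegral_const_mul _ hWγ]
  apply setLIntegral_mono_ae' D.hBdm
  filter_upwards [D.ae_W_ne] with x hx _
  have h2 : ∀ κ, ({x | D.S.m x ≤ κ} : Set Plane).indicator (fun _ => D.en γ κ) x =
      D.en γ 0 * (if D.S.m x ≤ κ then qq D.S.Λ γ ^ κ else 0) := by
    intro κ
    by_cases h : D.S.m x ≤ κ
    · rw [indicator_of_mem (show x ∈ {x | D.S.m x ≤ κ} from h), if_pos h, D.en_eq hγ]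
    · rw [indicator_of_notMem (show x ∉ {x | D.S.m x ≤ κ} from h), if_neg h, mul_zero]
  simp only [h2]
  rw [ENNReal.tsum_mul_left]
  have h3 := tsum_geometric_shift hq1 (D.S.m x)
  have h4 : (1 - qq D.S.Λ γ) ≠ 0 := (tsub_pos_of_lt hq1).ne'
  have h5 : (1 - qq D.S.Λ γ) ≠ ⊤ := (lt_of_le_of_lt tsub_le_self ENNReal.one_lt_top).ne
  have h6 : ∑' κ, (if D.S.m x ≤ κ then qq D.S.Λ γ ^ κ else 0) = (1 - qq D.S.Λ γ)⁻¹ * qq D.S.Λ γ ^ (D.S.m x) := by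
    rw [← h3, ← mul_assoc, ENNReal.inv_mul_cancel h4 h5, one_mul]
  rw [h6]
  calc D.en γ 0 * ((1 - qq D.S.Λ γ)⁻¹ * qq D.S.Λ γ ^ D.S.m x) =
      (1 - qq D.S.Λ γ)⁻¹ * D.en γ (D.S.m x) := by rw [D.en_eq hγ (D.S.m x)]; ring
    _ ≤ (1 - qq D.S.Λ γ)⁻¹ * (ENNReal.ofReal (D.W x) ^ γ * (qq D.S.Λ γ)⁻¹ *
        qq D.S.Λ γ ^ (D.S.m x - D.S.m x)) := by
        gcongr
        exact D.en_le hγ (hm x hx) le_rfl
    _ = _ := by rw [Nat.sub_self, pow_zero, mul_one]; ring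

/-- the count of constraints in terms of masses -/
lemma count_le {N : ℕ × (ℤ × ℤ) → ℕ} {ν θd ψmin L2 : ℝ≥0∞} (hthr0 : D.S.thr ≠ 0) (hthrt : D.S.thr ≠ ⊤)
    (hψ0 : ψmin ≠ 0) (hψt : ψmin ≠ ⊤) (hψmin : ∀ j, ψmin ≤ D.S.ψ j)
    (hN : ∀ q, (N q : ℝ≥0∞) ^ 2 ≤ 1 + 4 * ν⁻¹ * D.S.μ (D.S.G q)) (i : ℕ) :
    (∑ κ ∈ Finset.range (i + 1), ∑ P ∈ D.S.Sel κ,
        ((N (κ, P) : ℝ≥0∞) ^ 2 + θd⁻¹ * (L2 * D.S.μ (D.S.G (κ, P))))) +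
      2 * (∑ j ∈ Finset.range i, ((D.S.Enr j).card : ℝ≥0∞)) +
      θd⁻¹ * (∑ k ∈ Finset.range (i + 1), L2 * D.S.μ (D.Bd ∩ {x | D.S.m x ≤ k})) ≤
    ∑ κ ∈ Finset.range (i + 1), (((1 + 2 * (D.S.A : ℝ≥0∞)⁻¹) * D.S.thr⁻¹ +
      (4 * ν⁻¹ + θd⁻¹ * L2) * ψmin⁻¹) * (∑ P ∈ D.S.Sel κ, D.S.mass (D.S.Op κ) κ P) +
      θd⁻¹ * L2 * D.S.μ (D.Bd ∩ {x | D.S.m x ≤ κ})) := by
  have hA0 : (D.S.A : ℝ≥0∞) ≠ 0 := by have := D.S.hA; exact_mod_cast (by omega : D.S.A ≠ 0)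
  have hAt : (D.S.A : ℝ≥0∞) ≠ ⊤ := ENNReal.natCast_ne_top _
  -- enriched squares
  have h1 : (∑ j ∈ Finset.range i, ((D.S.Enr j).card : ℝ≥0∞)) ≤
      (D.S.A : ℝ≥0∞)⁻¹ * ∑ κ ∈ Finset.range (i + 1), ∑ P ∈ D.S.Sel κ, (1 : ℝ≥0∞) := by
    have h2 := D.S.card_enr_le i
    have h3 : (D.S.A : ℝ≥0∞) * ∑ j ∈ Finset.range i, ((D.S.Enr j).card : ℝ≥0∞) ≤
        ∑ κ ∈ Finset.range i, ((D.S.Sel κ).card : ℝ≥0∞) := by exact_mod_cast h2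
    calc (∑ j ∈ Finset.range i, ((D.S.Enr j).card : ℝ≥0∞)) =
        (D.S.A : ℝ≥0∞)⁻¹ * ((D.S.A : ℝ≥0∞) * ∑ j ∈ Finset.range i, ((D.S.Enr j).card : ℝ≥0∞)) := by
          rw [← mul_assoc, ENNReal.inv_mul_cancel hA0 hAt, one_mul]
      _ ≤ (D.S.A : ℝ≥0∞)⁻¹ * ∑ κ ∈ Finset.range i, ((D.S.Sel κ).card : ℝ≥0∞) := by gcongr
      _ ≤ (D.S.A : ℝ≥0∞)⁻¹ * ∑ κ ∈ Finset.range (i + 1), ((D.S.Sel κ).card : ℝ≥0∞) := by
          gcongr; omega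
      _ = _ := by simp
  have h4 : ∀ κ, ∀ P ∈ D.S.Sel κ, (1 : ℝ≥0∞) ≤ D.S.thr⁻¹ * D.S.mass (D.S.Op κ) κ P := by
    intro κ P hP
    calc (1 : ℝ≥0∞) = D.S.thr⁻¹ * D.S.thr := (ENNReal.inv_mul_cancel hthr0 hthrt).symm
      _ ≤ _ := by gcongr; exact ((D.S.mem_Sel).1 hP).2
  have h5 : ∀ κ P, D.S.μ (D.S.G (κ, P)) ≤ ψmin⁻¹ * D.S.mass (D.S.Op κ) κ P := by
    intro κ P
    calc D.S.μ (D.S.G (κ, P)) = ψmin⁻¹ * (ψmin * D.S.μ (D.S.G (κ, P))) := by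
          rw [← mul_assoc, ENNReal.inv_mul_cancel hψ0 hψt, one_mul]
      _ ≤ _ := by
          gcongr
          have e1 : D.S.mass (D.S.Op κ) κ P = ∫⁻ y in D.S.G (κ, P), D.S.ψ (κ - D.S.m y) ∂D.S.μ := rfl
          rw [e1, ← setLIntegral_const]
          exact lintegral_mono fun y => hψmin _
  calc (∑ κ ∈ Finset.range (i + 1), ∑ P ∈ D.S.Sel κ,
        ((N (κ, P) : ℝ≥0∞) ^ 2 + θd⁻¹ * (L2 * D.S.μ (D.S.G (κ, P))))) +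
      2 * (∑ j ∈ Finset.range i, ((D.S.Enr j).card : ℝ≥0∞)) +
      θd⁻¹ * (∑ k ∈ Finset.range (i + 1), L2 * D.S.μ (D.Bd ∩ {x | D.S.m x ≤ k}))
      ≤ (∑ κ ∈ Finset.range (i + 1), ∑ P ∈ D.S.Sel κ,
        ((1 + 4 * ν⁻¹ * D.S.μ (D.S.G (κ, P))) + θd⁻¹ * (L2 * D.S.μ (D.S.G (κ, P))))) +
      2 * ((D.S.A : ℝ≥0∞)⁻¹ * ∑ κ ∈ Finset.range (i + 1), ∑ P ∈ D.S.Sel κ, (1 : ℝ≥0∞)) +
      θd⁻¹ * (∑ k ∈ Finset.range (i + 1), L2 * D.S.μ (D.Bd ∩ {x | D.S.m x ≤ k})) := by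
        gcongr with κ _ P _
        exact hN _
    _ = ∑ κ ∈ Finset.range (i + 1), (∑ P ∈ D.S.Sel κ, ((1 + 2 * (D.S.A : ℝ≥0∞)⁻¹) * 1 +
        (4 * ν⁻¹ + θd⁻¹ * L2) * D.S.μ (D.S.G (κ, P))) +
        θd⁻¹ * L2 * D.S.μ (D.Bd ∩ {x | D.S.m x ≤ κ})) := by
        rw [Finset.sum_add_distrib, ← mul_assoc 2, Finset.mul_sum, ← Finset.sum_add_distrib, Finset.mul_sum]
        congr 1
        · apply Finset.sum_congr rfl; intro κ _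
          rw [Finset.mul_sum, ← Finset.sum_add_distrib]
          apply Finset.sum_congr rfl; intro P _
          ring
        · apply Finset.sum_congr rfl; intro κ _
          ring
    _ ≤ _ := by
        apply Finset.sum_le_sum; intro κ _
        rw [Finset.mul_sum]
        refine add_le_add_left (Finset.sum_le_sum fun P hP => ?_) _
        calc (1 + 2 * (D.S.A : ℝ≥0∞)⁻¹) * 1 + (4 * ν⁻¹ + θd⁻¹ * L2) * D.S.μ (D.S.G (κ, P))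
            ≤ (1 + 2 * (D.S.A : ℝ≥0∞)⁻¹) * (D.S.thr⁻¹ * D.S.mass (D.S.Op κ) κ P) +
              (4 * ν⁻¹ + θd⁻¹ * L2) * (ψmin⁻¹ * D.S.mass (D.S.Op κ) κ P) := by
              gcongr
              · exact h4 κ P hP
              · exact h5 κ P
          _ = _ := by ring

end Setting

/-- the bracket of the codimension estimate -/
noncomputable def brac (θ δ : ℝ) (Λ A : ℕ) (thr ν θd Ψ ΨJ : ℝ≥0∞) : ℝ≥0∞ :=
  ENNReal.ofReal (1 + θ) * (ENNReal.ofReal (Real.log Λ / (2 * Real.pi)) * thr) +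
      ENNReal.ofReal (1 + θ⁻¹) * (6 * (
        9 * thr * (ENNReal.ofReal (Real.log Λ / (2 * Real.pi)) * ΨJ +
          ENNReal.ofReal (Real.log (1 / δ) / (2 * Real.pi)) * Ψ) +
        9 * θd +
        ENNReal.ofReal (Real.log Λ) * (ENNReal.ofReal (64800 * Real.pi * A * LL ^ 2) * ν) +
        ENNReal.ofReal (3 * c1 ^ 2 / (Λ : ℝ) ^ 2) + θd))

/-- **The eigenvalue sum of a nice potential** -/
theorem nice_bound {W : Plane → ℝ} (hW : Nice W) {γ : ℝ} (hγ : 0 < γ) {Λ A J : ℕ}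
    {thr ν θd ψmin Ψ ΨJ Ssup : ℝ≥0∞} {δ θ ε Ar : ℝ} {ψ : ℕ → ℝ≥0∞}
    (hΛ : 2 ≤ Λ) (hA : 1 ≤ A) (hδ : 0 < δ) (hδ1 : δ ≤ 1)
    (hψ1 : ∀ j : ℕ, ((j + 1 : ℕ) : ℝ≥0∞) ≤ ψ j) (hψt : ∀ j, ψ j ≠ ⊤)
    (hthr0 : thr ≠ 0) (hthrt : thr ≠ ⊤) (hν0 : ν ≠ 0) (hνt : ν ≠ ⊤) (hθd0 : θd ≠ 0) (hθdt : θd ≠ ⊤)
    (hψmin0 : ψmin ≠ 0) (hψmin : ∀ j, ψmin ≤ ψ j)
    (hΨ : ∑' j, (ψ j)⁻¹ ≤ Ψ) (hΨJ : ∑' j, (ψ (j + (J + 1)))⁻¹ ≤ ΨJ)
    (hS : ∀ j, ψ j * qq Λ γ ^ j ≤ Ssup) (hθ : 0 < θ) (hres : ResIneq ε Ar)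
    (hAr : Ar ≤ (Λ : ℝ) ^ 2)
    (hB : ENNReal.ofReal (1 + ε) * brac θ δ Λ A thr ν θd Ψ ΨJ ≤ 1) :
    ∑' n, absPow (fun x => -W x) γ (n + 1) ≤
      ((qq Λ γ)⁻¹) ^ 3 * (((1 + 2 * (A : ℝ≥0∞)⁻¹) * thr⁻¹ +
        (4 * ν⁻¹ + θd⁻¹ * ENNReal.ofReal (Real.log Λ / (2 * Real.pi))) * ψmin⁻¹) * Ssup +
        θd⁻¹ * ENNReal.ofReal (Real.log Λ / (2 * Real.pi)) * (1 - qq Λ γ)⁻¹ *
          ENNReal.ofReal (12 * (J + 1) * δ)) *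
      ∫⁻ x, ENNReal.ofReal (W x) ^ (γ + 1) := by
  have hf : Measurable fun x => ENNReal.ofReal (W x) ^ (γ + 1) := hW.meas.ennreal_ofReal.pow_const _
  obtain ⟨D, hDW, hDΛ, hDA, hDthr, hDψ, hDJ, hDδ, hm, hbad⟩ := exists_setting hW hf (J := J) (thr := thr)
    hΛ hA hδ hδ1 hψ1 hψt
  have hqd := D.S.hΛ
  set q := qq Λ γ with hq
  have hq0 : q ≠ 0 := qq_ne_zero hΛ γ
  have hq1 : q < 1 := qq_lt_one hΛ hγ
  have hqD : qq D.S.Λ γ = q := by rw [hDΛ]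
  set L2 := ENNReal.ofReal (Real.log Λ / (2 * Real.pi)) with hL2
  have hψmint : ψmin ≠ ⊤ := fun h => hψt 0 (top_le_iff.1 (h ▸ hψmin 0))
  -- number of subdivisions
  choose N hN0 hN1 hN2 using fun p : ℕ × (ℤ × ℤ) => exists_N (x := D.S.μ (D.S.G p)) (measure_ne_top _ _) hν0 hνt
  -- constraints
  choose Φ hΦm hΦc hΦ using fun i => D.exists_constraints (Ψ := Ψ) (ΨJ := ΨJ) hθd0 hθdt hN0
    (by rw [hDψ]; exact hΨ) (by rw [hDψ, hDJ]; exact hΨJ) i hN1 hθ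
  rw [hDΛ, hDthr, hDδ, hDA] at hΦ
  rw [hDΛ] at hΦc
  set Cs := (1 + 2 * (A : ℝ≥0∞)⁻¹) * thr⁻¹ + (4 * ν⁻¹ + θd⁻¹ * L2) * ψmin⁻¹ with hCs
  let s : ℕ → ℝ≥0∞ := fun κ => Cs * (∑ P ∈ D.S.Sel κ, D.S.mass (D.S.Op κ) κ P) +
      θd⁻¹ * L2 * D.S.μ (D.Bd ∩ {x | D.S.m x ≤ κ})
  have hcard : ∀ i, ((Φ i).card : ℝ≥0∞) ≤ ∑ κ ∈ Finset.range (i + 1), s κ := by
    intro i
    refine (hΦc i).trans ?_
    have := D.count_le (ν := ν) (θd := θd) (L2 := L2) (by rw [hDthr]; exact hthr0) (by rw [hDthr]; exact hthrt)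
      hψmin0 hψmint (by rw [hDψ]; exact hψmin) hN2 i
    rw [hDA, hDthr] at this
    exact this
  -- eigenvalue bounds
  have hx0 : ∀ n, absPow (fun x => -W x) γ (n + 1) ≤ D.en γ 0 := by
    intro n
    apply absPow_le hγ
    have := D.minmax_ge_zero (Nat.succ_pos n)
    rw [hDW] at this
    exact this
  have hx : ∀ i n, (Φ (i + 1)).card ≤ n → absPow (fun x => -W x) γ (n + 1) ≤ D.en γ 0 * q ^ i := by
    intro i n hn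
    rw [← hqD, ← D.en_eq hγ]
    apply absPow_le hγ
    have hb := D.S.b_pos i
    have := D.minmax_ge (i := i + 1) (hΦm (i + 1)) (hΦ (i + 1)) hres (E := (D.S.b i ^ 2)⁻¹)
      (by
        rw [D.S.b_succ, mul_pow, ← mul_assoc, inv_mul_cancel₀ (by positivity), one_mul, hDΛ]
        exact hAr) (by positivity) hB (Nat.lt_succ_of_le hn)
    rw [hDW] at this
    exact this
  refine (abel_layer (N := fun i => (Φ i).card) hq0 hq1 (D.en_ne_top hγ 0) hx0 hx).trans ?_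
  -- the weighted sum
  have hmain := D.sum_mass_le hγ (by rw [hDW]; exact hm) (Ssup := Ssup) (by rw [hDψ, hDΛ]; exact hS)
  have hbadd := D.sum_bad_le hγ (by rw [hDW]; exact hm)
  rw [hqD, hDW] at hmain hbadd
  have hμint : ∫⁻ x, ENNReal.ofReal (W x) ^ γ ∂D.S.μ = ∫⁻ x, ENNReal.ofReal (W x) ^ (γ + 1) := by
    rw [D.lintegral_mu _ (hW.meas.ennreal_ofReal.pow_const γ), hDW]
    apply lintegral_congr; intro x
    rw [ENNReal.rpow_add_of_nonneg _ _ hγ.le zero_le_one, ENNReal.rpow_one, mul_comm]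
  have hμbad : ∫⁻ x in D.Bd, ENNReal.ofReal (W x) ^ γ ∂D.S.μ ≤
      ENNReal.ofReal (12 * (J + 1) * δ) * ∫⁻ x, ENNReal.ofReal (W x) ^ (γ + 1) := by
    refine le_trans (le_of_eq ?_) hbad
    rw [← lintegral_indicator D.hBdm, D.lintegral_mu _ ((hW.meas.ennreal_ofReal.pow_const γ).indicator D.hBdm),
      hDW, ← lintegral_indicator D.hBdm]
    apply lintegral_congr; intro x
    by_cases h : x ∈ D.Bd
    · rw [indicator_of_mem h, indicator_of_mem h, ENNReal.rpow_add_of_nonneg _ _ hγ.le zero_le_one,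
        ENNReal.rpow_one, mul_comm]
    · rw [indicator_of_notMem h, indicator_of_notMem h, mul_zero]
  rw [hμint] at hmain
  set I := ∫⁻ x, ENNReal.ofReal (W x) ^ (γ + 1) with hI
  have hsum : (1 - q) * ∑' j, D.en γ 0 * q ^ j * ((Φ j).card : ℝ≥0∞) ≤ ∑' κ, D.en γ κ * s κ := by
    calc (1 - q) * ∑' j, D.en γ 0 * q ^ j * ((Φ j).card : ℝ≥0∞)
        ≤ (1 - q) * ∑' j, D.en γ 0 * (q ^ j * ∑ κ ∈ Finset.range (j + 1), s κ) := by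
          refine mul_le_mul_right (ENNReal.tsum_le_tsum fun j => ?_) _
          rw [mul_assoc]
          gcongr
          exact hcard j
      _ = D.en γ 0 * ((1 - q) * ∑' j, q ^ j * ∑ κ ∈ Finset.range (j + 1), s κ) := by
          rw [ENNReal.tsum_mul_left]; ring
      _ = D.en γ 0 * ∑' κ, q ^ κ * s κ := by rw [abel_sum hq1]
      _ = ∑' κ, D.en γ κ * s κ := by
          rw [← ENNReal.tsum_mul_left]
          apply tsum_congr; intro κ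
          rw [D.en_eq hγ κ, hqD]; ring
  have hsum2 : ∑' κ, D.en γ κ * s κ ≤ Cs * (Ssup * q⁻¹ * I) +
      θd⁻¹ * L2 * ((1 - q)⁻¹ * q⁻¹ * (ENNReal.ofReal (12 * (J + 1) * δ) * I)) := by
    calc ∑' κ, D.en γ κ * s κ = Cs * ∑' κ, D.en γ κ * ∑ P ∈ D.S.Sel κ, D.S.mass (D.S.Op κ) κ P +
          θd⁻¹ * L2 * ∑' κ, D.en γ κ * D.S.μ (D.Bd ∩ {x | D.S.m x ≤ κ}) := by
          rw [← ENNReal.tsum_mul_left, ← ENNReal.tsum_mul_left, ← ENNReal.tsum_add]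
          apply tsum_congr; intro κ
          ring
      _ ≤ _ := by
          refine add_le_add (mul_le_mul_right hmain _) (mul_le_mul_right (hbadd.trans ?_) _)
          exact mul_le_mul_right hμbad _
  calc (q⁻¹) ^ 2 * ((1 - q) * ∑' j, D.en γ 0 * q ^ j * ((Φ j).card : ℝ≥0∞))
      ≤ (q⁻¹) ^ 2 * (Cs * (Ssup * q⁻¹ * I) +
      θd⁻¹ * L2 * ((1 - q)⁻¹ * q⁻¹ * (ENNReal.ofReal (12 * (J + 1) * δ) * I))) :=
        mul_le_mul_right (hsum.trans hsum2) _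
    _ = _ := by ring

end Pool.Agent.LT2
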