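import Pool.Agent.Lib.MP_50e96d_mp.Sum

/-!
# The eigenvalue sum of a nice potential, real parameters
-/

namespace Pool.Agent.LT2

open MeasureTheory Set Filter
open scoped ENNReal

lemma qq_eq {Λ : ℕ} (hΛ : 2 ≤ Λ) (γ : ℝ) : qq Λ γ = ENNReal.ofReal (Real.exp (-(2 * γ * Real.log Λ))) := by
  have h : (0 : ℝ) < Λ := by exact_mod_cast (by omega : 0 < Λ)
  unfold qq
  rw [ENNReal.ofReal_rpow_of_pos (by positivity)]
  congr 1
  rw [Real.rpow_def_of_pos (by positivity), Real.log_inv, Real.log_pow]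
  congr 1
  push_cast
  ring

/-- the real bracket -/
noncomputable def bracR (θ δ : ℝ) (Λ A : ℕ) (thr ν θd Ψ ΨJ : ℝ) : ℝ :=
  (1 + θ) * (Real.log Λ / (2 * Real.pi) * thr) + (1 + θ⁻¹) * (6 * (
        9 * thr * (Real.log Λ / (2 * Real.pi) * ΨJ + Real.log (1 / δ) / (2 * Real.pi) * Ψ) +
        9 * θd + Real.log Λ * (64800 * Real.pi * A * LL ^ 2 * ν) +
        3 * c1 ^ 2 / (Λ : ℝ) ^ 2 + θd))

lemma brac_eq {θ δ : ℝ} {Λ A : ℕ} {thr ν θd Ψ ΨJ : ℝ} (hΛ : 2 ≤ Λ) (hθ : 0 < θ) (hδ : 0 < δ) (hδ1 : δ ≤ 1)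
    (hthr : 0 < thr) (hν : 0 < ν) (hθd : 0 < θd) (hΨ : 0 ≤ Ψ) (hΨJ : 0 ≤ ΨJ) :
    brac θ δ Λ A (ENNReal.ofReal thr) (ENNReal.ofReal ν) (ENNReal.ofReal θd) (ENNReal.ofReal Ψ)
      (ENNReal.ofReal ΨJ) = ENNReal.ofReal (bracR θ δ Λ A thr ν θd Ψ ΨJ) := by
  have hl : 0 ≤ Real.log Λ := Real.log_natCast_nonneg _
  have hld : 0 ≤ Real.log (1 / δ) := Real.log_nonneg (by rw [le_div_iff₀ hδ]; linarith)
  have hpi := Real.pi_pos
  have hLL := LL_pos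
  have hc1 := c1_pos
  have hΛ0 : (0 : ℝ) < Λ := by exact_mod_cast (by omega : 0 < Λ)
  unfold brac bracR
  rw [show (6 : ℝ≥0∞) = ENNReal.ofReal 6 by norm_num, show (9 : ℝ≥0∞) = ENNReal.ofReal 9 by norm_num]
  simp (disch := positivity) only [← ENNReal.ofReal_mul, ← ENNReal.ofReal_add]

/-- the coefficient -/
noncomputable def coefR (γ δ : ℝ) (Λ A J : ℕ) (thr ν θd ψmin Ssup : ℝ) : ℝ :=
  (Real.exp (2 * γ * Real.log Λ)) ^ 3 * (((1 + 2 / A) / thr +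
        (4 / ν + Real.log Λ / (2 * Real.pi) / θd) / ψmin) * Ssup +
        Real.log Λ / (2 * Real.pi) / θd * (1 - Real.exp (-(2 * γ * Real.log Λ)))⁻¹ *
          (12 * (J + 1) * δ))

theorem nice_bound_real {W : Plane → ℝ} (hW : Nice W) {γ : ℝ} (hγ : 0 < γ) {Λ A J : ℕ}
    {thr ν θd ψmin Ψ ΨJ Ssup : ℝ} {δ θ ε Ar : ℝ} {ψ : ℕ → ℝ}
    (hΛ : 2 ≤ Λ) (hA : 1 ≤ A) (hδ : 0 < δ) (hδ1 : δ ≤ 1)
    (hψ1 : ∀ j : ℕ, (j : ℝ) + 1 ≤ ψ j)
    (hthr : 0 < thr) (hν : 0 < ν) (hθd : 0 < θd)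
    (hψmin0 : 0 < ψmin) (hψmin : ∀ j, ψmin ≤ ψ j) (hΨ0 : 0 ≤ Ψ) (hΨJ0 : 0 ≤ ΨJ)
    (hΨ : ∑' j, (ENNReal.ofReal (ψ j))⁻¹ ≤ ENNReal.ofReal Ψ)
    (hΨJ : ∑' j, (ENNReal.ofReal (ψ (j + (J + 1))))⁻¹ ≤ ENNReal.ofReal ΨJ)
    (hS : ∀ j : ℕ, ψ j * Real.exp (-(2 * γ * Real.log Λ)) ^ j ≤ Ssup) (hθ : 0 < θ) (hε : 0 ≤ ε)
    (hres : ResIneq ε Ar) (hAr : Ar ≤ (Λ : ℝ) ^ 2)
    (hB : (1 + ε) * bracR θ δ Λ A thr ν θd Ψ ΨJ ≤ 1) :
    ∑' n, absPow (fun x => -W x) γ (n + 1) ≤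
      ENNReal.ofReal (coefR γ δ Λ A J thr ν θd ψmin Ssup) * ∫⁻ x, ENNReal.ofReal (W x) ^ (γ + 1) := by
  have hpi := Real.pi_pos
  have hl : 0 < Real.log Λ := Real.log_pos (by exact_mod_cast (by omega : 1 < Λ))
  have hA0 : (0 : ℝ) < A := by exact_mod_cast (by omega : 0 < A)
  have hψpos : ∀ j, 0 < ψ j := fun j => lt_of_lt_of_le hψmin0 (hψmin j)
  have hSs : 0 ≤ Ssup := by
    have h1 := hS 0
    rw [pow_zero, mul_one] at h1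
    exact (hψpos 0).le.trans h1
  have hqr : Real.exp (-(2 * γ * Real.log Λ)) < 1 := by
    rw [Real.exp_lt_one_iff]
    have : 0 < 2 * γ * Real.log Λ := by positivity
    linarith
  have h := nice_bound hW hγ (Λ := Λ) (A := A) (J := J) (thr := ENNReal.ofReal thr)
    (ν := ENNReal.ofReal ν) (θd := ENNReal.ofReal θd) (ψmin := ENNReal.ofReal ψmin)
    (Ψ := ENNReal.ofReal Ψ) (ΨJ := ENNReal.ofReal ΨJ) (Ssup := ENNReal.ofReal Ssup) (δ := δ) (θ := θ)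
    (ε := ε) (Ar := Ar) (ψ := fun j => ENNReal.ofReal (ψ j)) hΛ hA hδ hδ1
    (by
      intro j
      rw [← ENNReal.ofReal_natCast]
      apply ENNReal.ofReal_le_ofReal
      push_cast
      exact hψ1 j)
    (fun j => ENNReal.ofReal_ne_top) (by simpa using hthr) ENNReal.ofReal_ne_top (by simpa using hν)
    ENNReal.ofReal_ne_top (by simpa using hθd) ENNReal.ofReal_ne_top (by simpa using hψmin0)
    (fun j => ENNReal.ofReal_le_ofReal (hψmin j)) hΨ hΨJ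
    (by
      intro j
      rw [qq_eq hΛ, ← ENNReal.ofReal_pow (by positivity), ← ENNReal.ofReal_mul (hψpos j).le]
      exact ENNReal.ofReal_le_ofReal (hS j)) hθ hres hAr
    (by
      rw [brac_eq hΛ hθ hδ hδ1 hthr hν hθd hΨ0 hΨJ0, ← ENNReal.ofReal_mul (by linarith)]
      exact ENNReal.ofReal_le_one.2 hB)
  refine h.trans (le_of_eq ?_)
  congr 1
  unfold coefR
  have h1q : 0 < 1 - Real.exp (-(2 * γ * Real.log Λ)) := by linarith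
  have e1 : (1 : ℝ≥0∞) - ENNReal.ofReal (Real.exp (-(2 * γ * Real.log Λ))) =
      ENNReal.ofReal (1 - Real.exp (-(2 * γ * Real.log Λ))) := by
    rw [ENNReal.ofReal_sub _ (by positivity), ENNReal.ofReal_one]
  rw [qq_eq hΛ, e1, ← ENNReal.ofReal_inv_of_pos (by positivity), ← Real.exp_neg, neg_neg,
    ← ENNReal.ofReal_inv_of_pos h1q, ← ENNReal.ofReal_inv_of_pos hthr, ← ENNReal.ofReal_inv_of_pos hν,
    ← ENNReal.ofReal_inv_of_pos hθd, ← ENNReal.ofReal_inv_of_pos hψmin0, ← ENNReal.ofReal_natCast,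
    ← ENNReal.ofReal_inv_of_pos hA0, show (1 : ℝ≥0∞) = ENNReal.ofReal 1 by norm_num,
    show (2 : ℝ≥0∞) = ENNReal.ofReal 2 by norm_num, show (4 : ℝ≥0∞) = ENNReal.ofReal 4 by norm_num]
  simp (disch := positivity) only [← ENNReal.ofReal_mul, ← ENNReal.ofReal_add, ← ENNReal.ofReal_pow]
  congr 1
  simp only [div_eq_mul_inv]
  ring

end Pool.Agent.LT2
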