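import Pool.Agent.Lib.MP_50e96d_mp.Kernel

/-!
# The square functions `Q`
-/

namespace Pool.Agent.LT2

open MeasureTheory Set
open scoped ENNReal

section CS

variable {α : Type*} [MeasurableSpace α] {μ : Measure α}

/-- Cauchy–Schwarz for lower integrals -/
lemma cs_lintegral {f g h : α → ℝ≥0∞} (hf : AEMeasurable f μ) (hg : AEMeasurable g μ)
    (H : ∀ x, h x ^ 2 ≤ f x * g x) : (∫⁻ x, h x ∂μ) ^ 2 ≤ (∫⁻ x, f x ∂μ) * ∫⁻ x, g x ∂μ := by
  have h1 : ∀ x, h x ≤ f x ^ (1 / 2 : ℝ) * g x ^ (1 / 2 : ℝ) := by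
    intro x
    rw [← ENNReal.mul_rpow_of_nonneg _ _ (by norm_num : (0 : ℝ) ≤ 1 / 2)]
    calc h x = (h x ^ 2) ^ (1 / 2 : ℝ) := by
          rw [← ENNReal.rpow_natCast, ← ENNReal.rpow_mul]; norm_num
      _ ≤ _ := ENNReal.rpow_le_rpow (H x) (by norm_num)
  have h2 : ∫⁻ x, h x ∂μ ≤ (∫⁻ x, f x ∂μ) ^ (1 / 2 : ℝ) * (∫⁻ x, g x ∂μ) ^ (1 / 2 : ℝ) :=
    (lintegral_mono h1).trans
      (ENNReal.lintegral_mul_norm_pow_le hf hg (by norm_num) (by norm_num) (by norm_num))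
  calc (∫⁻ x, h x ∂μ) ^ 2 ≤ ((∫⁻ x, f x ∂μ) ^ (1 / 2 : ℝ) * (∫⁻ x, g x ∂μ) ^ (1 / 2 : ℝ)) ^ 2 := by
        gcongr
    _ = _ := by
        rw [mul_pow]
        simp only [← ENNReal.rpow_natCast, ← ENNReal.rpow_mul]
        norm_num

lemma enorm_add_sq_le {θ : ℝ} (hθ : 0 < θ) (a b : ℝ) :
    ‖a + b‖ₑ ^ 2 ≤ ENNReal.ofReal (1 + θ) * ‖a‖ₑ ^ 2 + ENNReal.ofReal (1 + θ⁻¹) * ‖b‖ₑ ^ 2 := by
  have h1 : ∀ c : ℝ, ‖c‖ₑ ^ 2 = ENNReal.ofReal (c ^ 2) := by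
    intro c
    rw [Real.enorm_eq_ofReal_abs, ← ENNReal.ofReal_pow (abs_nonneg c), sq_abs]
  have hθ' : 0 < θ⁻¹ := inv_pos.2 hθ
  rw [h1, h1, h1, ← ENNReal.ofReal_mul (by linarith), ← ENNReal.ofReal_mul (by linarith),
    ← ENNReal.ofReal_add (by positivity) (by positivity)]
  apply ENNReal.ofReal_le_ofReal
  have h2 : 0 ≤ (Real.sqrt θ * a - (Real.sqrt θ)⁻¹ * b) ^ 2 := sq_nonneg _
  have h3 : (Real.sqrt θ) ^ 2 = θ := Real.sq_sqrt hθ.le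
  have h4 : Real.sqrt θ * (Real.sqrt θ)⁻¹ = 1 := mul_inv_cancel₀ (Real.sqrt_pos.2 hθ).ne'
  have h5 : ((Real.sqrt θ)⁻¹) ^ 2 = θ⁻¹ := by rw [inv_pow, h3]
  have h6 : (Real.sqrt θ * a - (Real.sqrt θ)⁻¹ * b) ^ 2 = θ * a ^ 2 - 2 * a * b + θ⁻¹ * b ^ 2 := by
    calc _ = (Real.sqrt θ) ^ 2 * a ^ 2 - 2 * (Real.sqrt θ * (Real.sqrt θ)⁻¹) * a * b +
          ((Real.sqrt θ)⁻¹) ^ 2 * b ^ 2 := by ring
      _ = _ := by rw [h3, h4, h5]; ring
  rw [h6] at h2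
  nlinarith

lemma enorm_sq_eq (c : ℝ) : ‖c‖ₑ ^ 2 = ENNReal.ofReal (c ^ 2) := by
  rw [Real.enorm_eq_ofReal_abs, ← ENNReal.ofReal_pow (abs_nonneg c), sq_abs]

/-- `(∑ a_i)² ≤ N ∑ a_i²` when at most `N` of the `a_i` are nonzero -/
lemma enorm_sum_sq_le {ι : Type*} (s : Finset ι) (a : ι → ℝ) {N : ℕ}
    (hN : (s.filter fun i => a i ≠ 0).card ≤ N) :
    ‖∑ i ∈ s, a i‖ₑ ^ 2 ≤ N * ∑ i ∈ s, ‖a i‖ₑ ^ 2 := by
  classical
  have h1 : ∑ i ∈ s, a i = ∑ i ∈ s.filter (fun i => a i ≠ 0), a i :=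
    (Finset.sum_filter_ne_zero s).symm
  have h2 : ∑ i ∈ s, ‖a i‖ₑ ^ 2 = ∑ i ∈ s.filter (fun i => a i ≠ 0), ‖a i‖ₑ ^ 2 := by
    symm
    apply Finset.sum_subset (Finset.filter_subset _ _)
    intro i _ hi
    simp only [Finset.mem_filter, not_and, not_not] at hi
    rw [hi ‹_›]; simp
  rw [h1, h2]
  set t := s.filter (fun i => a i ≠ 0)
  simp only [enorm_sq_eq]
  rw [← ENNReal.ofReal_sum_of_nonneg (fun i _ => sq_nonneg _)]
  rw [show (N : ℝ≥0∞) = ENNReal.ofReal (N : ℝ) by simp, ← ENNReal.ofReal_mul (by positivity)]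
  apply ENNReal.ofReal_le_ofReal
  calc (∑ i ∈ t, a i) ^ 2 ≤ t.card * ∑ i ∈ t, a i ^ 2 := sq_sum_le_card_mul_sum_sq
    _ ≤ N * ∑ i ∈ t, a i ^ 2 := by
        apply mul_le_mul_of_nonneg_right (by exact_mod_cast hN)
        exact Finset.sum_nonneg fun i _ => sq_nonneg _

end CS

/-- the scaled kernel `χ_r` -/
noncomputable def kr (r : ℝ) (y : Plane) : ℝ := chi (r⁻¹ • y)

lemma kr_nonneg (r : ℝ) (y : Plane) : 0 ≤ kr r y := chi_nonneg _

lemma kr_zero {r : ℝ} (hr : 0 < r) {y : Plane} (h : r ≤ ‖y‖) : kr r y = 0 := by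
  unfold kr
  apply chi_zero
  rw [norm_smul, norm_inv, Real.norm_eq_abs, abs_of_pos hr]
  rw [← div_eq_inv_mul, le_div_iff₀ hr]; linarith

lemma kr_neg (r : ℝ) (y : Plane) : kr r (-y) = kr r y := by
  unfold kr
  apply chi_radial
  simp [norm_smul]

lemma kr_continuous (r : ℝ) : Continuous (kr r) := by
  unfold kr
  exact chi_continuous.comp (continuous_const_smul r⁻¹)

lemma kr_measurable2 : Measurable (Function.uncurry kr) := by
  unfold kr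
  exact chi_continuous.measurable.comp (by fun_prop)

lemma kr_measurable3 :
    Measurable fun q : (ℝ × Plane) × Plane => kr q.1.1 (q.1.2 - q.2) := by
  have h1 : Measurable fun q : (ℝ × Plane) × Plane => (q.1.1, q.1.2 - q.2) := by fun_prop
  have h2 := kr_measurable2.comp h1
  simp only [Function.comp_def, Function.uncurry] at h2
  exact h2

/-- `∫ χ` -/
noncomputable def c1 : ℝ := ∫ x, chi x

lemma c1_pos : 0 < c1 := integral_chi_pos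

lemma lintegral_kr_sq {r : ℝ} (hr : 0 < r) (x : Plane) :
    ∫⁻ z, ‖kr r (z - x)‖ₑ ^ 2 = ENNReal.ofReal (r ^ 2 / (2 * Real.pi)) := by
  rw [lintegral_sub_right_eq_self (fun z => ‖kr r z‖ₑ ^ 2) x]
  simp only [enorm_sq_eq]
  have h1 : (fun z => kr r z ^ 2) = fun z => (fun y => chi y ^ 2) (r⁻¹ • z) := rfl
  have h2 : Integrable (fun z => kr r z ^ 2) := by
    rw [h1]
    exact chi_sq_integrable.comp_smul (inv_ne_zero hr.ne')
  rw [← ofReal_integral_eq_lintegral_ofReal h2 (Filter.Eventually.of_forall fun _ => sq_nonneg _)]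
  congr 1
  rw [h1]
  have h4 := Measure.integral_comp_inv_smul_of_nonneg (volume : Measure Plane)
    (fun y => chi y ^ 2) hr.le
  rw [h4, integral_chi_sq, finrank_plane]
  simp [div_eq_mul_inv]

lemma lintegral_kr {r : ℝ} (hr : 0 < r) (x : Plane) :
    ∫⁻ z, ‖kr r (z - x)‖ₑ = ENNReal.ofReal (r ^ 2 * c1) := by
  rw [lintegral_sub_right_eq_self (fun z => ‖kr r z‖ₑ) x]
  have h2 : Integrable (fun z => kr r z) := by
    exact chi_integrable.comp_smul (inv_ne_zero hr.ne')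
  have h3 : ∀ z, ‖kr r z‖ₑ = ENNReal.ofReal (kr r z) := by
    intro z; rw [Real.enorm_eq_ofReal_abs, abs_of_nonneg (kr_nonneg r z)]
  simp only [h3]
  rw [← ofReal_integral_eq_lintegral_ofReal h2 (Filter.Eventually.of_forall fun _ => kr_nonneg _ _)]
  congr 1
  unfold kr
  rw [Measure.integral_comp_inv_smul_of_nonneg volume _ hr.le, finrank_plane]
  simp [c1]

lemma lintegral_kr' {r : ℝ} (hr : 0 < r) (z : Plane) :
    ∫⁻ x, ‖kr r (z - x)‖ₑ = ENNReal.ofReal (r ^ 2 * c1) := by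
  rw [← lintegral_kr hr z]
  congr 1; ext x
  rw [← kr_neg, neg_sub]

/-- `(T w)(r,z) = ∫ χ((z-x)/r) w(x) dμ(x)` -/
noncomputable def T (μ : Measure Plane) (w : Plane → ℝ) (r : ℝ) (z : Plane) : ℝ :=
  ∫ x, kr r (z - x) * w x ∂μ

/-- `Q(w) = ∫ (T w)(r,z)² dz` -/
noncomputable def Q (μ : Measure Plane) (w : Plane → ℝ) (r : ℝ) : ℝ≥0∞ :=
  ∫⁻ z, ‖T μ w r z‖ₑ ^ 2

variable {μ : Measure Plane}

lemma T_measurable [SFinite μ] {w : Plane → ℝ} (hw : Measurable w) :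
    Measurable (Function.uncurry (T μ w)) := by
  have h1 : Measurable fun q : (ℝ × Plane) × Plane => kr q.1.1 (q.1.2 - q.2) * w q.2 := by
    exact kr_measurable3.mul (hw.comp measurable_snd)
  exact (h1.stronglyMeasurable.integral_prod_right' (ν := μ)).measurable

lemma T_measurable' [SFinite μ] {w : Plane → ℝ} (hw : Measurable w) (r : ℝ) :
    Measurable (T μ w r) := (T_measurable (μ := μ) hw).of_uncurry_left

lemma kr_diff_measurable (r : ℝ) : Measurable fun p : Plane × Plane => ‖kr r (p.1 - p.2)‖ₑ :=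
  ((kr_continuous r).measurable.comp
    (by fun_prop : Measurable fun p : Plane × Plane => p.1 - p.2)).enorm

lemma kr_diff_measurable' (r : ℝ) (z : Plane) : Measurable fun x : Plane => ‖kr r (z - x)‖ₑ :=
  ((kr_continuous r).measurable.comp
    (by fun_prop : Measurable fun x : Plane => z - x)).enorm

lemma kr_diff_measurable'' (r : ℝ) (x : Plane) : Measurable fun z : Plane => ‖kr r (z - x)‖ₑ :=
  ((kr_continuous r).measurable.comp
    (by fun_prop : Measurable fun z : Plane => z - x)).enorm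

lemma Q_measurable [SFinite μ] {w : Plane → ℝ} (hw : Measurable w) :
    Measurable (Q μ w) := by
  unfold Q
  apply Measurable.lintegral_prod_right' (f := fun p : ℝ × Plane => ‖T μ w p.1 p.2‖ₑ ^ 2)
  exact (T_measurable (μ := μ) hw).enorm.pow_const 2

lemma Q_add_le [SFinite μ] {w v : Plane → ℝ} (hw : Measurable w) {θ : ℝ} (hθ : 0 < θ) {r : ℝ}
    (h : ∀ z, T μ (fun x => w x + v x) r z = T μ w r z + T μ v r z) :
    Q μ (fun x => w x + v x) r ≤ ENNReal.ofReal (1 + θ) * Q μ w r +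
      ENNReal.ofReal (1 + θ⁻¹) * Q μ v r := by
  unfold Q
  calc ∫⁻ z, ‖T μ (fun x => w x + v x) r z‖ₑ ^ 2
      ≤ ∫⁻ z, (ENNReal.ofReal (1 + θ) * ‖T μ w r z‖ₑ ^ 2 +
          ENNReal.ofReal (1 + θ⁻¹) * ‖T μ v r z‖ₑ ^ 2) := by
        apply lintegral_mono
        intro z
        simp only
        rw [h z]
        exact enorm_add_sq_le hθ _ _
    _ = _ := by
        rw [lintegral_add_left]
        · rw [lintegral_const_mul' _ _ ENNReal.ofReal_ne_top,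
            lintegral_const_mul' _ _ ENNReal.ofReal_ne_top]
        · exact ((T_measurable' hw r).enorm.pow_const 2).const_mul _

/-- weighted Cauchy–Schwarz bound for a single block -/
lemma Q_block_le [SFinite μ] {w : Plane → ℝ} (hw : Measurable w) {ρ : Plane → ℝ≥0∞}
    (hρ : Measurable ρ) {S : Set Plane}
    (hρ0 : ∀ x ∈ S, ρ x ≠ 0) (hρt : ∀ x ∈ S, ρ x ≠ ⊤) (hS : MeasurableSet S)
    (hwS : ∀ x, x ∉ S → w x = 0) {r : ℝ} (hr : 0 < r) :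
    Q μ w r ≤ ENNReal.ofReal (r ^ 2 / (2 * Real.pi)) * ((∫⁻ x in S, ρ x ∂μ) *
      ∫⁻ x in S, (ρ x)⁻¹ * ‖w x‖ₑ ^ 2 ∂μ) := by
  have hk : Measurable fun p : Plane × Plane => ‖kr r (p.1 - p.2)‖ₑ ^ 2 * ((ρ p.2)⁻¹ * ‖w p.2‖ₑ ^ 2) := by
    exact ((kr_diff_measurable r).pow_const 2).mul
      (((hρ.comp measurable_snd).inv).mul ((hw.comp measurable_snd).enorm.pow_const 2))
  have h1 : ∀ z, ‖T μ w r z‖ₑ ^ 2 ≤ (∫⁻ x in S, ρ x ∂μ) *
      ∫⁻ x in S, ‖kr r (z - x)‖ₑ ^ 2 * ((ρ x)⁻¹ * ‖w x‖ₑ ^ 2) ∂μ := by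
    intro z
    have h2 : ‖T μ w r z‖ₑ ≤ ∫⁻ x in S, ‖kr r (z - x) * w x‖ₑ ∂μ := by
      unfold T
      have h3 : ∫ x, kr r (z - x) * w x ∂μ = ∫ x in S, kr r (z - x) * w x ∂μ := by
        rw [setIntegral_eq_integral_of_forall_compl_eq_zero]
        intro x hx
        rw [hwS x hx, mul_zero]
      rw [h3]
      exact enorm_integral_le_lintegral_enorm _
    have h4 : ∫⁻ x in S, ‖kr r (z - x) * w x‖ₑ ∂μ = ∫⁻ x in S, S.indicator (fun x => ‖kr r (z - x) * w x‖ₑ) x ∂μ := by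
      apply setLIntegral_congr_fun hS
      intro x hx
      simp [hx]
    refine (pow_le_pow_left' h2 2).trans ?_
    rw [h4]
    apply cs_lintegral hρ.aemeasurable
    · exact (((kr_diff_measurable' r z).pow_const 2).mul
        ((hρ.inv).mul (hw.enorm.pow_const 2))).aemeasurable
    · intro x
      by_cases hx : x ∈ S
      · simp only [hx, indicator_of_mem, enorm_mul, mul_pow]
        calc ‖kr r (z - x)‖ₑ ^ 2 * ‖w x‖ₑ ^ 2 = (ρ x * (ρ x)⁻¹) * (‖kr r (z - x)‖ₑ ^ 2 * ‖w x‖ₑ ^ 2) := by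
              rw [ENNReal.mul_inv_cancel (hρ0 x hx) (hρt x hx), one_mul]
          _ ≤ _ := le_of_eq (by ring)
      · simp [hx]
  unfold Q
  calc ∫⁻ z, ‖T μ w r z‖ₑ ^ 2 ≤ ∫⁻ z, (∫⁻ x in S, ρ x ∂μ) *
      ∫⁻ x in S, ‖kr r (z - x)‖ₑ ^ 2 * ((ρ x)⁻¹ * ‖w x‖ₑ ^ 2) ∂μ := lintegral_mono h1
    _ = (∫⁻ x in S, ρ x ∂μ) * ∫⁻ z, ∫⁻ x in S, ‖kr r (z - x)‖ₑ ^ 2 * ((ρ x)⁻¹ * ‖w x‖ₑ ^ 2) ∂μ := by
        rw [lintegral_const_mul]
        exact hk.lintegral_prod_right'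
    _ = (∫⁻ x in S, ρ x ∂μ) * ∫⁻ x in S, (∫⁻ z, ‖kr r (z - x)‖ₑ ^ 2 * ((ρ x)⁻¹ * ‖w x‖ₑ ^ 2)) ∂μ := by
        congr 1
        exact lintegral_lintegral_swap (f := fun z x => ‖kr r (z - x)‖ₑ ^ 2 * ((ρ x)⁻¹ * ‖w x‖ₑ ^ 2))
          hk.aemeasurable
    _ = (∫⁻ x in S, ρ x ∂μ) * ∫⁻ x in S, ENNReal.ofReal (r ^ 2 / (2 * Real.pi)) * ((ρ x)⁻¹ * ‖w x‖ₑ ^ 2) ∂μ := by
        congr 1
        refine lintegral_congr fun x => ?_
        rw [lintegral_mul_const _ ((kr_diff_measurable'' r x).pow_const 2), lintegral_kr_sq hr]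
    _ = _ := by
        rw [lintegral_const_mul' _ _ ENNReal.ofReal_ne_top]
        ring

/-- unweighted block bound -/
lemma Q_block_le' [SFinite μ] {w : Plane → ℝ} (hw : Measurable w) {S : Set Plane}
    (hS : MeasurableSet S) (hwS : ∀ x, x ∉ S → w x = 0) {r : ℝ} (hr : 0 < r) :
    Q μ w r ≤ ENNReal.ofReal (r ^ 2 / (2 * Real.pi)) * (μ S * ∫⁻ x in S, ‖w x‖ₑ ^ 2 ∂μ) := by
  have := Q_block_le (μ := μ) hw (ρ := fun _ => 1) measurable_const (S := S) (by simp) (by simp)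
    hS hwS hr
  simpa using this

/-- `L²` bound with respect to Lebesgue measure -/
lemma Q_volume_le {g : Plane → ℝ} (hg : Measurable g) {r : ℝ} (hr : 0 < r) :
    Q volume g r ≤ ENNReal.ofReal (r ^ 4 * c1 ^ 2) * ∫⁻ x, ‖g x‖ₑ ^ 2 := by
  have hk : Measurable fun p : Plane × Plane => ‖kr r (p.1 - p.2)‖ₑ * ‖g p.2‖ₑ ^ 2 := by
    exact (kr_diff_measurable r).mul ((hg.comp measurable_snd).enorm.pow_const 2)
  have h1 : ∀ z, ‖T volume g r z‖ₑ ^ 2 ≤ ENNReal.ofReal (r ^ 2 * c1) *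
      ∫⁻ x, ‖kr r (z - x)‖ₑ * ‖g x‖ₑ ^ 2 := by
    intro z
    have h2 : ‖T volume g r z‖ₑ ≤ ∫⁻ x, ‖kr r (z - x) * g x‖ₑ := by
      unfold T
      exact enorm_integral_le_lintegral_enorm _
    refine (pow_le_pow_left' h2 2).trans ?_
    rw [← lintegral_kr' hr z]
    apply cs_lintegral
    · exact (kr_diff_measurable' r z).aemeasurable
    · exact ((kr_diff_measurable' r z).mul (hg.enorm.pow_const 2)).aemeasurable
    · intro x
      rw [enorm_mul]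
      exact le_of_eq (by ring)
  unfold Q
  calc ∫⁻ z, ‖T volume g r z‖ₑ ^ 2 ≤ ∫⁻ z, ENNReal.ofReal (r ^ 2 * c1) *
      ∫⁻ x, ‖kr r (z - x)‖ₑ * ‖g x‖ₑ ^ 2 := lintegral_mono h1
    _ = ENNReal.ofReal (r ^ 2 * c1) * ∫⁻ z, ∫⁻ x, ‖kr r (z - x)‖ₑ * ‖g x‖ₑ ^ 2 :=
        lintegral_const_mul' _ _ ENNReal.ofReal_ne_top
    _ = ENNReal.ofReal (r ^ 2 * c1) * ∫⁻ x, ∫⁻ z, ‖kr r (z - x)‖ₑ * ‖g x‖ₑ ^ 2 := by
        congr 1
        exact lintegral_lintegral_swap (f := fun z x => ‖kr r (z - x)‖ₑ * ‖g x‖ₑ ^ 2)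
          hk.aemeasurable
    _ = ENNReal.ofReal (r ^ 2 * c1) * ∫⁻ x, ENNReal.ofReal (r ^ 2 * c1) * ‖g x‖ₑ ^ 2 := by
        congr 1
        refine lintegral_congr fun x => ?_
        rw [lintegral_mul_const _ (kr_diff_measurable'' r x), lintegral_kr hr]
    _ = _ := by
        rw [lintegral_const_mul' _ _ ENNReal.ofReal_ne_top, ← mul_assoc]
        congr 1
        rw [← ENNReal.ofReal_mul (by have := c1_pos; positivity)]
        congr 1; ring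

end Pool.Agent.LT2
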