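import Pool.Agent.Lib.MP_50e96d_mp.ResolventL2

/-!
# The trace lemma: finitely many constraints make a trace class form small
-/

namespace Pool.Agent.LT2

open MeasureTheory Set Filter
open scoped ENNReal

section Abstract

variable {H : Type*} [NormedAddCommGroup H] [InnerProductSpace ℝ H]

theorem trace_abstract (B : H → ℝ≥0∞) (hB : ∀ (c : ℝ) f, B (c • f) = ‖c‖ₑ ^ 2 * B f)
    (τ : ℝ≥0∞) (hτ : τ ≠ ⊤)
    (htr : ∀ n (e : Fin n → H), Orthonormal ℝ e → ∑ i, B (e i) ≤ τ)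
    {θ : ℝ≥0∞} (hθ : θ ≠ 0) :
    ∃ (n : ℕ) (e : Fin n → H), (n : ℝ≥0∞) * θ ≤ τ ∧
      ∀ f, (∀ i, inner ℝ (e i) f = 0) → B f ≤ θ * ‖f‖ₑ ^ 2 := by
  classical
  let P : ℕ → Prop := fun n => ∃ e : Fin n → H, Orthonormal ℝ e ∧ ∀ i, θ < B (e i)
  have hbound : ∀ n, P n → (n : ℝ≥0∞) * θ ≤ τ := by
    rintro n ⟨e, he, hi⟩
    calc (n : ℝ≥0∞) * θ = ∑ _i : Fin n, θ := by simp
      _ ≤ ∑ i, B (e i) := Finset.sum_le_sum fun i _ => (hi i).le
      _ ≤ τ := htr n e he
  have hP0 : P 0 := by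
    refine ⟨Fin.elim0, ?_, fun i => i.elim0⟩
    constructor
    · exact fun i => i.elim0
    · exact fun i => i.elim0
  have hex : ∃ N : ℕ, ∀ n, P n → n ≤ N := by
    have h1 : τ / θ ≠ ⊤ := ENNReal.div_ne_top hτ hθ
    obtain ⟨N, hN⟩ := ENNReal.exists_nat_gt h1
    refine ⟨N, fun n hn => ?_⟩
    have h2 := hbound n hn
    have h3 : (n : ℝ≥0∞) ≤ τ / θ := by
      rw [ENNReal.le_div_iff_mul_le (Or.inl hθ) (Or.inr hτ)]
      exact h2
    have h4 : (n : ℝ≥0∞) < N := lt_of_le_of_lt h3 hN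
    exact_mod_cast h4.le
  obtain ⟨N, hN⟩ := hex
  obtain ⟨n, hn, hmax⟩ : ∃ n, P n ∧ ∀ m, P m → m ≤ n := by
    refine ⟨Nat.findGreatest P N, Nat.findGreatest_spec (Nat.zero_le N) hP0, fun m hm => ?_⟩
    exact Nat.le_findGreatest (hN m hm) hm
  obtain ⟨e, he, hi⟩ := hn
  refine ⟨n, e, hbound n ⟨e, he, hi⟩, fun f hf => ?_⟩
  by_contra hcon
  push Not at hcon
  have hf0 : f ≠ 0 := by
    rintro rfl
    have := hB 0 (0 : H)
    simp only [smul_zero] at this
    rw [this] at hcon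
    simp at hcon
  have hnorm : 0 < ‖f‖ := norm_pos_iff.2 hf0
  set g := ‖f‖⁻¹ • f with hg
  have hg1 : ‖g‖ = 1 := by
    rw [hg, norm_smul, norm_inv, norm_norm, inv_mul_cancel₀ hnorm.ne']
  have hBg : θ < B g := by
    rw [hg, hB]
    have h1 : ‖‖f‖⁻¹‖ₑ ^ 2 = (‖f‖ₑ ^ 2)⁻¹ := by
      rw [ENNReal.inv_pow]
      congr 1
      rw [Real.enorm_eq_ofReal_abs, abs_of_pos (inv_pos.2 hnorm), ENNReal.ofReal_inv_of_pos hnorm,
        ofReal_norm]
    rw [h1]
    have h2 : ‖f‖ₑ ^ 2 ≠ 0 := by simpa using hf0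
    have h3 : ‖f‖ₑ ^ 2 ≠ ⊤ := by simp
    rw [mul_comm, ← div_eq_mul_inv, ENNReal.lt_div_iff_mul_lt (Or.inl h2) (Or.inl h3)]
    exact hcon
  have hPn : P (n + 1) := by
    refine ⟨Fin.cons g e, ?_, ?_⟩
    · rw [orthonormal_iff_ite]
      intro i j
      refine Fin.cases ?_ (fun i => ?_) i <;> refine Fin.cases ?_ (fun j => ?_) j
      · simp only [Fin.cons_zero, if_true]
        rw [real_inner_self_eq_norm_sq, hg1]; norm_num
      · simp only [Fin.cons_zero, Fin.cons_succ]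
        rw [if_neg (Fin.succ_ne_zero j).symm, hg, inner_smul_left, real_inner_comm, hf j]
        simp
      · simp only [Fin.cons_zero, Fin.cons_succ]
        rw [if_neg (Fin.succ_ne_zero i), hg, inner_smul_right, hf i]
        simp
      · simp only [Fin.cons_succ, Fin.succ_inj]
        exact (orthonormal_iff_ite.1 he) i j
    · intro i
      refine Fin.cases ?_ (fun i => ?_) i
      · simpa using hBg
      · simpa using hi i
  have := hmax _ hPn
  omega

end Abstract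

variable {μ : Measure Plane}

lemma kr_bounded (r : ℝ) : ∃ C : ℝ, ∀ y, ‖kr r y‖ ≤ C := by
  obtain ⟨C, hC⟩ := chi_continuous.bounded_above_of_compact_support chi_hasCompactSupport
  exact ⟨C, fun y => hC _⟩

lemma memLp_kr_indicator [IsFiniteMeasure μ] {S : Set Plane} (hS : MeasurableSet S) (r : ℝ)
    (z : Plane) : MemLp (S.indicator fun x => kr r (z - x)) 2 μ := by
  apply MemLp.indicator hS
  obtain ⟨C, hC⟩ := kr_bounded r
  apply MemLp.of_bound _ C (Eventually.of_forall fun x => hC _)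
  exact ((kr_continuous r).comp (continuous_const.sub continuous_id)).aestronglyMeasurable

lemma T_indicator_eq_inner [IsFiniteMeasure μ] {S : Set Plane} (hS : MeasurableSet S) (r : ℝ)
    (z : Plane) (f : Lp ℝ 2 μ) :
    T μ (S.indicator f) r z = inner ℝ ((memLp_kr_indicator (μ := μ) hS r z).toLp _) f := by
  rw [MeasureTheory.L2.inner_def]
  unfold T
  apply integral_congr_ae
  filter_upwards [(memLp_kr_indicator (μ := μ) hS r z).coeFn_toLp] with x hx
  rw [hx]
  by_cases h : x ∈ S <;> simp [h, mul_comm]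

lemma bessel_T [IsFiniteMeasure μ] {S : Set Plane} (hS : MeasurableSet S) (r : ℝ)
    (z : Plane) {n : ℕ} (e : Fin n → Lp ℝ 2 μ) (he : Orthonormal ℝ e) :
    ∑ i, ‖T μ (S.indicator (e i)) r z‖ₑ ^ 2 ≤ ∫⁻ x in S, ‖kr r (z - x)‖ₑ ^ 2 ∂μ := by
  set v := (memLp_kr_indicator (μ := μ) hS r z).toLp _ with hv
  have h1 : ∑ i, ‖(inner ℝ (e i) v : ℝ)‖ ^ 2 ≤ ‖v‖ ^ 2 := he.sum_inner_products_le (s := Finset.univ) v
  have h2 : ∑ i, ‖T μ (S.indicator (e i)) r z‖ₑ ^ 2 = ENNReal.ofReal (∑ i, ‖(inner ℝ (e i) v : ℝ)‖ ^ 2) := by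
    rw [ENNReal.ofReal_sum_of_nonneg fun i _ => sq_nonneg _]
    apply Finset.sum_congr rfl
    intro i _
    rw [T_indicator_eq_inner hS, real_inner_comm, ENNReal.ofReal_pow (norm_nonneg _), ofReal_norm]
  rw [h2]
  refine (ENNReal.ofReal_le_ofReal h1).trans (le_of_eq ?_)
  rw [ENNReal.ofReal_pow (norm_nonneg _), ofReal_norm]
  have h3 : ‖v‖ₑ = eLpNorm (S.indicator fun x => kr r (z - x)) 2 μ := by
    rw [hv, Lp.enorm_toLp]
  rw [h3, eLpNorm_eq_lintegral_rpow_enorm_toReal (by norm_num) (by norm_num), ← ENNReal.rpow_natCast,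
    ← ENNReal.rpow_mul]
  simp only [ENNReal.toReal_ofNat, one_div, Nat.cast_ofNat, isUnit_iff_ne_zero, ne_eq,
    OfNat.ofNat_ne_zero, not_false_eq_true, IsUnit.inv_mul_cancel, ENNReal.rpow_one,
    ENNReal.rpow_ofNat]
  rw [← lintegral_indicator hS]
  apply lintegral_congr
  intro x
  by_cases h : x ∈ S <;> simp [h]

/-- the sum form `B(f) = ∑_k ∫_{a_k}^{b_k} Q(f 1_{S_k})(r) r^{-3} dr` -/
noncomputable def BB (μ : Measure Plane) (K : Finset ℕ) (a b : ℕ → ℝ) (S : ℕ → Set Plane)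
    (f : Plane → ℝ) : ℝ≥0∞ :=
  ∑ k ∈ K, ∫⁻ r in Ioc (a k) (b k), ENNReal.ofReal ((r ^ 3)⁻¹) * Q μ ((S k).indicator f) r

lemma T_congr {w v : Plane → ℝ} (h : w =ᵐ[μ] v) (r : ℝ) (z : Plane) : T μ w r z = T μ v r z := by
  unfold T
  apply integral_congr_ae
  filter_upwards [h] with x hx
  rw [hx]

lemma Q_congr {w v : Plane → ℝ} (h : w =ᵐ[μ] v) (r : ℝ) : Q μ w r = Q μ v r := by
  unfold Q
  simp only [T_congr h]

lemma BB_congr {K : Finset ℕ} {a b : ℕ → ℝ} {S : ℕ → Set Plane} {f g : Plane → ℝ}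
    (h : f =ᵐ[μ] g) : BB μ K a b S f = BB μ K a b S g := by
  unfold BB
  have : ∀ k r, Q μ ((S k).indicator f) r = Q μ ((S k).indicator g) r := by
    intro k r
    apply Q_congr
    filter_upwards [h] with x hx
    by_cases h : x ∈ S k <;> simp [h, hx]
  simp only [this]

lemma T_smul (c : ℝ) (w : Plane → ℝ) (r : ℝ) (z : Plane) :
    T μ (fun x => c * w x) r z = c * T μ w r z := by
  unfold T
  rw [← integral_const_mul]
  congr 1; ext x; ring

lemma Q_smul (c : ℝ) (w : Plane → ℝ) (r : ℝ) :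
    Q μ (fun x => c * w x) r = ‖c‖ₑ ^ 2 * Q μ w r := by
  unfold Q
  rw [← lintegral_const_mul' _ _ (by simp)]
  congr 1; ext z
  rw [T_smul, enorm_mul, mul_pow]

lemma BB_smul (K : Finset ℕ) (a b : ℕ → ℝ) (S : ℕ → Set Plane) (c : ℝ) (f : Plane → ℝ) :
    BB μ K a b S (fun x => c * f x) = ‖c‖ₑ ^ 2 * BB μ K a b S f := by
  unfold BB
  rw [Finset.mul_sum]
  apply Finset.sum_congr rfl
  intro k _
  rw [← lintegral_const_mul' _ _ (by simp)]
  congr 1; ext r
  have : ((S k).indicator fun x => c * f x) = fun x => c * (S k).indicator f x := by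
    ext x; by_cases h : x ∈ S k <;> simp [h]
  rw [this, Q_smul]
  ring

lemma lintegral_inv {a b : ℝ} (ha : 0 < a) (hab : a ≤ b) :
    ∫⁻ r in Ioc a b, ENNReal.ofReal r⁻¹ = ENNReal.ofReal (Real.log (b / a)) := by
  rw [← ofReal_integral_eq_lintegral_ofReal]
  · rw [← intervalIntegral.integral_of_le hab, integral_inv_of_pos ha (lt_of_lt_of_le ha hab)]
  · have : ContinuousOn (fun r : ℝ => r⁻¹) (Icc a b) :=
      continuousOn_inv₀.mono fun x hx => (lt_of_lt_of_le ha hx.1).ne'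
    exact (this.integrableOn_Icc (μ := volume)).mono_set Ioc_subset_Icc_self
  · filter_upwards [self_mem_ae_restrict measurableSet_Ioc] with r hr
    exact (inv_pos.2 (lt_trans ha hr.1)).le

lemma BB_trace [IsFiniteMeasure μ] (K : Finset ℕ) {a b : ℕ → ℝ} (ha : ∀ k, 0 < a k)
    (hab : ∀ k, a k ≤ b k) {S : ℕ → Set Plane} (hS : ∀ k, MeasurableSet (S k)) {n : ℕ}
    (e : Fin n → Lp ℝ 2 μ) (he : Orthonormal ℝ e) :
    ∑ i, BB μ K a b S (e i) ≤
      ∑ k ∈ K, ENNReal.ofReal (Real.log (b k / a k) / (2 * Real.pi)) * μ (S k) := by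
  unfold BB
  rw [Finset.sum_comm]
  apply Finset.sum_le_sum
  intro k _
  have hpi := Real.pi_pos
  have hm : ∀ i, Measurable ((S k).indicator (e i)) := fun i =>
    (Lp.stronglyMeasurable (e i)).measurable.indicator (hS k)
  have hmr : Measurable fun r : ℝ => ENNReal.ofReal ((r ^ 3)⁻¹) :=
    (by fun_prop : Measurable fun r : ℝ => (r ^ 3)⁻¹).ennreal_ofReal
  rw [← lintegral_finsetSum]
  · calc ∫⁻ r in Ioc (a k) (b k), ∑ i, ENNReal.ofReal ((r ^ 3)⁻¹) * Q μ ((S k).indicator (e i)) r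
        ≤ ∫⁻ r in Ioc (a k) (b k), ENNReal.ofReal (r⁻¹) * (ENNReal.ofReal (1 / (2 * Real.pi)) * μ (S k)) := by
          apply setLIntegral_mono' measurableSet_Ioc
          intro r hr
          have hr0 : 0 < r := lt_trans (ha k) hr.1
          rw [← Finset.mul_sum]
          have h1 : ∑ i, Q μ ((S k).indicator (e i)) r ≤ ENNReal.ofReal (r ^ 2 / (2 * Real.pi)) * μ (S k) := by
            unfold Q
            rw [← lintegral_finsetSum]
            · calc ∫⁻ z, ∑ i, ‖T μ ((S k).indicator (e i)) r z‖ₑ ^ 2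
                  ≤ ∫⁻ z, ∫⁻ x in S k, ‖kr r (z - x)‖ₑ ^ 2 ∂μ :=
                    lintegral_mono fun z => bessel_T (hS k) r z e he
                _ = ∫⁻ x in S k, (∫⁻ z, ‖kr r (z - x)‖ₑ ^ 2) ∂μ :=
                    lintegral_lintegral_swap (f := fun z x => ‖kr r (z - x)‖ₑ ^ 2)
                      ((kr_diff_measurable r).pow_const 2).aemeasurable
                _ = _ := by
                    simp only [lintegral_kr_sq hr0]
                    rw [lintegral_const, Measure.restrict_apply_univ]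
            · intro i _
              exact (T_measurable' (hm i) r).enorm.pow_const 2
          calc ENNReal.ofReal ((r ^ 3)⁻¹) * ∑ i, Q μ ((S k).indicator (e i)) r
              ≤ ENNReal.ofReal ((r ^ 3)⁻¹) * (ENNReal.ofReal (r ^ 2 / (2 * Real.pi)) * μ (S k)) := by
                gcongr
            _ = ENNReal.ofReal (r⁻¹) * (ENNReal.ofReal (1 / (2 * Real.pi)) * μ (S k)) := by
                rw [← mul_assoc, ← mul_assoc, ← ENNReal.ofReal_mul (by positivity),
                  ← ENNReal.ofReal_mul (by positivity)]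
                congr 2
                field_simp
      _ = _ := by
          rw [lintegral_mul_const _ (by fun_prop : Measurable fun r : ℝ => r⁻¹).ennreal_ofReal,
            lintegral_inv (ha k) (hab k), ← mul_assoc, ← ENNReal.ofReal_mul]
          · congr 2; ring
          · apply Real.log_nonneg
            rw [le_div_iff₀ (ha k), one_mul]
            exact hab k
  · intro i _
    exact hmr.mul (Q_measurable (hm i))

/-- **The trace lemma** for the square functions. -/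
theorem trace_lemma [IsFiniteMeasure μ] (K : Finset ℕ) {a b : ℕ → ℝ} (ha : ∀ k, 0 < a k)
    (hab : ∀ k, a k ≤ b k) {S : ℕ → Set Plane} (hS : ∀ k, MeasurableSet (S k)) {θ : ℝ≥0∞}
    (hθ : θ ≠ 0) :
    ∃ (n : ℕ) (φ : Fin n → Plane → ℝ), (∀ i, Measurable (φ i) ∧ MemLp (φ i) 2 μ) ∧
      (n : ℝ≥0∞) * θ ≤ ∑ k ∈ K, ENNReal.ofReal (Real.log (b k / a k) / (2 * Real.pi)) * μ (S k) ∧
      ∀ u : Plane → ℝ, MemLp u 2 μ → (∀ i, ∫ x, φ i x * u x ∂μ = 0) →
        BB μ K a b S u ≤ θ * ∫⁻ x, ‖u x‖ₑ ^ 2 ∂μ := by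
  obtain ⟨n, e, hn, he⟩ := trace_abstract (H := Lp ℝ 2 μ) (fun f => BB μ K a b S f)
    (fun c f => by
      rw [← BB_smul]
      apply BB_congr
      filter_upwards [Lp.coeFn_smul c f] with x hx
      rw [hx]; simp)
    (∑ k ∈ K, ENNReal.ofReal (Real.log (b k / a k) / (2 * Real.pi)) * μ (S k))
    (by
      rw [ENNReal.sum_ne_top]
      intro k _
      exact ENNReal.mul_ne_top ENNReal.ofReal_ne_top (measure_ne_top μ _))
    (fun n e he => BB_trace K ha hab hS e he) hθ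
  refine ⟨n, fun i => (e i : Plane → ℝ), fun i => ⟨(Lp.stronglyMeasurable (e i)).measurable, Lp.memLp (e i)⟩,
    hn, fun u hu hi => ?_⟩
  have h1 := he (hu.toLp u) (fun i => by
    rw [MeasureTheory.L2.inner_def, ← hi i]
    apply integral_congr_ae
    filter_upwards [hu.coeFn_toLp] with x hx
    rw [hx]; simp [mul_comm])
  rw [BB_congr hu.coeFn_toLp] at h1
  refine h1.trans (le_of_eq ?_)
  congr 1
  rw [Lp.enorm_toLp, eLpNorm_eq_lintegral_rpow_enorm_toReal (by norm_num) (by norm_num),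
    ← ENNReal.rpow_natCast, ← ENNReal.rpow_mul]
  simp

end Pool.Agent.LT2
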