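import Pool.Agent.Lib.MP_50e96d_mp.Params

/-!
# From nice potentials to all potentials
-/

namespace Pool.Agent.LT2

open MeasureTheory Set Filter Topology
open scoped ENNReal

/-- the negative part -/
noncomputable def npart (V : Plane → ℝ) (x : Plane) : ℝ := max (-V x) 0

open Classical in
/-- truncation of the negative part -/
noncomputable def Wk (V : Plane → ℝ) (k : ℕ) (x : Plane) : ℝ :=
  if 1 / ((k : ℝ) + 1) ≤ npart V x ∧ npart V x ≤ (k : ℝ) + 1 ∧ ‖x‖ ≤ (k : ℝ) + 1 then npart V x else 0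

lemma npart_nonneg (V : Plane → ℝ) (x : Plane) : 0 ≤ npart V x := le_max_right _ _

lemma npart_measurable {V : Plane → ℝ} (hV : Measurable V) : Measurable (npart V) :=
  hV.neg.max measurable_const

lemma Wk_nonneg (V : Plane → ℝ) (k : ℕ) (x : Plane) : 0 ≤ Wk V k x := by
  unfold Wk; split_ifs
  · exact npart_nonneg V x
  · exact le_rfl

lemma Wk_le (V : Plane → ℝ) (k : ℕ) (x : Plane) : Wk V k x ≤ npart V x := by
  unfold Wk; split_ifs
  · exact le_rfl
  · exact npart_nonneg V x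

lemma Wk_mono (V : Plane → ℝ) {k l : ℕ} (h : k ≤ l) (x : Plane) : Wk V k x ≤ Wk V l x := by
  have hkl : (k : ℝ) ≤ l := by exact_mod_cast h
  unfold Wk
  split_ifs with h1 h2
  · exact le_rfl
  · exfalso
    apply h2
    obtain ⟨a1, a2, a3⟩ := h1
    refine ⟨le_trans ?_ a1, by linarith, by linarith⟩
    have : (0 : ℝ) ≤ k := Nat.cast_nonneg _
    gcongr
  · exact npart_nonneg V x
  · exact le_rfl

lemma Wk_tendsto (V : Plane → ℝ) (x : Plane) : ∀ᶠ k in atTop, Wk V k x = npart V x := by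
  rcases (npart_nonneg V x).eq_or_lt with h | h
  · filter_upwards with k
    unfold Wk; split_ifs
    · rfl
    · exact h
  · have h1 : ∀ᶠ k : ℕ in atTop, 1 / npart V x ≤ k := tendsto_natCast_atTop_atTop.eventually_ge_atTop _
    have h2 : ∀ᶠ k : ℕ in atTop, npart V x ≤ k := tendsto_natCast_atTop_atTop.eventually_ge_atTop _
    have h3 : ∀ᶠ k : ℕ in atTop, ‖x‖ ≤ k := tendsto_natCast_atTop_atTop.eventually_ge_atTop _
    filter_upwards [h1, h2, h3] with k g1 g2 g3
    unfold Wk
    rw [if_pos]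
    refine ⟨?_, by linarith, by linarith⟩
    have : (0 : ℝ) ≤ k := Nat.cast_nonneg _
    rw [div_le_iff₀ h] at g1
    rw [div_le_iff₀ (by linarith)]
    nlinarith

lemma Wk_nice {V : Plane → ℝ} (hV : Measurable V) (k : ℕ) : Nice (Wk V k) where
  meas := by
    unfold Wk
    apply Measurable.ite _ (npart_measurable hV) measurable_const
    exact (measurableSet_le measurable_const (npart_measurable hV)).inter
      ((measurableSet_le (npart_measurable hV) measurable_const).inter
        (measurableSet_le measurable_norm measurable_const))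
  nonneg := Wk_nonneg V k
  lower := by
    refine ⟨1 / ((k : ℝ) + 1), by positivity, fun x hx => ?_⟩
    unfold Wk at hx ⊢
    split_ifs at hx ⊢ with h
    · exact h.1
    · exact absurd rfl hx
  upper := by
    refine ⟨(k : ℝ) + 1, fun x => ?_⟩
    unfold Wk
    split_ifs with h
    · exact h.2.1
    · positivity
  supp := by
    refine ⟨(k : ℝ) + 1, fun x hx => ?_⟩
    unfold Wk at hx
    split_ifs at hx with h
    · exact h.2.2
    · exact absurd rfl hx

/-- local integrability against test functions -/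
lemma loc_integrable {V : Plane → ℝ} (hV : LocallyIntegrable V) {u : Plane → ℂ} (hu : IsTest u) :
    Integrable fun x => V x * ‖u x‖ ^ 2 := by
  have h1 : Continuous fun x => ‖u x‖ ^ 2 := hu.1.continuous.norm.pow 2
  have h2 : HasCompactSupport fun x => ‖u x‖ ^ 2 :=
    hu.2.comp_left (g := fun t : ℂ => ‖t‖ ^ 2) (by simp)
  have := hV.integrable_smul_left_of_hasCompactSupport h1 h2
  simpa [mul_comm] using this

lemma form_mono {V1 V2 : Plane → ℝ} (h1 : LocallyIntegrable V1) (h2 : LocallyIntegrable V2)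
    (h : ∀ᵐ x, V1 x ≤ V2 x) {u : Plane → ℂ} (hu : IsTest u) : form V1 u ≤ form V2 u := by
  unfold form
  gcongr 1
  apply integral_mono_ae (loc_integrable h1 hu) (loc_integrable h2 hu)
  filter_upwards [h] with x hx
  gcongr

lemma minmax_mono {V1 V2 : Plane → ℝ} (h1 : LocallyIntegrable V1) (h2 : LocallyIntegrable V2)
    (h : ∀ᵐ x, V1 x ≤ V2 x) (n : ℕ) : minmax V1 n ≤ minmax V2 n := by
  unfold minmax
  apply iInf_mono
  intro F
  apply iSup_mono
  intro u
  exact EReal.coe_le_coe_iff.2 (form_mono h1 h2 h (F.2.1 _ u.2.1))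

/-- uniform smallness on finite-dimensional spaces of test functions -/
lemma uniform_small {g : ℕ → Plane → ℝ} {G : Plane → ℝ} (hg : ∀ k, AEStronglyMeasurable (g k) volume)
    (hG : LocallyIntegrable G) (hg0 : ∀ k x, 0 ≤ g k x) (hgG : ∀ k x, ‖g k x‖ ≤ G x)
    (hlim : ∀ x, Tendsto (fun k => g k x) atTop (𝓝 0))
    {F : Submodule ℂ (Plane → ℂ)} (hF : ∀ u ∈ F, IsTest u) [FiniteDimensional ℂ F] {τ : ℝ} (hτ : 0 < τ) :
    ∃ k, ∀ u ∈ F, ∫ x, g k x * ‖u x‖ ^ 2 ≤ τ * ∫ x, ‖u x‖ ^ 2 := by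
  classical
  set n := Module.finrank ℂ F with hn
  let b := Module.finBasis ℂ F
  have hmem : ∀ u ∈ F, MemLp u 2 volume := fun u hu =>
    (hF u hu).1.continuous.memLp_of_hasCompactSupport (hF u hu).2
  let T0 : F →ₗ[ℂ] Lp ℂ 2 (volume : Measure Plane) :=
    { toFun := fun u => (hmem u.1 u.2).toLp u.1
      map_add' := fun u v => rfl
      map_smul' := fun c u => rfl }
  have hT0 : ∀ u : F, ‖T0 u‖ ^ 2 = ∫ x, ‖u.1 x‖ ^ 2 := by
    intro u
    have h1 : ‖T0 u‖ = (eLpNorm u.1 2 volume).toReal := Lp.norm_toLp _ (hmem u.1 u.2)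
    rw [h1, (hmem u.1 u.2).eLpNorm_eq_integral_rpow_norm (by norm_num) (by norm_num),
      ENNReal.toReal_ofReal (by positivity)]
    simp only [ENNReal.toReal_ofNat, Real.rpow_ofNat]
    rw [← Real.rpow_natCast, ← Real.rpow_mul (integral_nonneg fun _ => by positivity)]
    norm_num
  let e : EuclideanSpace ℂ (Fin n) ≃ₗ[ℂ] F :=
    (WithLp.linearEquiv 2 ℂ (Fin n → ℂ)).trans b.equivFun.symm
  have he : ∀ (c : EuclideanSpace ℂ (Fin n)) (x : Plane), (e c).1 x = ∑ j, c j * (b j).1 x := by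
    intro c x
    have h1 : e c = ∑ j, c j • b j := by
      simp only [e, LinearEquiv.trans_apply]
      rw [Module.Basis.equivFun_symm_apply]
      rfl
    rw [h1]
    simp [Finset.sum_apply]
  let T := T0 ∘ₗ e.toLinearMap
  have hker : LinearMap.ker T = ⊥ := by
    rw [LinearMap.ker_eq_bot']
    intro c hc
    have h1 : T0 (e c) = 0 := hc
    have h2 : ∫ x, ‖(e c).1 x‖ ^ 2 = 0 := by rw [← hT0, h1]; simp
    by_contra h3
    have h4 : (e c).1 ≠ 0 := by
      intro h5
      apply h3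
      have : e c = 0 := Subtype.ext h5
      exact (LinearEquiv.map_eq_zero_iff e).1 this
    have := (hF _ (e c).2).integral_sq_pos h4
    linarith
  obtain ⟨Kc, hKc, hanti⟩ := LinearMap.exists_antilipschitzWith T hker
  have hnorm : ∀ c : EuclideanSpace ℂ (Fin n), ‖c‖ ^ 2 ≤ (Kc : ℝ) ^ 2 * ∫ x, ‖(e c).1 x‖ ^ 2 := by
    intro c
    have h1 := hanti.le_mul_dist c 0
    rw [map_zero, dist_zero_right, dist_zero_right] at h1
    rw [← hT0, ← mul_pow]
    exact pow_le_pow_left₀ (norm_nonneg _) h1 2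
  have hCS : ∀ (c : EuclideanSpace ℂ (Fin n)) (x : Plane), ‖(e c).1 x‖ ^ 2 ≤ ‖c‖ ^ 2 * ∑ j, ‖(b j).1 x‖ ^ 2 := by
    intro c x
    rw [he, EuclideanSpace.norm_sq_eq]
    calc ‖∑ j, c j * (b j).1 x‖ ^ 2 ≤ (∑ j, ‖c j‖ * ‖(b j).1 x‖) ^ 2 := by
          gcongr
          refine (norm_sum_le _ _).trans (le_of_eq ?_)
          simp only [norm_mul]
      _ ≤ _ := Finset.sum_mul_sq_le_sq_mul_sq _ _ _
  -- dominated convergence
  have hb : ∀ j, IsTest (b j).1 := fun j => hF _ (b j).2
  have hbi : Integrable fun x => G x * ∑ j, ‖(b j).1 x‖ ^ 2 := by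
    have : (fun x => G x * ∑ j, ‖(b j).1 x‖ ^ 2) = fun x => ∑ j, G x * ‖(b j).1 x‖ ^ 2 := by
      ext x; rw [Finset.mul_sum]
    rw [this]
    exact integrable_finsetSum _ fun j _ => loc_integrable hG (hb j)
  have hbc : Continuous fun x => ∑ j, ‖(b j).1 x‖ ^ 2 :=
    continuous_finsetSum _ fun j _ => (hb j).1.continuous.norm.pow 2
  have hdom : ∀ k x, ‖g k x * ∑ j, ‖(b j).1 x‖ ^ 2‖ ≤ G x * ∑ j, ‖(b j).1 x‖ ^ 2 := by
    intro k x
    have h0 : (0 : ℝ) ≤ ∑ j, ‖(b j).1 x‖ ^ 2 := Finset.sum_nonneg fun _ _ => by positivity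
    rw [norm_mul, Real.norm_eq_abs (∑ j, ‖(b j).1 x‖ ^ 2), abs_of_nonneg h0]
    exact mul_le_mul_of_nonneg_right (hgG k x) h0
  have hconv : Tendsto (fun k => ∫ x, g k x * ∑ j, ‖(b j).1 x‖ ^ 2) atTop (𝓝 0) := by
    have h1 := tendsto_integral_of_dominated_convergence (μ := volume)
      (F := fun k x => g k x * ∑ j, ‖(b j).1 x‖ ^ 2) (f := fun _ => (0 : ℝ)) _
      (fun k => (hg k).mul hbc.aestronglyMeasurable) hbi
      (fun k => Eventually.of_forall (hdom k))
      (Eventually.of_forall fun x => by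
        have := (hlim x).mul_const (∑ j, ‖(b j).1 x‖ ^ 2)
        rwa [zero_mul] at this)
    simpa using h1
  have hpos : 0 < τ / ((Kc : ℝ) ^ 2 + 1) := by positivity
  obtain ⟨k, hk⟩ := (hconv.eventually (ge_mem_nhds hpos)).exists
  refine ⟨k, fun u hu => ?_⟩
  obtain ⟨c, hc⟩ := e.surjective ⟨u, hu⟩
  have hu' : u = (e c).1 := by rw [hc]
  have hut := hF u hu
  have hI : 0 ≤ ∫ x, ‖u x‖ ^ 2 := integral_nonneg fun _ => by positivity
  have hgL : LocallyIntegrable (g k) :=
    hG.mono (hg k) (Eventually.of_forall fun x => (hgG k x).trans (le_abs_self _))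
  have i1 : Integrable fun x => g k x * ∑ j, ‖(b j).1 x‖ ^ 2 :=
    hbi.mono' ((hg k).mul hbc.aestronglyMeasurable) (Eventually.of_forall (hdom k))
  have h1 : ∫ x, g k x * ‖u x‖ ^ 2 ≤ ‖c‖ ^ 2 * ∫ x, g k x * ∑ j, ‖(b j).1 x‖ ^ 2 := by
    rw [← integral_const_mul]
    apply integral_mono (loc_integrable hgL hut) (i1.const_mul _)
    intro x
    simp only
    have h2 := hCS c x
    rw [← hu'] at h2
    calc g k x * ‖u x‖ ^ 2 ≤ g k x * (‖c‖ ^ 2 * ∑ j, ‖(b j).1 x‖ ^ 2) :=
          mul_le_mul_of_nonneg_left h2 (hg0 k x)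
      _ = _ := by ring
  have h3 := hnorm c
  rw [← hu'] at h3
  calc ∫ x, g k x * ‖u x‖ ^ 2 ≤ ‖c‖ ^ 2 * ∫ x, g k x * ∑ j, ‖(b j).1 x‖ ^ 2 := h1
    _ ≤ ((Kc : ℝ) ^ 2 * ∫ x, ‖u x‖ ^ 2) * (τ / ((Kc : ℝ) ^ 2 + 1)) := by
        apply mul_le_mul h3 hk _ (by positivity)
        exact integral_nonneg fun x => mul_nonneg (hg0 k x) (Finset.sum_nonneg fun _ _ => by positivity)
    _ = ((Kc : ℝ) ^ 2 / ((Kc : ℝ) ^ 2 + 1)) * (τ * ∫ x, ‖u x‖ ^ 2) := by ring
    _ ≤ 1 * (τ * ∫ x, ‖u x‖ ^ 2) := by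
        gcongr
        rw [div_le_one (by positivity)]; linarith
    _ = _ := one_mul _

/-- min–max values are controlled by those of the truncations -/
lemma iInf_minmax_le {V : Plane → ℝ} (hVm : Measurable V) (hV : LocallyIntegrable V) {n : ℕ} (hn : 0 < n) :
    ⨅ k, minmax (fun x => -Wk V k x) n ≤ minmax V n := by
  conv_rhs => unfold minmax
  apply le_iInf
  rintro ⟨F, hF, hFn⟩
  have : FiniteDimensional ℂ F := Module.finite_of_finrank_pos (by omega)
  rw [← EReal.le_of_forall_lt_iff_le]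
  intro z hz
  obtain ⟨z', hz1, hz2⟩ := EReal.lt_iff_exists_real_btwn.1 hz
  rw [EReal.coe_lt_coe_iff] at hz2
  have hnp : LocallyIntegrable (npart V) := by
    apply hV.mono (npart_measurable hVm).aestronglyMeasurable
    filter_upwards with x
    rw [Real.norm_eq_abs, Real.norm_eq_abs, abs_of_nonneg (npart_nonneg V x)]
    unfold npart
    exact max_le (neg_le_abs _) (abs_nonneg _)
  have hWL : ∀ k, LocallyIntegrable (Wk V k) := fun k =>
    hnp.mono (Wk_nice hVm k).meas.aestronglyMeasurable (Eventually.of_forall fun x => by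
      rw [Real.norm_eq_abs, Real.norm_eq_abs, abs_of_nonneg (npart_nonneg V x), abs_of_nonneg (Wk_nonneg V k x)]
      exact Wk_le V k x)
  obtain ⟨k, hk⟩ := uniform_small (g := fun k x => npart V x - Wk V k x) (G := npart V)
    (fun k => ((npart_measurable hVm).sub (Wk_nice hVm k).meas).aestronglyMeasurable) hnp
    (fun k x => sub_nonneg.2 (Wk_le V k x))
    (fun k x => by
      rw [Real.norm_eq_abs, abs_of_nonneg (sub_nonneg.2 (Wk_le V k x))]
      linarith [Wk_nonneg V k x])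
    (fun x => by
      apply tendsto_const_nhds.congr'
      filter_upwards [Wk_tendsto V x] with k hk
      rw [hk, sub_self]) hF (sub_pos.2 hz2)
  refine (iInf_le _ k).trans ?_
  unfold minmax
  refine (iInf_le _ ⟨F, hF, hFn⟩).trans ?_
  apply iSup_le
  rintro ⟨u, huF, hu1⟩
  simp only
  rw [EReal.coe_le_coe_iff]
  have hut := hF u huF
  have h1 : form V u ≤ z' := by
    have h2 := le_iSup (fun u : {u : Plane → ℂ // u ∈ F ∧ ∫ x, ‖u x‖ ^ 2 = 1} =>
      (form V u.1 : EReal)) ⟨u, huF, hu1⟩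
    exact_mod_cast (h2.trans_lt hz1).le
  have h2 := hk u huF
  rw [hu1, mul_one] at h2
  have i1 := loc_integrable hV hut
  have i2 := loc_integrable hnp hut
  have i3 := loc_integrable (hWL k) hut
  have h3 : -∫ x, npart V x * ‖u x‖ ^ 2 ≤ ∫ x, V x * ‖u x‖ ^ 2 := by
    rw [← integral_neg]
    apply integral_mono i2.neg i1
    intro x
    simp only
    have : -npart V x ≤ V x := by
      unfold npart
      have := le_max_left (-V x) 0
      linarith
    have h0 : (0 : ℝ) ≤ ‖u x‖ ^ 2 := by positivity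
    show -(npart V x * ‖u x‖ ^ 2) ≤ V x * ‖u x‖ ^ 2
    rw [← neg_mul]
    exact mul_le_mul_of_nonneg_right this h0
  have h4 : ∫ x, (npart V x - Wk V k x) * ‖u x‖ ^ 2 = (∫ x, npart V x * ‖u x‖ ^ 2) - ∫ x, Wk V k x * ‖u x‖ ^ 2 := by
    rw [← integral_sub i2 i3]
    congr 1; ext x; ring
  have h5 : ∫ x, -Wk V k x * ‖u x‖ ^ 2 = -∫ x, Wk V k x * ‖u x‖ ^ 2 := by
    rw [← integral_neg]; congr 1; ext x; ring
  unfold form at h1 ⊢
  rw [h5]
  linarith

/-- form and min–max values only depend on the class of `V` -/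
lemma minmax_congr {V1 V2 : Plane → ℝ} (h : V1 =ᵐ[volume] V2) (n : ℕ) : minmax V1 n = minmax V2 n := by
  have h1 : ∀ u, form V1 u = form V2 u := by
    intro u
    unfold form
    congr 1
    apply integral_congr_ae
    filter_upwards [h] with x hx
    rw [hx]
  unfold minmax
  simp only [h1]

/-- **Reduction to nice potentials** -/
theorem trunc {γ : ℝ} (hγ : 0 < γ) {C : ℝ≥0∞}
    (h : ∀ W, Nice W → ∑' n, absPow (fun x => -W x) γ (n + 1) ≤
      C * ∫⁻ x, ENNReal.ofReal (W x) ^ (γ + 1))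
    {V : Plane → ℝ} (hV : MemLp V (ENNReal.ofReal (γ + 1)) volume) :
    ∑' n, absPow V γ (n + 1) ≤ C * negInt V γ := by
  -- measurable representative
  let V' := hV.1.mk V
  have hVV : V =ᵐ[volume] V' := hV.1.ae_eq_mk
  have hVm : Measurable V' := hV.1.stronglyMeasurable_mk.measurable
  have hV' : MemLp V' (ENNReal.ofReal (γ + 1)) volume := (memLp_congr_ae hVV).1 hV
  have hVL : LocallyIntegrable V' := hV'.locallyIntegrable (by
    rw [ENNReal.one_le_ofReal]; linarith)
  have e1 : ∀ n, absPow V γ n = absPow V' γ n := by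
    intro n; unfold absPow; rw [minmax_congr hVV]
  have e2 : negInt V γ = negInt V' γ := by
    unfold negInt
    apply lintegral_congr_ae
    filter_upwards [hVV] with x hx
    rw [hx]
  simp only [e1]
  rw [e2]
  have hnp : LocallyIntegrable (npart V') := by
    apply hVL.mono (npart_measurable hVm).aestronglyMeasurable
    filter_upwards with x
    rw [Real.norm_eq_abs, Real.norm_eq_abs, abs_of_nonneg (npart_nonneg V' x)]
    unfold npart
    exact max_le (neg_le_abs _) (abs_nonneg _)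
  have hWL : ∀ k, LocallyIntegrable fun x => -Wk V' k x := fun k =>
    hnp.mono (Wk_nice hVm k).meas.neg.aestronglyMeasurable (Eventually.of_forall fun x => by
      rw [norm_neg, Real.norm_eq_abs, Real.norm_eq_abs, abs_of_nonneg (npart_nonneg V' x),
        abs_of_nonneg (Wk_nonneg V' k x)]
      exact Wk_le V' k x)
  -- monotonicity
  have hmono : ∀ n, Monotone fun k => absPow (fun x => -Wk V' k x) γ n := by
    intro n k l hkl
    unfold absPow
    apply ENNReal.rpow_le_rpow _ hγ.le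
    apply EReal.toENNReal_le_toENNReal
    rw [EReal.neg_le_neg_iff]
    exact minmax_mono (hWL l) (hWL k) (Eventually.of_forall fun x => neg_le_neg (Wk_mono V' hkl x)) n
  have hsup : ∀ n, absPow V' γ (n + 1) ≤ ⨆ k, absPow (fun x => -Wk V' k x) γ (n + 1) := by
    intro n
    set S := ⨆ k, absPow (fun x => -Wk V' k x) γ (n + 1) with hS
    by_cases hSt : S = ⊤
    · rw [hSt]; exact le_top
    have hSt' : S ^ γ⁻¹ ≠ ⊤ := (ENNReal.rpow_lt_top_of_nonneg (by positivity) hSt).ne
    have h1 : ∀ k, ((-(S ^ γ⁻¹).toReal : ℝ) : EReal) ≤ minmax (fun x => -Wk V' k x) (n + 1) := by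
      intro k
      have h2 : absPow (fun x => -Wk V' k x) γ (n + 1) ≤ S :=
        le_iSup (fun k => absPow (fun x => -Wk V' k x) γ (n + 1)) k
      unfold absPow at h2
      rw [← ENNReal.le_rpow_inv_iff hγ] at h2
      rw [EReal.coe_neg, EReal.neg_le]
      have h5 : -minmax (fun x => -Wk V' k x) (n + 1) ≤
          ((-minmax (fun x => -Wk V' k x) (n + 1)).toENNReal : EReal) := by
        rw [EReal.coe_toENNReal_eq_max]; exact le_max_right _ _
      refine h5.trans ((EReal.coe_ennreal_le_coe_ennreal_iff.2 h2).trans (le_of_eq ?_))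
      exact (EReal.coe_ennreal_toReal hSt').symm
    have h3 : ((-(S ^ γ⁻¹).toReal : ℝ) : EReal) ≤ minmax V' (n + 1) :=
      (le_iInf h1).trans (iInf_minmax_le hVm hVL (Nat.succ_pos n))
    refine (absPow_le hγ h3).trans (le_of_eq ?_)
    rw [ENNReal.ofReal_toReal hSt', ← ENNReal.rpow_mul, inv_mul_cancel₀ hγ.ne', ENNReal.rpow_one]
  apply ENNReal.tsum_le_of_sum_range_le
  intro N
  calc ∑ n ∈ Finset.range N, absPow V' γ (n + 1)
      ≤ ∑ n ∈ Finset.range N, ⨆ k, absPow (fun x => -Wk V' k x) γ (n + 1) :=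
        Finset.sum_le_sum fun n _ => hsup n
    _ = ⨆ k, ∑ n ∈ Finset.range N, absPow (fun x => -Wk V' k x) γ (n + 1) :=
        ENNReal.finsetSum_iSup_of_monotone fun n => hmono (n + 1)
    _ ≤ _ := by
        apply iSup_le
        intro k
        refine (ENNReal.sum_le_tsum _).trans ((h _ (Wk_nice hVm k)).trans ?_)
        gcongr
        unfold negInt
        apply lintegral_mono
        intro x
        simp only
        gcongr
        exact Wk_le V' k x

end Pool.Agent.LT2
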